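import Mathlib

/-!
Quandle homology, generic part: the chain groups of the problem, the boundary in terms of the
last letter, and the splitting `r` of the degenerate chains.
-/

open Finsupp

namespace Pool.Agent.Lib.MP_813e56_al

/-- The chain group `C^R_k`: the free abelian group on the words of length `k` over `Q`. -/
abbrev Ch (Q : Type) (k : ℕ) : Type := (Fin k → Q) →₀ ℤ

/-- The word with the letter in (0-based) position `j + 1` removed. -/
def del {Q : Type} {k : ℕ} (j : Fin k) (w : Fin (k + 1) → Q) : Fin k → Q :=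
  fun i => w (j.succ.succAbove i)

/-- The word with the letter in (0-based) position `j + 1` removed, after it has acted on every
letter before it. -/
def act {Q : Type} (op : Q → Q → Q) {k : ℕ} (j : Fin k) (w : Fin (k + 1) → Q) : Fin k → Q :=
  fun i => if (i : ℕ) ≤ (j : ℕ) then op (w i.castSucc) (w j.succ) else w i.succ

/-- The boundary of a word. -/
noncomputable def bdWord {Q : Type} (op : Q → Q → Q) (k : ℕ) (w : Fin (k + 1) → Q) : Ch Q k :=
  ∑ j : Fin k, (-1 : ℤ) ^ (j : ℕ) •
    ((single (del j w) 1 : Ch Q k) - single (act op j w) 1)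

/-- The boundary map `C^R_{k+1} → C^R_k`. -/
noncomputable def bd {Q : Type} (op : Q → Q → Q) (k : ℕ) : Ch Q (k + 1) →ₗ[ℤ] Ch Q k :=
  Finsupp.linearCombination ℤ (bdWord op k)

/-- A word with two equal neighbours. -/
def Degen {Q : Type} {k : ℕ} (w : Fin k → Q) : Prop :=
  ∃ i j : Fin k, (j : ℕ) = (i : ℕ) + 1 ∧ w i = w j

/-- The degenerate chains `C^D_k`. -/
noncomputable def DD (Q : Type) (k : ℕ) : Submodule ℤ (Ch Q k) :=
  Submodule.span ℤ {c | ∃ w : Fin k → Q, Degen w ∧ c = single w 1}

/-! ### Words and their last letter -/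

variable {Q Q' : Type}

/-- The word `w` followed by the letter `x`. -/
def sn {k : ℕ} (w : Fin k → Q) (x : Q) : Fin (k + 1) → Q := Fin.snoc (α := fun _ => Q) w x

@[simp] lemma sn_castSucc {k : ℕ} (w : Fin k → Q) (x : Q) (i : Fin k) :
    sn w x i.castSucc = w i := by simp [sn]

@[simp] lemma sn_last {k : ℕ} (w : Fin k → Q) (x : Q) : sn w x (Fin.last k) = x := by
  simp [sn]

lemma sn_inj {k : ℕ} (x : Q) : Function.Injective (fun w : Fin k → Q => sn w x) := by
  intro w w' h
  funext i
  have := congrFun h i.castSucc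
  simpa using this

lemma exists_sn {k : ℕ} (w : Fin (k + 1) → Q) : ∃ v x, w = sn v x := by
  refine ⟨fun i => w i.castSucc, w (Fin.last k), ?_⟩
  funext i
  refine Fin.lastCases ?_ (fun i => ?_) i <;> simp

lemma init_sn {k : ℕ} (w : Fin k → Q) (x : Q) : (fun i : Fin k => sn w x i.castSucc) = w := by
  funext i; simp

/-- Append the letter `x` to every word. -/
noncomputable def s {k : ℕ} (x : Q) : Ch Q k →ₗ[ℤ] Ch Q (k + 1) :=
  Finsupp.lmapDomain ℤ ℤ (fun w => sn w x)

@[simp] lemma s_single {k : ℕ} (x : Q) (w : Fin k → Q) (a : ℤ) :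
    s x (single w a) = single (sn w x) a := by
  simp [s, Finsupp.lmapDomain_apply, Finsupp.mapDomain_single]

/-- Apply a map of alphabets to every letter of every word. -/
noncomputable def mp {k : ℕ} (f : Q → Q') : Ch Q k →ₗ[ℤ] Ch Q' k :=
  Finsupp.lmapDomain ℤ ℤ (fun w i => f (w i))

@[simp] lemma mp_single {k : ℕ} (f : Q → Q') (w : Fin k → Q) (a : ℤ) :
    mp f (single w a) = single (fun i => f (w i)) a := by
  simp [mp, Finsupp.lmapDomain_apply, Finsupp.mapDomain_single]

lemma lin_ext {k : ℕ} {M : Type} [AddCommGroup M] {f g : Ch Q k →ₗ[ℤ] M}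
    (h : ∀ w, f (single w 1) = g (single w 1)) (z : Ch Q k) : f z = g z := by
  have : f = g := by
    apply Finsupp.lhom_ext'
    intro w
    apply LinearMap.ext_ring
    simpa using h w
  rw [this]

/-- Two linear maps that agree on the `s x v` are equal. -/
lemma s_ext {k : ℕ} {M : Type} [AddCommGroup M] {f g : Ch Q (k + 1) →ₗ[ℤ] M}
    (h : ∀ x v, f (s x v) = g (s x v)) (z : Ch Q (k + 1)) : f z = g z := by
  apply lin_ext
  intro w
  obtain ⟨v, x, rfl⟩ := exists_sn w
  simpa using h x (single v 1)

/-- Membership on generators. -/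
lemma mem_of_single {k : ℕ} (S : Submodule ℤ (Ch Q k)) (h : ∀ w, (single w 1 : Ch Q k) ∈ S)
    (z : Ch Q k) : z ∈ S := by
  induction z using Finsupp.induction_linear with
  | zero => exact S.zero_mem
  | add f g hf hg => exact S.add_mem hf hg
  | single w a =>
    have : (single w a : Ch Q k) = a • single w 1 := by simp
    rw [this]
    exact S.smul_mem _ (h w)

lemma mem_of_s {k : ℕ} (S : Submodule ℤ (Ch Q (k + 1))) (h : ∀ x v, s x v ∈ S)
    (z : Ch Q (k + 1)) : z ∈ S := by
  apply mem_of_single
  intro w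
  obtain ⟨v, x, rfl⟩ := exists_sn w
  simpa using h x (single v 1)

@[simp] lemma mp_s {k : ℕ} (f : Q → Q') (x : Q) (v : Ch Q k) :
    mp f (s x v) = s (f x) (mp f v) := by
  have := lin_ext (f := (mp f).comp (s x)) (g := (s (f x)).comp (mp f)) (k := k) (fun w => by
    simp only [LinearMap.comp_apply, s_single, mp_single]
    congr 1
    funext i
    refine Fin.lastCases ?_ (fun i => ?_) i <;> simp) v
  simpa using this

lemma mp_mp {Q'' : Type} {k : ℕ} (f : Q → Q') (g : Q' → Q'') (v : Ch Q k) :
    mp g (mp f v) = mp (fun x => g (f x)) v := by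
  have := lin_ext (f := (mp g).comp (mp f)) (g := mp (fun x => g (f x))) (k := k) (fun w => by
    simp) v
  simpa using this

lemma mp_id {k : ℕ} (v : Ch Q k) : mp (fun x : Q => x) v = v := by
  have := lin_ext (f := mp (fun x : Q => x)) (g := LinearMap.id) (k := k) (fun w => by
    simp) v
  simpa using this

/-! ### The boundary by the last letter -/

variable (op : Q → Q → Q)

lemma bd_single {k : ℕ} (w : Fin (k + 1) → Q) : bd op k (single w 1) = bdWord op k w := by
  simp [bd]

lemma bd_zero (z : Ch Q 1) : bd op 0 z = 0 := by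
  have := lin_ext (f := bd op 0) (g := 0) (fun w => by simp [bd_single, bdWord]) z
  simpa using this

lemma bd_s {k : ℕ} (x : Q) (v : Ch Q (k + 1)) :
    bd op (k + 1) (s x v) = s x (bd op k v) + (-1 : ℤ) ^ k • (v - mp (fun a => op a x) v) := by
  have := lin_ext (f := (bd op (k + 1)).comp (s x))
    (g := (s x).comp (bd op k) + (-1 : ℤ) ^ k • (LinearMap.id - mp (fun a => op a x)))
    (fun w => by
      simp only [LinearMap.comp_apply, LinearMap.add_apply, LinearMap.smul_apply,
        LinearMap.sub_apply, LinearMap.id_apply, s_single, bd_single, mp_single]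
      rw [bdWord, Fin.sum_univ_castSucc, bdWord, map_sum]
      congr 1
      · refine Finset.sum_congr rfl (fun j _ => ?_)
        have h1 : del (Fin.castSucc j) (sn w x) = sn (del j w) x := by
          funext i
          refine Fin.lastCases ?_ (fun i => ?_) i
          · rw [sn_last, del]
            have : (Fin.castSucc j).succ.succAbove (Fin.last k) = Fin.last (k + 1) := by
              have hj := j.isLt
              ext
              simp only [Fin.succAbove, Fin.lt_def, Fin.val_castSucc, Fin.val_succ, Fin.val_last]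
              split_ifs with hc
              · exfalso; omega
              · simp
            rw [this, sn_last]
          · rw [sn_castSucc, del, del]
            have : (Fin.castSucc j).succ.succAbove (Fin.castSucc i)
                = Fin.castSucc (j.succ.succAbove i) := by
              rw [Fin.succ_castSucc, Fin.castSucc_succAbove_castSucc]
            rw [this, sn_castSucc]
        have h2 : act op (Fin.castSucc j) (sn w x) = sn (act op j w) x := by
          funext i
          refine Fin.lastCases ?_ (fun i => ?_) i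
          · rw [sn_last, act, if_neg (by simp [Fin.val_last])]
            rw [Fin.succ_last, sn_last]
          · rw [sn_castSucc, act, act]
            simp only [Fin.val_castSucc]
            rw [Fin.succ_castSucc, Fin.succ_castSucc, sn_castSucc, sn_castSucc, sn_castSucc]
        rw [h1, h2]
        simp [map_sub, map_smul]
      · have h1 : del (Fin.last k) (sn w x) = w := by
          funext i
          rw [del, Fin.succ_last, Fin.succAbove_last, sn_castSucc]
        have h2 : act op (Fin.last k) (sn w x) = fun i => op (w i) x := by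
          funext i
          rw [act, if_pos (by simpa using Nat.lt_succ_iff.mp i.isLt), Fin.succ_last, sn_last,
            sn_castSucc]
        rw [h1, h2]
        simp) v
  exact this

/-- A map of alphabets that respects the operations respects the boundaries. -/
lemma mp_bd {op' : Q' → Q' → Q'} (f : Q → Q') (hf : ∀ a b, f (op a b) = op' (f a) (f b)) :
    ∀ {k : ℕ} (z : Ch Q (k + 1)), mp f (bd op k z) = bd op' k (mp f z)
  | 0, z => by simp [bd_zero]
  | (k + 1), z => by
    refine s_ext (f := (mp f).comp (bd op (k + 1))) (g := (bd op' (k + 1)).comp (mp f))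
      (fun x v => ?_) z
    simp only [LinearMap.comp_apply, bd_s, map_add, map_smul, map_sub, mp_s, mp_mp]
    rw [mp_bd f hf v]
    simp only [hf]

/-- The boundary vanishes after an invariant map of alphabets. -/
lemma mp_bd_inv (f : Q → Q') (hf : ∀ a b, f (op a b) = f a) :
    ∀ {k : ℕ} (z : Ch Q (k + 1)), mp f (bd op k z) = 0
  | 0, z => by simp [bd_zero]
  | (k + 1), z => by
    refine s_ext (f := (mp f).comp (bd op (k + 1))) (g := 0) (fun x v => ?_) z
    simp only [LinearMap.comp_apply, bd_s, map_add, map_smul, map_sub, mp_s, mp_mp,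
      LinearMap.zero_apply]
    rw [mp_bd_inv f hf v]
    simp only [hf, map_zero, sub_self, smul_zero, add_zero]

lemma bd_bd (hd : ∀ a b c, op (op a b) c = op (op a c) (op b c)) :
    ∀ {k : ℕ} (z : Ch Q (k + 2)), bd op k (bd op (k + 1) z) = 0
  | 0, z => by simp [bd_zero]
  | (k + 1), z => by
    refine s_ext (f := (bd op (k + 1)).comp (bd op (k + 2))) (g := 0) (fun x v => ?_) z
    simp only [LinearMap.comp_apply, bd_s, map_add, map_smul, map_sub, LinearMap.zero_apply]
    rw [bd_bd hd v, mp_bd op (op' := op) (fun a => op a x) (fun a b => hd a b x) v, pow_succ]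
    obtain h | h := neg_one_pow_eq_or ℤ k <;> simp [h]

/-! ### The splitting of the degenerate chains -/

lemma mem_DD {k : ℕ} {w : Fin k → Q} (h : Degen w) : (single w 1 : Ch Q k) ∈ DD Q k :=
  Submodule.subset_span ⟨w, h, rfl⟩

lemma s_mem_DD {k : ℕ} (x : Q) {d : Ch Q k} (hd : d ∈ DD Q k) : s x d ∈ DD Q (k + 1) := by
  have : DD Q k ≤ (DD Q (k + 1)).comap (s x) := by
    rw [DD, Submodule.span_le]
    rintro _ ⟨w, ⟨i, j, hij, hw⟩, rfl⟩
    simp only [Submodule.comap_coe, Set.mem_preimage, SetLike.mem_coe, s_single]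
    exact mem_DD ⟨i.castSucc, j.castSucc, by simpa using hij, by simpa using hw⟩
  exact this hd

lemma ss_mem_DD {k : ℕ} (x : Q) (v : Ch Q k) : s x (s x v) ∈ DD Q (k + 2) := by
  refine mem_of_single ((DD Q (k + 2)).comap ((s x).comp (s x))) (fun w => ?_) v
  simp only [Submodule.mem_comap, LinearMap.comp_apply, s_single]
  refine mem_DD ⟨(Fin.last k).castSucc, Fin.last (k + 1), by simp, by simp⟩

/-- The splitting on words. -/
noncomputable def rWord : (k : ℕ) → (Fin k → Q) → Ch Q k
  | 0, w => single w 1
  | 1, w => single w 1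
  | (k + 2), w => s (w (Fin.last (k + 1))) (rWord (k + 1) (fun i => w i.castSucc)) -
      s (w (Fin.last k).castSucc) (rWord (k + 1) (fun i => w i.castSucc))

/-- The splitting. -/
noncomputable def r (k : ℕ) : Ch Q k →ₗ[ℤ] Ch Q k := Finsupp.linearCombination ℤ (rWord k)

lemma r_zero (z : Ch Q 0) : r 0 z = z := by
  have := lin_ext (f := r 0) (g := LinearMap.id) (fun w => by simp [r, rWord]) z
  simpa using this

lemma r_one (z : Ch Q 1) : r 1 z = z := by
  have := lin_ext (f := r 1) (g := LinearMap.id) (fun w => by simp [r, rWord]) z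
  simpa using this

lemma r_ss {k : ℕ} (x y : Q) (v : Ch Q k) :
    r (k + 2) (s x (s y v)) = s x (r (k + 1) (s y v)) - s y (r (k + 1) (s y v)) := by
  refine lin_ext (f := (r (k + 2)).comp ((s x).comp (s y)))
    (g := (s x).comp ((r (k + 1)).comp (s y)) - (s y).comp ((r (k + 1)).comp (s y)))
    (fun w => ?_) v
  simp [r, rWord]

lemma mp_r (f : Q → Q') : ∀ {k : ℕ} (z : Ch Q k), mp f (r k z) = r k (mp f z)
  | 0, z => by simp [r_zero]
  | 1, z => by simp [r_one]
  | (k + 2), z => by
    refine s_ext (f := (mp f).comp (r (k + 2))) (g := (r (k + 2)).comp (mp f))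
      (fun x u => ?_) z
    refine s_ext (f := ((mp f).comp (r (k + 2))).comp (s x))
      (g := ((r (k + 2)).comp (mp f)).comp (s x)) (fun y v => ?_) u
    simp only [LinearMap.comp_apply, r_ss, map_sub, mp_s]
    rw [mp_r f (s y v), mp_s]

lemma rWord_degen : ∀ {k : ℕ} {w : Fin k → Q}, Degen w → rWord k w = 0
  | 0, w, ⟨i, _, _, _⟩ => i.elim0
  | 1, w, ⟨i, j, hij, _⟩ => by
    have := j.isLt
    omega
  | (k + 2), w, ⟨i, j, hij, hw⟩ => by
    by_cases hj : j = Fin.last (k + 1)
    · have hi : i = (Fin.last k).castSucc := by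
        ext
        rw [hj] at hij
        simp only [Fin.val_last, Fin.val_castSucc] at hij ⊢
        omega
      rw [rWord, ← hj, ← hw, ← hi, sub_self]
    · have hj' : (j : ℕ) < k + 1 := by
        have h1 := j.isLt
        have h2 : (j : ℕ) ≠ k + 1 := fun h => hj (by ext; simpa using h)
        omega
      have : Degen (fun i : Fin (k + 1) => w i.castSucc) :=
        ⟨⟨i, by omega⟩, ⟨j, hj'⟩, hij, by simpa using hw⟩
      rw [rWord, rWord_degen this]
      simp

lemma r_DD {k : ℕ} {d : Ch Q k} (hd : d ∈ DD Q k) : r k d = 0 := by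
  have : DD Q k ≤ LinearMap.ker (r k) := by
    rw [DD, Submodule.span_le]
    rintro _ ⟨w, hw, rfl⟩
    simp [r, rWord_degen hw]
  exact this hd

lemma s_r_s_mem_DD : ∀ {k : ℕ} (x : Q) (v : Ch Q k), s x (r (k + 1) (s x v)) ∈ DD Q (k + 2)
  | 0, x, v => by rw [r_one]; exact ss_mem_DD x v
  | (k + 1), x, v => by
    refine mem_of_s ((DD Q (k + 3)).comap ((s x).comp ((r (k + 2)).comp (s x))))
      (fun y u => ?_) v
    simp only [Submodule.mem_comap, LinearMap.comp_apply, r_ss, map_sub]
    exact Submodule.sub_mem _ (ss_mem_DD x _) (s_mem_DD x (s_r_s_mem_DD y u))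

lemma sub_r_mem_DD : ∀ {k : ℕ} (z : Ch Q k), z - r k z ∈ DD Q k
  | 0, z => by simp [r_zero]
  | 1, z => by simp [r_one]
  | (k + 2), z => by
    refine mem_of_s ((DD Q (k + 2)).comap (LinearMap.id - r (k + 2))) (fun x u => ?_) z
    refine mem_of_s (((DD Q (k + 2)).comap (LinearMap.id - r (k + 2))).comap (s x))
      (fun y v => ?_) u
    simp only [Submodule.mem_comap, LinearMap.sub_apply, LinearMap.id_apply, r_ss]
    have : s x (s y v) - (s x (r (k + 1) (s y v)) - s y (r (k + 1) (s y v))) =
        s x (s y v - r (k + 1) (s y v)) + s y (r (k + 1) (s y v)) := by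
      rw [map_sub]; abel
    rw [this]
    exact Submodule.add_mem _ (s_mem_DD x (sub_r_mem_DD (s y v))) (s_r_s_mem_DD y v)

lemma bd_r (hi : ∀ a, op a a = a) :
    ∀ {k : ℕ} (z : Ch Q (k + 1)), bd op k (r (k + 1) z) = r k (bd op k z)
  | 0, z => by simp [bd_zero]
  | 1, z => by
    rw [r_one]
    refine s_ext (f := (bd op 1).comp (r 2)) (g := bd op 1) (fun x u => ?_) z
    refine s_ext (f := ((bd op 1).comp (r 2)).comp (s x)) (g := (bd op 1).comp (s x))
      (fun y v => ?_) u
    have hv : mp (fun a => op a y) v = v := by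
      have := lin_ext (f := mp (fun a => op a y)) (g := LinearMap.id) (k := 0)
        (fun w => by
          rw [mp_single]
          have : (fun i => op (w i) y) = w := by funext i; exact i.elim0
          rw [this]; rfl) v
      simpa using this
    have hr : ∀ z : Ch Q (0 + 1), r (0 + 1) z = z := r_one
    simp only [LinearMap.comp_apply, r_ss, hr, map_sub, bd_s, bd_zero, mp_s, hi, hv]
    simp
  | (k + 2), z => by
    refine s_ext (f := (bd op (k + 2)).comp (r (k + 3)))
      (g := (r (k + 2)).comp (bd op (k + 2))) (fun x u => ?_) z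
    refine s_ext (f := ((bd op (k + 2)).comp (r (k + 3))).comp (s x))
      (g := ((r (k + 2)).comp (bd op (k + 2))).comp (s x)) (fun y u' => ?_) u
    refine s_ext (f := (((bd op (k + 2)).comp (r (k + 3))).comp (s x)).comp (s y))
      (g := (((r (k + 2)).comp (bd op (k + 2))).comp (s x)).comp (s y)) (fun y' v => ?_) u'
    have ih := bd_r hi (s y (s y' v))
    simp only [LinearMap.comp_apply]
    rw [r_ss, map_sub, bd_s, bd_s, ih]
    simp only [bd_s, map_add, map_sub, map_smul, mp_s, r_ss, hi, mp_r, pow_succ]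
    obtain h | h := neg_one_pow_eq_or ℤ k <;> simp only [h] <;> module

/-- The degenerate chains form a subcomplex. -/
lemma bd_mem_DD (hi : ∀ a, op a a = a) {k : ℕ} {d : Ch Q (k + 1)} (hd : d ∈ DD Q (k + 1)) :
    bd op k d ∈ DD Q k := by
  have h := sub_r_mem_DD (bd op k d)
  rwa [← bd_r op hi, r_DD hd, map_zero, sub_zero] at h

/-! ### Components -/

/-- The component of a chain on the words with last letter `x`. -/
noncomputable def co {k : ℕ} (x : Q) : Ch Q (k + 1) →ₗ[ℤ] Ch Q k :=
  Finsupp.lcomapDomain (fun w => sn w x) (sn_inj x)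

lemma co_apply {k : ℕ} (x : Q) (z : Ch Q (k + 1)) (w : Fin k → Q) :
    co x z w = z (sn w x) := rfl

@[simp] lemma co_s_same {k : ℕ} (x : Q) (v : Ch Q k) : co x (s x v) = v := by
  ext w
  rw [co_apply, s, Finsupp.lmapDomain_apply]
  exact Finsupp.mapDomain_apply (sn_inj x) v w

lemma co_s_ne {k : ℕ} {x y : Q} (h : x ≠ y) (v : Ch Q k) : co x (s y v) = 0 := by
  ext w
  rw [co_apply, s, Finsupp.lmapDomain_apply]
  refine Finsupp.mapDomain_of_notMem_range v _ ?_
  rintro ⟨w', hw'⟩
  apply h
  have := congrFun hw' (Fin.last k)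
  simpa using this.symm

/-! ### Quandle homology -/

/-- The quandle axioms for the operation `op x y = x * y`. -/
structure IsQuandle {Q : Type} (op : Q → Q → Q) : Prop where
  idem : ∀ x, op x x = x
  bij : ∀ y, Function.Bijective (fun x => op x y)
  dist : ∀ x y z, op (op x y) z = op (op x z) (op y z)

/-- The quandle chain group `C^Q_k = C^R_k / C^D_k`. -/
abbrev CQ (Q : Type) (k : ℕ) : Type := Ch Q k ⧸ DD Q k

/-- The boundary map `C^Q_{k+1} → C^Q_k`. -/
noncomputable def dQ {op : Q → Q → Q} (h : IsQuandle op) (k : ℕ) :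
    CQ Q (k + 1) →ₗ[ℤ] CQ Q k :=
  (DD Q (k + 1)).mapQ (DD Q k) (bd op k) (fun _ hd => bd_mem_DD op h.idem hd)

lemma dQ_dQ {op : Q → Q → Q} (h : IsQuandle op) (k : ℕ) (z : CQ Q (k + 2)) :
    dQ h k (dQ h (k + 1) z) = 0 := by
  obtain ⟨z, rfl⟩ := Submodule.Quotient.mk_surjective _ z
  simp only [dQ, Submodule.mapQ_apply]
  rw [bd_bd op h.dist, Submodule.Quotient.mk_zero]

/-- The quandle homology group `H^Q_{k+1}`: the kernel of `C^Q_{k+1} → C^Q_k` modulo the image of
`C^Q_{k+2} → C^Q_{k+1}`. -/
abbrev HQ {op : Q → Q → Q} (h : IsQuandle op) (k : ℕ) : Type :=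
  LinearMap.ker (dQ h k) ⧸
    (LinearMap.range (dQ h (k + 1))).submoduleOf (LinearMap.ker (dQ h k))

/-- The operation `x * y = y^{-m} x y^m` on the symmetric group of degree `n`. -/
def symOp (n : ℕ) (m : ℤ) (x y : Equiv.Perm (Fin n)) : Equiv.Perm (Fin n) :=
  y ^ (-m) * x * y ^ m

lemma symOp_isQuandle (n : ℕ) (m : ℤ) : IsQuandle (symOp n m) where
  idem x := by
    rw [symOp, mul_assoc, ← zpow_one_add, ← zpow_add]
    simp
  bij y := by
    refine ⟨fun a b h => ?_, fun b => ⟨y ^ m * b * y ^ (-m), ?_⟩⟩
    · simpa [symOp] using h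
    · simp [symOp, mul_assoc]
  dist x y z := by
    have h : (z ^ (-m) * y * z ^ m) ^ m = z ^ (-m) * y ^ m * z ^ m := by
      have := (conj_zpow (a := z ^ (-m)) (b := y) (i := m))
      simpa using this
    have h' : (z ^ (-m) * y * z ^ m) ^ (-m) = z ^ (-m) * y ^ (-m) * z ^ m := by
      have := (conj_zpow (a := z ^ (-m)) (b := y) (i := -m))
      simpa using this
    simp only [symOp, h, h']
    simp [mul_assoc]

end Pool.Agent.Lib.MP_813e56_al
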