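import Pool.Agent.Lib.MP_813e56_al.CGen

/-!
Many classes of prime order in the quandle homology of `𝔖_n^m`, from (almost) all conjugacy
classes.
-/

open Finsupp

namespace Pool.Agent.Lib.MP_813e56_al

section Sym

open Equiv Equiv.Perm

variable {n : ℕ}

lemma swap_zpow_odd {t : Perm (Fin n)} (ht : t.IsSwap) {m : ℤ} (h2 : ¬ (2 : ℤ) ∣ m) :
    t ^ m = t := by
  have haa : t * t = 1 := by
    ext u
    simp [swap_invol ht]
  have h2' : t ^ (2 : ℤ) = 1 := by
    rw [zpow_ofNat, pow_two, haa]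
  obtain ⟨r, hr⟩ : Odd m := by
    rw [← Int.not_even_iff_odd]
    exact fun h => h2 h.two_dvd
  rw [hr, zpow_add, zpow_mul, h2', one_zpow, one_mul, zpow_one]

lemma exists_swaps (σ : Perm (Fin n)) :
    ∃ l : List (Perm (Fin n)), l.prod = σ ∧ ∀ g ∈ l, g.IsSwap := by
  obtain ⟨⟨l, h1, h2⟩, _⟩ := (Equiv.Perm.truncSwapFactors σ).exists_rep
  exact ⟨l, h1, h2⟩

lemma hasRel_two (hn : 4 ≤ n) (m : ℤ) (y : Perm (Fin n)) (hy : Perm.sign (y ^ m) = 1) :
    HasRel m 2 y := by
  by_cases h5 : 5 ≤ n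
  · exact hasRel_five h5 m y hy
  · have h4 : n = 4 := by omega
    subst h4
    exact hasRel_four m y hy

/-- One less than the number of conjugacy classes of `𝔖_n`, and two less if `p = 2` and `m` is
odd. -/
noncomputable def rk (n : ℕ) (m : ℤ) (p : ℕ) : ℕ := by
  classical exact
    Nat.card (ConjClasses (Perm (Fin n))) - (if p = 2 ∧ ¬ (2 : ℤ) ∣ m then 2 else 1)

lemma five_le (hn : 4 ≤ n) : 5 ≤ Nat.card (ConjClasses (Perm (Fin n))) := by
  have hfin : Finite (ConjClasses (Perm (Fin n))) :=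
    Finite.of_surjective _ ConjClasses.mk_surjective
  let T : Fin 5 → Multiset ℕ := ![0, {2}, {3}, {4}, {2, 2}]
  have hT : ∀ i, (T i).sum ≤ 4 ∧ ∀ a ∈ T i, 2 ≤ a := by decide
  have hex : ∀ i, ∃ g : Perm (Fin n), g.cycleType = T i := by
    intro i
    refine (Equiv.Perm.exists_with_cycleType_iff (Fin n) (m := T i)).mpr ⟨?_, (hT i).2⟩
    rw [Fintype.card_fin]
    exact (hT i).1.trans hn
  choose g hg using hex
  have hinj : Function.Injective (fun i => ConjClasses.mk (g i)) := by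
    intro i j hij
    have h1 : ConjClasses.mk (g i) = ConjClasses.mk (g j) := hij
    rw [ConjClasses.mk_eq_mk_iff_isConj, Equiv.Perm.isConj_iff_cycleType_eq, hg, hg] at h1
    have : ∀ i j : Fin 5, T i = T j → i = j := by decide
    exact this i j h1
  have := Nat.card_le_card_of_injective _ hinj
  rwa [Nat.card_eq_fintype_card, Fintype.card_fin] at this

lemma three_le_rk (hn : 4 ≤ n) (m : ℤ) (p : ℕ) : 3 ≤ rk n m p := by
  have := five_le hn
  unfold rk
  split_ifs <;> omega

theorem all_rankC (hn : 4 ≤ n) {m : ℤ} (hm : ∃ y : Perm (Fin n), y ^ m ≠ 1) {p : ℕ}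
    (hp : p.Prime) (hpn : p ≤ n) (h : p = 2 ∨ 5 ≤ n ∨ ¬ (2 : ℤ) ∣ m) :
    3 ≤ rk n m p ∧ ∀ k : ℕ, 1 ≤ k →
      ∃ f : (Fin ((rk n m p) ^ (k - 2)) → ZMod p) →+
        HQ (symOp_isQuandle n m) k, Function.Injective f := by
  classical
  have H : IsQuandle (gop m : Perm (Fin n) → Perm (Fin n) → Perm (Fin n)) :=
    symOp_isQuandle n m
  have hpf : Fact p.Prime := ⟨hp⟩
  have hfin : Finite (ConjClasses (Perm (Fin n))) :=
    Finite.of_surjective _ ConjClasses.mk_surjective
  obtain ⟨φ, hφ, hca, hbase⟩ := data_all hn hm hp hpn h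
  refine ⟨three_le_rk hn m p, fun k hk => ?_⟩
  let a0 : Fin n := ⟨0, by omega⟩
  let a1 : Fin n := ⟨1, by omega⟩
  have ha : a0 ≠ a1 := by
    intro h
    have h01 : (0 : ℕ) = 1 := congrArg Fin.val h
    exact absurd h01 (by decide)
  let c0 : ConjClasses (Perm (Fin n)) := ConjClasses.mk (Equiv.swap a0 a1)
  have hc0 : ∀ t : Perm (Fin n), t.IsSwap → ConjClasses.mk t = c0 := by
    rintro t ⟨x, y, hxy, rfl⟩
    rw [ConjClasses.mk_eq_mk_iff_isConj]
    exact Equiv.Perm.isConj_swap hxy ha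
  have hc01 : ConjClasses.mk (1 : Perm (Fin n)) ≠ c0 := by
    intro h
    rw [ConjClasses.mk_eq_mk_iff_isConj, isConj_one_right] at h
    have h2 := congrArg (fun w : Perm (Fin n) => w a0) h
    simp only [Equiv.swap_apply_left, Perm.one_apply] at h2
    exact ha h2.symm
  let P : ConjClasses (Perm (Fin n)) → Prop := fun c => ¬ ((p = 2 ∧ ¬ (2 : ℤ) ∣ m) ∧ c = c0)
  have hcard : Nat.card {c : ConjClasses (Perm (Fin n)) // P c} - 1 = rk n m p := by
    letI : Fintype (ConjClasses (Perm (Fin n))) := Fintype.ofFinite _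
    by_cases hcond : p = 2 ∧ ¬ (2 : ℤ) ∣ m
    · have e : Nat.card {c : ConjClasses (Perm (Fin n)) // P c} =
          Nat.card {c : ConjClasses (Perm (Fin n)) // c ≠ c0} := by
        refine Nat.card_congr (Equiv.subtypeEquivRight (fun c => ?_))
        show ¬ ((p = 2 ∧ ¬ (2 : ℤ) ∣ m) ∧ c = c0) ↔ c ≠ c0
        constructor
        · intro h1 h2
          exact h1 ⟨hcond, h2⟩
        · rintro h1 ⟨_, h2⟩
          exact h1 h2
      rw [e, rk, if_pos hcond, Nat.card_eq_fintype_card, Nat.card_eq_fintype_card,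
        Fintype.card_subtype_compl, Fintype.card_subtype_eq]
      omega
    · have e : Nat.card {c : ConjClasses (Perm (Fin n)) // P c} =
          Nat.card (ConjClasses (Perm (Fin n))) := by
        refine Nat.card_congr (Equiv.subtypeUnivEquiv (fun c => ?_))
        exact fun h1 => hcond h1.1
      rw [e, rk, if_neg hcond]
  have key := rank_generalC m H φ hφ hca hbase P (fun h1 => hc01 h1.2) ?_ k hk
  · rw [hcard] at key
    exact key
  intro c hc
  obtain ⟨y, rfl⟩ := ConjClasses.mk_surjective c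
  have hrel : HasRel m p y → ∃ l1 l2 : List (Perm (Fin n)),
      (∀ x ∈ l1, ConjClasses.mk x = ConjClasses.mk y) ∧ (∀ x ∈ l2, ¬ P (ConjClasses.mk x)) ∧
      ((l1 ++ l2).map (fun x => x ^ m)).prod = 1 ∧ ¬ p ∣ l1.length := by
    rintro ⟨l, h1, h2, h3⟩
    exact ⟨l, [], h1, by simp, by rw [List.append_nil]; exact h2, h3⟩
  by_cases hp2 : p = 2
  · by_cases hs : Perm.sign (y ^ m) = 1
    · refine hrel ?_
      rw [hp2]
      exact hasRel_two hn m y hs
    · have h2m : ¬ (2 : ℤ) ∣ m := by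
        rintro ⟨r, rfl⟩
        apply hs
        rw [map_zpow]
        rcases Int.units_eq_one_or (Perm.sign y) with h1 | h1
        · rw [h1, one_zpow]
        · rw [h1, zpow_mul]
          have : (-1 : ℤˣ) ^ (2 : ℤ) = 1 := by decide
          rw [this, one_zpow]
      obtain ⟨l, hl1, hl2⟩ := exists_swaps (y ^ m)⁻¹
      refine ⟨[y], l, ?_, ?_, ?_, ?_⟩
      · intro x hx
        rw [List.mem_singleton] at hx
        rw [hx]
      · intro x hx hPx
        exact hPx ⟨⟨hp2, h2m⟩, hc0 x (hl2 x hx)⟩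
      · have hmap : l.map (fun x => x ^ m) = l := by
          conv_rhs => rw [← List.map_id l]
          refine List.map_congr_left (fun x hx => ?_)
          rw [swap_zpow_odd (hl2 x hx) h2m]
          rfl
        rw [List.singleton_append, List.map_cons, List.prod_cons, hmap, hl1, mul_inv_cancel]
      · rw [hp2]
        show ¬ 2 ∣ 1
        decide
  · exact hrel (hasRel_odd hp hp2 m y)

end Sym

end Pool.Agent.Lib.MP_813e56_al
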