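import Pool.Agent.Lib.MP_813e56_al.DGen

/-!
Many classes of given order in the quandle homology of `𝔖_n^m`.
-/

open Finsupp

namespace Pool.Agent.Lib.MP_813e56_al

section Sym

open Equiv Equiv.Perm
open scoped commutatorElement

variable {n : ℕ}

/-! ### Relations -/

/-- A relation of length prime to `d` between `m`-th powers of conjugates of `y`. -/
def HasRelD (m : ℤ) (d : ℕ) (y : Perm (Fin n)) : Prop :=
  ∃ l : List (Perm (Fin n)), (∀ x ∈ l, ConjClasses.mk x = ConjClasses.mk y) ∧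
    (l.map (fun x => x ^ m)).prod = 1 ∧ Nat.Coprime l.length d

lemma mk_inv' (y : Perm (Fin n)) : ConjClasses.mk y⁻¹ = ConjClasses.mk y := by
  rw [ConjClasses.mk_eq_mk_iff_isConj, Equiv.Perm.isConj_iff_cycleType_eq,
    Equiv.Perm.cycleType_inv]

lemma exists_pairs (m : ℤ) (y : Perm (Fin n)) : ∀ j : ℕ, ∃ l : List (Perm (Fin n)),
    (∀ x ∈ l, ConjClasses.mk x = ConjClasses.mk y) ∧ (l.map (fun x => x ^ m)).prod = 1 ∧
      l.length = 2 * j
  | 0 => ⟨[], by simp, by simp, by simp⟩
  | (j + 1) => by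
    obtain ⟨l, h1, h2, h3⟩ := exists_pairs m y j
    refine ⟨y :: y⁻¹ :: l, ?_, ?_, ?_⟩
    · intro x hx
      rw [List.mem_cons, List.mem_cons] at hx
      rcases hx with rfl | rfl | hx
      · rfl
      · exact mk_inv' y
      · exact h1 x hx
    · simp only [List.map_cons, List.prod_cons, h2, mul_one, inv_zpow, mul_inv_cancel]
    · rw [List.length_cons, List.length_cons, h3]
      ring

lemma hasRelD_odd {d : ℕ} (hd : ¬ 2 ∣ d) (m : ℤ) (y : Perm (Fin n)) : HasRelD m d y := by
  obtain ⟨l, h1, h2, h3⟩ := exists_pairs m y 1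
  refine ⟨l, h1, h2, ?_⟩
  rw [h3, mul_one]
  exact (Nat.Prime.coprime_iff_not_dvd Nat.prime_two).mpr hd

lemma hasRelD_of {d : ℕ} (hd : 0 < d) {m : ℤ} {y : Perm (Fin n)} (h : HasRel m 2 y) :
    HasRelD m d y := by
  obtain ⟨l, h1, h2, h3⟩ := h
  obtain ⟨a, ha⟩ : ∃ a, l.length = 2 * a + 1 := ⟨l.length / 2, by omega⟩
  obtain ⟨e, rfl⟩ : ∃ e, d = e + 1 := ⟨d - 1, by omega⟩
  obtain ⟨l', h1', h2', h3'⟩ := exists_pairs m y (a * e)
  refine ⟨l ++ l', ?_, ?_, ?_⟩
  · intro x hx
    rw [List.mem_append] at hx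
    rcases hx with hx | hx
    · exact h1 x hx
    · exact h1' x hx
  · rw [List.map_append, List.prod_append, h2, h2', mul_one]
  · have hlen : (l ++ l').length = 1 + 2 * a * (e + 1) := by
      rw [List.length_append, ha, h3']
      ring
    rw [hlen]
    apply Nat.Coprime.symm
    exact (Nat.coprime_add_mul_right_right (e + 1) 1 (2 * a)).mpr (Nat.coprime_one_right _)

/-! ### The first cycle -/

lemma exists_PCyD {d : ℕ} (hd : 2 ≤ d) (hdn : d ≤ n) : ∃ x : Perm (Fin n), PCy d x := by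
  have h := (Equiv.Perm.exists_with_cycleType_iff (Fin n) (m := {d})).mpr
    ⟨by simpa using hdn, by
      intro a ha
      rw [Multiset.mem_singleton] at ha
      rw [ha]
      exact hd⟩
  obtain ⟨g, hg⟩ := h
  refine ⟨g, ?_, ?_⟩
  · rw [← Equiv.Perm.card_cycleType_eq_one, hg, Multiset.card_singleton]
  · rw [← Equiv.Perm.lcm_cycleType, hg, Multiset.lcm_singleton, normalize_eq]

lemma dataD_gen {d : ℕ} {m : ℤ} {x w : Perm (Fin n)} (hx : PCy d x)
    (hw : w ∈ ⁅NN (Perm (Fin n)) m, NN (Perm (Fin n)) m⁆) (hfix : cj w x = x)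
    (hmv : ∀ u, x u ≠ u → w⁻¹ u = x⁻¹ u) :
    ∃ φ : Perm (Fin n) → Perm (Fin n) → ZMod d, CocP m φ ∧ (∀ a, φ a a = 0) ∧ BaseD m φ := by
  obtain ⟨u, hu, _⟩ := hx.1
  have hn : 0 < n := lt_of_le_of_lt (Nat.zero_le _) u.isLt
  obtain ⟨f, hf⟩ := exists_fp (n := n) hn d
  have hx1 : x ≠ 1 := by
    rintro rfl
    exact hu rfl
  have hca : ∀ a, rot f d a (a ^ m) + cor d m (orbN m a) (orbN m a) = 0 := by
    intro a
    by_cases ha : PCy d a
    · have h3 := (orb_PCy m a).mpr ha
      rw [rot_self f hf m ha, cor, if_pos ⟨h3, h3⟩]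
      push_cast
      ring
    · rw [rot_not f ha, cor, if_neg, add_zero]
      rintro ⟨h3, _⟩
      exact ha ((orb_PCy m a).mp h3)
  have hval : IsUnit (rot f d x w) := by
    have h3 : rot f d x w = ((-1 : ℤ) : ZMod d) := by
      refine rot_spec f hf hx ?_
      rw [hfix, zpow_neg_one, hmv _ (hf x hx)]
    rw [h3]
    push_cast
    exact isUnit_one.neg
  exact dataD_of m (rot f d) (rot_mul f hf) (cor d m) hca hx1 hw hfix hval

lemma dataD_all (hn : 4 ≤ n) {m : ℤ} (hm : ∃ y : Perm (Fin n), y ^ m ≠ 1) {d : ℕ}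
    (hd : 2 ≤ d) (hdn : d ≤ n) (h2 : 2 ∣ d → d + 2 ≤ n) (h : d = 2 ∨ 5 ≤ n ∨ ¬ (2 : ℤ) ∣ m) :
    ∃ φ : Perm (Fin n) → Perm (Fin n) → ZMod d, CocP m φ ∧ (∀ a, φ a a = 0) ∧ BaseD m φ := by
  by_cases h5 : 5 ≤ n
  · obtain ⟨y, hy⟩ := hm
    obtain ⟨x, hx⟩ := exists_PCyD hd hdn
    by_cases hev : 2 ∣ d
    · -- even length
      have hsupp : x.support.card = d := by rw [← hx.1.orderOf, hx.2]
      have hcompl : 1 < (x.supportᶜ).card := by
        rw [Finset.card_compl, Fintype.card_fin, hsupp]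
        have := h2 hev
        omega
      obtain ⟨a, ha, b, hb, hab⟩ := Finset.one_lt_card.mp hcompl
      rw [Finset.mem_compl, Equiv.Perm.notMem_support] at ha hb
      have hcomm : x * Equiv.swap a b = Equiv.swap a b * x := by
        rw [Equiv.mul_swap_eq_swap_mul, ha, hb]
      have hsx : Perm.sign x = -1 := by
        rw [hx.1.sign, hsupp]
        obtain ⟨e, rfl⟩ := hev
        rw [pow_mul]
        simp
      have hmemA : x * Equiv.swap a b ∈ alternatingGroup (Fin n) := by
        rw [Equiv.Perm.mem_alternatingGroup, map_mul, hsx, Equiv.Perm.sign_swap hab]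
        rfl
      refine dataD_gen (w := x * Equiv.swap a b) hx (alt_le_comm h5 hy hmemA) ?_ ?_
      · rw [cj, hcomm, mul_inv_rev, Equiv.swap_inv, ← hcomm]
        rw [show x⁻¹ * Equiv.swap a b * x * (x * Equiv.swap a b) =
          x⁻¹ * (Equiv.swap a b * x) * (x * Equiv.swap a b) by group, ← hcomm]
        rw [show x⁻¹ * (x * Equiv.swap a b) * (x * Equiv.swap a b) =
          Equiv.swap a b * (x * Equiv.swap a b) by group, hcomm, ← mul_assoc,
          Equiv.swap_mul_self, one_mul]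
      · intro u hu
        rw [mul_inv_rev, Equiv.swap_inv, Perm.mul_apply]
        refine Equiv.swap_apply_of_ne_of_ne ?_ ?_
        · intro h1
          apply hu
          have h3 : u = x a := by rw [← h1]; simp
          rw [h3, ha, ha]
        · intro h1
          apply hu
          have h3 : u = x b := by rw [← h1]; simp
          rw [h3, hb, hb]
    · -- odd length
      have hxA : x ∈ alternatingGroup (Fin n) := by
        rw [Equiv.Perm.mem_alternatingGroup]
        have h1 : Perm.sign x ^ d = 1 := by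
          rw [← map_pow, ← hx.2, pow_orderOf_eq_one, map_one]
        rcases Int.units_eq_one_or (Perm.sign x) with h2 | h2
        · exact h2
        · have hodd : Odd d := by
            rw [← Nat.not_even_iff_odd]
            exact fun h => hev h.two_dvd
          rw [h2, hodd.neg_one_pow] at h1
          exact absurd h1 (by decide)
      exact dataD_gen (w := x) hx (alt_le_comm h5 hy hxA) (by simp [cj]) (fun u _ => rfl)
  · have h4 : n = 4 := by omega
    subst h4
    have hd4 : d = 2 ∨ d = 3 := by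
      by_cases hev : 2 ∣ d
      · have := h2 hev
        omega
      · omega
    have hp : d.Prime := by
      rcases hd4 with rfl | rfl
      · exact Nat.prime_two
      · exact Nat.prime_three
    have hpf : Fact d.Prime := ⟨hp⟩
    obtain ⟨φ, h1, h2', L, h3, h4, h5', h6⟩ := data_all hn hm hp hdn h
    exact ⟨φ, h1, h2', L, h3, h4, h5', isUnit_iff_ne_zero.mpr h6⟩

/-! ### The theorem -/

/-- One less than the number of conjugacy classes of `𝔖_n`, and two less if `d` is even and `m`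
is odd. -/
noncomputable def rkD (n : ℕ) (m : ℤ) (d : ℕ) : ℕ := by
  classical exact
    Nat.card (ConjClasses (Perm (Fin n))) - (if 2 ∣ d ∧ ¬ (2 : ℤ) ∣ m then 2 else 1)

lemma three_le_rkD (hn : 4 ≤ n) (m : ℤ) (d : ℕ) : 3 ≤ rkD n m d := by
  have := five_le hn
  unfold rkD
  split_ifs <;> omega

theorem all_rankD (hn : 4 ≤ n) {m : ℤ} (hm : ∃ y : Perm (Fin n), y ^ m ≠ 1) {d : ℕ}
    (hd : 2 ≤ d) (hdn : d ≤ n) (h2 : 2 ∣ d → d + 2 ≤ n) (h : d = 2 ∨ 5 ≤ n ∨ ¬ (2 : ℤ) ∣ m) :
    3 ≤ rkD n m d ∧ ∀ k : ℕ, 1 ≤ k →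
      ∃ f : (Fin ((rkD n m d) ^ (k - 2)) → ZMod d) →+
        HQ (symOp_isQuandle n m) k, Function.Injective f := by
  classical
  have H : IsQuandle (gop m : Perm (Fin n) → Perm (Fin n) → Perm (Fin n)) :=
    symOp_isQuandle n m
  have hd0 : NeZero d := ⟨by omega⟩
  have hfin : Finite (ConjClasses (Perm (Fin n))) :=
    Finite.of_surjective _ ConjClasses.mk_surjective
  obtain ⟨φ, hφ, hca, hbase⟩ := dataD_all hn hm hd hdn h2 h
  refine ⟨three_le_rkD hn m d, fun k hk => ?_⟩
  let a0 : Fin n := ⟨0, by omega⟩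
  let a1 : Fin n := ⟨1, by omega⟩
  have ha : a0 ≠ a1 := by
    intro h
    have h01 : (0 : ℕ) = 1 := congrArg Fin.val h
    exact absurd h01 (by decide)
  let c0 : ConjClasses (Perm (Fin n)) := ConjClasses.mk (Equiv.swap a0 a1)
  have hc0 : ∀ t : Perm (Fin n), t.IsSwap → ConjClasses.mk t = c0 := by
    rintro t ⟨x, y, hxy, rfl⟩
    rw [ConjClasses.mk_eq_mk_iff_isConj]
    exact Equiv.Perm.isConj_swap hxy ha
  have hc01 : ConjClasses.mk (1 : Perm (Fin n)) ≠ c0 := by
    intro h
    rw [ConjClasses.mk_eq_mk_iff_isConj, isConj_one_right] at h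
    have h2 := congrArg (fun w : Perm (Fin n) => w a0) h
    simp only [Equiv.swap_apply_left, Perm.one_apply] at h2
    exact ha h2.symm
  let P : ConjClasses (Perm (Fin n)) → Prop := fun c => ¬ ((2 ∣ d ∧ ¬ (2 : ℤ) ∣ m) ∧ c = c0)
  have hcard : Nat.card {c : ConjClasses (Perm (Fin n)) // P c} - 1 = rkD n m d := by
    letI : Fintype (ConjClasses (Perm (Fin n))) := Fintype.ofFinite _
    by_cases hcond : 2 ∣ d ∧ ¬ (2 : ℤ) ∣ m
    · have e : Nat.card {c : ConjClasses (Perm (Fin n)) // P c} =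
          Nat.card {c : ConjClasses (Perm (Fin n)) // c ≠ c0} := by
        refine Nat.card_congr (Equiv.subtypeEquivRight (fun c => ?_))
        show ¬ ((2 ∣ d ∧ ¬ (2 : ℤ) ∣ m) ∧ c = c0) ↔ c ≠ c0
        constructor
        · intro h1 h2
          exact h1 ⟨hcond, h2⟩
        · rintro h1 ⟨_, h2⟩
          exact h1 h2
      rw [e, rkD, if_pos hcond, Nat.card_eq_fintype_card, Nat.card_eq_fintype_card,
        Fintype.card_subtype_compl, Fintype.card_subtype_eq]
      omega
    · have e : Nat.card {c : ConjClasses (Perm (Fin n)) // P c} =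
          Nat.card (ConjClasses (Perm (Fin n))) := by
        refine Nat.card_congr (Equiv.subtypeUnivEquiv (fun c => ?_))
        exact fun h1 => hcond h1.1
      rw [e, rkD, if_neg hcond]
  have key := rank_generalD m H φ hφ hca hbase P (fun h1 => hc01 h1.2) ?_ k hk
  · rw [hcard] at key
    exact key
  intro c hc
  obtain ⟨y, rfl⟩ := ConjClasses.mk_surjective c
  have hrel : HasRelD m d y → ∃ l1 l2 : List (Perm (Fin n)),
      (∀ x ∈ l1, ConjClasses.mk x = ConjClasses.mk y) ∧ (∀ x ∈ l2, ¬ P (ConjClasses.mk x)) ∧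
      ((l1 ++ l2).map (fun x => x ^ m)).prod = 1 ∧ Nat.Coprime l1.length d := by
    rintro ⟨l, h1, h2, h3⟩
    exact ⟨l, [], h1, by simp, by rw [List.append_nil]; exact h2, h3⟩
  by_cases hev : 2 ∣ d
  · by_cases hs : Perm.sign (y ^ m) = 1
    · exact hrel (hasRelD_of (by omega) (hasRel_two hn m y hs))
    · have h2m : ¬ (2 : ℤ) ∣ m := by
        rintro ⟨r, rfl⟩
        apply hs
        rw [map_zpow]
        rcases Int.units_eq_one_or (Perm.sign y) with h1 | h1
        · rw [h1, one_zpow]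
        · rw [h1, zpow_mul]
          have : (-1 : ℤˣ) ^ (2 : ℤ) = 1 := by decide
          rw [this, one_zpow]
      obtain ⟨l, hl1, hl2⟩ := exists_swaps (y ^ m)⁻¹
      refine ⟨[y], l, ?_, ?_, ?_, ?_⟩
      · intro x hx
        rw [List.mem_singleton] at hx
        rw [hx]
      · intro x hx hPx
        exact hPx ⟨⟨hev, h2m⟩, hc0 x (hl2 x hx)⟩
      · have hmap : l.map (fun x => x ^ m) = l := by
          conv_rhs => rw [← List.map_id l]
          refine List.map_congr_left (fun x hx => ?_)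
          rw [swap_zpow_odd (hl2 x hx) h2m]
          rfl
        rw [List.singleton_append, List.map_cons, List.prod_cons, hmap, hl1, mul_inv_cancel]
      · show Nat.Coprime 1 d
        exact Nat.coprime_one_left d
  · exact hrel (hasRelD_odd hev m y)

end Sym

end Pool.Agent.Lib.MP_813e56_al
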