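import Pool.Agent.Lib.MP_813e56_al.GenMain

/-!
The quandle `𝔖_4^m` for `m` congruent to `6` modulo `12`: only the four-cycles act, through their
squares.
-/

open Finsupp

namespace Pool.Agent.Lib.MP_813e56_al

section Four

open Equiv Equiv.Perm

/-- The sixth power. -/
def sx (y : Perm (Fin 4)) : Perm (Fin 4) := (y * y) * (y * y) * (y * y)

/-- The operation. -/
def opV (x y : Perm (Fin 4)) : Perm (Fin 4) := (sx y)⁻¹ * x * sx y

/-- The first fixed point. -/
def fp4 (a : Perm (Fin 4)) : Fin 4 := if a 0 = 0 then 0 else if a 1 = 1 then 1 else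
  if a 2 = 2 then 2 else 3

/-- Three-cycles. -/
def is3 (a : Perm (Fin 4)) : Bool := decide (a * a * a = 1) && decide (a ≠ 1)

/-- The table of the cocycle. -/
def tab4 (p : Fin 4) (y : Perm (Fin 4)) : ZMod 2 :=
  if sx y = 1 then 0
  else if y 0 = 1 ∧ y 1 = 2 then 0
  else if y 0 = 3 ∧ y 1 = 0 then 1
  else if (y 0 = 1 ∧ y 1 = 3) ∨ (y 0 = 3 ∧ y 1 = 2) then (if p = 0 ∨ p = 3 then 1 else 0)
  else (if p = 0 ∨ p = 3 then 0 else 1)

/-- The cocycle. -/
def phi4 (x y : Perm (Fin 4)) : ZMod 2 := if is3 x = true then tab4 (fp4 x) y else 0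

/-- The three double transpositions. -/
def vA : Perm (Fin 4) := Equiv.swap 0 1 * Equiv.swap 2 3

/-- A double transposition. -/
def vB : Perm (Fin 4) := Equiv.swap 0 2 * Equiv.swap 1 3

/-- A double transposition. -/
def vC : Perm (Fin 4) := Equiv.swap 0 3 * Equiv.swap 1 2

/-- The six four-cycles. -/
def cyc4 : List (Perm (Fin 4)) :=
  [Equiv.swap 0 1 * Equiv.swap 1 2 * Equiv.swap 2 3, Equiv.swap 2 3 * Equiv.swap 1 2 * Equiv.swap 0 1,
   Equiv.swap 0 1 * Equiv.swap 1 3 * Equiv.swap 2 3, Equiv.swap 2 3 * Equiv.swap 1 3 * Equiv.swap 0 1,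
   Equiv.swap 0 2 * Equiv.swap 2 1 * Equiv.swap 1 3, Equiv.swap 1 3 * Equiv.swap 2 1 * Equiv.swap 0 2]

lemma sx_cases : ∀ y : Perm (Fin 4), sx y = 1 ∨ y ∈ cyc4 := by decide +kernel

lemma sx_four : ∀ y : Perm (Fin 4), sx y = 1 ∨ sx y = vA ∨ sx y = vB ∨ sx y = vC := by
  decide +kernel

lemma is3_opV (x y : Perm (Fin 4)) : is3 (opV x y) = is3 x := by
  have h1 : opV x y * opV x y * opV x y = (sx y)⁻¹ * (x * x * x) * sx y := by
    simp [opV, mul_assoc]
  have h2 : (sx y)⁻¹ * (x * x * x) * sx y = 1 ↔ x * x * x = 1 := by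
    constructor
    · intro h
      have := congrArg (fun w => sx y * w * (sx y)⁻¹) h
      simpa [mul_assoc] using this
    · intro h; rw [h]; simp
  have h3 : opV x y = 1 ↔ x = 1 := by
    constructor
    · intro h
      have := congrArg (fun w => sx y * w * (sx y)⁻¹) h
      simpa [opV, mul_assoc] using this
    · rintro rfl; simp [opV]
  unfold is3
  rw [h1]
  simp only [h2, ne_eq, h3]

lemma fp4_one (x : Perm (Fin 4)) : fp4 ((1 : Perm (Fin 4))⁻¹ * x * 1) = (1 : Perm (Fin 4))⁻¹ (fp4 x) := by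
  simp

lemma fp4_A : ∀ x : Perm (Fin 4), is3 x = true → fp4 (vA⁻¹ * x * vA) = vA⁻¹ (fp4 x) := by
  decide +kernel

lemma fp4_B : ∀ x : Perm (Fin 4), is3 x = true → fp4 (vB⁻¹ * x * vB) = vB⁻¹ (fp4 x) := by
  decide +kernel

lemma fp4_C : ∀ x : Perm (Fin 4), is3 x = true → fp4 (vC⁻¹ * x * vC) = vC⁻¹ (fp4 x) := by
  decide +kernel

lemma fp4_opV (x y : Perm (Fin 4)) (hx : is3 x = true) : fp4 (opV x y) = (sx y)⁻¹ (fp4 x) := by
  unfold opV
  rcases sx_four y with h | h | h | h <;> rw [h]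
  · exact fp4_one x
  · exact fp4_A x hx
  · exact fp4_B x hx
  · exact fp4_C x hx

set_option maxRecDepth 100000 in
lemma tab4_cyc : ∀ y ∈ cyc4, ∀ z ∈ cyc4, ∀ p : Fin 4,
    tab4 p y - tab4 ((sx z)⁻¹ p) (opV y z) - tab4 p z + tab4 ((sx y)⁻¹ p) z = 0 := by
  decide +kernel

lemma tab4_zero (p : Fin 4) {y : Perm (Fin 4)} (hy : sx y = 1) : tab4 p y = 0 := by
  rw [tab4, if_pos hy]

lemma sx_opV (y z : Perm (Fin 4)) : sx (opV y z) = (sx z)⁻¹ * sx y * sx z := by
  simp [opV, sx, mul_assoc]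

lemma tab4_coc (p : Fin 4) (y z : Perm (Fin 4)) :
    tab4 p y - tab4 ((sx z)⁻¹ p) (opV y z) - tab4 p z + tab4 ((sx y)⁻¹ p) z = 0 := by
  rcases sx_cases y with hy | hy
  · have h1 : sx (opV y z) = 1 := by rw [sx_opV, hy]; simp
    rw [tab4_zero p hy, tab4_zero _ h1, hy, inv_one, Equiv.Perm.one_apply]
    ring
  · rcases sx_cases z with hz | hz
    · have h1 : opV y z = y := by rw [opV, hz]; simp
      rw [tab4_zero p hz, tab4_zero _ hz, h1, hz]
      simp
    · exact tab4_cyc y hy z hz p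

lemma phi4_coc (x y z : Perm (Fin 4)) :
    phi4 x y - phi4 (opV x z) (opV y z) - phi4 x z + phi4 (opV x y) z = 0 := by
  unfold phi4
  rw [is3_opV, is3_opV]
  by_cases hx : is3 x = true
  · rw [if_pos hx, if_pos hx, if_pos hx, if_pos hx, fp4_opV x z hx, fp4_opV x y hx]
    exact tab4_coc _ y z
  · rw [if_neg hx, if_neg hx, if_neg hx, if_neg hx]
    ring

lemma phi4_self : ∀ x : Perm (Fin 4), phi4 x x = 0 := by decide +kernel

lemma sx_pow_two : ∀ y : Perm (Fin 4), sx y * sx y = 1 := by decide +kernel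

lemma pow_six_four (y : Perm (Fin 4)) : y ^ (6 : ℤ) = sx y := by
  rw [show (6 : ℤ) = ((6 : ℕ) : ℤ) from rfl, zpow_natCast, sx]
  simp only [pow_succ, pow_zero, one_mul, mul_assoc]

lemma gop_four {m : ℤ} (hm : m % 12 = 6) (x y : Perm (Fin 4)) : gop m x y = opV x y := by
  have h12 : y ^ (12 : ℤ) = 1 := by
    rw [show (12 : ℤ) = 6 + 6 from rfl, zpow_add, pow_six_four, sx_pow_two]
  have h : y ^ m = sx y := by
    rw [← Int.emod_add_mul_ediv m 12, zpow_add, zpow_mul, h12, one_zpow, mul_one, hm,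
      pow_six_four]
  rw [gop_eq, h]
  rfl

/-- The three-cycle and the two four-cycles of the first cycle. -/
def u4 : Perm (Fin 4) := Equiv.swap 1 2 * Equiv.swap 2 3

/-- A four-cycle. -/
def x4 : Perm (Fin 4) := Equiv.swap 0 1 * Equiv.swap 1 2 * Equiv.swap 2 3

/-- Another four-cycle. -/
def z4 : Perm (Fin 4) := Equiv.swap 0 2 * Equiv.swap 2 1 * Equiv.swap 1 3

lemma base_four {m : ℤ} (hm : m % 12 = 6) : Base m phi4 := by
  have hu : u4 ≠ 1 := by decide
  have hx : x4 ≠ 1 := by decide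
  have hz : z4 ≠ 1 := by decide
  have hux : opV u4 x4 ≠ 1 := by decide +kernel
  have huz : opV u4 z4 ≠ 1 := by decide +kernel
  have hcomm : opV (opV u4 x4) z4 = opV (opV u4 z4) x4 := by decide +kernel
  have hLm : ∀ a b : Perm (Fin 4), Lm (s a (s b (p0 (Perm (Fin 4))))) = single [a, b] 1 := by
    intro a b
    rw [Lm_s, Lm_s, p0, Lm_single]
    simp
  have hbd : ∀ a b : Perm (Fin 4), bd (gop m) 1 (s a (s b (p0 (Perm (Fin 4))))) =
      s b (p0 (Perm (Fin 4))) - s (opV b a) (p0 (Perm (Fin 4))) := by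
    intro a b
    rw [bd_sg, bd_zero, map_zero, zero_add, pow_zero, one_smul, mp_s, mp_p0, ← gop_eq,
      gop_four hm]
  have horb : ∀ a b : Perm (Fin 4), orbN m (opV b a) = orbN m b := by
    intro a b
    rw [← gop_four hm, gop_eq, orbN_cj m (pow_mem_NN m a)]
  refine ⟨s x4 (s u4 (p0 _)) + s z4 (s (opV u4 x4) (p0 _)) - s z4 (s u4 (p0 _)) -
    s x4 (s (opV u4 z4) (p0 _)), ?_, ?_, ?_, ?_⟩
  · simp only [map_add, map_sub, hbd]
    rw [hcomm]
    abel
  · simp only [map_add, map_sub, mp_s, mp_p0, horb]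
    abel
  · intro d hd
    simp only [map_add, map_sub, hLm, Pc_single]
    rw [PW_twoG hx hu d hd, PW_twoG hz hux d hd, PW_twoG hz hu d hd, PW_twoG hx huz d hd]
    simp
  · simp only [map_add, map_sub, hLm, ph_single, phW]
    have e1 : phi4 u4 x4 = 0 := by decide +kernel
    have e2 : phi4 (opV u4 x4) z4 = 1 := by decide +kernel
    have e3 : phi4 u4 z4 = 0 := by decide +kernel
    have e4 : phi4 (opV u4 z4) x4 = 0 := by decide +kernel
    rw [e1, e2, e3, e4]
    decide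

theorem four_two {m : ℤ} (hm : m % 12 = 6)
    (H : IsQuandle (gop m : Perm (Fin 4) → Perm (Fin 4) → Perm (Fin 4))) (k : ℕ) (hk : 1 ≤ k) :
    ∃ ξ : HQ H k, addOrderOf ξ = 2 := by
  have hφ : Coc m phi4 := by
    intro x y z
    rw [gop_four hm, gop_four hm, gop_four hm]
    exact phi4_coc x y z
  have h3 : u4 ^ 3 = 1 := by decide
  have hu : u4 ≠ 1 := by decide
  exact exists_two m H phi4 hφ phi4_self hu h3 (base_four hm) k hk

end Four

/-! ### All symmetric groups of degree at least four -/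

theorem all_two {n : ℕ} (hn : 4 ≤ n) {m : ℤ} (hm : ∃ y : Equiv.Perm (Fin n), y ^ m ≠ 1)
    (k : ℕ) (hk : 1 ≤ k) : ∃ ξ : HQ (symOp_isQuandle n m) k, addOrderOf ξ = 2 := by
  have H : IsQuandle (gop m : Equiv.Perm (Fin n) → Equiv.Perm (Fin n) → Equiv.Perm (Fin n)) :=
    symOp_isQuandle n m
  by_cases h5 : 5 ≤ n
  · obtain ⟨y, hy⟩ := hm
    exact sym_two hn (fun g hg => mem_NN_of_sign h5 hy hg) H k hk
  · have h4 : n = 4 := by omega
    subst h4
    by_cases h6 : (6 : ℤ) ∣ m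
    · have h12 : ¬ (12 : ℤ) ∣ m := by
        rintro ⟨r, rfl⟩
        obtain ⟨y, hy⟩ := hm
        apply hy
        rw [zpow_mul]
        have : y ^ (12 : ℤ) = 1 := by
          rw [show (12 : ℤ) = 6 + 6 from rfl, zpow_add, pow_six_four, sx_pow_two]
        rw [this, one_zpow]
      have : m % 12 = 6 := by omega
      exact four_two this H k hk
    · exact sym_two hn (fun g hg => mem_NN_three h6 hg) H k hk

end Pool.Agent.Lib.MP_813e56_al
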