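import Pool.Agent.Lib.MP_813e56_al.Basic

/-!
The quandle of a finite group with `x * y = y^{-m} x y^m`: a cycle whose orbit words vanish has a
nonzero multiple which is a boundary.
-/

open Finsupp

namespace Pool.Agent.Lib.MP_813e56_al

variable {G : Type} [Group G]

/-- The operation `x * y = y^{-m} x y^m`. -/
def gop (m : ℤ) (x y : G) : G := y ^ (-m) * x * y ^ m

/-- Conjugation. -/
def cj (g a : G) : G := g⁻¹ * a * g

lemma gop_eq (m : ℤ) (x y : G) : gop m x y = cj (y ^ m) x := by
  rw [gop, cj, zpow_neg]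

lemma cj_mul (g h a : G) : cj (g * h) a = cj h (cj g a) := by
  simp [cj, mul_assoc]

lemma cj_one (a : G) : cj 1 a = a := by simp [cj]

lemma cj_inv_cj (g a : G) : cj g⁻¹ (cj g a) = a := by simp [cj, mul_assoc]

lemma cj_cj_inv (g a : G) : cj g (cj g⁻¹ a) = a := by simp [cj, mul_assoc]

lemma cj_pow (m : ℤ) (g a : G) : (cj g a) ^ m = cj g (a ^ m) := by
  have := conj_zpow (a := g⁻¹) (b := a) (i := m)
  simpa [cj] using this

lemma cj_gop (m : ℤ) (g a b : G) : cj g (gop m a b) = gop m (cj g a) (cj g b) := by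
  rw [gop_eq, gop_eq, cj_pow]
  simp [cj, mul_assoc]

lemma gop_self (m : ℤ) (a : G) : gop m a a = a := by
  rw [gop, mul_assoc, ← zpow_one_add, ← zpow_add]
  simp

/-- The subgroup generated by the `m`-th powers. -/
def NN (G : Type) [Group G] (m : ℤ) : Subgroup G := Subgroup.closure {g | ∃ y : G, g = y ^ m}

lemma pow_mem_NN (m : ℤ) (y : G) : y ^ m ∈ NN G m := Subgroup.subset_closure ⟨y, rfl⟩

/-- Conjugation on chains. -/
noncomputable abbrev Cj {k : ℕ} (g : G) : Ch G k →ₗ[ℤ] Ch G k := mp (cj g)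

lemma Cj_mul {k : ℕ} (g h : G) (v : Ch G k) : Cj (g * h) v = Cj h (Cj g v) := by
  rw [mp_mp]
  have : cj (g * h) = fun x => cj h (cj g x) := funext (cj_mul g h)
  rw [Cj, this]

lemma Cj_one {k : ℕ} (v : Ch G k) : Cj 1 v = v := by
  have : cj (1 : G) = fun x => x := funext cj_one
  rw [Cj, this, mp_id]

lemma bd_Cj (m : ℤ) (g : G) {k : ℕ} (v : Ch G (k + 1)) :
    bd (gop m) k (Cj g v) = Cj g (bd (gop m) k v) :=
  (mp_bd (gop m) (op' := gop m) (cj g) (fun a b => cj_gop m g a b) v).symm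

lemma bd_sg (m : ℤ) (y : G) {k : ℕ} (v : Ch G (k + 1)) :
    bd (gop m) (k + 1) (s y v) = s y (bd (gop m) k v) + (-1 : ℤ) ^ k • (v - Cj (y ^ m) v) := by
  rw [bd_s]
  have : (fun a => gop m a y) = cj (y ^ m) := funext (fun a => gop_eq m a y)
  rw [this]

/-- The generated subgroup acts trivially on homology. -/
lemma trivial_action (m : ℤ) {k : ℕ} {g : G} (hg : g ∈ NN G m) :
    ∀ z : Ch G (k + 1), bd (gop m) k z = 0 → ∃ u, bd (gop m) (k + 1) u = z - Cj g z := by
  refine Subgroup.closure_induction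
    (p := fun g _ => ∀ z : Ch G (k + 1), bd (gop m) k z = 0 →
      ∃ u, bd (gop m) (k + 1) u = z - Cj g z) ?_ ?_ ?_ ?_ hg
  · rintro _ ⟨y, rfl⟩ z hz
    refine ⟨(-1 : ℤ) ^ k • s y z, ?_⟩
    rw [map_smul, bd_sg, hz, map_zero, zero_add, smul_smul, ← pow_add]
    rw [Even.neg_one_pow (Even.add_self k), one_smul]
  · intro z _
    exact ⟨0, by rw [Cj_one]; simp⟩
  · intro g h _ _ ihg ihh z hz
    obtain ⟨u, hu⟩ := ihg z hz
    obtain ⟨u', hu'⟩ := ihh (Cj g z) (by rw [bd_Cj, hz, map_zero])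
    exact ⟨u + u', by rw [map_add, hu, hu', Cj_mul]; abel⟩
  · intro g _ ih z hz
    obtain ⟨u, hu⟩ := ih (Cj g⁻¹ z) (by rw [bd_Cj, hz, map_zero])
    refine ⟨-u, ?_⟩
    rw [map_neg, hu, ← Cj_mul]
    have : g⁻¹ * g = 1 := by simp
    rw [this, Cj_one]
    abel

section Fin

variable [Fintype G]

/-- The decomposition of a chain by the last letter. -/
lemma sum_s_co {Q : Type} [Fintype Q] {k : ℕ} (z : Ch Q (k + 1)) : z = ∑ x, s x (co x z) := by
  classical
  have h := s_ext (f := LinearMap.id) (g := ∑ x, (s x).comp (co x)) (fun y v => by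
    rw [LinearMap.sum_apply, Finset.sum_eq_single y]
    · simp
    · intro x _ hx
      simp [co_s_ne hx]
    · intro h; exact (h (Finset.mem_univ y)).elim) z
  rw [LinearMap.sum_apply] at h
  exact h

lemma co_sum {Q : Type} [Fintype Q] {k : ℕ} (f : Q → Ch Q k) (y : Q) :
    co y (∑ x, s x (f x)) = f y := by
  classical
  rw [map_sum, Finset.sum_eq_single y]
  · simp
  · intro x _ hx
    exact co_s_ne (fun h => hx h.symm) _
  · intro h; exact (h (Finset.mem_univ y)).elim

lemma co_Cj {k : ℕ} (g x : G) (w : Ch G (k + 1)) : co (cj g x) (Cj g w) = Cj g (co x w) := by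
  have h : Cj g w = ∑ y, s (cj g y) (Cj g (co y w)) := by
    conv_lhs => rw [sum_s_co w]
    rw [map_sum]
    exact Finset.sum_congr rfl (fun y _ => mp_s _ _ _)
  rw [h, map_sum, Finset.sum_eq_single x]
  · simp
  · intro y _ hy
    refine co_s_ne (fun h => hy ?_) _
    have := congrArg (cj g⁻¹) h
    rw [cj_inv_cj, cj_inv_cj] at this
    exact this.symm
  · intro h; exact (h (Finset.mem_univ x)).elim

/-- The sum over the generated subgroup. -/
noncomputable def Av (m : ℤ) {k : ℕ} : Ch G k →ₗ[ℤ] Ch G k :=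
  haveI : Fintype (NN G m) := Fintype.ofFinite _
  ∑ g : NN G m, Cj (g : G)

lemma Av_apply (m : ℤ) {k : ℕ} [I : Fintype (NN G m)] (z : Ch G k) :
    Av m z = ∑ g : NN G m, Cj (g : G) z := by
  have h : Fintype.ofFinite (NN G m) = I := Subsingleton.elim _ _
  rw [Av, LinearMap.sum_apply, h]

lemma Cj_Av (m : ℤ) {k : ℕ} (z : Ch G k) {h : G} (hh : h ∈ NN G m) : Cj h (Av m z) = Av m z := by
  haveI : Fintype (NN G m) := Fintype.ofFinite _
  rw [Av_apply, map_sum]
  refine Fintype.sum_equiv (Equiv.mulRight (⟨h, hh⟩ : NN G m)) _ _ (fun g => ?_)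
  rw [← Cj_mul]
  rfl

lemma Av_homologous (m : ℤ) {k : ℕ} (z : Ch G (k + 1)) (hz : bd (gop m) k z = 0) :
    ∃ u, bd (gop m) (k + 1) u = (Nat.card (NN G m) : ℤ) • z - Av m z := by
  haveI : Fintype (NN G m) := Fintype.ofFinite _
  have h : ∀ g : NN G m, ∃ u, bd (gop m) (k + 1) u = z - Cj (g : G) z :=
    fun g => trivial_action m g.2 z hz
  choose u hu using h
  refine ⟨∑ g, u g, ?_⟩
  rw [map_sum, Av_apply]
  simp only [hu]
  rw [Finset.sum_sub_distrib, Finset.sum_const, Finset.card_univ, Nat.card_eq_fintype_card]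
  simp

lemma bd_Av (m : ℤ) {k : ℕ} (z : Ch G (k + 1)) :
    bd (gop m) k (Av m z) = Av m (bd (gop m) k z) := by
  have : Fintype (NN G m) := Fintype.ofFinite _
  rw [Av_apply, Av_apply, map_sum]
  exact Finset.sum_congr rfl (fun g _ => bd_Cj m _ z)

/-- On an invariant chain the boundary acts on all but the last letter. -/
lemma bd_inv (m : ℤ) {k : ℕ} (w : Ch G (k + 2)) (hw : ∀ h ∈ NN G m, Cj h w = w) :
    bd (gop m) (k + 1) w = ∑ x, s x (bd (gop m) k (co x w)) := by
  conv_lhs => rw [sum_s_co w]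
  rw [map_sum]
  refine Finset.sum_congr rfl (fun x _ => ?_)
  have h1 : Cj (x ^ m) (co x w) = co x w := by
    have h2 := co_Cj (x ^ m) x w
    rw [hw _ (pow_mem_NN m x)] at h2
    have h3 : cj (x ^ m) x = x := by rw [← gop_eq, gop_self]
    rw [h3] at h2
    exact h2.symm
  rw [bd_sg, h1, sub_self, smul_zero, add_zero]

/-- Cycles, with everything a cycle in degree `0`. -/
def IsCy (m : ℤ) : {k : ℕ} → Ch G k → Prop
  | 0, _ => True
  | (k + 1), z => bd (gop m) k z = 0

/-- The orbit of a letter. -/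
def orbN (m : ℤ) (a : G) : Set G := {b | ∃ g ∈ NN G m, b = cj g a}

omit [Fintype G] in
lemma orbN_cj (m : ℤ) {g : G} (hg : g ∈ NN G m) (a : G) : orbN m (cj g a) = orbN m a := by
  ext b
  constructor
  · rintro ⟨h, hh, rfl⟩
    exact ⟨g * h, (NN G m).mul_mem hg hh, (cj_mul g h a).symm⟩
  · rintro ⟨h, hh, rfl⟩
    refine ⟨g⁻¹ * h, (NN G m).mul_mem ((NN G m).inv_mem hg) hh, ?_⟩
    rw [cj_mul, cj_inv_cj]

omit [Fintype G] in
lemma orbN_eq (m : ℤ) {a b : G} (h : orbN m a = orbN m b) : ∃ g ∈ NN G m, a = cj g b := by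
  have : a ∈ orbN m a := ⟨1, (NN G m).one_mem, (cj_one a).symm⟩
  rw [h] at this
  exact this

omit [Fintype G] in
lemma mp_orbN_Cj (m : ℤ) {k : ℕ} {g : G} (hg : g ∈ NN G m) (z : Ch G k) :
    mp (orbN m) (Cj g z) = mp (orbN m) z := by
  rw [mp_mp]
  have : (fun x => orbN m (cj g x)) = orbN m := funext (orbN_cj m hg)
  rw [this]

lemma mp_orbN_Av (m : ℤ) {k : ℕ} (z : Ch G k) (hz : mp (orbN m) z = 0) :
    mp (orbN m) (Av m z) = 0 := by
  haveI : Fintype (NN G m) := Fintype.ofFinite _
  rw [Av_apply, map_sum]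
  refine Finset.sum_eq_zero (fun g _ => ?_)
  rw [mp_orbN_Cj m g.2, hz]

/-- A cycle whose orbit words vanish is torsion. -/
theorem torsion_of_orb (m : ℤ) : ∀ {k : ℕ} (z : Ch G k), IsCy m z → mp (orbN m) z = 0 →
    ∃ M : ℤ, M ≠ 0 ∧ ∃ u, bd (gop m) k u = M • z
  | 0, z, _, h => by
    have hz : z = single (fun i : Fin 0 => i.elim0) (z (fun i : Fin 0 => i.elim0)) := by
      refine Finsupp.ext (fun w => ?_)
      have : w = fun i : Fin 0 => i.elim0 := funext (fun i => i.elim0)
      rw [this]; simp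
    have hz0 : z = 0 := by
      rw [hz] at h ⊢
      rw [mp_single] at h
      have := Finsupp.single_eq_zero.mp h
      rw [this]; simp
    exact ⟨1, one_ne_zero, 0, by rw [hz0]; simp⟩
  | (k + 1), z, hz, hπ => by
    classical
    haveI : Fintype (NN G m) := Fintype.ofFinite _
    have hz' : bd (gop m) k z = 0 := hz
    set w : Ch G (k + 1) := Av m z with hw
    have hwinv : ∀ h ∈ NN G m, Cj h w = w := fun h hh => Cj_Av m z hh
    have hwbd : bd (gop m) k w = 0 := by rw [hw, bd_Av, hz', map_zero]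
    have hwπ : mp (orbN m) w = 0 := mp_orbN_Av m z hπ
    have hco : ∀ h ∈ NN G m, ∀ x, co (cj h x) w = Cj h (co x w) := by
      intro h hh x
      rw [← co_Cj, hwinv h hh]
    -- the components are cycles
    have hcy : ∀ x, IsCy m (co x w) := by
      intro x
      cases k with
      | zero => trivial
      | succ k =>
        show bd (gop m) k (co x w) = 0
        have h1 := bd_inv m w hwinv
        rw [hwbd] at h1
        have h2 := congrArg (co x) h1
        rw [map_zero, co_sum] at h2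
        exact h2.symm
    -- the components have vanishing orbit words
    have hcπ : ∀ x, mp (orbN m) (co x w) = 0 := by
      intro x
      have h1 : mp (orbN m) w = ∑ y, s (orbN m y) (mp (orbN m) (co y w)) := by
        conv_lhs => rw [sum_s_co w]
        rw [map_sum]
        exact Finset.sum_congr rfl (fun y _ => mp_s _ _ _)
      have h2 := congrArg (co (orbN m x)) (hwπ.symm.trans h1)
      rw [map_zero, map_sum] at h2
      have h3 : ∀ y, co (orbN m x) (s (orbN m y) (mp (orbN m) (co y w))) =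
          if orbN m y = orbN m x then mp (orbN m) (co x w) else 0 := by
        intro y
        by_cases hy : orbN m y = orbN m x
        · obtain ⟨g, hg, rfl⟩ := orbN_eq m hy
          rw [if_pos hy, hy, co_s_same, hco g hg, mp_orbN_Cj m hg]
        · rw [if_neg hy]
          exact co_s_ne (fun h => hy h.symm) _
      simp only [h3] at h2
      rw [← Finset.sum_filter, Finset.sum_const] at h2
      have hcard : (Finset.univ.filter (fun y => orbN m y = orbN m x)).card ≠ 0 := by
        rw [Finset.card_ne_zero]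
        exact ⟨x, by simp⟩
      exact (smul_eq_zero.mp h2.symm).resolve_left hcard
    have ih : ∀ x, ∃ M : ℤ, M ≠ 0 ∧ ∃ u, bd (gop m) k u = M • co x w :=
      fun x => torsion_of_orb m (co x w) (hcy x) (hcπ x)
    choose M hM u hu using ih
    set P : ℤ := ∏ x, M x with hP
    have hP0 : P ≠ 0 := Finset.prod_ne_zero_iff.mpr (fun x _ => hM x)
    have hv : ∀ x, ∃ v, bd (gop m) k v = P • co x w := by
      intro x
      refine ⟨(∏ y ∈ Finset.univ.erase x, M y) • u x, ?_⟩
      rw [map_smul, hu, smul_smul, hP, mul_comm, Finset.mul_prod_erase _ _ (Finset.mem_univ x)]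
    choose v hv using hv
    set V : Ch G (k + 2) := ∑ x, s x (v x) with hV
    set c : ℤ := (Nat.card (NN G m) : ℤ) with hc
    have hc0 : c ≠ 0 := by
      rw [hc, Nat.card_eq_fintype_card]
      exact_mod_cast Fintype.card_ne_zero
    have hAV : bd (gop m) (k + 1) (Av m V) = (c * P) • w := by
      rw [bd_inv m (Av m V) (fun h hh => Cj_Av m V hh)]
      conv_rhs => rw [sum_s_co w]
      rw [Finset.smul_sum]
      refine Finset.sum_congr rfl (fun x _ => ?_)
      rw [← map_smul]
      congr 1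
      rw [Av_apply, map_sum, map_sum]
      have h1 : ∀ g : NN G m, bd (gop m) k (co x (Cj (g : G) V)) = P • co x w := by
        intro g
        have hx : x = cj (g : G) (cj (g : G)⁻¹ x) := (cj_cj_inv _ _).symm
        have h2 : co x (Cj (g : G) V) = Cj (g : G) (v (cj (g : G)⁻¹ x)) := by
          conv_lhs => rw [hx]
          rw [co_Cj, hV, co_sum]
        rw [h2, bd_Cj, hv, map_smul, ← hco g g.2, ← hx]
      simp only [h1]
      rw [Finset.sum_const, Finset.card_univ, hc, Nat.card_eq_fintype_card, mul_smul]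
      simp
    obtain ⟨u', hu'⟩ := Av_homologous m z hz'
    refine ⟨c * P * c, mul_ne_zero (mul_ne_zero hc0 hP0) hc0, (c * P) • u' + Av m V, ?_⟩
    rw [map_add, map_smul, hu', hAV, smul_sub, smul_smul, ← hc, ← hw]
    abel

end Fin

end Pool.Agent.Lib.MP_813e56_al
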