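import Pool.Agent.Lib.MP_813e56_al.Tor

/-!
The six-letter quandles with acting transpositions: cycles of order three and cocycles.
-/

open Finsupp

namespace Pool.Agent.Lib.MP_813e56_al

/-- The six-letter quandles of `𝔖_3^m` for odd `m`: the letters `3`, `4`, `5` are the
transpositions; the three-cycles `1`, `2` act (by a rotation) only if `η` is true. -/
def opO (η : Bool) (i j : Fin 6) : Fin 6 :=
  if j = 3 then ![0, 2, 1, 3, 5, 4] i
  else if j = 4 then ![0, 2, 1, 5, 4, 3] i
  else if j = 5 then ![0, 2, 1, 4, 3, 5] i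
  else if η = true ∧ j = 1 then ![0, 1, 2, 4, 5, 3] i
  else if η = true ∧ j = 2 then ![0, 1, 2, 5, 3, 4] i
  else i

/-- The three orbits. -/
def ob3 : Fin 6 → Fin 3 := ![0, 1, 1, 2, 2, 2]

/-- The cocycle. -/
def phi (η : Bool) (x y : Fin 6) : ZMod 3 :=
  if x = 1 ∧ y = 4 then 1
  else if x = 1 ∧ y = 5 then 2
  else if x = 2 ∧ y = 4 then 2
  else if x = 2 ∧ y = 5 then 1
  else if η = true ∧ x = 1 ∧ y = 2 then 1
  else if η = true ∧ x = 2 ∧ y = 1 then 1
  else 0

lemma ob3_op (η : Bool) : ∀ a x : Fin 6, ob3 (opO η a x) = ob3 a := by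
  cases η <;> decide

set_option maxRecDepth 20000 in
lemma phi_cocycle (η : Bool) : ∀ x y z : Fin 6,
    phi η x y - phi η (opO η x z) (opO η y z) - phi η x z + phi η (opO η x y) z = 0 := by
  cases η <;> decide

lemma phi_self (η : Bool) : ∀ x : Fin 6, phi η x x = 0 := by
  cases η <;> decide

/-- The action of the letter `x` on chains. -/
noncomputable abbrev Ac (η : Bool) {k : ℕ} (x : Fin 6) : Ch (Fin 6) k →ₗ[ℤ] Ch (Fin 6) k :=
  mp (fun a => opO η a x)

variable {k : ℕ} (η : Bool)

lemma bsA (x : Fin 6) (v : Ch (Fin 6) (k + 1)) :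
    bd (opO η) (k + 1) (s x v) = s x (bd (opO η) k v) + (-1 : ℤ) ^ k • (v - Ac η x v) :=
  bd_s _ x v

lemma opO_dist : ∀ a b c : Fin 6, opO η (opO η a b) c = opO η (opO η a c) (opO η b c) := by
  cases η <;> decide

lemma bAc (x : Fin 6) (v : Ch (Fin 6) (k + 1)) :
    bd (opO η) k (Ac η x v) = Ac η x (bd (opO η) k v) :=
  (mp_bd (opO η) (op' := opO η) (fun a => opO η a x) (fun a b => opO_dist η a b x) v).symm

lemma Ac12 (v : Ch (Fin 6) k) : Ac η 1 (Ac η 2 v) = v := by
  rw [mp_mp]
  exact mp_congr_id (by cases η <;> decide) v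

lemma Ac33 (v : Ch (Fin 6) k) : Ac η 3 (Ac η 3 v) = v := by
  rw [mp_mp]
  exact mp_congr_id (by cases η <;> decide) v

lemma Ac0 (v : Ch (Fin 6) k) : Ac η 0 v = v := mp_congr_id (by cases η <;> decide) v

/-- The chain maps that append a letter of a given orbit. -/
noncomputable def Th (k : ℕ) : Fin 3 → (Ch (Fin 6) k →ₗ[ℤ] Ch (Fin 6) (k + 1)) :=
  ![s 0, s 2 + (s 1).comp (Ac η 2), (s 3).comp (LinearMap.id + Ac η 3)]

lemma Th0 (v : Ch (Fin 6) k) : Th η k 0 v = s 0 v := rfl
lemma Th1 (v : Ch (Fin 6) k) : Th η k 1 v = s 2 v + s 1 (Ac η 2 v) := rfl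
lemma Th2 (v : Ch (Fin 6) k) : Th η k 2 v = s 3 (v + Ac η 3 v) := rfl

lemma bTh (o : Fin 3) (v : Ch (Fin 6) (k + 1)) :
    bd (opO η) (k + 1) (Th η (k + 1) o v) = Th η k o (bd (opO η) k v) := by
  fin_cases o
  · show bd (opO η) (k + 1) (Th η (k + 1) 0 v) = Th η k 0 (bd (opO η) k v)
    rw [Th0, Th0, bsA, Ac0, sub_self, smul_zero, add_zero]
  · show bd (opO η) (k + 1) (Th η (k + 1) 1 v) = Th η k 1 (bd (opO η) k v)
    rw [Th1, Th1, map_add, bsA, bsA, bAc, Ac12]
    module
  · show bd (opO η) (k + 1) (Th η (k + 1) 2 v) = Th η k 2 (bd (opO η) k v)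
    rw [Th2, Th2, bsA]
    simp only [map_add, bAc, Ac33]
    module

/-- The pattern starts with the orbit of the identity. -/
def E0 (c : List (Fin 3)) : Prop := c.getLast? = some 0

lemma E0_cons {o : Fin 3} {c : List (Fin 3)} (h : E0 (o :: c)) (hc : c ≠ []) : E0 c := by
  cases c with
  | nil => exact (hc rfl).elim
  | cons a c => simpa [E0] using h

/-- The functional of a pattern. -/
noncomputable def Fc (c : List (Fin 3)) : LC (Fin 6) →ₗ[ℤ] ZMod 3 := (ph (phi η)).comp (Pc ob3 c)

lemma Fc_apply (c : List (Fin 3)) (v : LC (Fin 6)) : Fc η c v = ph (phi η) (Pc ob3 c v) := rfl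

lemma Fc_lbd (c : List (Fin 3)) (v : LC (Fin 6)) : Fc η c (lbd (opO η) v) = 0 := by
  have h := lbd_Pc ob3 (opO η) (ob3_op η) c v
  have h1 : ph (phi η) (lbd (opO η) (Pc ob3 c v)) = 0 :=
    ph_lbd (opO η) (phi η) (phi_cocycle η) _
  rw [h, map_smul] at h1
  rw [Fc_apply]
  obtain h2 | h2 := neg_one_pow_eq_or ℤ c.length
  · simpa [h2] using h1
  · simpa [h2] using h1

lemma Fc_inv (c : List (Fin 3)) (x : Fin 6) (v : LC (Fin 6)) (hv : lbd (opO η) v = 0) :
    Fc η c (lmp (fun a => opO η a x) v) = Fc η c v := by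
  have h := Fc_lbd η c (ls x v)
  rw [lbd_ls, hv, map_zero, sub_zero, map_sub] at h
  exact (sub_eq_zero.mp h).symm

lemma Pc_ls_zero {o : Fin 3} {c : List (Fin 3)} (x : Fin 6) {v : LC (Fin 6)}
    (h2 : Pc ob3 (o :: c) v = 0) :
    Pc ob3 (o :: c) (ls x v) = (if ob3 x = o then (1 : ℤ) else 0) • Pc ob3 c v := by
  rw [Pc_ls, h2, map_zero, smul_zero, add_zero]

/-- The empty word. -/
noncomputable def pt : Ch (Fin 6) 0 := single (fun i : Fin 0 => i.elim0) 1

/-- The first cycle. -/
noncomputable def z2 : Ch (Fin 6) 2 := s 3 (s 1 pt) - s 4 (s 1 pt)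

lemma bd_z2 : bd (opO η) 1 z2 = 0 := by
  have h3 : Ac η 3 (s 1 pt) = s 2 (Ac η 3 pt) := by
    rw [mp_s]
    congr 1
  have h4 : Ac η 4 (s 1 pt) = s 2 (Ac η 4 pt) := by
    rw [mp_s]
    congr 1
  have e3 : Ac η 3 pt = pt := mp_self_ch0 _ _
  have e4 : Ac η 4 pt = pt := mp_self_ch0 _ _
  rw [z2, map_sub, bsA, bsA, bd_zero, h3, h4, e3, e4]
  simp

lemma three_z2 : ∃ u, bd (opO η) 2 u = (3 : ℤ) • z2 := by
  refine ⟨s 3 (s 4 (s 1 pt)) + s 5 (s 4 (s 1 pt)) - s 4 (s 3 (s 1 pt)) - s 5 (s 3 (s 1 pt)), ?_⟩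
  have e : ∀ x, Ac η x pt = pt := fun x => mp_self_ch0 _ _
  have a31 : Ac η 3 (s 1 pt) = s 2 pt := by rw [mp_s, e]; congr 1
  have a41 : Ac η 4 (s 1 pt) = s 2 pt := by rw [mp_s, e]; congr 1
  have a51 : Ac η 5 (s 1 pt) = s 2 pt := by rw [mp_s, e]; congr 1
  have a34 : Ac η 3 (s 4 (s 1 pt)) = s 5 (s 2 pt) := by
    rw [mp_s, a31]; congr 1
  have a54 : Ac η 5 (s 4 (s 1 pt)) = s 3 (s 2 pt) := by
    rw [mp_s, a51]; congr 1
  have a43 : Ac η 4 (s 3 (s 1 pt)) = s 5 (s 2 pt) := by
    rw [mp_s, a41]; congr 1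
  have a53 : Ac η 5 (s 3 (s 1 pt)) = s 4 (s 2 pt) := by
    rw [mp_s, a51]; congr 1
  simp only [map_add, map_sub, bsA, bd_zero, a31, a41, a34, a54, a43, a53, map_zero, z2,
    pow_zero, pow_one, one_smul]
  module

lemma Lm_z2 : Lm z2 = single [3, 1] 1 - single [4, 1] 1 := by
  rw [z2, map_sub, Lm_s, Lm_s, Lm_s, Lm_s, pt, Lm_single]
  simp

lemma PW_two (x : Fin 6) (hx : ob3 x = 2) : ∀ c, E0 c → PW ob3 [x, 1] c = 0
  | [], h => by simp [E0] at h
  | [o], h => by
    have ho : o = 0 := by simpa [E0] using h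
    subst ho
    have h1 : ob3 1 = 1 := rfl
    simp [PW, hx, h1]
  | [o, o'], h => by
    have ho : o' = 0 := by simpa [E0] using h
    subst ho
    have h1 : ob3 1 = 1 := rfl
    simp [PW, h1]
  | o :: o' :: o'' :: c, _ => by simp [PW]

lemma Pc_z2 (c : List (Fin 3)) (hc : E0 c) : Pc ob3 c (Lm z2) = 0 := by
  rw [Lm_z2, map_sub, Pc_single, Pc_single, PW_two 3 rfl c hc, PW_two 4 rfl c hc, sub_self]

lemma ph_z2 : ph (phi η) (Lm z2) = 2 := by
  rw [Lm_z2, map_sub, ph_single, ph_single]
  cases η <;> rfl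

theorem exists_z : ∀ d : List (Fin 3), (d = [] ∨ E0 d) →
    ∃ (z : Ch (Fin 6) (d.length + 2)) (v : ZMod 3), v ≠ 0 ∧
      bd (opO η) (d.length + 1) z = 0 ∧
      (∃ u, bd (opO η) (d.length + 2) u = (3 : ℤ) • z) ∧
      (∀ c, E0 c → d.length < c.length → Pc ob3 c (Lm z) = 0) ∧
      (∀ c, (c = [] ∨ E0 c) → c.length = d.length → Fc η c (Lm z) = if c = d then v else 0)
  | [], _ => by
    refine ⟨z2, 2, by decide, bd_z2 η, three_z2 η, fun c hc _ => Pc_z2 c hc,
      fun c _ hl => ?_⟩
    have : c = [] := List.length_eq_zero_iff.mp hl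
    subst this
    rw [if_pos rfl, Fc_apply, Pc_nil, ph_z2]
  | o' :: d, hd => by
    have hd' : d = [] ∨ E0 d := by
      by_cases h : d = []
      · exact Or.inl h
      · refine Or.inr (E0_cons (o := o') ?_ h)
        rcases hd with hd | hd
        · simp at hd
        · exact hd
    obtain ⟨z, v, hv, hb, ⟨u, hu⟩, hP, hF⟩ := exists_z d hd'
    -- the value of the functional on the new cycle
    have hlb : lbd (opO η) (Lm z) = 0 := by
      have := Lm_bd (opO η) z
      rw [hb, map_zero] at this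
      obtain h | h := neg_one_pow_eq_or ℤ (d.length + 1 + 1)
      · rw [h, one_smul] at this; exact this.symm
      · rw [h] at this; simpa using this.symm
    have hPA : ∀ c x, E0 c → d.length < c.length →
        Pc ob3 c (lmp (fun a => opO η a x) (Lm z)) = 0 := by
      intro c x hc hl
      rw [Pc_lmp ob3 (fun a => opO η a x) (fun a => ob3_op η a x), hP c hc hl, map_zero]
    have hP' : ∀ c, E0 c → (o' :: d).length < c.length →
        Pc ob3 c (Lm (Th η _ o' z)) = 0 := by
      intro c hc hl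
      match c, hc, hl with
      | [], hc, _ => simp [E0] at hc
      | o :: c, hc, hl =>
        have hl' : d.length < c.length := by simpa using hl
        have hne : c ≠ [] := by
          intro h; rw [h] at hl'; simp at hl'
        have hc' := E0_cons hc hne
        have hl2 : d.length < (o :: c).length := by
          rw [List.length_cons]; omega
        have q1 : ∀ x, Pc ob3 (o :: c) (ls x (Lm z)) = 0 := fun x => by
          rw [Pc_ls_zero x (hP _ hc hl2), hP c hc' hl', smul_zero]
        have q2 : ∀ x y, Pc ob3 (o :: c) (ls x (lmp (fun a => opO η a y) (Lm z))) = 0 :=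
          fun x y => by
          rw [Pc_ls_zero x (hPA _ y hc hl2), hPA c y hc' hl', smul_zero]
        fin_cases o'
        · show Pc ob3 (o :: c) (Lm (Th η _ 0 z)) = 0
          rw [Th0, Lm_s, q1]
        · show Pc ob3 (o :: c) (Lm (Th η _ 1 z)) = 0
          rw [Th1, map_add, map_add, Lm_s, Lm_s, Lm_mp, q1, q2, add_zero]
        · show Pc ob3 (o :: c) (Lm (Th η _ 2 z)) = 0
          rw [Th2, Lm_s, map_add, map_add, map_add, Lm_mp, q1, q2, add_zero]
    have hF' : ∃ v' : ZMod 3, v' ≠ 0 ∧ ∀ c, (c = [] ∨ E0 c) → c.length = (o' :: d).length →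
        Fc η c (Lm (Th η _ o' z)) = if c = o' :: d then v' else 0 := by
      refine ⟨(![1, 2, 2] : Fin 3 → ZMod 3) o' * v, ?_, ?_⟩
      · have : ∀ (o : Fin 3) (v : ZMod 3), v ≠ 0 → (![1, 2, 2] : Fin 3 → ZMod 3) o * v ≠ 0 := by
          decide
        exact this o' v hv
      · intro c hc hl
        match c, hc, hl with
        | [], _, hl => simp at hl
        | o :: c, hc, hl =>
          have hE : E0 (o :: c) := by
            rcases hc with h | h
            · simp at h
            · exact h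
          have hl' : c.length = d.length := by simpa using hl
          have hc' : c = [] ∨ E0 c := by
            by_cases h : c = []
            · exact Or.inl h
            · exact Or.inr (E0_cons hE h)
          have hl2 : d.length < (o :: c).length := by
            rw [List.length_cons]; omega
          have r1 : ∀ x, Fc η (o :: c) (ls x (Lm z)) =
              (if ob3 x = o then (1 : ℤ) else 0) • Fc η c (Lm z) := fun x => by
            rw [Fc_apply, Pc_ls_zero x (hP _ hE hl2), map_smul, Fc_apply]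
          have r2 : ∀ x y, Fc η (o :: c) (ls x (lmp (fun a => opO η a y) (Lm z))) =
              (if ob3 x = o then (1 : ℤ) else 0) • Fc η c (Lm z) := fun x y => by
            rw [Fc_apply, Pc_ls_zero x (hPA _ y hE hl2), map_smul, ← Fc_apply,
              Fc_inv η c y _ hlb]
          have hF1 := hF c hc' hl'
          have hcons : (o :: c = o' :: d) ↔ (o = o' ∧ c = d) := by simp
          have key : Fc η (o :: c) (Lm (Th η _ o' z)) =
              (![1, 2, 2] : Fin 3 → ZMod 3) o' *
                ((if o' = o then (1 : ℤ) else 0) • Fc η c (Lm z)) := by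
            fin_cases o'
            · show Fc η (o :: c) (Lm (Th η _ 0 z)) = _
              rw [Th0, Lm_s, r1]
              have : ob3 0 = 0 := rfl
              rw [this]
              simp
            · show Fc η (o :: c) (Lm (Th η _ 1 z)) = _
              rw [Th1, map_add, map_add, Lm_s, Lm_s, Lm_mp, r1, r2]
              have h1 : ob3 1 = 1 := rfl
              have h2 : ob3 2 = 1 := rfl
              rw [h1, h2]
              simp only [Fin.mk_one, Matrix.cons_val_one, Matrix.cons_val_zero]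
              ring
            · show Fc η (o :: c) (Lm (Th η _ 2 z)) = _
              rw [Th2, Lm_s, map_add, map_add, map_add, Lm_mp, r1, r2]
              have h1 : ob3 3 = 2 := rfl
              rw [h1]
              show _ = (2 : ZMod 3) * _
              rw [two_mul]
              rfl
          rw [key, hF1]
          by_cases h1 : o' = o
          · by_cases h2 : c = d
            · rw [if_pos h1, if_pos h2, if_pos (hcons.mpr ⟨h1.symm, h2⟩), one_smul]
            · rw [if_neg h2, if_neg (fun h => h2 (hcons.mp h).2)]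
              simp
          · rw [if_neg h1, if_neg (fun h => h1 (hcons.mp h).1.symm)]
            simp
    obtain ⟨v', hv', hF'⟩ := hF'
    refine ⟨Th η _ o' z, v', hv', ?_, ⟨Th η _ o' u, ?_⟩, hP', hF'⟩
    · show bd (opO η) (d.length + 1 + 1) (Th η (d.length + 1 + 1) o' z) = 0
      rw [bTh, hb, map_zero]
    · show bd (opO η) (d.length + 2 + 1) (Th η (d.length + 2 + 1) o' u) = _
      rw [bTh, hu, map_smul]
      rfl

end Pool.Agent.Lib.MP_813e56_al
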