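import Pool.Agent.Lib.MP_813e56_al.Gen
import Pool.Agent.Lib.MP_813e56_al.TorClass

/-!
The quandle of a finite group: classes of even order in every degree.
-/

open Finsupp

namespace Pool.Agent.Lib.MP_813e56_al

variable {G : Type} [Group G]

/-- The empty word. -/
noncomputable def p0 (Q : Type) : Ch Q 0 := single (fun i : Fin 0 => i.elim0) 1

/-- The kind of a letter: the identity, an element of order three, or another element. -/
noncomputable def obG (a : G) : Fin 3 := by
  classical exact if a = 1 then 0 else if orderOf a = 3 then 1 else 2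

lemma obG_one : obG (1 : G) = 0 := by simp [obG]

lemma obG_ne {a : G} (ha : a ≠ 1) : obG a ≠ 0 := by
  unfold obG
  rw [if_neg ha]
  split_ifs <;> decide

lemma obG_three {a : G} (h1 : a ≠ 1) (h3 : orderOf a = 3) : obG a = 1 := by
  unfold obG
  rw [if_neg h1, if_pos h3]

lemma obG_cj (g a : G) : obG (cj g a) = obG a := by
  have h1 : cj g a = 1 ↔ a = 1 := by
    constructor
    · intro h
      have := congrArg (cj g⁻¹) h
      rw [cj_inv_cj] at this
      rw [this]; simp [cj]
    · rintro rfl; simp [cj]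
  have h2 : orderOf (cj g a) = orderOf a := by
    have := MulEquiv.orderOf_eq (MulAut.conj g⁻¹) a
    simpa [cj, MulAut.conj_apply] using this
  by_cases ha : a = 1
  · have : cj g (1 : G) = 1 := by simp [cj]
    rw [ha, this]
  · have hb : cj g a ≠ 1 := fun h => ha (h1.mp h)
    unfold obG
    rw [if_neg ha, if_neg hb, h2]

/-- Linear placement of the second orbit. -/
noncomputable def Dv (o : Set G) : (Set G →₀ ℤ) →ₗ[ℤ] Ch (Set G) 2 :=
  Finsupp.linearCombination ℤ (fun o' => s o' (s o (p0 (Set G))))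

/-- Every letter is joined to its conjugate under `g` by a chain with given invariants. -/
def Rel (m : ℤ) (c : G → G → ZMod 2) (g : G) (δ : Set G →₀ ℤ) : Prop :=
  ∀ a : G, a ≠ 1 → ∃ L : Ch G 2,
    bd (gop m) 1 L = s a (p0 G) - s (cj g a) (p0 G) ∧
    ph (fun x y => c x (y ^ m)) (Lm L) = c a g ∧
    mp (orbN m) L = Dv (orbN m a) δ ∧
    ∀ d, E0 d → Pc obG d (Lm L) = 0

lemma PW_twoG {y a : G} (hy : y ≠ 1) (ha : a ≠ 1) : ∀ c, E0 c → PW obG [y, a] c = 0
  | [], h => by simp [E0] at h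
  | [o], h => by
    have ho : o = 0 := by simpa [E0] using h
    subst ho
    simp [PW, obG_ne hy, obG_ne ha]
  | [o, o'], h => by
    have ho : o' = 0 := by simpa [E0] using h
    subst ho
    simp [PW, obG_ne ha]
  | o :: o' :: o'' :: c, _ => by simp [PW]

section Path

variable (m : ℤ) (c : G → G → ZMod 2) (hc : ∀ a g h, c a (g * h) = c a g + c (cj g a) h)

lemma mp_p0 {Q Q' : Type} (f : Q → Q') : mp f (p0 Q) = p0 Q' := by
  rw [p0, mp_single, p0]
  congr 1
  exact funext (fun i => i.elim0)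

lemma Rel_gen {y : G} (hy : y ≠ 1) : Rel m c (y ^ m) (single (orbN m y) 1) := by
  intro a ha
  refine ⟨s y (s a (p0 G)), ?_, ?_, ?_, ?_⟩
  · rw [bd_sg, bd_zero, map_zero, zero_add, pow_zero, one_smul, mp_s, mp_p0]
  · rw [Lm_s, Lm_s, p0, Lm_single]
    simp [ph_single, phW]
  · rw [mp_s, mp_s, mp_p0, Dv, Finsupp.linearCombination_single, one_smul]
  · intro d hd
    rw [Lm_s, Lm_s, p0, Lm_single]
    simp only [List.ofFn_zero, List.reverse_nil, ls_single]
    rw [Pc_single]
    exact PW_twoG hy ha d hd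

include hc in
lemma c_one (a : G) : c a 1 = 0 := by
  have h := hc a 1 1
  rw [cj_one, mul_one] at h
  have h2 : c a 1 + c a 1 = c a 1 + 0 := by rw [add_zero]; exact h.symm
  exact add_left_cancel h2

include hc in
lemma Rel_one : Rel m c 1 0 := by
  intro a _
  refine ⟨0, ?_, ?_, ?_, ?_⟩
  · rw [map_zero, cj_one, sub_self]
  · rw [map_zero, map_zero, c_one c hc]
  · rw [map_zero, map_zero]
  · intro d _
    rw [map_zero, map_zero]

lemma cj_ne_one {g a : G} (ha : a ≠ 1) : cj g a ≠ 1 := by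
  intro h
  apply ha
  have := congrArg (cj g⁻¹) h
  rw [cj_inv_cj] at this
  rw [this]; simp [cj]

include hc in
lemma Rel_mul {g h : G} {δ δ' : Set G →₀ ℤ} (hg : g ∈ NN G m) (h1 : Rel m c g δ)
    (h2 : Rel m c h δ') : Rel m c (g * h) (δ + δ') := by
  intro a ha
  obtain ⟨L, b1, f1, p1, q1⟩ := h1 a ha
  obtain ⟨L', b2, f2, p2, q2⟩ := h2 (cj g a) (cj_ne_one ha)
  refine ⟨L + L', ?_, ?_, ?_, ?_⟩
  · rw [map_add, b1, b2, cj_mul]; abel
  · rw [map_add, map_add, f1, f2, hc]
  · rw [map_add, p1, p2, map_add, orbN_cj m hg]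
  · intro d hd
    rw [map_add, map_add, q1 d hd, q2 d hd, add_zero]

include hc in
lemma Rel_inv {g : G} {δ : Set G →₀ ℤ} (hg : g ∈ NN G m) (h1 : Rel m c g δ) :
    Rel m c g⁻¹ (-δ) := by
  intro a ha
  obtain ⟨L, b1, f1, p1, q1⟩ := h1 (cj g⁻¹ a) (cj_ne_one ha)
  refine ⟨-L, ?_, ?_, ?_, ?_⟩
  · rw [map_neg, b1, cj_cj_inv]; abel
  · rw [map_neg, map_neg, f1]
    have h := hc a g⁻¹ g
    rw [inv_mul_cancel, c_one c hc] at h
    exact (eq_neg_of_add_eq_zero_left h.symm).symm
  · rw [map_neg, p1, map_neg, orbN_cj m ((NN G m).inv_mem hg)]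
  · intro d hd
    rw [map_neg, map_neg, q1 d hd, neg_zero]

include hc in
lemma exists_Rel {g : G} (hg : g ∈ NN G m) : ∃ δ, Rel m c g δ := by
  refine Subgroup.closure_induction (p := fun g _ => ∃ δ, Rel m c g δ) ?_ ?_ ?_ ?_ hg
  · rintro _ ⟨y, rfl⟩
    by_cases hy : y = 1
    · subst hy
      rw [one_zpow]
      exact ⟨0, Rel_one m c hc⟩
    · exact ⟨_, Rel_gen m c hy⟩
  · exact ⟨0, Rel_one m c hc⟩
  · rintro g h hg _ ⟨δ, h1⟩ ⟨δ', h2⟩
    exact ⟨_, Rel_mul m c hc hg h1 h2⟩
  · rintro g hg ⟨δ, h1⟩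
    exact ⟨_, Rel_inv m c hc hg h1⟩

include hc in
lemma Rel_comm {g h : G} (hg : g ∈ NN G m) (hh : h ∈ NN G m) :
    Rel m c (g * h * g⁻¹ * h⁻¹) 0 := by
  obtain ⟨δ, h1⟩ := exists_Rel m c hc hg
  obtain ⟨δ', h2⟩ := exists_Rel m c hc hh
  have h3 := Rel_mul m c hc hg h1 h2
  have hgh := (NN G m).mul_mem hg hh
  have h4 := Rel_mul m c hc hgh h3 (Rel_inv m c hc hg h1)
  have h5 := Rel_mul m c hc ((NN G m).mul_mem hgh ((NN G m).inv_mem hg)) h4
    (Rel_inv m c hc hh h2)
  have : δ + δ' + -δ + -δ' = 0 := by abel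
  rwa [this] at h5

end Path

/-! ### Chain maps that append a letter -/

lemma Cj_comp_pow {k : ℕ} {g : G} (h3 : g * g * g = 1) (v : Ch G k) :
    Cj g (Cj g (Cj g v)) = v := by
  rw [← Cj_mul, ← Cj_mul, ← mul_assoc, h3, Cj_one]

/-- Append the letter `y` after a sum over three conjugates. -/
noncomputable def ThG (m : ℤ) (y : G) (k : ℕ) : Ch G k →ₗ[ℤ] Ch G (k + 1) :=
  (s y).comp (LinearMap.id + Cj (y ^ m) + (Cj (y ^ m)).comp (Cj (y ^ m)))

lemma ThG_apply (m : ℤ) (y : G) {k : ℕ} (v : Ch G k) :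
    ThG m y k v = s y (v + Cj (y ^ m) v + Cj (y ^ m) (Cj (y ^ m) v)) := rfl

lemma bd_ThG (m : ℤ) {y : G} (h3 : y ^ m * y ^ m * y ^ m = 1) {k : ℕ} (v : Ch G (k + 1)) :
    bd (gop m) (k + 1) (ThG m y (k + 1) v) = ThG m y k (bd (gop m) k v) := by
  rw [ThG_apply, ThG_apply, bd_sg]
  simp only [map_add, bd_Cj, Cj_comp_pow h3]
  module

lemma bd_s_one (m : ℤ) {k : ℕ} (v : Ch G (k + 1)) :
    bd (gop m) (k + 1) (s 1 v) = s 1 (bd (gop m) k v) := by
  rw [bd_sg, one_zpow, Cj_one, sub_self, smul_zero, add_zero]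

/-- The alternating pattern. -/
def alto (n : ℕ) : Fin 3 := if n % 2 = 0 then 0 else 1

/-- The alternating pattern of length `n`. -/
def altp : ℕ → List (Fin 3)
  | 0 => []
  | (n + 1) => alto n :: altp n

lemma altp_length : ∀ n, (altp n).length = n
  | 0 => rfl
  | (n + 1) => by rw [altp, List.length_cons, altp_length n]

lemma altp_E0 : ∀ n, E0 (altp (n + 1))
  | 0 => rfl
  | (n + 1) => by
    have h := altp_E0 n
    rw [altp, altp, E0, List.getLast?_cons_cons]
    rw [altp] at h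
    exact h

lemma alto_ne (n : ℕ) : alto (n + 1) ≠ alto n := by
  unfold alto
  split_ifs <;> omega

lemma altp_Alt : ∀ n, Alt (altp n)
  | 0 => trivial
  | 1 => trivial
  | (n + 2) => ⟨alto_ne n, altp_Alt (n + 1)⟩

/-- The functional. -/
noncomputable def FcG (φ : G → G → ZMod 2) (d : List (Fin 3)) : LC G →ₗ[ℤ] ZMod 2 :=
  (ph φ).comp (Pc obG d)

lemma FcG_apply (φ : G → G → ZMod 2) (d : List (Fin 3)) (v : LC G) :
    FcG φ d v = ph φ (Pc obG d v) := rfl

/-- The cocycle condition on letters. -/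
def Coc (m : ℤ) (φ : G → G → ZMod 2) : Prop :=
  ∀ x y z, φ x y - φ (gop m x z) (gop m y z) - φ x z + φ (gop m x y) z = 0

lemma coc_of (m : ℤ) (c : G → G → ZMod 2)
    (hc : ∀ a g h, c a (g * h) = c a g + c (cj g a) h) : Coc m (fun x y => c x (y ^ m)) := by
  intro x y z
  have e1 := hc x (y ^ m) (z ^ m)
  have e2 := hc x (z ^ m) ((gop m y z) ^ m)
  have e3 : z ^ m * (gop m y z) ^ m = y ^ m * z ^ m := by
    rw [gop_eq, cj_pow, cj]
    group
  rw [e3] at e2
  rw [← gop_eq] at e1 e2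
  have : c x (y ^ m) + c (gop m x y) (z ^ m) =
      c x (z ^ m) + c (gop m x z) ((gop m y z) ^ m) := e1.symm.trans e2
  linear_combination this

lemma FcG_lbd (m : ℤ) (φ : G → G → ZMod 2) (hφ : Coc m φ) (d : List (Fin 3)) (v : LC G) :
    FcG φ d (lbd (gop m) v) = 0 := by
  have h := lbd_Pc obG (gop m) (fun a x => by rw [gop_eq, obG_cj]) d v
  have h1 : ph φ (lbd (gop m) (Pc obG d v)) = 0 := ph_lbd _ _ hφ _
  rw [h, map_smul] at h1
  rw [FcG_apply]
  obtain h2 | h2 := neg_one_pow_eq_or ℤ d.length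
  · simpa [h2] using h1
  · simpa [h2] using h1

/-- A cycle of degree two to start from. -/
def Base (m : ℤ) (φ : G → G → ZMod 2) : Prop :=
  ∃ L : Ch G 2, bd (gop m) 1 L = 0 ∧ mp (orbN m) L = 0 ∧
    (∀ d, E0 d → Pc obG d (Lm L) = 0) ∧ ph φ (Lm L) = 1

lemma base_of (m : ℤ) (c : G → G → ZMod 2)
    (hc : ∀ a g h, c a (g * h) = c a g + c (cj g a) h)
    {x g h : G} (hx : x ≠ 1) (hg : g ∈ NN G m) (hh : h ∈ NN G m)
    (hfix : cj (g * h * g⁻¹ * h⁻¹) x = x) (hval : c x (g * h * g⁻¹ * h⁻¹) = 1) :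
    Base m (fun x y => c x (y ^ m)) := by
  obtain ⟨L, b, f, p, q⟩ := Rel_comm m c hc hg hh x hx
  refine ⟨L, ?_, ?_, q, ?_⟩
  · rw [b, hfix, sub_self]
  · rw [p, map_zero]
  · rw [f, hval]

theorem exists_zG [Fintype G] (m : ℤ) (φ : G → G → ZMod 2) (hφ : Coc m φ) {y : G} (hy : y ≠ 1)
    (hy3 : y ^ 3 = 1) (hbase : Base m φ) :
    ∀ n : ℕ, ∃ z : Ch G (n + 2), bd (gop m) (n + 1) z = 0 ∧ mp (orbN m) z = 0 ∧
      (∀ d, E0 d → n < d.length → Pc obG d (Lm z) = 0) ∧ FcG φ (altp n) (Lm z) = 1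
  | 0 => by
    obtain ⟨L, b, p, q, f⟩ := hbase
    refine ⟨L, b, p, fun d hd _ => q d hd, ?_⟩
    rw [FcG_apply, altp, Pc_nil, f]
  | (n + 1) => by
    obtain ⟨z, hb, hp, hP, hF⟩ := exists_zG m φ hφ hy hy3 hbase n
    have ho3 : orderOf y = 3 := by
      have : Fact (Nat.Prime 3) := ⟨Nat.prime_three⟩
      exact orderOf_eq_prime hy3 hy
    have h3 : y ^ m * y ^ m * y ^ m = 1 := by
      have : y ^ m * y ^ m * y ^ m = (y ^ 3) ^ m := by
        rw [← zpow_natCast y 3, ← zpow_mul, ← zpow_add, ← zpow_add]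
        congr 1
        push_cast
        ring
      rw [this, hy3, one_zpow]
    have hlb : lbd (gop m) (Lm z) = 0 := by
      have := Lm_bd (gop m) z
      rw [hb, map_zero] at this
      obtain h | h := neg_one_pow_eq_or ℤ (n + 1 + 1)
      · rw [h, one_smul] at this; exact this.symm
      · rw [h] at this; simpa using this.symm
    have hobc : ∀ g a : G, obG (cj g a) = obG a := obG_cj
    have hPC : ∀ d g, E0 d → n < d.length → Pc obG d (lmp (cj g) (Lm z)) = 0 := by
      intro d g hd hl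
      rw [Pc_lmp obG (cj g) (fun a => hobc g a), hP d hd hl, map_zero]
    have hPC2 : ∀ d g, E0 d → n < d.length → Pc obG d (lmp (cj g) (lmp (cj g) (Lm z))) = 0 := by
      intro d g hd hl
      rw [Pc_lmp obG (cj g) (fun a => hobc g a), hPC d g hd hl, map_zero]
    have hinv : ∀ d (v : LC G), lbd (gop m) v = 0 →
        FcG φ d (lmp (cj (y ^ m)) v) = FcG φ d v := by
      intro d v hv
      have h := FcG_lbd m φ hφ d (ls y v)
      have hcj : (fun a => gop m a y) = cj (y ^ m) := funext (fun a => gop_eq m a y)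
      rw [lbd_ls, hv, map_zero, sub_zero, map_sub, hcj] at h
      exact (sub_eq_zero.mp h).symm
    have hlb2 : lbd (gop m) (lmp (cj (y ^ m)) (Lm z)) = 0 := by
      have h1 : bd (gop m) (n + 1) (Cj (y ^ m) z) = 0 := by rw [bd_Cj, hb, map_zero]
      have := Lm_bd (gop m) (Cj (y ^ m) z)
      rw [h1, map_zero, Lm_mp] at this
      obtain h | h := neg_one_pow_eq_or ℤ (n + 1 + 1)
      · rw [h, one_smul] at this; exact this.symm
      · rw [h] at this; simpa using this.symm
    have hlen : n < (altp (n + 1)).length := by rw [altp_length]; omega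
    by_cases hpar : n % 2 = 0
    · -- append the identity
      refine ⟨s 1 z, ?_, ?_, ?_, ?_⟩
      · show bd (gop m) (n + 1 + 1) (s 1 z) = 0
        rw [bd_s_one, hb, map_zero]
      · rw [mp_s, hp, map_zero]
      · intro d hd hl
        match d, hd, hl with
        | [], hd, _ => simp [E0] at hd
        | o :: d, hd, hl =>
          have hl' : n < d.length := by rw [List.length_cons] at hl; omega
          have hne : d ≠ [] := by
            intro h; rw [h] at hl'; simp at hl'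
          have hl2 : n < (o :: d).length := by rw [List.length_cons]; omega
          rw [Lm_s, Pc_ls, hP _ hd hl2, hP d (E0_cons hd hne) hl', map_zero, smul_zero,
            smul_zero, add_zero]
      · have ho : alto n = 0 := by rw [alto, if_pos hpar]
        rw [Lm_s, FcG_apply]
        have e0 : E0 (alto n :: altp n) := altp_E0 n
        have hP1 : Pc obG (alto n :: altp n) (Lm z) = 0 := hP _ e0 hlen
        rw [altp, Pc_ls, hP1, map_zero, smul_zero, add_zero, ho, obG_one, if_pos rfl, one_smul,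
          ← FcG_apply, hF]
    · refine ⟨ThG m y _ z, ?_, ?_, ?_, ?_⟩
      · show bd (gop m) (n + 1 + 1) (ThG m y (n + 1 + 1) z) = 0
        rw [bd_ThG m h3, hb, map_zero]
      · rw [ThG_apply, mp_s]
        simp only [map_add, mp_orbN_Cj m (pow_mem_NN m y), hp, map_zero, add_zero]
      · intro d hd hl
        match d, hd, hl with
        | [], hd, _ => simp [E0] at hd
        | o :: d, hd, hl =>
          have hl' : n < d.length := by rw [List.length_cons] at hl; omega
          have hne : d ≠ [] := by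
            intro h; rw [h] at hl'; simp at hl'
          have hl2 : n < (o :: d).length := by rw [List.length_cons]; omega
          have hd' := E0_cons hd hne
          rw [ThG_apply, Lm_s, Pc_ls]
          simp only [map_add, Lm_mp, hP _ hd hl2, hP d hd' hl', hPC _ _ hd hl2, hPC d _ hd' hl',
            hPC2 _ _ hd hl2, hPC2 d _ hd' hl', add_zero, smul_zero, map_zero]
      · have ho : alto n = 1 := by rw [alto, if_neg hpar]
        have e0 : E0 (alto n :: altp n) := altp_E0 n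
        have hP1 : Pc obG (alto n :: altp n) (Lm z) = 0 := hP _ e0 hlen
        have hP2 : Pc obG (alto n :: altp n) (lmp (cj (y ^ m)) (Lm z)) = 0 := hPC _ _ e0 hlen
        have hP3 : Pc obG (alto n :: altp n) (lmp (cj (y ^ m)) (lmp (cj (y ^ m)) (Lm z))) = 0 :=
          hPC2 _ _ e0 hlen
        have hoy : obG y = 1 := obG_three hy ho3
        rw [ThG_apply, Lm_s, FcG_apply, altp, Pc_ls]
        simp only [map_add, Lm_mp, hP1, hP2, hP3, add_zero, map_zero, smul_zero]
        rw [ho, hoy, if_pos rfl]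
        simp only [one_smul, map_add]
        rw [← FcG_apply, ← FcG_apply, ← FcG_apply, hinv _ _ hlb2, hinv _ _ hlb, hF]
        decide

end Pool.Agent.Lib.MP_813e56_al
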