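import Pool.Agent.Lib.MP_813e56_al.GenClass

/-!
Elements of order two in the quandle homology of `𝔖_n^m`.
-/

open Finsupp

namespace Pool.Agent.Lib.MP_813e56_al

/-! ### From a class to an element of order two -/

lemma exists_order_two {H : Type} [AddCommGroup H] (x : H) (M : ℤ) (hM : M ≠ 0)
    (hx : M • x = 0) (F : H →+ ZMod 2) (hF : F x = 1) : ∃ y : H, addOrderOf y = 2 := by
  have hfin : IsOfFinAddOrder x := by
    rw [isOfFinAddOrder_iff_zsmul_eq_zero]
    exact ⟨M, hM, hx⟩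
  have hpos : 0 < addOrderOf x := hfin.addOrderOf_pos
  have h0 : (addOrderOf x) • x = 0 := addOrderOf_nsmul_eq_zero x
  have h1 : F ((addOrderOf x) • x) = 0 := by rw [h0, map_zero]
  rw [map_nsmul, hF, nsmul_one] at h1
  have h2 : 2 ∣ addOrderOf x := (ZMod.natCast_eq_zero_iff _ _).mp h1
  obtain ⟨k, hk⟩ := h2
  refine ⟨k • x, ?_⟩
  have hk0 : 0 < k := by omega
  have : Fact (Nat.Prime 2) := ⟨Nat.prime_two⟩
  refine addOrderOf_eq_prime ?_ ?_
  · rw [smul_smul, ← hk, h0]
  · intro h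
    have := addOrderOf_le_of_nsmul_eq_zero hk0 h
    omega

variable {G : Type} [Group G] [Fintype G]

theorem exists_two (m : ℤ) (H : IsQuandle (gop m : G → G → G)) (φ : G → G → ZMod 2)
    (hφ : Coc m φ) (hca : ∀ a, φ a a = 0) {y : G} (hy : y ≠ 1) (hy3 : y ^ 3 = 1)
    (hbase : Base m φ) (k : ℕ) (hk : 1 ≤ k) : ∃ ξ : HQ H k, addOrderOf ξ = 2 := by
  obtain ⟨n, rfl⟩ : ∃ n, k = n + 1 := ⟨k - 1, by omega⟩
  obtain ⟨z, hb, hp, _, hF⟩ := exists_zG m φ hφ hy hy3 hbase n
  obtain ⟨M, hM, u, hu⟩ := torsion_of_orb m z (show IsCy m z from hb) hp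
  let Fn : CQ G (n + 2) →ₗ[ℤ] ZMod 2 :=
    (DD G (n + 2)).liftQ ((FcG φ (altp n)).comp Lm) (fun d hd => by
      rw [LinearMap.mem_ker]
      show ph φ (Pc obG (altp n) (Lm d)) = 0
      exact ph_DL _ (fun a => hca a) (Pc_mem_DL obG (altp_Alt n) (Lm_DD hd)))
  have hFn : ∀ w : Ch G (n + 2), Fn (Submodule.Quotient.mk w) = FcG φ (altp n) (Lm w) :=
    fun w => rfl
  let F' : HQ H (n + 1) →ₗ[ℤ] ZMod 2 :=
    Submodule.liftQ _ (Fn.comp (LinearMap.ker (dQ H (n + 1))).subtype) (by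
      rintro ⟨w, hw⟩ hr
      rw [Submodule.submoduleOf, Submodule.mem_comap] at hr
      obtain ⟨v, hv⟩ := hr
      obtain ⟨v, rfl⟩ := Submodule.Quotient.mk_surjective _ v
      rw [LinearMap.mem_ker]
      show Fn w = 0
      have : w = Submodule.Quotient.mk (bd (gop m) (n + 2) v) := by
        rw [dQ, Submodule.mapQ_apply] at hv
        exact hv.symm
      rw [this, hFn, Lm_bd, map_smul, FcG_lbd m φ hφ, smul_zero])
  have hker : (Submodule.Quotient.mk z : CQ G (n + 2)) ∈ LinearMap.ker (dQ H (n + 1)) := by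
    rw [LinearMap.mem_ker, dQ, Submodule.mapQ_apply, hb, Submodule.Quotient.mk_zero]
  let cl : HQ H (n + 1) := Submodule.Quotient.mk ⟨Submodule.Quotient.mk z, hker⟩
  refine exists_order_two cl M hM ?_ F'.toAddMonoidHom ?_
  · show M • (Submodule.Quotient.mk _ : HQ H (n + 1)) = 0
    rw [← Submodule.Quotient.mk_smul, Submodule.Quotient.mk_eq_zero, Submodule.submoduleOf,
      Submodule.mem_comap]
    refine ⟨Submodule.Quotient.mk u, ?_⟩
    rw [dQ, Submodule.mapQ_apply, hu]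
    rfl
  · exact hF

/-! ### The cocycle of the transpositions -/

section Cocycle

open Equiv Equiv.Perm

variable {n : ℕ}

lemma isSwap_cj {a : Perm (Fin n)} (ha : a.IsSwap) (g : Perm (Fin n)) : (cj g a).IsSwap := by
  obtain ⟨x, y, hxy, rfl⟩ := ha
  refine ⟨g⁻¹ x, g⁻¹ y, fun h => hxy (g⁻¹.injective h), ?_⟩
  rw [cj, Equiv.mul_swap_eq_swap_mul, inv_mul_cancel_right]

lemma isSwap_cj_iff (a g : Perm (Fin n)) : (cj g a).IsSwap ↔ a.IsSwap := by
  constructor
  · intro h
    have := isSwap_cj h g⁻¹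
    rwa [cj_inv_cj] at this
  · intro h; exact isSwap_cj h g

/-- A point moved by each transposition. -/
lemma exists_fs (hn : 0 < n) : ∃ fs : Perm (Fin n) → Fin n, ∀ a, a.IsSwap → a (fs a) ≠ fs a := by
  classical
  have h : ∀ a : Perm (Fin n), ∃ i : Fin n, a.IsSwap → a i ≠ i := by
    intro a
    by_cases ha : a.IsSwap
    · obtain ⟨x, y, hxy, rfl⟩ := ha
      exact ⟨x, fun _ => by rw [Equiv.swap_apply_left]; exact hxy.symm⟩
    · exact ⟨⟨0, hn⟩, fun h => (ha h).elim⟩
  choose f hf using h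
  exact ⟨f, hf⟩

lemma swap_two {a : Perm (Fin n)} (ha : a.IsSwap) {u v : Fin n} (hu : a u ≠ u) (hv : a v ≠ v) :
    v = u ∨ v = a u := by
  obtain ⟨x, y, hxy, rfl⟩ := ha
  have h : ∀ w, Equiv.swap x y w ≠ w → w = x ∨ w = y := by
    intro w hw
    by_contra hcon
    push Not at hcon
    exact hw (Equiv.swap_apply_of_ne_of_ne hcon.1 hcon.2)
  rcases h u hu with rfl | rfl <;> rcases h v hv with rfl | rfl
  · left; rfl
  · right; rw [Equiv.swap_apply_left]
  · right; rw [Equiv.swap_apply_right]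
  · left; rfl

lemma swap_invol {a : Perm (Fin n)} (ha : a.IsSwap) (u : Fin n) : a (a u) = u := by
  obtain ⟨x, y, hxy, rfl⟩ := ha
  simp

/-- Parity of a permutation. -/
def sg (g : Perm (Fin n)) : ZMod 2 := if Perm.sign g = 1 then 0 else 1

lemma sg_mul (g h : Perm (Fin n)) : sg (g * h) = sg g + sg h := by
  have h11 : ((-1 : ℤˣ) = 1) ↔ False := by decide
  unfold sg
  rw [Perm.sign_mul]
  rcases Int.units_eq_one_or (Perm.sign g) with h1 | h1 <;>
    rcases Int.units_eq_one_or (Perm.sign h) with h2 | h2 <;>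
    simp only [h1, h2, one_mul, mul_one, h11, if_true, if_false, add_zero, zero_add,
      neg_mul_neg] <;> decide

variable (fs : Perm (Fin n) → Fin n)

/-- Does the conjugation reverse the support? -/
def prv (a g : Perm (Fin n)) : ZMod 2 := if g⁻¹ (fs a) = fs (cj g a) then 0 else 1

lemma prv_mul (hfs : ∀ a, a.IsSwap → a (fs a) ≠ fs a) {a : Perm (Fin n)} (ha : a.IsSwap)
    (g h : Perm (Fin n)) : prv fs a (g * h) = prv fs a g + prv fs (cj g a) h := by
  unfold prv
  rw [← cj_mul]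
  set b := cj g a with hb
  set d := cj (g * h) a with hd
  have hdb : d = cj h b := by rw [hd, hb, cj_mul]
  have hbs : b.IsSwap := isSwap_cj ha g
  have hds : d.IsSwap := isSwap_cj ha (g * h)
  have moved : ∀ (p : Perm (Fin n)) (q : Perm (Fin n)) (w : Fin n), p w ≠ w →
      cj q p (q⁻¹ w) ≠ q⁻¹ w := by
    intro p q w hw hcon
    apply hw
    have h1 : cj q p (q⁻¹ w) = q⁻¹ (p w) := by simp [cj]
    rw [h1] at hcon
    exact q⁻¹.injective hcon
  have hu : b (g⁻¹ (fs a)) ≠ g⁻¹ (fs a) := moved a g (fs a) (hfs a ha)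
  have hv : d (h⁻¹ (fs b)) ≠ h⁻¹ (fs b) := by
    rw [hdb]; exact moved b h (fs b) (hfs b hbs)
  have hgh : (g * h)⁻¹ (fs a) = h⁻¹ (g⁻¹ (fs a)) := by
    rw [mul_inv_rev]; rfl
  rw [hgh]
  rcases swap_two hbs (hfs b hbs) hu with h1 | h1
  · rw [h1, if_pos rfl, zero_add]
  · have hne : g⁻¹ (fs a) ≠ fs b := by
      rw [h1]; exact hfs b hbs
    rw [if_neg hne, h1]
    have h2 : h⁻¹ (b (fs b)) = d (h⁻¹ (fs b)) := by
      rw [hdb]; simp [cj]
    rw [h2]
    rcases swap_two hds hv (hfs d hds) with h3 | h3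
    · rw [← h3, if_neg (hfs d hds), if_pos rfl, add_zero]
    · rw [if_pos h3.symm, if_neg (fun h4 => hv (h3.symm.trans h4.symm))]
      decide

/-- The cocycle: parity of the permutation induced on the complement of a transposition. -/
noncomputable def cS (a g : Perm (Fin n)) : ZMod 2 := by
  classical exact if a.IsSwap then sg g + prv fs a g else 0

lemma cS_mul (hfs : ∀ a, a.IsSwap → a (fs a) ≠ fs a) (a g h : Perm (Fin n)) :
    cS fs a (g * h) = cS fs a g + cS fs (cj g a) h := by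
  unfold cS
  by_cases ha : a.IsSwap
  · rw [if_pos ha, if_pos ha, if_pos (isSwap_cj ha g), sg_mul, prv_mul fs hfs ha]
    ring
  · rw [if_neg ha, if_neg ha, if_neg (fun h => ha ((isSwap_cj_iff a g).mp h)), add_zero]

lemma sg_one : sg (1 : Perm (Fin n)) = 0 := by simp [sg]

lemma cS_self (hfs : ∀ a, a.IsSwap → a (fs a) ≠ fs a) (m : ℤ) (a : Perm (Fin n)) :
    cS fs a (a ^ m) = 0 := by
  unfold cS
  by_cases ha : a.IsSwap
  · rw [if_pos ha]
    have haa : a * a = 1 := by
      ext u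
      simp [swap_invol ha]
    have h2 : a ^ (2 : ℤ) = 1 := by
      rw [zpow_ofNat, pow_two, haa]
    have hev : ∀ r : ℤ, a ^ (r + r) = 1 := by
      intro r
      rw [← two_mul, zpow_mul, h2, one_zpow]
    rcases Int.even_or_odd m with ⟨r, hr⟩ | ⟨r, hr⟩
    · rw [hr, hev, sg_one, zero_add, prv, cj_one, if_pos]
      rfl
    · have h1 : a ^ m = a := by
        rw [hr, zpow_add, two_mul, hev, one_mul, zpow_one]
      rw [h1]
      have hs : sg a = 1 := by
        rw [sg, ha.sign_eq, if_neg (by decide)]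
      have hcj : cj a a = a := by simp [cj]
      have hinv : a⁻¹ = a := inv_eq_of_mul_eq_one_left haa
      rw [hs, prv, hcj, hinv, if_neg (hfs a ha)]
      decide
  · rw [if_neg ha]

end Cocycle

/-! ### The symmetric groups -/

section Sym

open Equiv Equiv.Perm

/-- Two three-cycles on four points. -/
def g4 : Perm (Fin 4) := Equiv.swap 0 1 * Equiv.swap 1 2

/-- Two three-cycles on four points. -/
def h4 : Perm (Fin 4) := Equiv.swap 0 1 * Equiv.swap 1 3

lemma g4_three : g4 ^ 3 = 1 := by decide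
lemma h4_three : h4 ^ 3 = 1 := by decide
lemma g4_ne : g4 ≠ 1 := by decide
lemma comm_zero : (g4 * h4 * g4⁻¹ * h4⁻¹) 0 = 1 := by decide
lemma comm_one : (g4 * h4 * g4⁻¹ * h4⁻¹) 1 = 0 := by decide

variable {n : ℕ}

lemma mem_NN_three {m : ℤ} (hm : ¬ (6 : ℤ) ∣ m) {g : Perm (Fin n)} (hg : g ^ 3 = 1) :
    g ∈ NN (Perm (Fin n)) m := by
  by_cases h2 : (2 : ℤ) ∣ m
  · have h3 : m % 3 = 1 ∨ m % 3 = 2 := by omega
    have hg3 : g ^ (3 : ℤ) = 1 := by
      rw [zpow_ofNat]; exact hg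
    have hmod : g ^ m = g ^ (m % 3) := by
      conv_lhs => rw [← Int.emod_add_mul_ediv m 3]
      rw [zpow_add, zpow_mul, hg3, one_zpow, mul_one]
    have hmem := pow_mem_NN m g
    rcases h3 with h3 | h3
    · rw [hmod, h3, zpow_one] at hmem
      exact hmem
    · have h4 : (g ^ m)⁻¹ = g := by
        rw [hmod, h3]
        have : g ^ (2 : ℤ) * g = 1 := by
          rw [← zpow_add_one]; exact hg3
        exact inv_eq_of_mul_eq_one_right this
      rw [← h4]
      exact (NN _ m).inv_mem hmem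
  · -- odd exponent: all transpositions are in the subgroup
    have htop : NN (Perm (Fin n)) m = ⊤ := by
      rw [eq_top_iff, ← Equiv.Perm.closure_isSwap, Subgroup.closure_le]
      intro a ha
      have haa : a * a = 1 := by
        ext u
        simp [swap_invol ha]
      have h2' : a ^ (2 : ℤ) = 1 := by
        rw [zpow_ofNat, pow_two, haa]
      obtain ⟨r, hr⟩ : Odd m := by
        rw [← Int.not_even_iff_odd]
        exact fun h => h2 h.two_dvd
      have h1 : a ^ m = a := by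
        rw [hr, zpow_add, zpow_mul, h2', one_zpow, one_mul, zpow_one]
      rw [← h1]
      exact pow_mem_NN m a
    rw [htop]
    exact Subgroup.mem_top g

lemma mem_NN_of_sign {m : ℤ} (hn : 5 ≤ n) {y : Perm (Fin n)} (hy : y ^ m ≠ 1)
    {g : Perm (Fin n)} (hg : g ^ 3 = 1) : g ∈ NN (Perm (Fin n)) m := by
  have hnorm : (NN (Perm (Fin n)) m).Normal := by
    refine ⟨fun a ha b => ?_⟩
    refine Subgroup.closure_induction
      (p := fun a _ => b * a * b⁻¹ ∈ NN (Perm (Fin n)) m) ?_ ?_ ?_ ?_ ha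
    · rintro _ ⟨y, rfl⟩
      rw [← conj_zpow]
      exact pow_mem_NN m _
    · simp
    · intro x y _ _ hx hy
      have : b * (x * y) * b⁻¹ = (b * x * b⁻¹) * (b * y * b⁻¹) := by group
      rw [this]
      exact (NN _ m).mul_mem hx hy
    · intro x _ hx
      have : b * x⁻¹ * b⁻¹ = (b * x * b⁻¹)⁻¹ := by group
      rw [this]
      exact (NN _ m).inv_mem hx
  have hnt : Nontrivial (NN (Perm (Fin n)) m) := by
    refine ⟨⟨⟨y ^ m, pow_mem_NN m y⟩, 1, fun h => hy ?_⟩⟩
    exact congrArg Subtype.val h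
  have hle := Equiv.Perm.alternatingGroup_le_of_normal (α := Fin n) (by simpa using hn) hnt
  apply hle
  rw [Equiv.Perm.mem_alternatingGroup]
  have h1 : Perm.sign g ^ 3 = 1 := by rw [← map_pow, hg, map_one]
  rcases Int.units_eq_one_or (Perm.sign g) with h2 | h2
  · exact h2
  · rw [h2] at h1
    exact absurd h1 (by decide)

theorem sym_two {m : ℤ} (hn : 4 ≤ n)
    (hN : ∀ g : Perm (Fin n), g ^ 3 = 1 → g ∈ NN (Perm (Fin n)) m)
    (H : IsQuandle (gop m : Perm (Fin n) → Perm (Fin n) → Perm (Fin n))) (k : ℕ) (hk : 1 ≤ k) :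
    ∃ ξ : HQ H k, addOrderOf ξ = 2 := by
  obtain ⟨fs, hfs⟩ := exists_fs (n := n) (by omega)
  let ι : Fin 4 ↪ Fin n := Fin.castLEEmb hn
  let φ : Perm (Fin 4) →* Perm (Fin n) := Equiv.Perm.viaEmbeddingHom ι
  have hφ : ∀ (σ : Perm (Fin 4)) (i : Fin 4), φ σ (ι i) = ι (σ i) := by
    intro σ i
    show Equiv.Perm.viaEmbeddingHom ι σ (ι i) = _
    rw [Equiv.Perm.viaEmbeddingHom_apply]
    exact Equiv.Perm.viaEmbedding_apply σ ι i
  have hinj : Function.Injective φ := Equiv.Perm.viaEmbeddingHom_injective ι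
  have hg3 : (φ g4) ^ 3 = 1 := by rw [← map_pow, g4_three, map_one]
  have hh3 : (φ h4) ^ 3 = 1 := by rw [← map_pow, h4_three, map_one]
  have hy : φ g4 ≠ 1 := by
    intro h
    apply g4_ne
    apply hinj
    rw [h, map_one]
  have hcomm : φ g4 * φ h4 * (φ g4)⁻¹ * (φ h4)⁻¹ = φ (g4 * h4 * g4⁻¹ * h4⁻¹) := by
    simp only [map_mul, map_inv]
  have hι : ι 0 ≠ ι 1 := fun h => by
    have := ι.injective h
    exact absurd this (by decide)
  set x : Perm (Fin n) := Equiv.swap (ι 0) (ι 1) with hx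
  have hxs : x.IsSwap := ⟨ι 0, ι 1, hι, rfl⟩
  have hx1 : x ≠ 1 := by
    intro h
    apply hfs x hxs
    rw [h]; rfl
  set w : Perm (Fin n) := φ g4 * φ h4 * (φ g4)⁻¹ * (φ h4)⁻¹ with hw
  have hw0 : w (ι 0) = ι 1 := by rw [hcomm, hφ, comm_zero]
  have hw1 : w (ι 1) = ι 0 := by rw [hcomm, hφ, comm_one]
  have hfix : cj w x = x := by
    have h1 : w * x = x * w := by
      rw [hx, Equiv.mul_swap_eq_swap_mul, hw0, hw1, Equiv.swap_comm]
    rw [cj, mul_assoc, ← h1, inv_mul_cancel_left]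
  have hsgw : sg w = 0 := by
    have hs : Perm.sign w = 1 := by
      rw [hw]
      simp only [map_mul, map_inv]
      rcases Int.units_eq_one_or (Perm.sign (φ g4)) with h1 | h1 <;>
        rcases Int.units_eq_one_or (Perm.sign (φ h4)) with h2 | h2 <;>
        rw [h1, h2] <;> decide
    rw [sg, if_pos hs]
  have hval : cS fs x w = 1 := by
    unfold cS
    rw [if_pos hxs, hsgw, zero_add, prv, hfix]
    have hm := hfs x hxs
    have h0 : fs x = ι 0 ∨ fs x = ι 1 := by
      by_contra hcon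
      push Not at hcon
      exact hm (Equiv.swap_apply_of_ne_of_ne hcon.1 hcon.2)
    have hne : w⁻¹ (fs x) ≠ fs x := by
      intro h
      have h2 : w (fs x) = fs x := by
        rw [Equiv.Perm.inv_eq_iff_eq] at h
        exact h.symm
      rcases h0 with h0 | h0
      · rw [h0, hw0] at h2; exact hι h2.symm
      · rw [h0, hw1] at h2; exact hι h2
    rw [if_neg hne]
  exact exists_two m H _ (coc_of m (cS fs) (cS_mul fs hfs)) (cS_self fs hfs m) hy hg3
    (base_of m (cS fs) (cS_mul fs hfs) hx1 (hN _ hg3) (hN _ hh3) hfix hval) k hk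

end Sym

end Pool.Agent.Lib.MP_813e56_al
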