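import Pool.Agent.Lib.MP_813e56_al.Rank

/-!
The quandle homology of every quandle isomorphic to the six-letter one.
-/

open Finsupp

namespace Pool.Agent.Lib.MP_813e56_al

variable {Q Q' : Type}

lemma mp_DD {k : ℕ} (f : Q → Q') {d : Ch Q k} (hd : d ∈ DD Q k) : mp f d ∈ DD Q' k := by
  have : DD Q k ≤ (DD Q' k).comap (mp f) := by
    rw [DD, Submodule.span_le]
    rintro _ ⟨w, ⟨i, j, hij, hw⟩, rfl⟩
    simp only [Submodule.comap_coe, Set.mem_preimage, SetLike.mem_coe, mp_single]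
    exact mem_DD ⟨i, j, hij, congrArg f hw⟩
  exact this hd

lemma DD_apply {k : ℕ} {c : Ch Q k} (hc : c ∈ DD Q k) {w : Fin k → Q} (hw : ¬ Degen w) :
    c w = 0 := by
  have : DD Q k ≤ LinearMap.ker (Finsupp.lapply (R := ℤ) w : Ch Q k →ₗ[ℤ] ℤ) := by
    rw [DD, Submodule.span_le]
    rintro _ ⟨v, hv, rfl⟩
    have hne : v ≠ w := fun h => hw (h ▸ hv)
    simp [hne]
  exact this hc

lemma mem_DD_of_apply {k : ℕ} {c : Ch Q k} (h : ∀ w, ¬ Degen w → c w = 0) : c ∈ DD Q k := by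
  have hc : c = ∑ w ∈ c.support, c w • (single w 1 : Ch Q k) := by
    conv_lhs => rw [← Finsupp.sum_single c]
    rw [Finsupp.sum]
    refine Finset.sum_congr rfl (fun w _ => by simp)
  rw [hc]
  refine Submodule.sum_mem _ (fun w hw => Submodule.smul_mem _ _ (mem_DD ?_))
  by_contra hd
  exact (Finsupp.mem_support_iff.mp hw) (h w hd)

/-- The coefficients of a chain at the words of orbits without equal neighbours. -/
noncomputable def Phi (f : Q → Fin 4) (k : ℕ) : Ch Q k →ₗ[ℤ] (NW k → ℤ) where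
  toFun z v := mp f z v.1
  map_add' a b := by funext v; simp
  map_smul' a b := by funext v; simp

lemma Phi_apply (f : Q → Fin 4) (k : ℕ) (z : Ch Q k) (v : NW k) : Phi f k z v = mp f z v.1 := rfl

theorem main_iso {op : Q → Q → Q} (h : IsQuandle op) (e : Q ≃ Fin 6)
    (he : ∀ a b, e (op a b) = opF (e a) (e b)) (k : ℕ) :
    Nonempty (HQ h k ≃ₗ[ℤ] (Fin (4 * 3 ^ k) → ℤ)) := by
  have he' : ∀ a b, e.symm (opF a b) = op (e.symm a) (e.symm b) := by
    intro a b
    rw [Equiv.symm_apply_eq, he]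
    simp
  have horb : ∀ a b, orb (opF a b) = orb a := by decide
  let f : Q → Fin 4 := fun a => orb (e a)
  have hf : ∀ a b, f (op a b) = f a := fun a b => by
    show orb (e (op a b)) = orb (e a)
    rw [he, horb]
  let Φ : CQ Q (k + 1) →ₗ[ℤ] (NW (k + 1) → ℤ) :=
    (DD Q (k + 1)).liftQ (Phi f (k + 1)) (fun d hd => by
      rw [LinearMap.mem_ker]
      funext v
      rw [Phi_apply]
      exact DD_apply (mp_DD f hd) v.2)
  have hΦ : ∀ z : Ch Q (k + 1), Φ (Submodule.Quotient.mk z) = Phi f (k + 1) z := fun z => rfl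
  let Ψ : LinearMap.ker (dQ h k) →ₗ[ℤ] (NW (k + 1) → ℤ) :=
    Φ.comp (LinearMap.ker (dQ h k)).subtype
  have hker : LinearMap.ker Ψ =
      (LinearMap.range (dQ h (k + 1))).submoduleOf (LinearMap.ker (dQ h k)) := by
    ext ⟨z, hz⟩
    obtain ⟨z, rfl⟩ := Submodule.Quotient.mk_surjective _ z
    have hz' : bd op k z ∈ DD Q k := by
      rw [LinearMap.mem_ker, dQ, Submodule.mapQ_apply, Submodule.Quotient.mk_eq_zero] at hz
      exact hz
    rw [LinearMap.mem_ker, Submodule.submoduleOf, Submodule.mem_comap]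
    show Phi f (k + 1) z = 0 ↔
      Submodule.Quotient.mk z ∈ LinearMap.range (dQ h (k + 1))
    constructor
    · intro hΦz
      have h1 : bd opF k (mp e z) ∈ DD (Fin 6) k := by
        rw [← mp_bd op (op' := opF) e he z]
        exact mp_DD e hz'
      have h2 : mp orb (mp e z) ∈ DD (Fin 4) (k + 1) := by
        rw [mp_mp]
        refine mem_DD_of_apply (fun w hw => ?_)
        exact congrFun hΦz ⟨w, hw⟩
      obtain ⟨u, hu⟩ := rel_exact (mp e z) h1 h2
      have h3 := mp_DD e.symm hu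
      rw [map_sub, mp_mp, mp_bd opF (op' := op) e.symm he' u] at h3
      have h4 : mp (fun x => e.symm (e x)) z = z := by
        have : (fun x => e.symm (e x)) = fun x => x := funext (fun x => by simp)
        rw [this, mp_id]
      rw [h4] at h3
      refine ⟨Submodule.Quotient.mk (mp e.symm u), ?_⟩
      rw [dQ, Submodule.mapQ_apply]
      exact ((Submodule.Quotient.eq _).mpr h3).symm
    · rintro ⟨u, hu⟩
      obtain ⟨u, rfl⟩ := Submodule.Quotient.mk_surjective _ u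
      rw [dQ, Submodule.mapQ_apply] at hu
      rw [← hΦ, ← hu, hΦ]
      funext v
      rw [Phi_apply, mp_bd_inv op f hf]
      rfl
  have hfull : ∀ g : NW (k + 1) → ℤ, (3 : ℤ) ^ (k + 1) • g ∈ LinearMap.range Ψ := by
    intro g
    classical
    let G : Ch (Fin 4) (k + 1) :=
      Finsupp.equivFunOnFinite.symm (fun w => if hw : ¬ Degen w then g ⟨w, hw⟩ else 0)
    have hG : ∀ v : NW (k + 1), G v.1 = g v := by
      intro v
      show (if hw : ¬ Degen v.1 then g ⟨v.1, hw⟩ else 0) = g v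
      rw [dif_pos v.2]
      rfl
    have hb : bd op k (mp e.symm (J (k + 1) G)) = 0 := by
      rw [← mp_bd opF (op' := op) e.symm he', bd_J, map_zero]
    refine ⟨⟨Submodule.Quotient.mk (mp e.symm (J (k + 1) G)), ?_⟩, ?_⟩
    · rw [LinearMap.mem_ker, dQ, Submodule.mapQ_apply, hb, Submodule.Quotient.mk_zero]
    · show Phi f (k + 1) (mp e.symm (J (k + 1) G)) = _
      funext v
      rw [Phi_apply, mp_mp]
      have : (fun x => f (e.symm x)) = orb := by
        funext x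
        show orb (e (e.symm x)) = orb x
        simp
      rw [this, pi_J, Finsupp.smul_apply, hG]
      rfl
  obtain ⟨e2⟩ := full_rank (LinearMap.range Ψ) ((3 : ℤ) ^ (k + 1)) (by positivity) hfull _
    (card_NW k)
  exact ⟨((Submodule.quotEquivOfEq _ _ hker.symm).trans Ψ.quotKerEquivRange).trans e2⟩

/-! ### The symmetric group of degree three -/

/-- The three-cycle. -/
def cyc3 : Equiv.Perm (Fin 3) := Equiv.swap 0 1 * Equiv.swap 1 2

/-- A transposition. -/
def tr3 : Equiv.Perm (Fin 3) := Equiv.swap 0 1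

/-- The letters when `m` is `4` modulo `6`. -/
def lett4 : Fin 6 → Equiv.Perm (Fin 3) :=
  ![1, cyc3, cyc3⁻¹, tr3, cyc3⁻¹ * tr3 * cyc3, cyc3⁻¹ * (cyc3⁻¹ * tr3 * cyc3) * cyc3]

/-- The letters when `m` is `2` modulo `6`. -/
def lett2 : Fin 6 → Equiv.Perm (Fin 3) :=
  ![1, cyc3⁻¹, cyc3, tr3, cyc3⁻¹ * tr3 * cyc3, cyc3⁻¹ * (cyc3⁻¹ * tr3 * cyc3) * cyc3]

lemma lett4_bij : Function.Bijective lett4 := by decide
lemma lett2_bij : Function.Bijective lett2 := by decide

set_option maxRecDepth 20000 in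
lemma lett4_hom : ∀ i j : Fin 6,
    (lett4 j * lett4 j * lett4 j * lett4 j)⁻¹ * lett4 i *
      (lett4 j * lett4 j * lett4 j * lett4 j) = lett4 (opF i j) := by decide

set_option maxRecDepth 20000 in
lemma lett2_hom : ∀ i j : Fin 6,
    (lett2 j * lett2 j)⁻¹ * lett2 i * (lett2 j * lett2 j) = lett2 (opF i j) := by decide

set_option maxRecDepth 20000 in
lemma mul_six : ∀ y : Equiv.Perm (Fin 3), y * y * y * y * y * y = 1 := by decide

lemma pow_six (y : Equiv.Perm (Fin 3)) : y ^ (6 : ℤ) = 1 := by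
  have h : y ^ (6 : ℤ) = y * y * y * y * y * y := by
    rw [show (6 : ℤ) = ((6 : ℕ) : ℤ) from rfl, zpow_natCast]
    simp only [pow_succ, pow_zero, one_mul]
  rw [h, mul_six]

lemma zpow_mod_six (y : Equiv.Perm (Fin 3)) (m : ℤ) : y ^ m = y ^ (m % 6) := by
  conv_lhs => rw [← Int.emod_add_mul_ediv m 6]
  rw [zpow_add, zpow_mul, pow_six, one_zpow, mul_one]

theorem exists_equiv (m : ℤ) (h2 : 2 ∣ m) (h3 : ¬ (3 : ℤ) ∣ m) :
    ∃ e : Equiv.Perm (Fin 3) ≃ Fin 6, ∀ a b, e (symOp 3 m a b) = opF (e a) (e b) := by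
  have hm : m % 6 = 4 ∨ m % 6 = 2 := by omega
  rcases hm with hm | hm
  · refine ⟨(Equiv.ofBijective _ lett4_bij).symm, fun a b => ?_⟩
    obtain ⟨i, rfl⟩ := lett4_bij.2 a
    obtain ⟨j, rfl⟩ := lett4_bij.2 b
    rw [Equiv.symm_apply_eq, Equiv.ofBijective_apply]
    have hs : ∀ l, (Equiv.ofBijective _ lett4_bij).symm (lett4 l) = l := fun l =>
      Equiv.ofBijective_symm_apply_apply _ lett4_bij l
    rw [hs, hs, ← lett4_hom, symOp, zpow_neg, zpow_mod_six, hm]
    congr 1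
  · refine ⟨(Equiv.ofBijective _ lett2_bij).symm, fun a b => ?_⟩
    obtain ⟨i, rfl⟩ := lett2_bij.2 a
    obtain ⟨j, rfl⟩ := lett2_bij.2 b
    rw [Equiv.symm_apply_eq, Equiv.ofBijective_apply]
    have hs : ∀ l, (Equiv.ofBijective _ lett2_bij).symm (lett2 l) = l := fun l =>
      Equiv.ofBijective_symm_apply_apply _ lett2_bij l
    rw [hs, hs, ← lett2_hom, symOp, zpow_neg, zpow_mod_six, hm]
    congr 1

theorem symmetric_three (m : ℤ) (h2 : 2 ∣ m) (h3 : ¬ (3 : ℤ) ∣ m) (k : ℕ) :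
    Nonempty (HQ (symOp_isQuandle 3 m) k ≃ₗ[ℤ] (Fin (4 * 3 ^ k) → ℤ)) := by
  obtain ⟨e, he⟩ := exists_equiv m h2 h3
  exact main_iso (symOp_isQuandle 3 m) e he k

end Pool.Agent.Lib.MP_813e56_al
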