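import Pool.Agent.Lib.MP_813e56_al.Four

/-!
The quandle of a finite group: classes of odd prime order in every degree.
-/

open Finsupp

namespace Pool.Agent.Lib.MP_813e56_al

variable {G : Type} [Group G]

/-- The kind of a letter: the identity or another element. -/
noncomputable def obP (a : G) : Fin 3 := by
  classical exact if a = 1 then 0 else 1

lemma obP_one : obP (1 : G) = 0 := by simp [obP]

lemma obP_ne {a : G} (ha : a ≠ 1) : obP a = 1 := by
  unfold obP
  rw [if_neg ha]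

lemma obP_cj (g a : G) : obP (cj g a) = obP a := by
  by_cases ha : a = 1
  · have : cj g (1 : G) = 1 := by simp [cj]
    rw [ha, this]
  · rw [obP_ne ha, obP_ne (cj_ne_one ha)]

lemma PW_twoP {y a : G} (hy : y ≠ 1) (ha : a ≠ 1) : ∀ c, E0 c → PW obP [y, a] c = 0
  | [], h => by simp [E0] at h
  | [o], h => by
    have ho : o = 0 := by simpa [E0] using h
    subst ho
    simp [PW, obP_ne hy, obP_ne ha]
  | [o, o'], h => by
    have ho : o' = 0 := by simpa [E0] using h
    subst ho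
    simp [PW, obP_ne ha]
  | o :: o' :: o'' :: c, _ => by simp [PW]

variable {R : Type} [CommRing R]

/-- Every letter is joined to its conjugate under `g` by a chain with given invariants. -/
def RelP (m : ℤ) (c : G → G → R) (g : G) (δ : Set G →₀ ℤ) : Prop :=
  ∀ a : G, a ≠ 1 → ∃ L : Ch G 2,
    bd (gop m) 1 L = s a (p0 G) - s (cj g a) (p0 G) ∧
    ph (fun x y => c x (y ^ m)) (Lm L) = c a g ∧
    mp (orbN m) L = Dv (orbN m a) δ ∧
    ∀ d, E0 d → Pc obP d (Lm L) = 0

section Path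

variable (m : ℤ) (c : G → G → R) (hc : ∀ a g h, c a (g * h) = c a g + c (cj g a) h)

lemma RelP_gen {y : G} (hy : y ≠ 1) : RelP m c (y ^ m) (single (orbN m y) 1) := by
  intro a ha
  refine ⟨s y (s a (p0 G)), ?_, ?_, ?_, ?_⟩
  · rw [bd_sg, bd_zero, map_zero, zero_add, pow_zero, one_smul, mp_s, mp_p0]
  · rw [Lm_s, Lm_s, p0, Lm_single]
    simp [ph_single, phW]
  · rw [mp_s, mp_s, mp_p0, Dv, Finsupp.linearCombination_single, one_smul]
  · intro d hd
    rw [Lm_s, Lm_s, p0, Lm_single]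
    simp only [List.ofFn_zero, List.reverse_nil, ls_single]
    rw [Pc_single]
    exact PW_twoP hy ha d hd

include hc in
lemma cP_one (a : G) : c a 1 = 0 := by
  have h := hc a 1 1
  rw [cj_one, mul_one] at h
  have h2 : c a 1 + c a 1 = c a 1 + 0 := by rw [add_zero]; exact h.symm
  exact add_left_cancel h2

include hc in
lemma RelP_one : RelP m c 1 0 := by
  intro a _
  refine ⟨0, ?_, ?_, ?_, ?_⟩
  · rw [map_zero, cj_one, sub_self]
  · rw [map_zero, map_zero, cP_one c hc]
  · rw [map_zero, map_zero]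
  · intro d _
    rw [map_zero, map_zero]

include hc in
lemma RelP_mul {g h : G} {δ δ' : Set G →₀ ℤ} (hg : g ∈ NN G m) (h1 : RelP m c g δ)
    (h2 : RelP m c h δ') : RelP m c (g * h) (δ + δ') := by
  intro a ha
  obtain ⟨L, b1, f1, p1, q1⟩ := h1 a ha
  obtain ⟨L', b2, f2, p2, q2⟩ := h2 (cj g a) (cj_ne_one ha)
  refine ⟨L + L', ?_, ?_, ?_, ?_⟩
  · rw [map_add, b1, b2, cj_mul]; abel
  · rw [map_add, map_add, f1, f2, hc]
  · rw [map_add, p1, p2, map_add, orbN_cj m hg]
  · intro d hd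
    rw [map_add, map_add, q1 d hd, q2 d hd, add_zero]

include hc in
lemma RelP_inv {g : G} {δ : Set G →₀ ℤ} (hg : g ∈ NN G m) (h1 : RelP m c g δ) :
    RelP m c g⁻¹ (-δ) := by
  intro a ha
  obtain ⟨L, b1, f1, p1, q1⟩ := h1 (cj g⁻¹ a) (cj_ne_one ha)
  refine ⟨-L, ?_, ?_, ?_, ?_⟩
  · rw [map_neg, b1, cj_cj_inv]; abel
  · rw [map_neg, map_neg, f1]
    have h := hc a g⁻¹ g
    rw [inv_mul_cancel, cP_one c hc] at h
    exact (eq_neg_of_add_eq_zero_left h.symm).symm
  · rw [map_neg, p1, map_neg, orbN_cj m ((NN G m).inv_mem hg)]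
  · intro d hd
    rw [map_neg, map_neg, q1 d hd, neg_zero]

include hc in
lemma exists_RelP {g : G} (hg : g ∈ NN G m) : ∃ δ, RelP m c g δ := by
  refine Subgroup.closure_induction (p := fun g _ => ∃ δ, RelP m c g δ) ?_ ?_ ?_ ?_ hg
  · rintro _ ⟨y, rfl⟩
    by_cases hy : y = 1
    · subst hy
      rw [one_zpow]
      exact ⟨0, RelP_one m c hc⟩
    · exact ⟨_, RelP_gen m c hy⟩
  · exact ⟨0, RelP_one m c hc⟩
  · rintro g h hg _ ⟨δ, h1⟩ ⟨δ', h2⟩
    exact ⟨_, RelP_mul m c hc hg h1 h2⟩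
  · rintro g hg ⟨δ, h1⟩
    exact ⟨_, RelP_inv m c hc hg h1⟩

include hc in
lemma RelP_comm {g h : G} (hg : g ∈ NN G m) (hh : h ∈ NN G m) :
    RelP m c (g * h * g⁻¹ * h⁻¹) 0 := by
  obtain ⟨δ, h1⟩ := exists_RelP m c hc hg
  obtain ⟨δ', h2⟩ := exists_RelP m c hc hh
  have h3 := RelP_mul m c hc hg h1 h2
  have hgh := (NN G m).mul_mem hg hh
  have h4 := RelP_mul m c hc hgh h3 (RelP_inv m c hc hg h1)
  have h5 := RelP_mul m c hc ((NN G m).mul_mem hgh ((NN G m).inv_mem hg)) h4
    (RelP_inv m c hc hh h2)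
  have : δ + δ' + -δ + -δ' = 0 := by abel
  rwa [this] at h5

include hc in
lemma RelP_commutator {w : G} (hw : w ∈ ⁅NN G m, NN G m⁆) : w ∈ NN G m ∧ RelP m c w 0 := by
  rw [Subgroup.commutator_def] at hw
  refine Subgroup.closure_induction (p := fun g _ => g ∈ NN G m ∧ RelP m c g 0) ?_ ?_ ?_ ?_ hw
  · rintro _ ⟨g, hg, h, hh, rfl⟩
    refine ⟨?_, ?_⟩
    · rw [commutatorElement_def]
      exact (NN G m).mul_mem ((NN G m).mul_mem ((NN G m).mul_mem hg hh) ((NN G m).inv_mem hg))
        ((NN G m).inv_mem hh)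
    · rw [commutatorElement_def]
      exact RelP_comm m c hc hg hh
  · exact ⟨(NN G m).one_mem, RelP_one m c hc⟩
  · rintro g h _ _ ⟨h1, h2⟩ ⟨h3, h4⟩
    have := RelP_mul m c hc h1 h2 h4
    rw [add_zero] at this
    exact ⟨(NN G m).mul_mem h1 h3, this⟩
  · rintro g _ ⟨h1, h2⟩
    have := RelP_inv m c hc h1 h2
    rw [neg_zero] at this
    exact ⟨(NN G m).inv_mem h1, this⟩

end Path

/-! ### Chain maps that append a letter -/

/-- Append the letter `y` after a sum over two conjugates. -/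
noncomputable def ThTwo (m : ℤ) (y : G) (k : ℕ) : Ch G k →ₗ[ℤ] Ch G (k + 1) :=
  (s y).comp (LinearMap.id + Cj (y ^ m))

lemma ThTwo_apply (m : ℤ) (y : G) {k : ℕ} (v : Ch G k) :
    ThTwo m y k v = s y (v + Cj (y ^ m) v) := rfl

lemma bd_ThTwo (m : ℤ) {y : G} (h2 : y ^ m * y ^ m = 1) {k : ℕ} (v : Ch G (k + 1)) :
    bd (gop m) (k + 1) (ThTwo m y (k + 1) v) = ThTwo m y k (bd (gop m) k v) := by
  have h : ∀ u : Ch G (k + 1), Cj (y ^ m) (Cj (y ^ m) u) = u := by
    intro u
    rw [← Cj_mul, h2, Cj_one]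
  rw [ThTwo_apply, ThTwo_apply, bd_sg]
  simp only [map_add, bd_Cj, h]
  module

/-- The functional. -/
noncomputable def FcP (φ : G → G → R) (d : List (Fin 3)) : LC G →ₗ[ℤ] R :=
  (ph φ).comp (Pc obP d)

lemma FcP_apply (φ : G → G → R) (d : List (Fin 3)) (v : LC G) :
    FcP φ d v = ph φ (Pc obP d v) := rfl

/-- The cocycle condition on letters. -/
def CocP (m : ℤ) (φ : G → G → R) : Prop :=
  ∀ x y z, φ x y - φ (gop m x z) (gop m y z) - φ x z + φ (gop m x y) z = 0

lemma cocP_of (m : ℤ) (c : G → G → R)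
    (hc : ∀ a g h, c a (g * h) = c a g + c (cj g a) h) : CocP m (fun x y => c x (y ^ m)) := by
  intro x y z
  have e1 := hc x (y ^ m) (z ^ m)
  have e2 := hc x (z ^ m) ((gop m y z) ^ m)
  have e3 : z ^ m * (gop m y z) ^ m = y ^ m * z ^ m := by
    rw [gop_eq, cj_pow, cj]
    group
  rw [e3] at e2
  rw [← gop_eq] at e1 e2
  have : c x (y ^ m) + c (gop m x y) (z ^ m) =
      c x (z ^ m) + c (gop m x z) ((gop m y z) ^ m) := e1.symm.trans e2
  linear_combination this

lemma FcP_lbd (m : ℤ) (φ : G → G → R) (hφ : CocP m φ) (d : List (Fin 3)) (v : LC G) :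
    FcP φ d (lbd (gop m) v) = 0 := by
  have h := lbd_Pc obP (gop m) (fun a x => by rw [gop_eq, obP_cj]) d v
  have h1 : ph φ (lbd (gop m) (Pc obP d v)) = 0 := ph_lbd _ _ hφ _
  rw [h, map_smul] at h1
  rw [FcP_apply]
  obtain h2 | h2 := neg_one_pow_eq_or ℤ d.length
  · simpa [h2] using h1
  · simpa [h2] using h1

/-- A cycle of degree two to start from. -/
def BaseP (m : ℤ) (φ : G → G → R) : Prop :=
  ∃ L : Ch G 2, bd (gop m) 1 L = 0 ∧ mp (orbN m) L = 0 ∧
    (∀ d, E0 d → Pc obP d (Lm L) = 0) ∧ ph φ (Lm L) ≠ 0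

lemma ph_add (A B : G → G → R) (v : LC G) :
    ph (fun x y => A x y + B x y) v = ph A v + ph B v := by
  refine llin_ext (f := ph (fun x y => A x y + B x y)) (g := ph A + ph B) (fun w => ?_) v
  rw [LinearMap.add_apply, ph_single, ph_single, ph_single]
  match w with
  | [] => simp [phW]
  | [x] => simp [phW]
  | [y, x] => simp [phW]
  | _ :: _ :: _ :: _ => simp [phW]

lemma ph_orb (m : ℤ) (A : Set G → Set G → R) {k : ℕ} (v : Ch G k) (hv : mp (orbN m) v = 0) :
    ph (fun x y => A (orbN m x) (orbN m y)) (Lm v) = 0 := by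
  have h : ∀ u : LC G, ph (fun x y => A (orbN m x) (orbN m y)) u =
      ph A (lmp (orbN m) u) := by
    intro u
    refine llin_ext (f := ph (fun x y => A (orbN m x) (orbN m y)))
      (g := (ph A).comp (lmp (orbN m))) (fun w => ?_) u
    rw [LinearMap.comp_apply, lmp_single, ph_single, ph_single]
    match w with
    | [] => simp [phW]
    | [x] => simp [phW]
    | [y, x] => simp [phW]
    | _ :: _ :: _ :: _ => simp [phW]
  rw [h, ← Lm_mp, hv, map_zero, map_zero]

lemma baseP_of (m : ℤ) (c : G → G → R)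
    (hc : ∀ a g h, c a (g * h) = c a g + c (cj g a) h) (A : Set G → Set G → R)
    {x w : G} (hx : x ≠ 1) (hw : w ∈ ⁅NN G m, NN G m⁆)
    (hfix : cj w x = x) (hval : c x w ≠ 0) :
    BaseP m (fun x y => c x (y ^ m) + A (orbN m x) (orbN m y)) := by
  obtain ⟨L, b, f, p, q⟩ := (RelP_commutator m c hc hw).2 x hx
  have p' : mp (orbN m) L = 0 := by rw [p, map_zero]
  refine ⟨L, ?_, p', q, ?_⟩
  · rw [b, hfix, sub_self]
  · rw [ph_add, f, ph_orb m A L p', add_zero]
    exact hval

theorem exists_zP [Fintype G] [IsDomain R] (h2 : (2 : R) ≠ 0) (m : ℤ) (φ : G → G → R)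
    (hφ : CocP m φ) {y : G} (hy : y ≠ 1) (hy2 : y * y = 1) (hbase : BaseP m φ) :
    ∀ n : ℕ, ∃ z : Ch G (n + 2), bd (gop m) (n + 1) z = 0 ∧ mp (orbN m) z = 0 ∧
      (∀ d, E0 d → n < d.length → Pc obP d (Lm z) = 0) ∧ FcP φ (altp n) (Lm z) ≠ 0
  | 0 => by
    obtain ⟨L, b, p, q, f⟩ := hbase
    refine ⟨L, b, p, fun d hd _ => q d hd, ?_⟩
    rw [FcP_apply, altp, Pc_nil]
    exact f
  | (n + 1) => by
    obtain ⟨z, hb, hp, hP, hF⟩ := exists_zP h2 m φ hφ hy hy2 hbase n
    have h22 : y ^ m * y ^ m = 1 := by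
      rw [← (Commute.refl y).mul_zpow, hy2, one_zpow]
    have hlb : lbd (gop m) (Lm z) = 0 := by
      have := Lm_bd (gop m) z
      rw [hb, map_zero] at this
      obtain h | h := neg_one_pow_eq_or ℤ (n + 1 + 1)
      · rw [h, one_smul] at this; exact this.symm
      · rw [h] at this; simpa using this.symm
    have hobc : ∀ g a : G, obP (cj g a) = obP a := obP_cj
    have hPC : ∀ d g, E0 d → n < d.length → Pc obP d (lmp (cj g) (Lm z)) = 0 := by
      intro d g hd hl
      rw [Pc_lmp obP (cj g) (fun a => hobc g a), hP d hd hl, map_zero]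
    have hinv : ∀ d (v : LC G), lbd (gop m) v = 0 →
        FcP φ d (lmp (cj (y ^ m)) v) = FcP φ d v := by
      intro d v hv
      have h := FcP_lbd m φ hφ d (ls y v)
      have hcj : (fun a => gop m a y) = cj (y ^ m) := funext (fun a => gop_eq m a y)
      rw [lbd_ls, hv, map_zero, sub_zero, map_sub, hcj] at h
      exact (sub_eq_zero.mp h).symm
    have hlen : n < (altp (n + 1)).length := by rw [altp_length]; omega
    by_cases hpar : n % 2 = 0
    · -- append the identity
      refine ⟨s 1 z, ?_, ?_, ?_, ?_⟩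
      · show bd (gop m) (n + 1 + 1) (s 1 z) = 0
        rw [bd_s_one, hb, map_zero]
      · rw [mp_s, hp, map_zero]
      · intro d hd hl
        match d, hd, hl with
        | [], hd, _ => simp [E0] at hd
        | o :: d, hd, hl =>
          have hl' : n < d.length := by rw [List.length_cons] at hl; omega
          have hne : d ≠ [] := by
            intro h; rw [h] at hl'; simp at hl'
          have hl2 : n < (o :: d).length := by rw [List.length_cons]; omega
          rw [Lm_s, Pc_ls, hP _ hd hl2, hP d (E0_cons hd hne) hl', map_zero, smul_zero,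
            smul_zero, add_zero]
      · have ho : alto n = 0 := by rw [alto, if_pos hpar]
        rw [Lm_s, FcP_apply]
        have e0 : E0 (alto n :: altp n) := altp_E0 n
        have hP1 : Pc obP (alto n :: altp n) (Lm z) = 0 := hP _ e0 hlen
        rw [altp, Pc_ls, hP1, map_zero, smul_zero, add_zero, ho, obP_one, if_pos rfl, one_smul,
          ← FcP_apply]
        exact hF
    · refine ⟨ThTwo m y _ z, ?_, ?_, ?_, ?_⟩
      · show bd (gop m) (n + 1 + 1) (ThTwo m y (n + 1 + 1) z) = 0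
        rw [bd_ThTwo m h22, hb, map_zero]
      · rw [ThTwo_apply, mp_s]
        simp only [map_add, mp_orbN_Cj m (pow_mem_NN m y), hp, map_zero, add_zero]
      · intro d hd hl
        match d, hd, hl with
        | [], hd, _ => simp [E0] at hd
        | o :: d, hd, hl =>
          have hl' : n < d.length := by rw [List.length_cons] at hl; omega
          have hne : d ≠ [] := by
            intro h; rw [h] at hl'; simp at hl'
          have hl2 : n < (o :: d).length := by rw [List.length_cons]; omega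
          have hd' := E0_cons hd hne
          rw [ThTwo_apply, Lm_s, Pc_ls]
          simp only [map_add, Lm_mp, hP _ hd hl2, hP d hd' hl', hPC _ _ hd hl2, hPC d _ hd' hl',
            add_zero, smul_zero, map_zero]
      · have ho : alto n = 1 := by rw [alto, if_neg hpar]
        have e0 : E0 (alto n :: altp n) := altp_E0 n
        have hP1 : Pc obP (alto n :: altp n) (Lm z) = 0 := hP _ e0 hlen
        have hP2 : Pc obP (alto n :: altp n) (lmp (cj (y ^ m)) (Lm z)) = 0 := hPC _ _ e0 hlen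
        rw [ThTwo_apply, Lm_s, FcP_apply, altp, Pc_ls]
        simp only [map_add, Lm_mp, hP1, hP2, add_zero, map_zero, smul_zero]
        rw [ho, obP_ne hy, if_pos rfl]
        simp only [one_smul, map_add]
        rw [← FcP_apply, ← FcP_apply, hinv _ _ hlb, ← two_mul]
        exact mul_ne_zero h2 hF

/-! ### From a class to an element of prime order -/

lemma exists_order_p {H : Type} [AddCommGroup H] {p : ℕ} [hpf : Fact p.Prime] (x : H) (M : ℤ)
    (hM : M ≠ 0) (hx : M • x = 0) (F : H →+ ZMod p) (hF : F x ≠ 0) :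
    ∃ y : H, addOrderOf y = p := by
  have hfin : IsOfFinAddOrder x := by
    rw [isOfFinAddOrder_iff_zsmul_eq_zero]
    exact ⟨M, hM, hx⟩
  have hpos : 0 < addOrderOf x := hfin.addOrderOf_pos
  have h0 : (addOrderOf x) • x = 0 := addOrderOf_nsmul_eq_zero x
  have h1 : F ((addOrderOf x) • x) = 0 := by rw [h0, map_zero]
  rw [map_nsmul, nsmul_eq_mul] at h1
  have h2 : p ∣ addOrderOf x :=
    (ZMod.natCast_eq_zero_iff _ _).mp ((mul_eq_zero.mp h1).resolve_right hF)
  obtain ⟨k, hk⟩ := h2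
  refine ⟨k • x, ?_⟩
  have hp2 : 2 ≤ p := hpf.out.two_le
  have hk0 : 0 < k := by
    rcases Nat.eq_zero_or_pos k with h | h
    · rw [h, mul_zero] at hk; omega
    · exact h
  refine addOrderOf_eq_prime ?_ ?_
  · rw [smul_smul, ← hk, h0]
  · intro h
    have := addOrderOf_le_of_nsmul_eq_zero hk0 h
    rw [hk] at this
    nlinarith

theorem exists_p [Fintype G] {p : ℕ} [Fact p.Prime] (hp2 : (2 : ZMod p) ≠ 0) (m : ℤ)
    (H : IsQuandle (gop m : G → G → G)) (φ : G → G → ZMod p)
    (hφ : CocP m φ) (hca : ∀ a, φ a a = 0) {y : G} (hy : y ≠ 1) (hy2 : y * y = 1)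
    (hbase : BaseP m φ) (k : ℕ) (hk : 1 ≤ k) : ∃ ξ : HQ H k, addOrderOf ξ = p := by
  obtain ⟨n, rfl⟩ : ∃ n, k = n + 1 := ⟨k - 1, by omega⟩
  obtain ⟨z, hb, hp, _, hF⟩ := exists_zP hp2 m φ hφ hy hy2 hbase n
  obtain ⟨M, hM, u, hu⟩ := torsion_of_orb m z (show IsCy m z from hb) hp
  let Fn : CQ G (n + 2) →ₗ[ℤ] ZMod p :=
    (DD G (n + 2)).liftQ ((FcP φ (altp n)).comp Lm) (fun d hd => by
      rw [LinearMap.mem_ker]
      show ph φ (Pc obP (altp n) (Lm d)) = 0
      exact ph_DL _ (fun a => hca a) (Pc_mem_DL obP (altp_Alt n) (Lm_DD hd)))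
  have hFn : ∀ w : Ch G (n + 2), Fn (Submodule.Quotient.mk w) = FcP φ (altp n) (Lm w) :=
    fun w => rfl
  let F' : HQ H (n + 1) →ₗ[ℤ] ZMod p :=
    Submodule.liftQ _ (Fn.comp (LinearMap.ker (dQ H (n + 1))).subtype) (by
      rintro ⟨w, hw⟩ hr
      rw [Submodule.submoduleOf, Submodule.mem_comap] at hr
      obtain ⟨v, hv⟩ := hr
      obtain ⟨v, rfl⟩ := Submodule.Quotient.mk_surjective _ v
      rw [LinearMap.mem_ker]
      show Fn w = 0
      have : w = Submodule.Quotient.mk (bd (gop m) (n + 2) v) := by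
        rw [dQ, Submodule.mapQ_apply] at hv
        exact hv.symm
      rw [this, hFn, Lm_bd, map_smul, FcP_lbd m φ hφ, smul_zero])
  have hker : (Submodule.Quotient.mk z : CQ G (n + 2)) ∈ LinearMap.ker (dQ H (n + 1)) := by
    rw [LinearMap.mem_ker, dQ, Submodule.mapQ_apply, hb, Submodule.Quotient.mk_zero]
  let cl : HQ H (n + 1) := Submodule.Quotient.mk ⟨Submodule.Quotient.mk z, hker⟩
  refine exists_order_p cl M hM ?_ F'.toAddMonoidHom ?_
  · show M • (Submodule.Quotient.mk _ : HQ H (n + 1)) = 0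
    rw [← Submodule.Quotient.mk_smul, Submodule.Quotient.mk_eq_zero, Submodule.submoduleOf,
      Submodule.mem_comap]
    refine ⟨Submodule.Quotient.mk u, ?_⟩
    rw [dQ, Submodule.mapQ_apply, hu]
    rfl
  · exact hF

end Pool.Agent.Lib.MP_813e56_al
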