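import Pool.Agent.Lib.MP_813e56_al.PGen

/-!
Elements of odd prime order in the quandle homology of `𝔖_n^m`.
-/

open Finsupp

namespace Pool.Agent.Lib.MP_813e56_al

section PCycles

open Equiv Equiv.Perm

variable {n : ℕ}

/-- A cycle of length `p`. -/
def PCy (p : ℕ) (a : Perm (Fin n)) : Prop := a.IsCycle ∧ orderOf a = p

lemma PCy_cj {p : ℕ} {a : Perm (Fin n)} (h : PCy p a) (g : Perm (Fin n)) : PCy p (cj g a) := by
  refine ⟨?_, ?_⟩
  · have h1 := h.1.conj (g := g⁻¹)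
    rw [inv_inv] at h1
    exact h1
  · have := MulEquiv.orderOf_eq (MulAut.conj g⁻¹) a
    rw [← h.2]
    simpa [cj, MulAut.conj_apply] using this

lemma PCy_cj_iff (p : ℕ) (a g : Perm (Fin n)) : PCy p (cj g a) ↔ PCy p a := by
  constructor
  · intro h
    have := PCy_cj h g⁻¹
    rwa [cj_inv_cj] at this
  · intro h; exact PCy_cj h g

/-- A point moved by each `p`-cycle. -/
lemma exists_fp (hn : 0 < n) (p : ℕ) :
    ∃ f : Perm (Fin n) → Fin n, ∀ a, PCy p a → a (f a) ≠ f a := by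
  classical
  have h : ∀ a : Perm (Fin n), ∃ i : Fin n, PCy p a → a i ≠ i := by
    intro a
    by_cases ha : PCy p a
    · obtain ⟨x, hx, _⟩ := ha.1
      exact ⟨x, fun _ => hx⟩
    · exact ⟨⟨0, hn⟩, fun h => (ha h).elim⟩
  choose f hf using h
  exact ⟨f, hf⟩

lemma dvd_of_fix {p : ℕ} {b : Perm (Fin n)} (hb : PCy p b) {u : Fin n} (hu : b u ≠ u) {i : ℤ}
    (h : (b ^ i) u = u) : (p : ℤ) ∣ i := by
  have h1 : (b ^ i.natAbs) u = u := by
    rcases Int.natAbs_eq i with h2 | h2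
    · rw [h2, zpow_natCast] at h
      exact h
    · rw [h2, zpow_neg, zpow_natCast, Equiv.Perm.inv_eq_iff_eq] at h
      exact h.symm
  have h3 : b ^ i.natAbs = 1 := (hb.1.pow_eq_one_iff' hu).mpr h1
  have h4 : p ∣ i.natAbs := by
    rw [← hb.2]
    exact orderOf_dvd_of_pow_eq_one h3
  exact Int.natCast_dvd.mpr h4

variable {p : ℕ} (f : Perm (Fin n) → Fin n)

lemma exists_t (hf : ∀ a, PCy p a → a (f a) ≠ f a) {a : Perm (Fin n)} (ha : PCy p a)
    (g : Perm (Fin n)) : ∃ t : ℤ, ((cj g a) ^ t) (f (cj g a)) = g⁻¹ (f a) := by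
  have hb := PCy_cj ha g
  have hmoved : cj g a (g⁻¹ (f a)) ≠ g⁻¹ (f a) := by
    intro hcon
    apply hf a ha
    have h1 : cj g a (g⁻¹ (f a)) = g⁻¹ (a (f a)) := by simp [cj]
    rw [h1] at hcon
    exact g⁻¹.injective hcon
  exact hb.1.exists_zpow_eq (hf _ hb) hmoved

/-- The rotation of a `p`-cycle under conjugation. -/
noncomputable def rot (p : ℕ) (a g : Perm (Fin n)) : ZMod p := by
  classical exact
    if h : ∃ t : ℤ, PCy p a ∧ ((cj g a) ^ t) (f (cj g a)) = g⁻¹ (f a) then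
      ((Classical.choose h : ℤ) : ZMod p)
    else 0

lemma rot_not {a : Perm (Fin n)} (ha : ¬ PCy p a) (g : Perm (Fin n)) : rot f p a g = 0 := by
  rw [rot, dif_neg]
  rintro ⟨t, h, _⟩
  exact ha h

lemma rot_spec (hf : ∀ a, PCy p a → a (f a) ≠ f a) {a g : Perm (Fin n)} (ha : PCy p a) {t : ℤ}
    (ht : ((cj g a) ^ t) (f (cj g a)) = g⁻¹ (f a)) : rot f p a g = (t : ZMod p) := by
  have h : ∃ t : ℤ, PCy p a ∧ ((cj g a) ^ t) (f (cj g a)) = g⁻¹ (f a) := ⟨t, ha, ht⟩
  rw [rot, dif_pos h]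
  have hs := (Classical.choose_spec h).2
  have h1 : ((cj g a) ^ (-(Classical.choose h) + t)) (f (cj g a)) = f (cj g a) := by
    have h0 : ((cj g a) ^ (-(Classical.choose h))) (((cj g a) ^ (Classical.choose h))
        (f (cj g a))) = f (cj g a) := by
      rw [← Perm.mul_apply, ← zpow_add, neg_add_cancel, zpow_zero]
      rfl
    rw [zpow_add, Perm.mul_apply, ht]
    rw [hs] at h0
    exact h0
  have h2 := dvd_of_fix (PCy_cj ha g) (hf _ (PCy_cj ha g)) h1
  rw [ZMod.intCast_eq_intCast_iff_dvd_sub]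
  rwa [← sub_eq_neg_add] at h2

lemma rot_mul (hf : ∀ a, PCy p a → a (f a) ≠ f a) (a g h : Perm (Fin n)) :
    rot f p a (g * h) = rot f p a g + rot f p (cj g a) h := by
  by_cases ha : PCy p a
  · have hb := PCy_cj ha g
    obtain ⟨t, ht⟩ := exists_t f hf ha g
    obtain ⟨t', ht'⟩ := exists_t f hf hb h
    rw [rot_spec f hf ha ht, rot_spec f hf hb ht', ← Int.cast_add]
    refine rot_spec f hf ha ?_
    rw [cj_mul, zpow_add, Perm.mul_apply, ht', cj_pow]
    have h1 : cj h ((cj g a) ^ t) (h⁻¹ (f (cj g a))) = h⁻¹ (((cj g a) ^ t) (f (cj g a))) := by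
      simp [cj]
    rw [h1, ht, mul_inv_rev]
    rfl
  · rw [rot_not f ha, rot_not f ha, rot_not f (fun hb => ha ((PCy_cj_iff p a g).mp hb)), add_zero]

lemma rot_self (hf : ∀ a, PCy p a → a (f a) ≠ f a) (m : ℤ) {a : Perm (Fin n)} (ha : PCy p a) :
    rot f p a (a ^ m) = ((-m : ℤ) : ZMod p) := by
  refine rot_spec f hf ha ?_
  have : cj (a ^ m) a = a := by rw [← gop_eq, gop_self]
  rw [this, zpow_neg]

/-- The correction on orbits. -/
noncomputable def cor (p : ℕ) (m : ℤ) (X Y : Set (Perm (Fin n))) : ZMod p := by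
  classical exact
    if (∃ a ∈ X, PCy p a) ∧ (∃ a ∈ Y, PCy p a) then (m : ZMod p) else 0

lemma orb_PCy (m : ℤ) (a : Perm (Fin n)) : (∃ b ∈ orbN m a, PCy p b) ↔ PCy p a := by
  constructor
  · rintro ⟨b, ⟨g, _, rfl⟩, hb⟩
    exact (PCy_cj_iff p a g).mp hb
  · intro h
    exact ⟨a, ⟨1, (NN _ m).one_mem, (cj_one a).symm⟩, h⟩

theorem sym_p [hpf : Fact p.Prime] (hp2 : p ≠ 2) {m : ℤ} {x : Perm (Fin n)} (hx : PCy p x)
    (hxN : x ∈ ⁅NN (Perm (Fin n)) m, NN (Perm (Fin n)) m⁆)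
    (H : IsQuandle (gop m : Perm (Fin n) → Perm (Fin n) → Perm (Fin n))) (k : ℕ) (hk : 1 ≤ k) :
    ∃ ξ : HQ H k, addOrderOf ξ = p := by
  obtain ⟨u, hu, _⟩ := hx.1
  have hn : 0 < n := lt_of_le_of_lt (Nat.zero_le _) u.isLt
  obtain ⟨f, hf⟩ := exists_fp (n := n) hn p
  have hx1 : x ≠ 1 := by
    rintro rfl
    exact hu rfl
  have h2 : (2 : ZMod p) ≠ 0 := by
    intro h
    have h3 : ((2 : ℕ) : ZMod p) = 0 := by exact_mod_cast h
    rw [ZMod.natCast_eq_zero_iff] at h3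
    exact hp2 ((Nat.prime_dvd_prime_iff_eq hpf.out Nat.prime_two).mp h3)
  let φ : Perm (Fin n) → Perm (Fin n) → ZMod p :=
    fun x y => rot f p x (y ^ m) + cor p m (orbN m x) (orbN m y)
  have horb : ∀ a b : Perm (Fin n), orbN m (gop m a b) = orbN m a := by
    intro a b
    rw [gop_eq, orbN_cj m (pow_mem_NN m b)]
  have hφ : CocP m φ := by
    intro x y z
    have h1 := cocP_of m (rot f p) (rot_mul f hf) x y z
    simp only [φ, horb]
    linear_combination h1
  have hca : ∀ a, φ a a = 0 := by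
    intro a
    show rot f p a (a ^ m) + cor p m (orbN m a) (orbN m a) = 0
    by_cases ha : PCy p a
    · have h3 := (orb_PCy m a).mpr ha
      rw [rot_self f hf m ha, cor, if_pos ⟨h3, h3⟩]
      push_cast
      ring
    · rw [rot_not f ha, cor, if_neg, add_zero]
      rintro ⟨h3, _⟩
      exact ha ((orb_PCy m a).mp h3)
  have hfix : cj x x = x := by simp [cj]
  have hval : rot f p x x ≠ 0 := by
    have h3 := rot_self f hf 1 hx
    rw [zpow_one] at h3
    rw [h3]
    push_cast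
    rw [neg_ne_zero]
    exact one_ne_zero
  have hy : Equiv.swap u (x u) ≠ 1 := by
    intro h
    have h3 := congrArg (fun w : Perm (Fin n) => w u) h
    simp only [Equiv.swap_apply_left, Perm.one_apply] at h3
    exact hu h3
  exact exists_p h2 m H φ hφ hca hy (Equiv.swap_mul_self _ _)
    (baseP_of m (rot f p) (rot_mul f hf) (cor p m) hx1 hxN hfix hval) k hk

end PCycles

section SymP

open Equiv Equiv.Perm
open scoped commutatorElement

variable {n : ℕ}

lemma NN_normal (m : ℤ) : (NN (Perm (Fin n)) m).Normal := by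
  refine ⟨fun a ha b => ?_⟩
  refine Subgroup.closure_induction
    (p := fun a _ => b * a * b⁻¹ ∈ NN (Perm (Fin n)) m) ?_ ?_ ?_ ?_ ha
  · rintro _ ⟨y, rfl⟩
    rw [← conj_zpow]
    exact pow_mem_NN m _
  · simp
  · intro x y _ _ hx hy
    have : b * (x * y) * b⁻¹ = (b * x * b⁻¹) * (b * y * b⁻¹) := by group
    rw [this]
    exact (NN _ m).mul_mem hx hy
  · intro x _ hx
    have : b * x⁻¹ * b⁻¹ = (b * x * b⁻¹)⁻¹ := by group
    rw [this]
    exact (NN _ m).inv_mem hx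

/-- In degree at least five the commutator subgroup contains all even permutations. -/
lemma alt_le_comm (hn : 5 ≤ n) {m : ℤ} {y : Perm (Fin n)} (hy : y ^ m ≠ 1) :
    alternatingGroup (Fin n) ≤ ⁅NN (Perm (Fin n)) m, NN (Perm (Fin n)) m⁆ := by
  haveI := NN_normal (n := n) m
  let ι : Fin 4 ↪ Fin n := Fin.castLEEmb (by omega)
  let φ : Perm (Fin 4) →* Perm (Fin n) := Equiv.Perm.viaEmbeddingHom ι
  have hφ : ∀ (σ : Perm (Fin 4)) (i : Fin 4), φ σ (ι i) = ι (σ i) := by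
    intro σ i
    show Equiv.Perm.viaEmbeddingHom ι σ (ι i) = _
    rw [Equiv.Perm.viaEmbeddingHom_apply]
    exact Equiv.Perm.viaEmbedding_apply σ ι i
  have hg3 : (φ g4) ^ 3 = 1 := by rw [← map_pow, g4_three, map_one]
  have hh3 : (φ h4) ^ 3 = 1 := by rw [← map_pow, h4_three, map_one]
  have hmem : ⁅φ g4, φ h4⁆ ∈ ⁅NN (Perm (Fin n)) m, NN (Perm (Fin n)) m⁆ :=
    Subgroup.commutator_mem_commutator (mem_NN_of_sign hn hy hg3) (mem_NN_of_sign hn hy hh3)
  have hcomm : ⁅φ g4, φ h4⁆ = φ (g4 * h4 * g4⁻¹ * h4⁻¹) := by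
    rw [commutatorElement_def]
    simp only [map_mul, map_inv]
  have hne : ⁅φ g4, φ h4⁆ ≠ 1 := by
    intro h
    have h1 : ⁅φ g4, φ h4⁆ (ι 0) = ι 1 := by rw [hcomm, hφ, comm_zero]
    rw [h] at h1
    have h2 : (0 : Fin 4) = 1 := ι.injective h1
    exact absurd h2 (by decide)
  have hnt : Nontrivial (⁅NN (Perm (Fin n)) m, NN (Perm (Fin n)) m⁆ : Subgroup (Perm (Fin n))) := by
    refine ⟨⟨⟨_, hmem⟩, 1, fun h => hne ?_⟩⟩
    exact congrArg Subtype.val h
  exact Equiv.Perm.alternatingGroup_le_of_normal (α := Fin n) (by simpa using hn) hnt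

lemma NN_top {m : ℤ} (h2 : ¬ (2 : ℤ) ∣ m) : NN (Perm (Fin n)) m = ⊤ := by
  rw [eq_top_iff, ← Equiv.Perm.closure_isSwap, Subgroup.closure_le]
  intro a ha
  have haa : a * a = 1 := by
    ext u
    simp [swap_invol ha]
  have h2' : a ^ (2 : ℤ) = 1 := by
    rw [zpow_ofNat, pow_two, haa]
  obtain ⟨r, hr⟩ : Odd m := by
    rw [← Int.not_even_iff_odd]
    exact fun h => h2 h.two_dvd
  have h1 : a ^ m = a := by
    rw [hr, zpow_add, zpow_mul, h2', one_zpow, one_mul, zpow_one]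
  rw [← h1]
  exact pow_mem_NN m a

lemma exists_PCy {p : ℕ} (hp : p.Prime) (hpn : p ≤ n) : ∃ x : Perm (Fin n), PCy p x := by
  have h := (Equiv.Perm.exists_with_cycleType_iff (Fin n) (m := {p})).mpr
    ⟨by simpa using hpn, by
      intro a ha
      rw [Multiset.mem_singleton] at ha
      rw [ha]
      exact hp.two_le⟩
  obtain ⟨g, hg⟩ := h
  refine ⟨g, ?_, ?_⟩
  · rw [← Equiv.Perm.card_cycleType_eq_one, hg, Multiset.card_singleton]
  · rw [← Equiv.Perm.lcm_cycleType, hg, Multiset.lcm_singleton, normalize_eq]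

lemma PCy_even {p : ℕ} (hp : p.Prime) (hp2 : p ≠ 2) {x : Perm (Fin n)} (hx : PCy p x) :
    x ∈ alternatingGroup (Fin n) := by
  rw [Equiv.Perm.mem_alternatingGroup]
  have h1 : Perm.sign x ^ p = 1 := by
    rw [← map_pow, ← hx.2, pow_orderOf_eq_one, map_one]
  rcases Int.units_eq_one_or (Perm.sign x) with h2 | h2
  · exact h2
  · rw [h2, (hp.odd_of_ne_two hp2).neg_one_pow] at h1
    exact absurd h1 (by decide)

theorem all_p (hn : 4 ≤ n) {m : ℤ} (hm : ∃ y : Perm (Fin n), y ^ m ≠ 1) {p : ℕ} (hp : p.Prime)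
    (hpn : p ≤ n) (h : p = 2 ∨ 5 ≤ n ∨ ¬ (2 : ℤ) ∣ m) (k : ℕ) (hk : 1 ≤ k) :
    ∃ ξ : HQ (symOp_isQuandle n m) k, addOrderOf ξ = p := by
  by_cases hp2 : p = 2
  · rw [hp2]
    exact all_two hn hm k hk
  · have hpf : Fact p.Prime := ⟨hp⟩
    have H : IsQuandle (gop m : Perm (Fin n) → Perm (Fin n) → Perm (Fin n)) :=
      symOp_isQuandle n m
    by_cases h5 : 5 ≤ n
    · obtain ⟨y, hy⟩ := hm
      obtain ⟨x, hx⟩ := exists_PCy (n := n) hp hpn
      exact sym_p hp2 hx (alt_le_comm h5 hy (PCy_even hp hp2 hx)) H k hk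
    · have h4 : n = 4 := by omega
      have h2m : ¬ (2 : ℤ) ∣ m := by
        rcases h with h | h | h
        · exact absurd h hp2
        · exact absurd h h5
        · exact h
      subst h4
      have hp3 : p = 3 := by
        have h1 := hp.two_le
        interval_cases p
        · exact absurd rfl hp2
        · rfl
        · exact absurd hp (by decide)
      subst hp3
      have htc : (Equiv.swap (2 : Fin 4) 0 * Equiv.swap 2 1).IsThreeCycle :=
        Equiv.Perm.isThreeCycle_swap_mul_swap_same (by decide) (by decide) (by decide)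
      have hcom : ⁅Equiv.swap (0 : Fin 4) 1, Equiv.swap 1 2⁆ =
          Equiv.swap (2 : Fin 4) 0 * Equiv.swap 2 1 := by
        rw [commutatorElement_def]
        decide
      refine sym_p hp2 (x := Equiv.swap (2 : Fin 4) 0 * Equiv.swap 2 1)
        ⟨htc.isCycle, htc.orderOf⟩ ?_ H k hk
      rw [← hcom]
      refine Subgroup.commutator_mem_commutator ?_ ?_ <;>
        · rw [NN_top h2m]
          exact Subgroup.mem_top _

end SymP

end Pool.Agent.Lib.MP_813e56_al
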