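import Pool.Agent.Lib.MP_813e56_al.RSym

/-!
The quandle of a finite group: classes of prime order from relations between `m`-th powers.
-/

open Finsupp

namespace Pool.Agent.Lib.MP_813e56_al

variable {G : Type} [Group G]

/-- Append the letters of a list, with the conjugates of the chain under the partial products of
the `m`-th powers. -/
noncomputable def Rw (m : ℤ) {k : ℕ} : List G → Ch G k → Ch G (k + 1)
  | [], _ => 0
  | y :: l, v => s y v + Rw m l (Cj (y ^ m) v)

lemma bd_Rw (m : ℤ) {k : ℕ} : ∀ (l : List G) (v : Ch G (k + 1)),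
    bd (gop m) (k + 1) (Rw m l v) = Rw m l (bd (gop m) k v) +
      (-1 : ℤ) ^ k • (v - Cj ((l.map (fun y => y ^ m)).prod) v)
  | [], v => by simp [Rw, Cj_one]
  | y :: l, v => by
    rw [Rw, Rw, map_add, bd_sg, bd_Rw m l, bd_Cj, List.map_cons, List.prod_cons, Cj_mul]
    module

lemma Rw_zero (m : ℤ) {k : ℕ} : ∀ (l : List G), Rw m l (0 : Ch G k) = 0
  | [] => rfl
  | y :: l => by rw [Rw, map_zero, map_zero, Rw_zero m l, add_zero]

lemma mp_orbN_Rw (m : ℤ) {k : ℕ} : ∀ (l : List G) (v : Ch G k), mp (orbN m) v = 0 →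
    mp (orbN m) (Rw m l v) = 0
  | [], v, _ => by rw [Rw, map_zero]
  | y :: l, v, hv => by
    rw [Rw, map_add, mp_s, hv, map_zero, zero_add]
    exact mp_orbN_Rw m l _ (by rw [mp_orbN_Cj m (pow_mem_NN m y), hv])

section Kinds

variable {O : Type} [DecidableEq O] (ob : G → O) (hob : ∀ g a, ob (cj g a) = ob a)
  (hob1 : ∀ a, a ≠ 1 → ob a ≠ ob 1)

/-- Long patterns vanish. -/
def ZP (N : ℕ) {k : ℕ} (z : Ch G k) : Prop := ∀ c, E1 ob c → N < c.length → Pc ob c (Lm z) = 0

include hob in
lemma ZP_Cj {N k : ℕ} {z : Ch G k} (hz : ZP ob N z) (g : G) : ZP ob N (Cj g z) := by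
  intro c hc hl
  rw [Lm_mp, Pc_lmp ob (cj _) (fun a => hob _ a), hz c hc hl, map_zero]

include hob in
lemma ZP_Rw (m : ℤ) {N k : ℕ} : ∀ (l : List G) (z : Ch G k), ZP ob N z →
    ZP ob (N + 1) (Rw m l z)
  | [], z, _ => by
    intro c _ _
    rw [Rw, map_zero, map_zero]
  | y :: l, z, hz => by
    intro c hc hl
    have h1 := ZP_Rw m l (Cj (y ^ m) z) (ZP_Cj ob hob hz _) c hc hl
    rw [Rw, map_add, map_add, h1, add_zero]
    match c, hc, hl with
    | [], hc, _ => simp [E1] at hc
    | o :: c, hc, hl =>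
      have hl' : N < c.length := by simpa using hl
      have hne : c ≠ [] := by
        intro h; rw [h] at hl'; simp at hl'
      have hc' := E1_cons ob hc hne
      have hl2 : N < (o :: c).length := by
        rw [List.length_cons]; omega
      rw [Lm_s, Pc_ls, hz _ hc hl2, hz c hc' hl', map_zero, smul_zero, smul_zero, add_zero]

include hob in
lemma ph_Rw {p : ℕ} (m : ℤ) (φ : G → G → ZMod p) (hφ : CocP m φ) {N k : ℕ} {o o' : O}
    {c : List O} (hE : E1 ob (o :: c)) (hl : c.length = N) :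
    ∀ (l : List G) (z : Ch G (k + 1)), (∀ y ∈ l, ob y = o') → bd (gop m) k z = 0 →
      ZP ob N z → ph φ (Pc ob (o :: c) (Lm (Rw m l z))) =
        (if o' = o then (l.length : ZMod p) else 0) * ph φ (Pc ob c (Lm z))
  | [], z, _, _, _ => by
    rw [Rw, map_zero, map_zero, map_zero]
    simp
  | y :: l, z, hy, hb, hz => by
    have hb' : bd (gop m) k (Cj (y ^ m) z) = 0 := by rw [bd_Cj, hb, map_zero]
    have h1 := ph_Rw m φ hφ hE hl l (Cj (y ^ m) z)
      (fun x hx => hy x (List.mem_cons_of_mem _ hx)) hb' (ZP_Cj ob hob hz _)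
    have hl2 : N < (o :: c).length := by
      rw [List.length_cons]; omega
    rw [Rw, map_add, map_add, map_add, h1, FR_inv ob hob m φ hφ c z hb (pow_mem_NN m y), Lm_s,
      Pc_ls, hz _ hE hl2, map_zero, smul_zero, add_zero, map_smul, hy y List.mem_cons_self]
    by_cases h2 : o' = o
    · rw [if_pos h2, if_pos h2, if_pos h2, one_smul, List.length_cons]
      push_cast
      ring
    · rw [if_neg h2, if_neg h2, if_neg h2]
      simp

include hob hob1 in
theorem exists_zQ [Fintype G] {p : ℕ} [hpf : Fact p.Prime] (m : ℤ) (φ : G → G → ZMod p)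
    (hφ : CocP m φ) (hbase : BaseR m φ) :
    ∀ d : List O, (d = [] ∨ E1 ob d) →
    (∀ o ∈ d, ∃ l : List G, (∀ y ∈ l, ob y = o) ∧ (l.map (fun y => y ^ m)).prod = 1 ∧
      ¬ p ∣ l.length) →
    ∃ (z : Ch G (d.length + 2)) (v : ZMod p), v ≠ 0 ∧
      bd (gop m) (d.length + 1) z = 0 ∧ mp (orbN m) z = 0 ∧ ZP ob d.length z ∧
      (∀ c, (c = [] ∨ E1 ob c) → c.length = d.length →
        ph φ (Pc ob c (Lm z)) = if c = d then v else 0)
  | [], _, _ => by
    obtain ⟨L, b, p', q, f⟩ := hbase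
    refine ⟨L, _, f, b, p', fun c hc _ => Pc_NE2 ob hob1 q hc, fun c _ hl => ?_⟩
    have : c = [] := List.length_eq_zero_iff.mp hl
    subst this
    rw [if_pos rfl, Pc_nil]
  | o' :: d, hd, hr => by
    have hd' : d = [] ∨ E1 ob d := by
      by_cases h : d = []
      · exact Or.inl h
      · refine Or.inr (E1_cons ob (o := o') ?_ h)
        rcases hd with hd | hd
        · simp at hd
        · exact hd
    obtain ⟨z, v, hv, hb, hp, hP, hF⟩ := exists_zQ m φ hφ hbase d hd'
      (fun o ho => hr o (List.mem_cons_of_mem _ ho))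
    obtain ⟨l, hy, hprod, hlen⟩ := hr o' List.mem_cons_self
    have hq : (l.length : ZMod p) ≠ 0 := by
      rw [Ne, ZMod.natCast_eq_zero_iff]
      exact hlen
    refine ⟨Rw m l z, (l.length : ZMod p) * v, mul_ne_zero hq hv, ?_, mp_orbN_Rw m l z hp,
      ZP_Rw ob hob m l z hP, ?_⟩
    · show bd (gop m) (d.length + 1 + 1) (Rw m l z) = 0
      rw [bd_Rw, hb, Rw_zero, hprod, Cj_one, sub_self, smul_zero, add_zero]
    · intro c hc hl
      match c, hc, hl with
      | [], _, hl => simp at hl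
      | o :: c, hc, hl =>
        have hE : E1 ob (o :: c) := by
          rcases hc with h | h
          · simp at h
          · exact h
        have hl' : c.length = d.length := by simpa using hl
        have hc' : c = [] ∨ E1 ob c := by
          by_cases h : c = []
          · exact Or.inl h
          · exact Or.inr (E1_cons ob hE h)
        have hcons : (o :: c = o' :: d) ↔ (o = o' ∧ c = d) := by simp
        rw [ph_Rw ob hob m φ hφ hE hl' l z hy hb hP, hF c hc' hl']
        by_cases h1 : o' = o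
        · by_cases h2 : c = d
          · rw [if_pos h1, if_pos h2, if_pos (hcons.mpr ⟨h1.symm, h2⟩)]
          · rw [if_neg h2, if_neg (fun h => h2 (hcons.mp h).2), mul_zero]
        · rw [if_neg h1, if_neg (fun h => h1 (hcons.mp h).1.symm), zero_mul]

/-! ### Classes in quandle homology -/

include hob hob1 in
theorem exists_rankQ [Fintype G] {p : ℕ} [hpf : Fact p.Prime] (m : ℤ)
    (H : IsQuandle (gop m : G → G → G)) (φ : G → G → ZMod p)
    (hφ : CocP m φ) (hca : ∀ a, φ a a = 0) (hbase : BaseR m φ)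
    {ι : Type} [Fintype ι] [DecidableEq ι] (n : ℕ) (c : ι → List O)
    (hc : Function.Injective c) (hn : ∀ i, (c i).length = n)
    (hE : ∀ i, c i = [] ∨ E1 ob (c i)) (hA : ∀ i, Alt (c i))
    (hr : ∀ i, ∀ o ∈ c i, ∃ l : List G, (∀ y ∈ l, ob y = o) ∧
      (l.map (fun y => y ^ m)).prod = 1 ∧ ¬ p ∣ l.length) :
    ∃ f : (ι → ZMod p) →+ HQ H (n + 1), Function.Injective f := by
  have hex : ∀ i, ∃ (z : Ch G (n + 2)) (v : ZMod p), v ≠ 0 ∧
      bd (gop m) (n + 1) z = 0 ∧ mp (orbN m) z = 0 ∧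
      (∀ d, (d = [] ∨ E1 ob d) → d.length = n →
        ph φ (Pc ob d (Lm z)) = if d = c i then v else 0) := by
    intro i
    obtain ⟨z, v, hv, hb, hp, _, hF⟩ := exists_zQ ob hob hob1 m φ hφ hbase (c i) (hE i) (hr i)
    have hl := hn i
    generalize hd : c i = d at z hb hp hF hl
    subst hl
    exact ⟨z, v, hv, hb, hp, hF⟩
  choose z v hv hb hp hF using hex
  have htor : ∀ i, ∃ M : ℤ, M ≠ 0 ∧ ∃ u, bd (gop m) (n + 2) u = M • z i :=
    fun i => torsion_of_orb m (z i) (show IsCy m (z i) from hb i) (hp i)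
  choose M hM u hu using htor
  -- the functionals
  let E : ι → CQ G (n + 2) →ₗ[ℤ] ZMod p := fun i =>
    (DD G (n + 2)).liftQ (((ph φ).comp (Pc ob (c i))).comp Lm) (fun d hd => by
      rw [LinearMap.mem_ker]
      show ph φ (Pc ob (c i) (Lm d)) = 0
      exact ph_DL _ (fun a => hca a) (Pc_mem_DL ob (hA i) (Lm_DD hd)))
  have hEm : ∀ i (w : Ch G (n + 2)), E i (Submodule.Quotient.mk w) = ph φ (Pc ob (c i) (Lm w)) :=
    fun i w => rfl
  let E' : ι → HQ H (n + 1) →ₗ[ℤ] ZMod p := fun i =>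
    Submodule.liftQ _ ((E i).comp (LinearMap.ker (dQ H (n + 1))).subtype) (by
      rintro ⟨w, hw⟩ hr
      rw [Submodule.submoduleOf, Submodule.mem_comap] at hr
      obtain ⟨u, hu⟩ := hr
      obtain ⟨u, rfl⟩ := Submodule.Quotient.mk_surjective _ u
      rw [LinearMap.mem_ker]
      show E i w = 0
      have : w = Submodule.Quotient.mk (bd (gop m) (n + 2) u) := by
        rw [dQ, Submodule.mapQ_apply] at hu
        exact hu.symm
      rw [this, hEm, Lm_bd, map_smul, map_smul, FR_lbd ob hob m φ hφ, smul_zero])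
  have hker : ∀ i, (Submodule.Quotient.mk (z i) : CQ G (n + 2)) ∈
      LinearMap.ker (dQ H (n + 1)) := by
    intro i
    rw [LinearMap.mem_ker, dQ, Submodule.mapQ_apply, hb, Submodule.Quotient.mk_zero]
  let cl : ι → HQ H (n + 1) := fun i =>
    Submodule.Quotient.mk ⟨Submodule.Quotient.mk (z i), hker i⟩
  have hclM : ∀ i, M i • cl i = 0 := by
    intro i
    show M i • (Submodule.Quotient.mk _ : HQ H (n + 1)) = 0
    rw [← Submodule.Quotient.mk_smul, Submodule.Quotient.mk_eq_zero, Submodule.submoduleOf,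
      Submodule.mem_comap]
    refine ⟨Submodule.Quotient.mk (u i), ?_⟩
    rw [dQ, Submodule.mapQ_apply, hu]
    rfl
  have hGc : ∀ i j, E' i (cl j) = if i = j then v j else 0 := by
    intro i j
    have h1 : E' i (cl j) = ph φ (Pc ob (c i) (Lm (z j))) := rfl
    rw [h1, hF j (c i) (hE i) (hn i)]
    by_cases hij : i = j
    · rw [if_pos hij, if_pos (by rw [hij])]
    · rw [if_neg hij, if_neg (fun hh => hij (hc hh))]
  exact exists_injR cl M hM hclM (fun i => (E' i).toAddMonoidHom) v hv hGc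

end Kinds

theorem rank_generalQ [Fintype G] {p : ℕ} [hpf : Fact p.Prime] (m : ℤ)
    (H : IsQuandle (gop m : G → G → G)) (φ : G → G → ZMod p)
    (hφ : CocP m φ) (hca : ∀ a, φ a a = 0) (hbase : BaseR m φ)
    (P : ConjClasses G → Prop) (hP1 : P (ConjClasses.mk 1))
    (hP : ∀ c, P c → ∃ l : List G, (∀ y ∈ l, ConjClasses.mk y = c) ∧
      (l.map (fun y => y ^ m)).prod = 1 ∧ ¬ p ∣ l.length) (k : ℕ) (hk : 1 ≤ k) :
    ∃ f : (Fin ((Nat.card {c : ConjClasses G // P c} - 1) ^ (k - 2)) → ZMod p) →+ HQ H k,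
      Function.Injective f := by
  classical
  let S : Type := {c : ConjClasses G // P c}
  have hfin : Finite (ConjClasses G) := Finite.of_surjective _ ConjClasses.mk_surjective
  letI : Fintype S := Fintype.ofFinite S
  have hS0 : Nat.card {c : ConjClasses G // P c} = Fintype.card S := Nat.card_eq_fintype_card
  let o1 : S := ⟨ConjClasses.mk 1, hP1⟩
  have hpos : 0 < Fintype.card S := Fintype.card_pos_iff.mpr ⟨o1⟩
  obtain ⟨t, ht⟩ : ∃ t, Fintype.card S = t + 1 := ⟨Fintype.card S - 1, by omega⟩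
  obtain ⟨st, hst, hsi⟩ := exists_st ht
  have hob : ∀ g a : G, ConjClasses.mk (cj g a) = ConjClasses.mk a := by
    intro g a
    rw [ConjClasses.mk_eq_mk_iff_isConj, isConj_iff]
    exact ⟨g, by simp [cj, mul_assoc]⟩
  have hob1 : ∀ a : G, a ≠ 1 → ConjClasses.mk a ≠ ConjClasses.mk 1 := by
    intro a ha h
    rw [ConjClasses.mk_eq_mk_iff_isConj, isConj_one_left] at h
    exact ha h
  have hr1 : Nat.card {c : ConjClasses G // P c} - 1 = t := by omega
  rw [hr1]
  obtain ⟨n, rfl⟩ : ∃ n, k = n + 1 := ⟨k - 1, by omega⟩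
  cases n with
  | zero =>
    exact exists_rankQ (ConjClasses.mk : G → ConjClasses G) hob hob1 m H φ hφ hca hbase
      (ι := Fin (t ^ (0 + 1 - 2))) 0 (fun _ => []) (fun i j _ => by
        have h1 : t ^ (0 + 1 - 2) = 1 := pow_zero t
        have hi : (i : ℕ) < 1 := lt_of_lt_of_eq i.isLt h1
        have hj : (j : ℕ) < 1 := lt_of_lt_of_eq j.isLt h1
        ext
        omega) (fun _ => rfl) (fun _ => Or.inl rfl) (fun _ => trivial)
      (fun _ o ho => absurd ho List.not_mem_nil)
  | succ j =>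
    have hcard : Fintype.card (Fin j → Fin t) = t ^ (j + 1 + 1 - 2) := by
      rw [Fintype.card_fun, Fintype.card_fin, Fintype.card_fin]
      congr 1
    let E : (Fin j → Fin t) ≃ Fin (t ^ (j + 1 + 1 - 2)) := Fintype.equivFinOfCardEq hcard
    have hv : Function.Injective (Subtype.val : S → ConjClasses G) := Subtype.val_injective
    exact exists_rankQ (ConjClasses.mk : G → ConjClasses G) hob hob1 m H φ hφ hca hbase
      (ι := Fin (t ^ (j + 1 + 1 - 2))) (j + 1)
      (fun i => gp (Subtype.val : S → ConjClasses G) st o1 (List.ofFn (E.symm i)))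
      (fun i i' hi => E.symm.injective (List.ofFn_injective (gp_inj _ st o1 hv hsi _ _ hi)))
      (fun i => by rw [gp_length, List.length_ofFn])
      (fun i => Or.inr (gp_last _ st o1 _)) (fun i => gp_Alt _ st o1 hv hst _)
      (fun i o ho => by
        obtain ⟨s, rfl⟩ := gp_mem _ st o1 _ o ho
        exact hP _ s.2)

end Pool.Agent.Lib.MP_813e56_al
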