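import Pool.Agent.Lib.MP_813e56_al.QGen

/-!
Many classes of prime order in the quandle homology of `𝔖_n^m`, from all conjugacy classes.
-/

open Finsupp

namespace Pool.Agent.Lib.MP_813e56_al

theorem data_of {G : Type} [Group G] {p : ℕ} (m : ℤ)
    (c : G → G → ZMod p) (hc : ∀ a g h, c a (g * h) = c a g + c (cj g a) h)
    (A : Set G → Set G → ZMod p) (hself : ∀ a, c a (a ^ m) + A (orbN m a) (orbN m a) = 0)
    {x w : G} (hx : x ≠ 1) (hw : w ∈ ⁅NN G m, NN G m⁆) (hfix : cj w x = x) (hval : c x w ≠ 0) :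
    ∃ φ : G → G → ZMod p, CocP m φ ∧ (∀ a, φ a a = 0) ∧ BaseR m φ := by
  have horb : ∀ a b : G, orbN m (gop m a b) = orbN m a := by
    intro a b
    rw [gop_eq, orbN_cj m (pow_mem_NN m b)]
  have hφ : CocP m (fun x y => c x (y ^ m) + A (orbN m x) (orbN m y)) := by
    intro x y z
    have h1 := cocP_of m c hc x y z
    simp only [horb]
    linear_combination h1
  exact ⟨_, hφ, hself, baseR_of m c hc A hx hw hfix hval⟩

section Sym

open Equiv Equiv.Perm
open scoped commutatorElement

variable {n : ℕ}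

theorem data_p {p : ℕ} [hpf : Fact p.Prime] {m : ℤ} {x : Perm (Fin n)} (hx : PCy p x)
    (hxN : x ∈ ⁅NN (Perm (Fin n)) m, NN (Perm (Fin n)) m⁆) :
    ∃ φ : Perm (Fin n) → Perm (Fin n) → ZMod p, CocP m φ ∧ (∀ a, φ a a = 0) ∧ BaseR m φ := by
  obtain ⟨u, hu, _⟩ := hx.1
  have hn : 0 < n := lt_of_le_of_lt (Nat.zero_le _) u.isLt
  obtain ⟨f, hf⟩ := exists_fp (n := n) hn p
  have hx1 : x ≠ 1 := by
    rintro rfl
    exact hu rfl
  have hca : ∀ a, rot f p a (a ^ m) + cor p m (orbN m a) (orbN m a) = 0 := by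
    intro a
    by_cases ha : PCy p a
    · have h3 := (orb_PCy m a).mpr ha
      rw [rot_self f hf m ha, cor, if_pos ⟨h3, h3⟩]
      push_cast
      ring
    · rw [rot_not f ha, cor, if_neg, add_zero]
      rintro ⟨h3, _⟩
      exact ha ((orb_PCy m a).mp h3)
  have hfix : cj x x = x := by simp [cj]
  have hval : rot f p x x ≠ 0 := by
    have h3 := rot_self f hf 1 hx
    rw [zpow_one] at h3
    rw [h3]
    push_cast
    rw [neg_ne_zero]
    exact one_ne_zero
  exact data_of m (rot f p) (rot_mul f hf) (cor p m) hca hx1 hxN hfix hval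

theorem data_two {m : ℤ} (hn : 4 ≤ n)
    (hN : ∀ g : Perm (Fin n), g ^ 3 = 1 → g ∈ NN (Perm (Fin n)) m) :
    ∃ φ : Perm (Fin n) → Perm (Fin n) → ZMod 2, CocP m φ ∧ (∀ a, φ a a = 0) ∧ BaseR m φ := by
  obtain ⟨fs, hfs⟩ := exists_fs (n := n) (by omega)
  let ι : Fin 4 ↪ Fin n := Fin.castLEEmb hn
  let φ : Perm (Fin 4) →* Perm (Fin n) := Equiv.Perm.viaEmbeddingHom ι
  have hφ : ∀ (σ : Perm (Fin 4)) (i : Fin 4), φ σ (ι i) = ι (σ i) := by
    intro σ i
    show Equiv.Perm.viaEmbeddingHom ι σ (ι i) = _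
    rw [Equiv.Perm.viaEmbeddingHom_apply]
    exact Equiv.Perm.viaEmbedding_apply σ ι i
  have hg3 : (φ g4) ^ 3 = 1 := by rw [← map_pow, g4_three, map_one]
  have hh3 : (φ h4) ^ 3 = 1 := by rw [← map_pow, h4_three, map_one]
  have hcomm : φ g4 * φ h4 * (φ g4)⁻¹ * (φ h4)⁻¹ = φ (g4 * h4 * g4⁻¹ * h4⁻¹) := by
    simp only [map_mul, map_inv]
  have hι : ι 0 ≠ ι 1 := fun h => by
    have := ι.injective h
    exact absurd this (by decide)
  set x : Perm (Fin n) := Equiv.swap (ι 0) (ι 1) with hx
  have hxs : x.IsSwap := ⟨ι 0, ι 1, hι, rfl⟩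
  have hx1 : x ≠ 1 := by
    intro h
    apply hfs x hxs
    rw [h]; rfl
  have hwN : φ g4 * φ h4 * (φ g4)⁻¹ * (φ h4)⁻¹ ∈ ⁅NN (Perm (Fin n)) m, NN (Perm (Fin n)) m⁆ := by
    rw [← commutatorElement_def]
    exact Subgroup.commutator_mem_commutator (hN _ hg3) (hN _ hh3)
  set w : Perm (Fin n) := φ g4 * φ h4 * (φ g4)⁻¹ * (φ h4)⁻¹ with hw
  have hw0 : w (ι 0) = ι 1 := by rw [hcomm, hφ, comm_zero]
  have hw1 : w (ι 1) = ι 0 := by rw [hcomm, hφ, comm_one]
  have hfix : cj w x = x := by
    have h1 : w * x = x * w := by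
      rw [hx, Equiv.mul_swap_eq_swap_mul, hw0, hw1, Equiv.swap_comm]
    rw [cj, mul_assoc, ← h1, inv_mul_cancel_left]
  have hsgw : sg w = 0 := by
    have hs : Perm.sign w = 1 := by
      rw [hw]
      simp only [map_mul, map_inv]
      rcases Int.units_eq_one_or (Perm.sign (φ g4)) with h1 | h1 <;>
        rcases Int.units_eq_one_or (Perm.sign (φ h4)) with h2 | h2 <;>
        rw [h1, h2] <;> decide
    rw [sg, if_pos hs]
  have hval : cS fs x w = 1 := by
    unfold cS
    rw [if_pos hxs, hsgw, zero_add, prv, hfix]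
    have hm := hfs x hxs
    have h0 : fs x = ι 0 ∨ fs x = ι 1 := by
      by_contra hcon
      push Not at hcon
      exact hm (Equiv.swap_apply_of_ne_of_ne hcon.1 hcon.2)
    have hne : w⁻¹ (fs x) ≠ fs x := by
      intro h
      have h2 : w (fs x) = fs x := by
        rw [Equiv.Perm.inv_eq_iff_eq] at h
        exact h.symm
      rcases h0 with h0 | h0
      · rw [h0, hw0] at h2; exact hι h2.symm
      · rw [h0, hw1] at h2; exact hι h2
    rw [if_neg hne]
  exact data_of m (cS fs) (cS_mul fs hfs) (fun _ _ => 0)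
    (fun a => by rw [cS_self fs hfs m a, add_zero]) hx1 hwN hfix
    (by rw [hval]; exact one_ne_zero)

theorem data_all (hn : 4 ≤ n) {m : ℤ} (hm : ∃ y : Perm (Fin n), y ^ m ≠ 1) {p : ℕ}
    (hp : p.Prime) (hpn : p ≤ n) (h : p = 2 ∨ 5 ≤ n ∨ ¬ (2 : ℤ) ∣ m) :
    ∃ φ : Perm (Fin n) → Perm (Fin n) → ZMod p, CocP m φ ∧ (∀ a, φ a a = 0) ∧ BaseR m φ := by
  have hpf : Fact p.Prime := ⟨hp⟩
  by_cases hp2 : p = 2
  · subst hp2
    by_cases h5 : 5 ≤ n
    · obtain ⟨y, hy⟩ := hm
      exact data_two hn (fun g hg => mem_NN_of_sign h5 hy hg)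
    · have h4 : n = 4 := by omega
      subst h4
      by_cases h6 : (6 : ℤ) ∣ m
      · have h12 : ¬ (12 : ℤ) ∣ m := by
          rintro ⟨r, rfl⟩
          obtain ⟨y, hy⟩ := hm
          apply hy
          rw [zpow_mul]
          have : y ^ (12 : ℤ) = 1 := by
            rw [show (12 : ℤ) = 6 + 6 from rfl, zpow_add, pow_six_four, sx_pow_two]
          rw [this, one_zpow]
        have h12' : m % 12 = 6 := by omega
        refine ⟨phi4, ?_, phi4_self, baseR_four h12'⟩
        intro x y z
        rw [gop_four h12', gop_four h12', gop_four h12']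
        exact phi4_coc x y z
      · exact data_two hn (fun g hg => mem_NN_three h6 hg)
  · by_cases h5 : 5 ≤ n
    · obtain ⟨y, hy⟩ := hm
      obtain ⟨x, hx⟩ := exists_PCy (n := n) hp hpn
      exact data_p hx (alt_le_comm h5 hy (PCy_even hp hp2 hx))
    · have h4 : n = 4 := by omega
      have h2m : ¬ (2 : ℤ) ∣ m := by
        rcases h with h | h | h
        · exact absurd h hp2
        · exact absurd h h5
        · exact h
      subst h4
      have hp3 : p = 3 := by
        have h1 := hp.two_le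
        interval_cases p
        · exact absurd rfl hp2
        · rfl
        · exact absurd hp (by decide)
      subst hp3
      have htc : (Equiv.swap (2 : Fin 4) 0 * Equiv.swap 2 1).IsThreeCycle :=
        Equiv.Perm.isThreeCycle_swap_mul_swap_same (by decide) (by decide) (by decide)
      have hcom : ⁅Equiv.swap (0 : Fin 4) 1, Equiv.swap 1 2⁆ =
          Equiv.swap (2 : Fin 4) 0 * Equiv.swap 2 1 := by
        rw [commutatorElement_def]
        decide
      refine data_p (x := Equiv.swap (2 : Fin 4) 0 * Equiv.swap 2 1)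
        ⟨htc.isCycle, htc.orderOf⟩ ?_
      rw [← hcom]
      refine Subgroup.commutator_mem_commutator ?_ ?_ <;>
        · rw [NN_top h2m]
          exact Subgroup.mem_top _

/-! ### Relations between conjugate `m`-th powers -/

/-- A relation of length prime to `p` between `m`-th powers of conjugates of `y`. -/
def HasRel (m : ℤ) (p : ℕ) (y : Perm (Fin n)) : Prop :=
  ∃ l : List (Perm (Fin n)), (∀ x ∈ l, ConjClasses.mk x = ConjClasses.mk y) ∧
    (l.map (fun x => x ^ m)).prod = 1 ∧ ¬ p ∣ l.length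

lemma mk_conj (b y : Perm (Fin n)) : ConjClasses.mk (b * y * b⁻¹) = ConjClasses.mk y := by
  rw [ConjClasses.mk_eq_mk_iff_isConj]
  exact (isConj_iff.mpr ⟨b, rfl⟩).symm

lemma hasRel_odd {p : ℕ} (hp : p.Prime) (hp2 : p ≠ 2) (m : ℤ) (y : Perm (Fin n)) :
    HasRel m p y := by
  refine ⟨[y, y⁻¹], ?_, ?_, ?_⟩
  · intro x hx
    simp only [List.mem_cons, List.not_mem_nil, or_false] at hx
    rcases hx with rfl | rfl
    · rfl
    · rw [ConjClasses.mk_eq_mk_iff_isConj, Equiv.Perm.isConj_iff_cycleType_eq,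
        Equiv.Perm.cycleType_inv]
  · simp
  · intro h
    exact hp2 ((Nat.prime_dvd_prime_iff_eq hp Nat.prime_two).mp h)

lemma four_facts : ∀ d : Perm (Fin 4), Perm.sign d = 1 → d * d * d = 1 ∨
    d * (Equiv.swap 0 1 * Equiv.swap 1 2 * d * (Equiv.swap 0 1 * Equiv.swap 1 2)⁻¹) *
      (Equiv.swap 0 1 * Equiv.swap 1 2 * (Equiv.swap 0 1 * Equiv.swap 1 2) * d *
        (Equiv.swap 0 1 * Equiv.swap 1 2 * (Equiv.swap 0 1 * Equiv.swap 1 2))⁻¹) = 1 := by
  decide +kernel

lemma hasRel_four (m : ℤ) (y : Perm (Fin 4)) (hy : Perm.sign (y ^ m) = 1) : HasRel m 2 y := by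
  rcases four_facts (y ^ m) hy with h | h
  · refine ⟨[y, y, y], ?_, ?_, ?_⟩
    · intro x hx
      simp only [List.mem_cons, List.not_mem_nil, or_false, or_self] at hx
      rw [hx]
    · simpa [mul_assoc] using h
    · show ¬ 2 ∣ 3
      decide
  · refine ⟨[y, (Equiv.swap 0 1 * Equiv.swap 1 2) * y * (Equiv.swap 0 1 * Equiv.swap 1 2)⁻¹,
      (Equiv.swap 0 1 * Equiv.swap 1 2 * (Equiv.swap 0 1 * Equiv.swap 1 2)) * y *
        (Equiv.swap 0 1 * Equiv.swap 1 2 * (Equiv.swap 0 1 * Equiv.swap 1 2))⁻¹], ?_, ?_, ?_⟩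
    · intro x hx
      simp only [List.mem_cons, List.not_mem_nil, or_false] at hx
      rcases hx with rfl | rfl | rfl
      · rfl
      · exact mk_conj _ _
      · exact mk_conj _ _
    · simp only [List.map_cons, List.map_nil, List.prod_cons, List.prod_nil, mul_one, conj_zpow]
      rw [← mul_assoc]
      exact h
    · show ¬ 2 ∣ 3
      decide

/-- Products of an even number of `m`-th powers of conjugates of `y`. -/
def EvK (m : ℤ) (y : Perm (Fin n)) : Subgroup (Perm (Fin n)) where
  carrier := {g | ∃ l : List (Perm (Fin n)), (∀ x ∈ l, ConjClasses.mk x = ConjClasses.mk y) ∧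
    (l.map (fun x => x ^ m)).prod = g ∧ 2 ∣ l.length}
  one_mem' := ⟨[], by simp, by simp, by simp⟩
  mul_mem' := by
    rintro _ _ ⟨l, h1, rfl, h2⟩ ⟨l', h1', rfl, h2'⟩
    refine ⟨l ++ l', ?_, ?_, ?_⟩
    · intro x hx
      rw [List.mem_append] at hx
      rcases hx with hx | hx
      · exact h1 x hx
      · exact h1' x hx
    · rw [List.map_append, List.prod_append]
    · rw [List.length_append]
      exact Nat.dvd_add h2 h2'
  inv_mem' := by
    rintro _ ⟨l, h1, rfl, h2⟩
    set g := (l.map (fun x => x ^ m)).prod with hg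
    have hpow : ∀ j : ℕ, ∃ l' : List (Perm (Fin n)),
        (∀ x ∈ l', ConjClasses.mk x = ConjClasses.mk y) ∧
        (l'.map (fun x => x ^ m)).prod = g ^ j ∧ 2 ∣ l'.length := by
      intro j
      induction j with
      | zero => exact ⟨[], by simp, by simp, by simp⟩
      | succ j ih =>
        obtain ⟨l', h3, h4, h5⟩ := ih
        refine ⟨l' ++ l, ?_, ?_, ?_⟩
        · intro x hx
          rw [List.mem_append] at hx
          rcases hx with hx | hx
          · exact h3 x hx
          · exact h1 x hx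
        · rw [List.map_append, List.prod_append, h4, pow_succ]
        · rw [List.length_append]
          exact Nat.dvd_add h5 h2
    have hinv : g ^ (orderOf g - 1) = g⁻¹ := by
      have hpos : 0 < orderOf g := orderOf_pos g
      rw [eq_inv_iff_mul_eq_one, ← pow_succ, Nat.sub_add_cancel hpos, pow_orderOf_eq_one]
    obtain ⟨l', h3, h4, h5⟩ := hpow (orderOf g - 1)
    exact ⟨l', h3, by rw [h4, hinv], h5⟩

lemma EvK_normal (m : ℤ) (y : Perm (Fin n)) : (EvK m y).Normal := by
  refine ⟨?_⟩
  rintro _ ⟨l, h1, rfl, h2⟩ b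
  refine ⟨l.map (fun x => b * x * b⁻¹), ?_, ?_, ?_⟩
  · intro x hx
    rw [List.mem_map] at hx
    obtain ⟨x', hx', rfl⟩ := hx
    rw [mk_conj]
    exact h1 x' hx'
  · clear h1 h2
    induction l with
    | nil => simp
    | cons a l ih =>
      rw [List.map_cons, List.map_cons, List.prod_cons, ih, List.map_cons, List.prod_cons,
        conj_zpow]
      group
  · rw [List.length_map]
    exact h2

lemma hasRel_five (hn : 5 ≤ n) (m : ℤ) (y : Perm (Fin n)) (hy : Perm.sign (y ^ m) = 1) :
    HasRel m 2 y := by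
  by_cases h1 : y ^ m = 1
  · refine ⟨[y], ?_, ?_, ?_⟩
    · intro x hx
      simp only [List.mem_singleton] at hx
      rw [hx]
    · simpa using h1
    · show ¬ 2 ∣ 1
      decide
  · by_cases h2 : 2 ∣ orderOf y
    · -- even order
      have hpos : 0 < orderOf y := orderOf_pos y
      have hrep : ∀ j : ℕ, ((List.replicate j y).map (fun x => x ^ m)).prod = (y ^ m) ^ j := by
        intro j
        rw [List.map_replicate, List.prod_replicate]
      have hmem : ∀ j : ℕ, ∀ x ∈ List.replicate j y, ConjClasses.mk x = ConjClasses.mk y := by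
        intro j x hx
        rw [List.eq_of_mem_replicate hx]
      have hord : (y ^ m) ^ (orderOf y) = 1 := by
        rw [← zpow_natCast, ← zpow_mul, mul_comm, zpow_mul, zpow_natCast, pow_orderOf_eq_one,
          one_zpow]
      have hinv : (y ^ m) ^ (orderOf y - 1) = (y ^ m)⁻¹ := by
        rw [eq_inv_iff_mul_eq_one, ← pow_succ, Nat.sub_add_cancel hpos, hord]
      have hcom : ∀ b : Perm (Fin n), b * y ^ m * b⁻¹ * (y ^ m)⁻¹ ∈ EvK m y := by
        intro b
        refine ⟨(b * y * b⁻¹) :: List.replicate (orderOf y - 1) y, ?_, ?_, ?_⟩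
        · intro x hx
          rw [List.mem_cons] at hx
          rcases hx with rfl | hx
          · exact mk_conj b y
          · exact hmem _ x hx
        · rw [List.map_cons, List.prod_cons, hrep, hinv, conj_zpow]
        · rw [List.length_cons, List.length_replicate, Nat.sub_add_cancel hpos]
          exact h2
      haveI := EvK_normal m y
      have hnt : Nontrivial (EvK m y) := by
        by_contra hcon
        rw [not_nontrivial_iff_subsingleton] at hcon
        apply h1
        -- all commutators are trivial, so `y ^ m` commutes with everything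
        have hc : ∀ b : Perm (Fin n), b * y ^ m = y ^ m * b := by
          intro b
          have h3 : (⟨_, hcom b⟩ : EvK m y) = 1 := Subsingleton.elim _ _
          have h4 : b * y ^ m * b⁻¹ * (y ^ m)⁻¹ = 1 := congrArg Subtype.val h3
          have h5 := mul_eq_one_iff_eq_inv.mp h4
          rw [inv_inv] at h5
          rw [mul_inv_eq_iff_eq_mul] at h5
          exact h5
        ext i
        by_contra hi
        have hi' : (y ^ m) i ≠ i := fun h => hi (by rw [h]; rfl)
        -- a third point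
        obtain ⟨j, hj1, hj2⟩ : ∃ j : Fin n, j ≠ i ∧ j ≠ (y ^ m) i := by
          by_contra hno
          push Not at hno
          have hsub : (Finset.univ : Finset (Fin n)) ⊆ {i, (y ^ m) i} := by
            intro j _
            rw [Finset.mem_insert, Finset.mem_singleton]
            by_cases hji : j = i
            · exact Or.inl hji
            · exact Or.inr (hno j hji)
          have hcard := Finset.card_le_card hsub
          rw [Finset.card_univ, Fintype.card_fin] at hcard
          have := Finset.card_le_two (a := i) (b := (y ^ m) i)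
          omega
        have h6 := congrArg (fun w : Perm (Fin n) => w i) (hc (Equiv.swap ((y ^ m) i) j))
        simp only [Perm.mul_apply, Equiv.swap_apply_left] at h6
        rw [Equiv.swap_apply_of_ne_of_ne (Ne.symm hi') (Ne.symm hj1)] at h6
        exact hj2 h6
      have hle := Equiv.Perm.alternatingGroup_le_of_normal (α := Fin n) (by simpa using hn) hnt
      have hin : y ^ m ∈ EvK m y := hle (Equiv.Perm.mem_alternatingGroup.mpr hy)
      obtain ⟨l, h3, h4, h5⟩ := hin
      refine ⟨l ++ List.replicate (orderOf y - 1) y, ?_, ?_, ?_⟩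
      · intro x hx
        rw [List.mem_append] at hx
        rcases hx with hx | hx
        · exact h3 x hx
        · exact hmem _ x hx
      · rw [List.map_append, List.prod_append, h4, hrep, hinv, mul_inv_cancel]
      · rw [List.length_append, List.length_replicate]
        omega
    · refine ⟨List.replicate (orderOf y) y, ?_, ?_, ?_⟩
      · intro x hx
        rw [List.eq_of_mem_replicate hx]
      · rw [List.map_replicate, List.prod_replicate, ← zpow_natCast, ← zpow_mul, mul_comm,
          zpow_mul, zpow_natCast, pow_orderOf_eq_one, one_zpow]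
      · rw [List.length_replicate]
        exact h2

/-- The number of conjugacy classes of `𝔖_n` for odd `p`, and the number of conjugacy classes of
permutations `y` with `y ^ m` even for `p = 2`. -/
noncomputable def rs (n : ℕ) (m : ℤ) (p : ℕ) : ℕ :=
  Nat.card {c : ConjClasses (Perm (Fin n)) //
    p ≠ 2 ∨ ∃ y : Perm (Fin n), ConjClasses.mk y = c ∧ Perm.sign (y ^ m) = 1}

lemma two_le_rs (hn : 3 ≤ n) (m : ℤ) (p : ℕ) : 2 ≤ rs n m p := by
  have hfin : Finite (ConjClasses (Perm (Fin n))) :=
    Finite.of_surjective _ ConjClasses.mk_surjective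
  obtain ⟨y, hy⟩ := exists_PCy (n := n) Nat.prime_three hn
  have hy1 : y ≠ 1 := by
    rintro rfl
    have := hy.2
    rw [orderOf_one] at this
    omega
  have hsg : Perm.sign (y ^ m) = 1 := by
    have := PCy_even Nat.prime_three (by decide) hy
    rw [Equiv.Perm.mem_alternatingGroup] at this
    rw [map_zpow, this, one_zpow]
  have hnt : Nontrivial {c : ConjClasses (Perm (Fin n)) //
      p ≠ 2 ∨ ∃ y : Perm (Fin n), ConjClasses.mk y = c ∧ Perm.sign (y ^ m) = 1} := by
    refine ⟨⟨⟨ConjClasses.mk 1, Or.inr ⟨1, rfl, by simp⟩⟩,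
      ⟨ConjClasses.mk y, Or.inr ⟨y, rfl, hsg⟩⟩, ?_⟩⟩
    intro h
    have h1 := congrArg Subtype.val h
    have h2 : ConjClasses.mk (1 : Perm (Fin n)) = ConjClasses.mk y := h1
    rw [ConjClasses.mk_eq_mk_iff_isConj, isConj_one_right] at h2
    exact hy1 h2
  exact Finite.one_lt_card

theorem all_rankQ (hn : 4 ≤ n) {m : ℤ} (hm : ∃ y : Perm (Fin n), y ^ m ≠ 1) {p : ℕ}
    (hp : p.Prime) (hpn : p ≤ n) (h : p = 2 ∨ 5 ≤ n ∨ ¬ (2 : ℤ) ∣ m) :
    2 ≤ rs n m p ∧ ∀ k : ℕ, 1 ≤ k →
      ∃ f : (Fin ((rs n m p - 1) ^ (k - 2)) → ZMod p) →+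
        HQ (symOp_isQuandle n m) k, Function.Injective f := by
  have H : IsQuandle (gop m : Perm (Fin n) → Perm (Fin n) → Perm (Fin n)) :=
    symOp_isQuandle n m
  have hpf : Fact p.Prime := ⟨hp⟩
  obtain ⟨φ, hφ, hca, hbase⟩ := data_all hn hm hp hpn h
  refine ⟨two_le_rs (by omega) m p, fun k hk => ?_⟩
  refine rank_generalQ m H φ hφ hca hbase
    (fun c => p ≠ 2 ∨ ∃ y : Perm (Fin n), ConjClasses.mk y = c ∧ Perm.sign (y ^ m) = 1)
    (Or.inr ⟨1, rfl, by simp⟩) ?_ k hk
  intro c hc
  by_cases hp2 : p = 2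
  · obtain ⟨y, rfl, hy⟩ := hc.resolve_left (fun h => h hp2)
    subst hp2
    by_cases h5 : 5 ≤ n
    · exact hasRel_five h5 m y hy
    · have h4 : n = 4 := by omega
      subst h4
      exact hasRel_four m y hy
  · obtain ⟨y, rfl⟩ := ConjClasses.mk_surjective c
    exact hasRel_odd hp hp2 m y

end Sym

end Pool.Agent.Lib.MP_813e56_al
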