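import Pool.Agent.Lib.MP_813e56_al.PSym

/-!
The quandle of a finite group: many classes of prime order in every degree.
-/

open Finsupp

namespace Pool.Agent.Lib.MP_813e56_al

/-! ### An abstract lemma -/

lemma exists_inj_of_module {K ι : Type} [AddCommGroup K] [Finite K] [Fintype ι] {p : ℕ}
    [hpf : Fact p.Prime] [Module (ZMod p) K] (hcard : p ^ Fintype.card ι ≤ Nat.card K) :
    ∃ f : (ι → ZMod p) →+ K, Function.Injective f := by
  have hmf : Module.Finite (ZMod p) K := Module.Finite.of_finite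
  have b := Module.finBasis (ZMod p) K
  obtain ⟨e⟩ : Nonempty ((Fin (Module.finrank (ZMod p) K) → ZMod p) ≃ₗ[ZMod p] K) :=
    ⟨b.equivFun.symm⟩
  have hfr : Nat.card K = p ^ Module.finrank (ZMod p) K := by
    rw [← Nat.card_congr e.toEquiv, Nat.card_eq_fintype_card, Fintype.card_fun, ZMod.card,
      Fintype.card_fin]
  have hdim : Fintype.card ι ≤ Module.finrank (ZMod p) K := by
    rw [hfr] at hcard
    exact (Nat.pow_le_pow_iff_right hpf.out.one_lt).mp hcard
  have hemb : Nonempty (ι ↪ Fin (Module.finrank (ZMod p) K)) :=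
    Function.Embedding.nonempty_of_card_le (by rw [Fintype.card_fin]; exact hdim)
  obtain ⟨σ⟩ := hemb
  let j1 : (ι → ZMod p) →+ (Fin (Module.finrank (ZMod p) K) → ZMod p) :=
    (Function.ExtendByZero.linearMap (ZMod p) σ).toAddMonoidHom
  have hj1 : Function.Injective j1 := Function.extend_injective σ.injective 0
  refine ⟨e.toLinearMap.toAddMonoidHom.comp j1, ?_⟩
  intro a b hab
  exact hj1 (e.injective hab)

lemma exists_inj_of_card {K ι : Type} [AddCommGroup K] [Finite K] [Fintype ι] {p : ℕ}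
    [hpf : Fact p.Prime] (hK : ∀ x : K, p • x = 0) (hcard : p ^ Fintype.card ι ≤ Nat.card K) :
    ∃ f : (ι → ZMod p) →+ K, Function.Injective f := by
  letI : Module (ZMod p) K := AddCommGroup.zmodModule hK
  exact exists_inj_of_module hcard

lemma exists_injR {H ι : Type} [AddCommGroup H] [Fintype ι] [DecidableEq ι] {p : ℕ}
    [hpf : Fact p.Prime] (h : ι → H) (M : ι → ℤ) (hM : ∀ i, M i ≠ 0) (hh : ∀ i, M i • h i = 0)
    (F : ι → H →+ ZMod p) (v : ι → ZMod p) (hv : ∀ i, v i ≠ 0)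
    (hF : ∀ i j, F i (h j) = if i = j then v j else 0) :
    ∃ f : (ι → ZMod p) →+ H, Function.Injective f := by
  let P : ℕ := ∏ i, (M i).natAbs
  have hP0 : P ≠ 0 := Finset.prod_ne_zero_iff.mpr (fun i _ => Int.natAbs_ne_zero.mpr (hM i))
  have : NeZero P := ⟨hP0⟩
  have hPh : ∀ i, (P : ℤ) • h i = 0 := by
    intro i
    have h1 : M i ∣ (P : ℤ) := by
      rw [← Int.natAbs_dvd]
      exact Int.natCast_dvd_natCast.mpr (Finset.dvd_prod_of_mem _ (Finset.mem_univ i))
    obtain ⟨t, ht⟩ := h1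
    rw [ht, mul_comm, mul_smul, hh, smul_zero]
  let g : ι → (ZMod P →+ H) := fun i =>
    ZMod.lift P ⟨zmultiplesHom H (h i), by
      show (zmultiplesHom H (h i)) ((P : ℕ) : ℤ) = 0
      simpa using hPh i⟩
  have hg : ∀ (i : ι) (n : ℤ), g i (n : ZMod P) = n • h i := by
    intro i n
    show ZMod.lift P _ (n : ZMod P) = _
    rw [ZMod.lift_coe]
    simp
  let f : (ι → ZMod P) →+ H :=
    ∑ i, (g i).comp (Pi.evalAddMonoidHom (fun _ : ι => ZMod P) i)
  have hf : ∀ a, f a = ∑ i, g i (a i) := by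
    intro a
    show (∑ i, (g i).comp (Pi.evalAddMonoidHom (fun _ : ι => ZMod P) i)) a = _
    rw [AddMonoidHom.finsetSum_apply]
    rfl
  let A : AddSubgroup H := f.range
  have hAfin : Finite A := Finite.of_surjective f.rangeRestrict f.rangeRestrict_surjective
  let Φ : A →+ (ι → ZMod p) :=
    { toFun := fun x i => F i x
      map_zero' := by funext i; simp
      map_add' := fun x y => by funext i; simp }
  have hΦs : Function.Surjective Φ := by
    intro t
    have hn : ∀ i, ∃ n : ℤ, (n : ZMod p) = t i * (v i)⁻¹ := fun i =>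
      ZMod.intCast_surjective _
    choose n hn using hn
    refine ⟨⟨f (fun i => ((n i : ℤ) : ZMod P)), ⟨_, rfl⟩⟩, ?_⟩
    funext i
    show F i (f _) = t i
    rw [hf, map_sum, Finset.sum_eq_single i]
    · rw [hg, map_zsmul, hF, if_pos rfl, zsmul_eq_mul, hn, mul_assoc, inv_mul_cancel₀ (hv i),
        mul_one]
    · intro j _ hj
      rw [hg, map_zsmul, hF, if_neg (fun e => hj e.symm), smul_zero]
    · intro hi
      exact (hi (Finset.mem_univ i)).elim
  let μ : A →+ A := nsmulAddMonoidHom p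
  have hμ : ∀ x, μ x = p • x := fun x => rfl
  have hle : μ.range ≤ Φ.ker := by
    rintro _ ⟨x, rfl⟩
    rw [AddMonoidHom.mem_ker, hμ, map_nsmul]
    funext i
    show p • (Φ x i) = 0
    rw [nsmul_eq_mul, ZMod.natCast_self, zero_mul]
  have hidx : Φ.ker.index ∣ μ.range.index := AddSubgroup.index_dvd_of_le hle
  have hΦi : Φ.ker.index = p ^ Fintype.card ι := by
    rw [AddSubgroup.index_ker, AddMonoidHom.range_eq_top.mpr hΦs, AddSubgroup.card_top,
      Nat.card_eq_fintype_card, Fintype.card_fun, ZMod.card]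
  have hc1 : Nat.card μ.ker * μ.ker.index = Nat.card A := AddSubgroup.card_mul_index _
  have hc2 : Nat.card μ.range * μ.range.index = Nat.card A := AddSubgroup.card_mul_index _
  have hc3 : μ.ker.index = Nat.card μ.range := AddSubgroup.index_ker _
  have hpos : 0 < Nat.card μ.range := Nat.card_pos
  have hc4 : Nat.card μ.ker = μ.range.index := by
    have : Nat.card μ.range * Nat.card μ.ker = Nat.card μ.range * μ.range.index := by
      rw [hc2, ← hc1, hc3, mul_comm]
    exact Nat.eq_of_mul_eq_mul_left hpos this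
  have hcard : p ^ Fintype.card ι ≤ Nat.card μ.ker := by
    rw [← hΦi]
    refine Nat.le_of_dvd Nat.card_pos ?_
    rw [hc4]
    exact hidx
  obtain ⟨f', hf'⟩ := exists_inj_of_card (K := μ.ker) (p := p) (ι := ι) (fun x => by
    have := x.2
    rw [AddMonoidHom.mem_ker, hμ] at this
    exact Subtype.ext this) hcard
  refine ⟨(A.subtype.comp μ.ker.subtype).comp f', ?_⟩
  intro a b hab
  exact hf' (Subtype.ext (Subtype.ext hab))

variable {G : Type} [Group G]

/-! ### Words without the identity -/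

/-- Combinations of words of two letters different from the identity. -/
def NE2 (v : LC G) : Prop :=
  v ∈ Submodule.span ℤ {u : LC G | ∃ y a : G, y ≠ 1 ∧ a ≠ 1 ∧ u = single [y, a] 1}

lemma NE2_zero : NE2 (0 : LC G) := Submodule.zero_mem _

lemma NE2_add {v w : LC G} (hv : NE2 v) (hw : NE2 w) : NE2 (v + w) := Submodule.add_mem _ hv hw

lemma NE2_sub {v w : LC G} (hv : NE2 v) (hw : NE2 w) : NE2 (v - w) := Submodule.sub_mem _ hv hw

lemma NE2_neg {v : LC G} (hv : NE2 v) : NE2 (-v) := Submodule.neg_mem _ hv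

lemma NE2_single {y a : G} (hy : y ≠ 1) (ha : a ≠ 1) : NE2 (single [y, a] 1 : LC G) :=
  Submodule.subset_span ⟨y, a, hy, ha, rfl⟩

section Kinds

variable {O : Type} [DecidableEq O] (ob : G → O) (hob : ∀ g a, ob (cj g a) = ob a)
  (hob1 : ∀ a, a ≠ 1 → ob a ≠ ob 1)

omit [DecidableEq O] in
/-- The last entry of the pattern is the kind of the identity. -/
def E1 (c : List O) : Prop := c.getLast? = some (ob 1)

omit [DecidableEq O] in
lemma E1_cons {o : O} {c : List O} (h : E1 ob (o :: c)) (hc : c ≠ []) : E1 ob c := by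
  cases c with
  | nil => exact (hc rfl).elim
  | cons a c => simpa [E1] using h

include hob1 in
lemma PW_twoR {y a : G} (hy : y ≠ 1) (ha : a ≠ 1) : ∀ c, E1 ob c → PW ob [y, a] c = 0
  | [], h => by simp [E1] at h
  | [o], h => by
    have ho : o = ob 1 := by simpa [E1] using h
    subst ho
    simp [PW, hob1 y hy, hob1 a ha]
  | [o, o'], h => by
    have ho : o' = ob 1 := by simpa [E1] using h
    subst ho
    simp [PW, hob1 a ha]
  | o :: o' :: o'' :: c, _ => by simp [PW]

include hob1 in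
lemma Pc_NE2 {v : LC G} (hv : NE2 v) {c : List O} (hc : E1 ob c) : Pc ob c v = 0 := by
  have : Submodule.span ℤ {u : LC G | ∃ y a : G, y ≠ 1 ∧ a ≠ 1 ∧ u = single [y, a] 1} ≤
      LinearMap.ker (Pc ob c) := by
    rw [Submodule.span_le]
    rintro _ ⟨y, a, hy, ha, rfl⟩
    rw [SetLike.mem_coe, LinearMap.mem_ker, Pc_single]
    exact PW_twoR ob hob1 hy ha c hc
  exact this hv

end Kinds

/-! ### Paths -/

variable {R : Type} [CommRing R]

/-- Every letter is joined to its conjugate under `g` by a chain with given invariants. -/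
def RelR (m : ℤ) (c : G → G → R) (g : G) (δ : Set G →₀ ℤ) : Prop :=
  ∀ a : G, a ≠ 1 → ∃ L : Ch G 2,
    bd (gop m) 1 L = s a (p0 G) - s (cj g a) (p0 G) ∧
    ph (fun x y => c x (y ^ m)) (Lm L) = c a g ∧
    mp (orbN m) L = Dv (orbN m a) δ ∧ NE2 (Lm L)

section Path

variable (m : ℤ) (c : G → G → R) (hc : ∀ a g h, c a (g * h) = c a g + c (cj g a) h)

lemma RelR_gen {y : G} (hy : y ≠ 1) : RelR m c (y ^ m) (single (orbN m y) 1) := by
  intro a ha
  refine ⟨s y (s a (p0 G)), ?_, ?_, ?_, ?_⟩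
  · rw [bd_sg, bd_zero, map_zero, zero_add, pow_zero, one_smul, mp_s, mp_p0]
  · rw [Lm_s, Lm_s, p0, Lm_single]
    simp [ph_single, phW]
  · rw [mp_s, mp_s, mp_p0, Dv, Finsupp.linearCombination_single, one_smul]
  · rw [Lm_s, Lm_s, p0, Lm_single]
    simp only [List.ofFn_zero, List.reverse_nil, ls_single]
    exact NE2_single hy ha

include hc in
lemma RelR_one : RelR m c 1 0 := by
  intro a _
  refine ⟨0, ?_, ?_, ?_, ?_⟩
  · rw [map_zero, cj_one, sub_self]
  · rw [map_zero, map_zero, cP_one c hc]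
  · rw [map_zero, map_zero]
  · rw [map_zero]; exact NE2_zero

include hc in
lemma RelR_mul {g h : G} {δ δ' : Set G →₀ ℤ} (hg : g ∈ NN G m) (h1 : RelR m c g δ)
    (h2 : RelR m c h δ') : RelR m c (g * h) (δ + δ') := by
  intro a ha
  obtain ⟨L, b1, f1, p1, q1⟩ := h1 a ha
  obtain ⟨L', b2, f2, p2, q2⟩ := h2 (cj g a) (cj_ne_one ha)
  refine ⟨L + L', ?_, ?_, ?_, ?_⟩
  · rw [map_add, b1, b2, cj_mul]; abel
  · rw [map_add, map_add, f1, f2, hc]
  · rw [map_add, p1, p2, map_add, orbN_cj m hg]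
  · rw [map_add]; exact NE2_add q1 q2

include hc in
lemma RelR_inv {g : G} {δ : Set G →₀ ℤ} (hg : g ∈ NN G m) (h1 : RelR m c g δ) :
    RelR m c g⁻¹ (-δ) := by
  intro a ha
  obtain ⟨L, b1, f1, p1, q1⟩ := h1 (cj g⁻¹ a) (cj_ne_one ha)
  refine ⟨-L, ?_, ?_, ?_, ?_⟩
  · rw [map_neg, b1, cj_cj_inv]; abel
  · rw [map_neg, map_neg, f1]
    have h := hc a g⁻¹ g
    rw [inv_mul_cancel, cP_one c hc] at h
    exact (eq_neg_of_add_eq_zero_left h.symm).symm
  · rw [map_neg, p1, map_neg, orbN_cj m ((NN G m).inv_mem hg)]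
  · rw [map_neg]; exact NE2_neg q1

include hc in
lemma exists_RelR {g : G} (hg : g ∈ NN G m) : ∃ δ, RelR m c g δ := by
  refine Subgroup.closure_induction (p := fun g _ => ∃ δ, RelR m c g δ) ?_ ?_ ?_ ?_ hg
  · rintro _ ⟨y, rfl⟩
    by_cases hy : y = 1
    · subst hy
      rw [one_zpow]
      exact ⟨0, RelR_one m c hc⟩
    · exact ⟨_, RelR_gen m c hy⟩
  · exact ⟨0, RelR_one m c hc⟩
  · rintro g h hg _ ⟨δ, h1⟩ ⟨δ', h2⟩
    exact ⟨_, RelR_mul m c hc hg h1 h2⟩
  · rintro g hg ⟨δ, h1⟩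
    exact ⟨_, RelR_inv m c hc hg h1⟩

include hc in
lemma RelR_comm {g h : G} (hg : g ∈ NN G m) (hh : h ∈ NN G m) :
    RelR m c (g * h * g⁻¹ * h⁻¹) 0 := by
  obtain ⟨δ, h1⟩ := exists_RelR m c hc hg
  obtain ⟨δ', h2⟩ := exists_RelR m c hc hh
  have h3 := RelR_mul m c hc hg h1 h2
  have hgh := (NN G m).mul_mem hg hh
  have h4 := RelR_mul m c hc hgh h3 (RelR_inv m c hc hg h1)
  have h5 := RelR_mul m c hc ((NN G m).mul_mem hgh ((NN G m).inv_mem hg)) h4
    (RelR_inv m c hc hh h2)
  have : δ + δ' + -δ + -δ' = 0 := by abel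
  rwa [this] at h5

include hc in
lemma RelR_commutator {w : G} (hw : w ∈ ⁅NN G m, NN G m⁆) : w ∈ NN G m ∧ RelR m c w 0 := by
  rw [Subgroup.commutator_def] at hw
  refine Subgroup.closure_induction (p := fun g _ => g ∈ NN G m ∧ RelR m c g 0) ?_ ?_ ?_ ?_ hw
  · rintro _ ⟨g, hg, h, hh, rfl⟩
    refine ⟨?_, ?_⟩
    · rw [commutatorElement_def]
      exact (NN G m).mul_mem ((NN G m).mul_mem ((NN G m).mul_mem hg hh) ((NN G m).inv_mem hg))
        ((NN G m).inv_mem hh)
    · rw [commutatorElement_def]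
      exact RelR_comm m c hc hg hh
  · exact ⟨(NN G m).one_mem, RelR_one m c hc⟩
  · rintro g h _ _ ⟨h1, h2⟩ ⟨h3, h4⟩
    have := RelR_mul m c hc h1 h2 h4
    rw [add_zero] at this
    exact ⟨(NN G m).mul_mem h1 h3, this⟩
  · rintro g _ ⟨h1, h2⟩
    have := RelR_inv m c hc h1 h2
    rw [neg_zero] at this
    exact ⟨(NN G m).inv_mem h1, this⟩

end Path

/-- A cycle of degree two to start from. -/
def BaseR (m : ℤ) (φ : G → G → R) : Prop :=
  ∃ L : Ch G 2, bd (gop m) 1 L = 0 ∧ mp (orbN m) L = 0 ∧ NE2 (Lm L) ∧ ph φ (Lm L) ≠ 0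

lemma baseR_of (m : ℤ) (c : G → G → R)
    (hc : ∀ a g h, c a (g * h) = c a g + c (cj g a) h) (A : Set G → Set G → R)
    {x w : G} (hx : x ≠ 1) (hw : w ∈ ⁅NN G m, NN G m⁆)
    (hfix : cj w x = x) (hval : c x w ≠ 0) :
    BaseR m (fun x y => c x (y ^ m) + A (orbN m x) (orbN m y)) := by
  obtain ⟨L, b, f, p, q⟩ := (RelR_commutator m c hc hw).2 x hx
  have p' : mp (orbN m) L = 0 := by rw [p, map_zero]
  refine ⟨L, ?_, p', q, ?_⟩
  · rw [b, hfix, sub_self]
  · rw [ph_add, f, ph_orb m A L p', add_zero]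
    exact hval

/-! ### Appending a letter -/

/-- The sum over the conjugates by the powers of `y ^ m`. -/
noncomputable def Sq (m : ℤ) (y : G) {k : ℕ} (v : Ch G k) : Ch G k :=
  ∑ j ∈ Finset.range (orderOf y), Cj ((y ^ m) ^ j) v

lemma Cj_Sq (m : ℤ) (y : G) {k : ℕ} (v : Ch G k) : Cj (y ^ m) (Sq m y v) = Sq m y v := by
  rw [Sq, map_sum]
  have h : ∀ j, Cj (y ^ m) (Cj ((y ^ m) ^ j) v) = Cj ((y ^ m) ^ (j + 1)) v := by
    intro j
    rw [← Cj_mul, ← pow_succ]
  simp only [h]
  have h1 : ∑ j ∈ Finset.range (orderOf y + 1), Cj ((y ^ m) ^ j) v =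
      ∑ j ∈ Finset.range (orderOf y), Cj ((y ^ m) ^ j) v + Cj ((y ^ m) ^ (orderOf y)) v :=
    Finset.sum_range_succ _ _
  have h2 : ∑ j ∈ Finset.range (orderOf y + 1), Cj ((y ^ m) ^ j) v =
      ∑ j ∈ Finset.range (orderOf y), Cj ((y ^ m) ^ (j + 1)) v + Cj ((y ^ m) ^ 0) v :=
    Finset.sum_range_succ' _ _
  have h3 : (y ^ m) ^ (orderOf y) = 1 := by
    rw [← zpow_natCast, ← zpow_mul, mul_comm, zpow_mul, zpow_natCast, pow_orderOf_eq_one,
      one_zpow]
  rw [h3] at h1
  rw [pow_zero] at h2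
  exact add_right_cancel (h2.symm.trans h1)

lemma bd_Sq (m : ℤ) (y : G) {k : ℕ} (v : Ch G (k + 1)) :
    bd (gop m) k (Sq m y v) = Sq m y (bd (gop m) k v) := by
  rw [Sq, Sq, map_sum]
  exact Finset.sum_congr rfl (fun j _ => bd_Cj m _ v)

lemma Sq_zero (m : ℤ) (y : G) {k : ℕ} : Sq m y (0 : Ch G k) = 0 := by
  rw [Sq]
  exact Finset.sum_eq_zero (fun j _ => map_zero _)

section Kinds

variable {O : Type} [DecidableEq O] (ob : G → O) (hob : ∀ g a, ob (cj g a) = ob a)
  (hob1 : ∀ a, a ≠ 1 → ob a ≠ ob 1)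

include hob in
lemma FR_lbd (m : ℤ) (φ : G → G → R) (hφ : CocP m φ) (d : List O) (v : LC G) :
    ph φ (Pc ob d (lbd (gop m) v)) = 0 := by
  have h := lbd_Pc ob (gop m) (fun a x => by rw [gop_eq, hob]) d v
  have h1 : ph φ (lbd (gop m) (Pc ob d v)) = 0 := ph_lbd _ _ hφ _
  rw [h, map_smul] at h1
  obtain h2 | h2 := neg_one_pow_eq_or ℤ d.length
  · simpa [h2] using h1
  · simpa [h2] using h1

include hob in
lemma FR_inv (m : ℤ) (φ : G → G → R) (hφ : CocP m φ) (d : List O) {k : ℕ} (z : Ch G (k + 1))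
    (hz : bd (gop m) k z = 0) {g : G} (hg : g ∈ NN G m) :
    ph φ (Pc ob d (Lm (Cj g z))) = ph φ (Pc ob d (Lm z)) := by
  obtain ⟨u, hu⟩ := trivial_action m hg z hz
  have h1 : ph φ (Pc ob d (Lm (bd (gop m) (k + 1) u))) = 0 := by
    rw [Lm_bd, map_smul, map_smul, FR_lbd ob hob m φ hφ, smul_zero]
  rw [hu, map_sub, map_sub, map_sub] at h1
  exact (sub_eq_zero.mp h1).symm

include hob hob1 in
theorem exists_zR [Fintype G] {p : ℕ} [hpf : Fact p.Prime] (m : ℤ) (φ : G → G → ZMod p)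
    (hφ : CocP m φ) (hbase : BaseR m φ) :
    ∀ d : List O, (d = [] ∨ E1 ob d) → (∀ o ∈ d, ∃ y : G, ob y = o ∧ ¬ p ∣ orderOf y) →
    ∃ (z : Ch G (d.length + 2)) (v : ZMod p), v ≠ 0 ∧
      bd (gop m) (d.length + 1) z = 0 ∧ mp (orbN m) z = 0 ∧
      (∀ c, E1 ob c → d.length < c.length → Pc ob c (Lm z) = 0) ∧
      (∀ c, (c = [] ∨ E1 ob c) → c.length = d.length →
        ph φ (Pc ob c (Lm z)) = if c = d then v else 0)
  | [], _, _ => by
    obtain ⟨L, b, p', q, f⟩ := hbase
    refine ⟨L, _, f, b, p', fun c hc _ => Pc_NE2 ob hob1 q hc, fun c _ hl => ?_⟩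
    have : c = [] := List.length_eq_zero_iff.mp hl
    subst this
    rw [if_pos rfl, Pc_nil]
  | o' :: d, hd, hr => by
    have hd' : d = [] ∨ E1 ob d := by
      by_cases h : d = []
      · exact Or.inl h
      · refine Or.inr (E1_cons ob (o := o') ?_ h)
        rcases hd with hd | hd
        · simp at hd
        · exact hd
    obtain ⟨z, v, hv, hb, hp, hP, hF⟩ := exists_zR m φ hφ hbase d hd'
      (fun o ho => hr o (List.mem_cons_of_mem _ ho))
    obtain ⟨y, hy, hpy⟩ := hr o' List.mem_cons_self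
    have hmem : ∀ j : ℕ, (y ^ m) ^ j ∈ NN G m := fun j => (NN G m).pow_mem (pow_mem_NN m y) j
    have hwb : bd (gop m) (d.length + 1) (Sq m y z) = 0 := by rw [bd_Sq, hb, Sq_zero]
    have hwP : ∀ c, E1 ob c → d.length < c.length → Pc ob c (Lm (Sq m y z)) = 0 := by
      intro c hc hl
      rw [Sq, map_sum, map_sum]
      refine Finset.sum_eq_zero (fun j _ => ?_)
      rw [Lm_mp, Pc_lmp ob (cj _) (fun a => hob _ a), hP c hc hl, map_zero]
    have hwF : ∀ c, ph φ (Pc ob c (Lm (Sq m y z))) =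
        (orderOf y : ZMod p) * ph φ (Pc ob c (Lm z)) := by
      intro c
      rw [Sq, map_sum, map_sum, map_sum,
        Finset.sum_congr rfl (fun j _ => FR_inv ob hob m φ hφ c z hb (hmem j)),
        Finset.sum_const, Finset.card_range, nsmul_eq_mul]
    have hq : (orderOf y : ZMod p) ≠ 0 := by
      rw [Ne, ZMod.natCast_eq_zero_iff]
      exact hpy
    refine ⟨s y (Sq m y z), (orderOf y : ZMod p) * v, mul_ne_zero hq hv, ?_, ?_, ?_, ?_⟩
    · show bd (gop m) (d.length + 1 + 1) (s y (Sq m y z)) = 0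
      rw [bd_sg, hwb, map_zero, Cj_Sq, sub_self, smul_zero, add_zero]
    · rw [mp_s, Sq, map_sum, Finset.sum_eq_zero, map_zero]
      intro j _
      rw [mp_orbN_Cj m (hmem j), hp]
    · intro c hc hl
      match c, hc, hl with
      | [], hc, _ => simp [E1] at hc
      | o :: c, hc, hl =>
        have hl' : d.length < c.length := by simpa using hl
        have hne : c ≠ [] := by
          intro h; rw [h] at hl'; simp at hl'
        have hc' := E1_cons ob hc hne
        have hl2 : d.length < (o :: c).length := by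
          rw [List.length_cons]; omega
        rw [Lm_s, Pc_ls, hwP _ hc hl2, hwP c hc' hl', map_zero, smul_zero, smul_zero, add_zero]
    · intro c hc hl
      match c, hc, hl with
      | [], _, hl => simp at hl
      | o :: c, hc, hl =>
        have hE : E1 ob (o :: c) := by
          rcases hc with h | h
          · simp at h
          · exact h
        have hl' : c.length = d.length := by simpa using hl
        have hc' : c = [] ∨ E1 ob c := by
          by_cases h : c = []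
          · exact Or.inl h
          · exact Or.inr (E1_cons ob hE h)
        have hl2 : d.length < (o :: c).length := by
          rw [List.length_cons]; omega
        have hcons : (o :: c = o' :: d) ↔ (o = o' ∧ c = d) := by simp
        rw [Lm_s, Pc_ls, hwP _ hE hl2, map_zero, smul_zero, add_zero, map_smul, hwF,
          hF c hc' hl', hy]
        by_cases h1 : o' = o
        · by_cases h2 : c = d
          · rw [if_pos h1, if_pos h2, if_pos (hcons.mpr ⟨h1.symm, h2⟩), one_smul]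
          · rw [if_neg h2, if_neg (fun h => h2 (hcons.mp h).2)]
            simp
        · rw [if_neg h1, if_neg (fun h => h1 (hcons.mp h).1.symm)]
          simp

/-! ### Classes in quandle homology -/

include hob hob1 in
theorem exists_rank [Fintype G] {p : ℕ} [hpf : Fact p.Prime] (m : ℤ)
    (H : IsQuandle (gop m : G → G → G)) (φ : G → G → ZMod p)
    (hφ : CocP m φ) (hca : ∀ a, φ a a = 0) (hbase : BaseR m φ)
    {ι : Type} [Fintype ι] [DecidableEq ι] (n : ℕ) (c : ι → List O)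
    (hc : Function.Injective c) (hn : ∀ i, (c i).length = n)
    (hE : ∀ i, c i = [] ∨ E1 ob (c i)) (hA : ∀ i, Alt (c i))
    (hr : ∀ i, ∀ o ∈ c i, ∃ y : G, ob y = o ∧ ¬ p ∣ orderOf y) :
    ∃ f : (ι → ZMod p) →+ HQ H (n + 1), Function.Injective f := by
  have hex : ∀ i, ∃ (z : Ch G (n + 2)) (v : ZMod p), v ≠ 0 ∧
      bd (gop m) (n + 1) z = 0 ∧ mp (orbN m) z = 0 ∧
      (∀ d, (d = [] ∨ E1 ob d) → d.length = n →
        ph φ (Pc ob d (Lm z)) = if d = c i then v else 0) := by
    intro i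
    obtain ⟨z, v, hv, hb, hp, _, hF⟩ := exists_zR ob hob hob1 m φ hφ hbase (c i) (hE i) (hr i)
    have hl := hn i
    generalize hd : c i = d at z hb hp hF hl
    subst hl
    exact ⟨z, v, hv, hb, hp, hF⟩
  choose z v hv hb hp hF using hex
  have htor : ∀ i, ∃ M : ℤ, M ≠ 0 ∧ ∃ u, bd (gop m) (n + 2) u = M • z i :=
    fun i => torsion_of_orb m (z i) (show IsCy m (z i) from hb i) (hp i)
  choose M hM u hu using htor
  -- the functionals
  let E : ι → CQ G (n + 2) →ₗ[ℤ] ZMod p := fun i =>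
    (DD G (n + 2)).liftQ (((ph φ).comp (Pc ob (c i))).comp Lm) (fun d hd => by
      rw [LinearMap.mem_ker]
      show ph φ (Pc ob (c i) (Lm d)) = 0
      exact ph_DL _ (fun a => hca a) (Pc_mem_DL ob (hA i) (Lm_DD hd)))
  have hEm : ∀ i (w : Ch G (n + 2)), E i (Submodule.Quotient.mk w) = ph φ (Pc ob (c i) (Lm w)) :=
    fun i w => rfl
  let E' : ι → HQ H (n + 1) →ₗ[ℤ] ZMod p := fun i =>
    Submodule.liftQ _ ((E i).comp (LinearMap.ker (dQ H (n + 1))).subtype) (by
      rintro ⟨w, hw⟩ hr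
      rw [Submodule.submoduleOf, Submodule.mem_comap] at hr
      obtain ⟨u, hu⟩ := hr
      obtain ⟨u, rfl⟩ := Submodule.Quotient.mk_surjective _ u
      rw [LinearMap.mem_ker]
      show E i w = 0
      have : w = Submodule.Quotient.mk (bd (gop m) (n + 2) u) := by
        rw [dQ, Submodule.mapQ_apply] at hu
        exact hu.symm
      rw [this, hEm, Lm_bd, map_smul, map_smul, FR_lbd ob hob m φ hφ, smul_zero])
  have hker : ∀ i, (Submodule.Quotient.mk (z i) : CQ G (n + 2)) ∈
      LinearMap.ker (dQ H (n + 1)) := by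
    intro i
    rw [LinearMap.mem_ker, dQ, Submodule.mapQ_apply, hb, Submodule.Quotient.mk_zero]
  let cl : ι → HQ H (n + 1) := fun i =>
    Submodule.Quotient.mk ⟨Submodule.Quotient.mk (z i), hker i⟩
  have hclM : ∀ i, M i • cl i = 0 := by
    intro i
    show M i • (Submodule.Quotient.mk _ : HQ H (n + 1)) = 0
    rw [← Submodule.Quotient.mk_smul, Submodule.Quotient.mk_eq_zero, Submodule.submoduleOf,
      Submodule.mem_comap]
    refine ⟨Submodule.Quotient.mk (u i), ?_⟩
    rw [dQ, Submodule.mapQ_apply, hu]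
    rfl
  have hGc : ∀ i j, E' i (cl j) = if i = j then v j else 0 := by
    intro i j
    have h1 : E' i (cl j) = ph φ (Pc ob (c i) (Lm (z j))) := rfl
    rw [h1, hF j (c i) (hE i) (hn i)]
    by_cases hij : i = j
    · rw [if_pos hij, if_pos (by rw [hij])]
    · rw [if_neg hij, if_neg (fun hh => hij (hc hh))]
  exact exists_injR cl M hM hclM (fun i => (E' i).toAddMonoidHom) v hv hGc

end Kinds

end Pool.Agent.Lib.MP_813e56_al
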