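import Pool.Agent.Lib.MP_813e56_al.RGen

/-!
Many classes of prime order in the quandle homology of `𝔖_n^m`.
-/

open Finsupp

namespace Pool.Agent.Lib.MP_813e56_al

/-! ### Patterns -/

section Pat

variable {S O : Type} {t : ℕ} (v : S → O) (st : S → Fin t → S) (o1 : S)

/-- The last kind of a pattern. -/
def gh : List (Fin t) → S
  | [] => o1
  | b :: l => st (gh l) b

/-- The pattern of a list of choices. -/
def gp : List (Fin t) → List O
  | [] => [v o1]
  | b :: l => v (st (gh st o1 l) b) :: gp l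

lemma gp_head : ∀ l : List (Fin t), ∃ c, gp v st o1 l = v (gh st o1 l) :: c
  | [] => ⟨[], rfl⟩
  | _ :: l => ⟨gp v st o1 l, rfl⟩

lemma gp_length : ∀ l : List (Fin t), (gp v st o1 l).length = l.length + 1
  | [] => rfl
  | b :: l => by rw [gp, List.length_cons, List.length_cons, gp_length l]

lemma gp_last : ∀ l : List (Fin t), (gp v st o1 l).getLast? = some (v o1)
  | [] => rfl
  | b :: l => by
    have h := gp_last l
    obtain ⟨c, hc⟩ := gp_head v st o1 l
    rw [gp, hc, List.getLast?_cons_cons, ← hc]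
    exact h

lemma gp_Alt (hv : Function.Injective v) (hst : ∀ o b, st o b ≠ o) :
    ∀ l : List (Fin t), Alt (gp v st o1 l)
  | [] => trivial
  | b :: l => by
    have h := gp_Alt hv hst l
    obtain ⟨c, hc⟩ := gp_head v st o1 l
    rw [gp, hc]
    rw [hc] at h
    exact ⟨fun e => hst _ b (hv e), h⟩

lemma gp_inj (hv : Function.Injective v) (hi : ∀ o b b', st o b = st o b' → b = b') :
    ∀ l l' : List (Fin t), gp v st o1 l = gp v st o1 l' → l = l'
  | [], [], _ => rfl
  | [], b :: l, h => by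
    have := congrArg List.length h
    rw [gp_length, gp_length] at this
    simp at this
  | b :: l, [], h => by
    have := congrArg List.length h
    rw [gp_length, gp_length] at this
    simp at this
  | b :: l, b' :: l', h => by
    rw [gp, gp, List.cons.injEq] at h
    have hl := gp_inj hv hi l l' h.2
    subst hl
    rw [hi _ b b' (hv h.1)]

lemma gp_mem : ∀ (l : List (Fin t)) (o : O), o ∈ gp v st o1 l → ∃ s, v s = o
  | [], o, h => by
    rw [gp, List.mem_singleton] at h
    exact ⟨o1, h.symm⟩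
  | b :: l, o, h => by
    rw [gp, List.mem_cons] at h
    rcases h with h | h
    · exact ⟨_, h.symm⟩
    · exact gp_mem l o h

end Pat

lemma exists_st {S : Type} [Fintype S] [DecidableEq S] {t : ℕ} (hS : Fintype.card S = t + 1) :
    ∃ st : S → Fin t → S, (∀ o b, st o b ≠ o) ∧ ∀ o b b', st o b = st o b' → b = b' := by
  have h : ∀ o : S, Nonempty (Fin t ≃ {x : S // x ≠ o}) := by
    intro o
    refine ⟨(Fintype.equivFinOfCardEq ?_).symm⟩
    rw [Fintype.card_subtype_compl, Fintype.card_subtype_eq, hS]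
    rfl
  refine ⟨fun o b => ((h o).some b).1, fun o b => ((h o).some b).2, ?_⟩
  intro o b b' hb
  exact (h o).some.injective (Subtype.ext hb)

/-! ### Groups -/

section Groups

variable {G : Type} [Group G] [Fintype G]

/-- The number of conjugacy classes of elements of order not divisible by `p`. -/
noncomputable def rg (G : Type) [Group G] (p : ℕ) : ℕ :=
  Nat.card {c : ConjClasses G // ∃ y : G, ConjClasses.mk y = c ∧ ¬ p ∣ orderOf y}

theorem rank_general {p : ℕ} [hpf : Fact p.Prime] (m : ℤ)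
    (H : IsQuandle (gop m : G → G → G)) (φ : G → G → ZMod p)
    (hφ : CocP m φ) (hca : ∀ a, φ a a = 0) (hbase : BaseR m φ) (k : ℕ) (hk : 1 ≤ k) :
    ∃ f : (Fin ((rg G p - 1) ^ (k - 2)) → ZMod p) →+ HQ H k, Function.Injective f := by
  classical
  let S : Type := {c : ConjClasses G // ∃ y : G, ConjClasses.mk y = c ∧ ¬ p ∣ orderOf y}
  have hfin : Finite (ConjClasses G) := Finite.of_surjective _ ConjClasses.mk_surjective
  letI : Fintype S := Fintype.ofFinite S
  have hS0 : rg G p = Fintype.card S := Nat.card_eq_fintype_card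
  let o1 : S := ⟨ConjClasses.mk 1, 1, rfl, by
    rw [orderOf_one]
    exact hpf.out.one_lt.ne' ∘ Nat.dvd_one.mp⟩
  have hpos : 0 < Fintype.card S := Fintype.card_pos_iff.mpr ⟨o1⟩
  obtain ⟨t, ht⟩ : ∃ t, Fintype.card S = t + 1 := ⟨Fintype.card S - 1, by omega⟩
  obtain ⟨st, hst, hsi⟩ := exists_st ht
  have hob : ∀ g a : G, ConjClasses.mk (cj g a) = ConjClasses.mk a := by
    intro g a
    rw [ConjClasses.mk_eq_mk_iff_isConj, isConj_iff]
    exact ⟨g, by simp [cj, mul_assoc]⟩
  have hob1 : ∀ a : G, a ≠ 1 → ConjClasses.mk a ≠ ConjClasses.mk 1 := by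
    intro a ha h
    rw [ConjClasses.mk_eq_mk_iff_isConj, isConj_one_left] at h
    exact ha h
  have hr1 : rg G p - 1 = t := by omega
  rw [hr1]
  obtain ⟨n, rfl⟩ : ∃ n, k = n + 1 := ⟨k - 1, by omega⟩
  cases n with
  | zero =>
    exact exists_rank (ConjClasses.mk : G → ConjClasses G) hob hob1 m H φ hφ hca hbase
      (ι := Fin (t ^ (0 + 1 - 2))) 0 (fun _ => []) (fun i j _ => by
        have h1 : t ^ (0 + 1 - 2) = 1 := pow_zero t
        have hi : (i : ℕ) < 1 := lt_of_lt_of_eq i.isLt h1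
        have hj : (j : ℕ) < 1 := lt_of_lt_of_eq j.isLt h1
        ext
        omega) (fun _ => rfl) (fun _ => Or.inl rfl) (fun _ => trivial)
      (fun _ o ho => absurd ho List.not_mem_nil)
  | succ j =>
    have hcard : Fintype.card (Fin j → Fin t) = t ^ (j + 1 + 1 - 2) := by
      rw [Fintype.card_fun, Fintype.card_fin, Fintype.card_fin]
      congr 1
    let E : (Fin j → Fin t) ≃ Fin (t ^ (j + 1 + 1 - 2)) := Fintype.equivFinOfCardEq hcard
    have hv : Function.Injective (Subtype.val : S → ConjClasses G) := Subtype.val_injective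
    exact exists_rank (ConjClasses.mk : G → ConjClasses G) hob hob1 m H φ hφ hca hbase
      (ι := Fin (t ^ (j + 1 + 1 - 2))) (j + 1)
      (fun i => gp (Subtype.val : S → ConjClasses G) st o1 (List.ofFn (E.symm i)))
      (fun i i' hi => E.symm.injective (List.ofFn_injective (gp_inj _ st o1 hv hsi _ _ hi)))
      (fun i => by rw [gp_length, List.length_ofFn])
      (fun i => Or.inr (gp_last _ st o1 _)) (fun i => gp_Alt _ st o1 hv hst _)
      (fun i o ho => by
        obtain ⟨s, rfl⟩ := gp_mem _ st o1 _ o ho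
        exact s.2)

theorem rank_of {p : ℕ} [hpf : Fact p.Prime] (m : ℤ) (H : IsQuandle (gop m : G → G → G))
    (c : G → G → ZMod p) (hc : ∀ a g h, c a (g * h) = c a g + c (cj g a) h)
    (A : Set G → Set G → ZMod p) (hself : ∀ a, c a (a ^ m) + A (orbN m a) (orbN m a) = 0)
    {x w : G} (hx : x ≠ 1) (hw : w ∈ ⁅NN G m, NN G m⁆) (hfix : cj w x = x) (hval : c x w ≠ 0)
    (k : ℕ) (hk : 1 ≤ k) :
    ∃ f : (Fin ((rg G p - 1) ^ (k - 2)) → ZMod p) →+ HQ H k, Function.Injective f := by
  have horb : ∀ a b : G, orbN m (gop m a b) = orbN m a := by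
    intro a b
    rw [gop_eq, orbN_cj m (pow_mem_NN m b)]
  have hφ : CocP m (fun x y => c x (y ^ m) + A (orbN m x) (orbN m y)) := by
    intro x y z
    have h1 := cocP_of m c hc x y z
    simp only [horb]
    linear_combination h1
  exact rank_general m H _ hφ hself (baseR_of m c hc A hx hw hfix hval) k hk

end Groups

/-! ### The symmetric groups -/

section Sym

open Equiv Equiv.Perm
open scoped commutatorElement

variable {n : ℕ}

theorem rank_p {p : ℕ} [hpf : Fact p.Prime] {m : ℤ} {x : Perm (Fin n)} (hx : PCy p x)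
    (hxN : x ∈ ⁅NN (Perm (Fin n)) m, NN (Perm (Fin n)) m⁆)
    (H : IsQuandle (gop m : Perm (Fin n) → Perm (Fin n) → Perm (Fin n))) (k : ℕ) (hk : 1 ≤ k) :
    ∃ f : (Fin ((rg (Perm (Fin n)) p - 1) ^ (k - 2)) → ZMod p) →+ HQ H k,
      Function.Injective f := by
  obtain ⟨u, hu, _⟩ := hx.1
  have hn : 0 < n := lt_of_le_of_lt (Nat.zero_le _) u.isLt
  obtain ⟨f, hf⟩ := exists_fp (n := n) hn p
  have hx1 : x ≠ 1 := by
    rintro rfl
    exact hu rfl
  have hca : ∀ a, rot f p a (a ^ m) + cor p m (orbN m a) (orbN m a) = 0 := by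
    intro a
    by_cases ha : PCy p a
    · have h3 := (orb_PCy m a).mpr ha
      rw [rot_self f hf m ha, cor, if_pos ⟨h3, h3⟩]
      push_cast
      ring
    · rw [rot_not f ha, cor, if_neg, add_zero]
      rintro ⟨h3, _⟩
      exact ha ((orb_PCy m a).mp h3)
  have hfix : cj x x = x := by simp [cj]
  have hval : rot f p x x ≠ 0 := by
    have h3 := rot_self f hf 1 hx
    rw [zpow_one] at h3
    rw [h3]
    push_cast
    rw [neg_ne_zero]
    exact one_ne_zero
  exact rank_of m H (rot f p) (rot_mul f hf) (cor p m) hca hx1 hxN hfix hval k hk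

theorem rank_two {m : ℤ} (hn : 4 ≤ n)
    (hN : ∀ g : Perm (Fin n), g ^ 3 = 1 → g ∈ NN (Perm (Fin n)) m)
    (H : IsQuandle (gop m : Perm (Fin n) → Perm (Fin n) → Perm (Fin n))) (k : ℕ) (hk : 1 ≤ k) :
    ∃ f : (Fin ((rg (Perm (Fin n)) 2 - 1) ^ (k - 2)) → ZMod 2) →+ HQ H k,
      Function.Injective f := by
  obtain ⟨fs, hfs⟩ := exists_fs (n := n) (by omega)
  let ι : Fin 4 ↪ Fin n := Fin.castLEEmb hn
  let φ : Perm (Fin 4) →* Perm (Fin n) := Equiv.Perm.viaEmbeddingHom ι
  have hφ : ∀ (σ : Perm (Fin 4)) (i : Fin 4), φ σ (ι i) = ι (σ i) := by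
    intro σ i
    show Equiv.Perm.viaEmbeddingHom ι σ (ι i) = _
    rw [Equiv.Perm.viaEmbeddingHom_apply]
    exact Equiv.Perm.viaEmbedding_apply σ ι i
  have hg3 : (φ g4) ^ 3 = 1 := by rw [← map_pow, g4_three, map_one]
  have hh3 : (φ h4) ^ 3 = 1 := by rw [← map_pow, h4_three, map_one]
  have hcomm : φ g4 * φ h4 * (φ g4)⁻¹ * (φ h4)⁻¹ = φ (g4 * h4 * g4⁻¹ * h4⁻¹) := by
    simp only [map_mul, map_inv]
  have hι : ι 0 ≠ ι 1 := fun h => by
    have := ι.injective h
    exact absurd this (by decide)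
  set x : Perm (Fin n) := Equiv.swap (ι 0) (ι 1) with hx
  have hxs : x.IsSwap := ⟨ι 0, ι 1, hι, rfl⟩
  have hx1 : x ≠ 1 := by
    intro h
    apply hfs x hxs
    rw [h]; rfl
  have hwN : φ g4 * φ h4 * (φ g4)⁻¹ * (φ h4)⁻¹ ∈ ⁅NN (Perm (Fin n)) m, NN (Perm (Fin n)) m⁆ := by
    rw [← commutatorElement_def]
    exact Subgroup.commutator_mem_commutator (hN _ hg3) (hN _ hh3)
  set w : Perm (Fin n) := φ g4 * φ h4 * (φ g4)⁻¹ * (φ h4)⁻¹ with hw
  have hw0 : w (ι 0) = ι 1 := by rw [hcomm, hφ, comm_zero]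
  have hw1 : w (ι 1) = ι 0 := by rw [hcomm, hφ, comm_one]
  have hfix : cj w x = x := by
    have h1 : w * x = x * w := by
      rw [hx, Equiv.mul_swap_eq_swap_mul, hw0, hw1, Equiv.swap_comm]
    rw [cj, mul_assoc, ← h1, inv_mul_cancel_left]
  have hsgw : sg w = 0 := by
    have hs : Perm.sign w = 1 := by
      rw [hw]
      simp only [map_mul, map_inv]
      rcases Int.units_eq_one_or (Perm.sign (φ g4)) with h1 | h1 <;>
        rcases Int.units_eq_one_or (Perm.sign (φ h4)) with h2 | h2 <;>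
        rw [h1, h2] <;> decide
    rw [sg, if_pos hs]
  have hval : cS fs x w = 1 := by
    unfold cS
    rw [if_pos hxs, hsgw, zero_add, prv, hfix]
    have hm := hfs x hxs
    have h0 : fs x = ι 0 ∨ fs x = ι 1 := by
      by_contra hcon
      push Not at hcon
      exact hm (Equiv.swap_apply_of_ne_of_ne hcon.1 hcon.2)
    have hne : w⁻¹ (fs x) ≠ fs x := by
      intro h
      have h2 : w (fs x) = fs x := by
        rw [Equiv.Perm.inv_eq_iff_eq] at h
        exact h.symm
      rcases h0 with h0 | h0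
      · rw [h0, hw0] at h2; exact hι h2.symm
      · rw [h0, hw1] at h2; exact hι h2
    rw [if_neg hne]
  exact rank_of m H (cS fs) (cS_mul fs hfs) (fun _ _ => 0)
    (fun a => by rw [cS_self fs hfs m a, add_zero]) hx1 hwN hfix
    (by rw [hval]; exact one_ne_zero) k hk

lemma baseR_four {m : ℤ} (hm : m % 12 = 6) : BaseR m phi4 := by
  have hu : u4 ≠ 1 := by decide
  have hx : x4 ≠ 1 := by decide
  have hz : z4 ≠ 1 := by decide
  have hux : opV u4 x4 ≠ 1 := by decide +kernel
  have huz : opV u4 z4 ≠ 1 := by decide +kernel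
  have hcomm : opV (opV u4 x4) z4 = opV (opV u4 z4) x4 := by decide +kernel
  have hLm : ∀ a b : Perm (Fin 4), Lm (s a (s b (p0 (Perm (Fin 4))))) = single [a, b] 1 := by
    intro a b
    rw [Lm_s, Lm_s, p0, Lm_single]
    simp
  have hbd : ∀ a b : Perm (Fin 4), bd (gop m) 1 (s a (s b (p0 (Perm (Fin 4))))) =
      s b (p0 (Perm (Fin 4))) - s (opV b a) (p0 (Perm (Fin 4))) := by
    intro a b
    rw [bd_sg, bd_zero, map_zero, zero_add, pow_zero, one_smul, mp_s, mp_p0, ← gop_eq,
      gop_four hm]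
  have horb : ∀ a b : Perm (Fin 4), orbN m (opV b a) = orbN m b := by
    intro a b
    rw [← gop_four hm, gop_eq, orbN_cj m (pow_mem_NN m a)]
  refine ⟨s x4 (s u4 (p0 _)) + s z4 (s (opV u4 x4) (p0 _)) - s z4 (s u4 (p0 _)) -
    s x4 (s (opV u4 z4) (p0 _)), ?_, ?_, ?_, ?_⟩
  · simp only [map_add, map_sub, hbd]
    rw [hcomm]
    abel
  · simp only [map_add, map_sub, mp_s, mp_p0, horb]
    abel
  · simp only [map_add, map_sub, hLm]
    exact NE2_sub (NE2_sub (NE2_add (NE2_single hx hu) (NE2_single hz hux)) (NE2_single hz hu))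
      (NE2_single hx huz)
  · simp only [map_add, map_sub, hLm, ph_single, phW]
    have e1 : phi4 u4 x4 = 0 := by decide +kernel
    have e2 : phi4 (opV u4 x4) z4 = 1 := by decide +kernel
    have e3 : phi4 u4 z4 = 0 := by decide +kernel
    have e4 : phi4 (opV u4 z4) x4 = 0 := by decide +kernel
    rw [e1, e2, e3, e4]
    decide

theorem rank_four {m : ℤ} (hm : m % 12 = 6)
    (H : IsQuandle (gop m : Perm (Fin 4) → Perm (Fin 4) → Perm (Fin 4))) (k : ℕ) (hk : 1 ≤ k) :
    ∃ f : (Fin ((rg (Perm (Fin 4)) 2 - 1) ^ (k - 2)) → ZMod 2) →+ HQ H k,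
      Function.Injective f := by
  have hφ : CocP m phi4 := by
    intro x y z
    rw [gop_four hm, gop_four hm, gop_four hm]
    exact phi4_coc x y z
  exact rank_general m H phi4 hφ phi4_self (baseR_four hm) k hk

theorem all_rank (hn : 4 ≤ n) {m : ℤ} (hm : ∃ y : Perm (Fin n), y ^ m ≠ 1) {p : ℕ}
    (hp : p.Prime) (hpn : p ≤ n) (h : p = 2 ∨ 5 ≤ n ∨ ¬ (2 : ℤ) ∣ m) (k : ℕ) (hk : 1 ≤ k) :
    ∃ f : (Fin ((rg (Perm (Fin n)) p - 1) ^ (k - 2)) → ZMod p) →+
      HQ (symOp_isQuandle n m) k, Function.Injective f := by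
  have H : IsQuandle (gop m : Perm (Fin n) → Perm (Fin n) → Perm (Fin n)) :=
    symOp_isQuandle n m
  have hpf : Fact p.Prime := ⟨hp⟩
  by_cases hp2 : p = 2
  · subst hp2
    by_cases h5 : 5 ≤ n
    · obtain ⟨y, hy⟩ := hm
      exact rank_two hn (fun g hg => mem_NN_of_sign h5 hy hg) H k hk
    · have h4 : n = 4 := by omega
      subst h4
      by_cases h6 : (6 : ℤ) ∣ m
      · have h12 : ¬ (12 : ℤ) ∣ m := by
          rintro ⟨r, rfl⟩
          obtain ⟨y, hy⟩ := hm
          apply hy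
          rw [zpow_mul]
          have : y ^ (12 : ℤ) = 1 := by
            rw [show (12 : ℤ) = 6 + 6 from rfl, zpow_add, pow_six_four, sx_pow_two]
          rw [this, one_zpow]
        have : m % 12 = 6 := by omega
        exact rank_four this H k hk
      · exact rank_two hn (fun g hg => mem_NN_three h6 hg) H k hk
  · by_cases h5 : 5 ≤ n
    · obtain ⟨y, hy⟩ := hm
      obtain ⟨x, hx⟩ := exists_PCy (n := n) hp hpn
      exact rank_p hx (alt_le_comm h5 hy (PCy_even hp hp2 hx)) H k hk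
    · have h4 : n = 4 := by omega
      have h2m : ¬ (2 : ℤ) ∣ m := by
        rcases h with h | h | h
        · exact absurd h hp2
        · exact absurd h h5
        · exact h
      subst h4
      have hp3 : p = 3 := by
        have h1 := hp.two_le
        interval_cases p
        · exact absurd rfl hp2
        · rfl
        · exact absurd hp (by decide)
      subst hp3
      have htc : (Equiv.swap (2 : Fin 4) 0 * Equiv.swap 2 1).IsThreeCycle :=
        Equiv.Perm.isThreeCycle_swap_mul_swap_same (by decide) (by decide) (by decide)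
      have hcom : ⁅Equiv.swap (0 : Fin 4) 1, Equiv.swap 1 2⁆ =
          Equiv.swap (2 : Fin 4) 0 * Equiv.swap 2 1 := by
        rw [commutatorElement_def]
        decide
      refine rank_p (x := Equiv.swap (2 : Fin 4) 0 * Equiv.swap 2 1)
        ⟨htc.isCycle, htc.orderOf⟩ ?_ H k hk
      rw [← hcom]
      refine Subgroup.commutator_mem_commutator ?_ ?_ <;>
        · rw [NN_top h2m]
          exact Subgroup.mem_top _

lemma two_le_rg (hn : 3 ≤ n) {p : ℕ} (hp : p.Prime) : 2 ≤ rg (Perm (Fin n)) p := by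
  have hfin : Finite (ConjClasses (Perm (Fin n))) :=
    Finite.of_surjective _ ConjClasses.mk_surjective
  obtain ⟨y, hy1, hyp⟩ : ∃ y : Perm (Fin n), y ≠ 1 ∧ ¬ p ∣ orderOf y := by
    by_cases hp2 : p = 2
    · obtain ⟨y, hy⟩ := exists_PCy (n := n) Nat.prime_three hn
      refine ⟨y, ?_, ?_⟩
      · rintro rfl
        have := hy.2
        rw [orderOf_one] at this
        omega
      · rw [hy.2, hp2]
        decide
    · obtain ⟨y, hy⟩ := exists_PCy (n := n) Nat.prime_two (by omega)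
      refine ⟨y, ?_, ?_⟩
      · rintro rfl
        have := hy.2
        rw [orderOf_one] at this
        omega
      · rw [hy.2]
        intro h
        exact hp2 ((Nat.prime_dvd_prime_iff_eq hp Nat.prime_two).mp h)
  have hnt : Nontrivial {c : ConjClasses (Perm (Fin n)) //
      ∃ y : Perm (Fin n), ConjClasses.mk y = c ∧ ¬ p ∣ orderOf y} := by
    refine ⟨⟨⟨ConjClasses.mk 1, 1, rfl, ?_⟩, ⟨ConjClasses.mk y, y, rfl, hyp⟩, ?_⟩⟩
    · rw [orderOf_one]
      exact hp.one_lt.ne' ∘ Nat.dvd_one.mp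
    · intro h
      have h1 := congrArg Subtype.val h
      have h2 : ConjClasses.mk (1 : Perm (Fin n)) = ConjClasses.mk y := h1
      rw [ConjClasses.mk_eq_mk_iff_isConj, isConj_one_right] at h2
      exact hy1 h2
  exact Finite.one_lt_card

theorem all_rank' (hn : 4 ≤ n) {m : ℤ} (hm : ∃ y : Perm (Fin n), y ^ m ≠ 1) {p : ℕ}
    (hp : p.Prime) (hpn : p ≤ n) (h : p = 2 ∨ 5 ≤ n ∨ ¬ (2 : ℤ) ∣ m) :
    2 ≤ rg (Perm (Fin n)) p ∧ ∀ k : ℕ, 1 ≤ k →
      ∃ f : (Fin ((rg (Perm (Fin n)) p - 1) ^ (k - 2)) → ZMod p) →+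
        HQ (symOp_isQuandle n m) k, Function.Injective f :=
  ⟨two_le_rg (by omega) hp, fun k hk => all_rank hn hm hp hpn h k hk⟩

end Sym

end Pool.Agent.Lib.MP_813e56_al
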