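import Pool.Agent.Lib.MP_813e56_al.Six

/-!
The rank of the homology of the six-letter quandle.
-/

open Finsupp

namespace Pool.Agent.Lib.MP_813e56_al

/-! ### Cycles that lift the orbit words -/

/-- Three letters over each orbit. -/
def lift4 : Fin 4 → Fin 3 → Fin 6 := ![![0, 0, 0], ![1, 1, 1], ![2, 2, 2], ![3, 4, 5]]

/-- The lift of a word of orbits. -/
noncomputable def JWord : (k : ℕ) → (Fin k → Fin 4) → Ch (Fin 6) k
  | 0, _ => single (fun i : Fin 0 => i.elim0) 1
  | (k + 1), w => ∑ i : Fin 3, s (lift4 (w (Fin.last k)) i) (JWord k (fun i => w i.castSucc))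

/-- The lift of a chain of orbit words. -/
noncomputable def J (k : ℕ) : Ch (Fin 4) k →ₗ[ℤ] Ch (Fin 6) k :=
  Finsupp.linearCombination ℤ (JWord k)

lemma J_s {k : ℕ} (o : Fin 4) (v : Ch (Fin 4) k) :
    J (k + 1) (s o v) = ∑ i : Fin 3, s (lift4 o i) (J k v) := by
  have := lin_ext (f := (J (k + 1)).comp (s o))
    (g := ∑ i : Fin 3, (s (lift4 o i)).comp (J k)) (fun w => by
      simp only [LinearMap.comp_apply, LinearMap.sum_apply, s_single, J,
        Finsupp.linearCombination_single, one_smul, JWord, sn_last, sn_castSucc]) v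
  simpa [LinearMap.sum_apply] using this

lemma op_J (x : Fin 6) : ∀ {k : ℕ} (v : Ch (Fin 4) k), mp (fun a => opF a x) (J k v) = J k v
  | 0, v => mp_self_ch0 _ _
  | (k + 1), v => by
    refine s_ext (f := (mp (fun a => opF a x)).comp (J (k + 1))) (g := J (k + 1))
      (fun o u => ?_) v
    simp only [LinearMap.comp_apply, J_s, map_sum, mp_s]
    rw [op_J x u, Fin.sum_univ_three, Fin.sum_univ_three]
    fin_cases o <;> fin_cases x <;> simp [lift4, opF, rho, rho'] <;> abel

lemma bd_J : ∀ {k : ℕ} (v : Ch (Fin 4) (k + 1)), bd opF k (J (k + 1) v) = 0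
  | 0, v => bd_zero _ _
  | (k + 1), v => by
    refine s_ext (f := (bd opF (k + 1)).comp (J (k + 2))) (g := 0) (fun o u => ?_) v
    simp only [LinearMap.comp_apply, J_s o u, map_sum, bd_s, LinearMap.zero_apply, op_J, bd_J u,
      map_zero, sub_self, smul_zero, add_zero, Finset.sum_const_zero]

lemma pi_J : ∀ {k : ℕ} (v : Ch (Fin 4) k), mp orb (J k v) = (3 : ℤ) ^ k • v
  | 0, v => by
    refine lin_ext (f := (mp orb).comp (J 0)) (g := (3 : ℤ) ^ 0 • LinearMap.id)
      (fun w => ?_) v
    simp only [LinearMap.comp_apply, J, Finsupp.linearCombination_single, one_smul, JWord,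
      mp_single, LinearMap.id_apply, pow_zero]
    congr 1
    exact funext (fun i => i.elim0)
  | (k + 1), v => by
    refine s_ext (f := (mp orb).comp (J (k + 1))) (g := (3 : ℤ) ^ (k + 1) • LinearMap.id)
      (fun o u => ?_) v
    have ho : ∀ i : Fin 3, orb (lift4 o i) = o := by
      intro i; fin_cases o <;> fin_cases i <;> rfl
    simp only [LinearMap.comp_apply, J_s o u, map_sum, mp_s, pi_J u, ho, Finset.sum_const,
      Finset.card_univ, Fintype.card_fin, LinearMap.smul_apply, LinearMap.id_apply, map_smul,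
      pow_succ]
    module

/-! ### Counting nondegenerate words -/

/-- Words of length `k` over four letters without equal neighbours. -/
def NW (k : ℕ) : Type := {w : Fin k → Fin 4 // ¬ Degen w}

noncomputable instance (k : ℕ) : Fintype (NW k) := by
  classical
  exact inferInstanceAs (Fintype {w : Fin k → Fin 4 // ¬ Degen w})

lemma degen_sn {Q : Type} {k : ℕ} (v : Fin (k + 1) → Q) (x : Q) :
    Degen (sn v x) ↔ Degen v ∨ x = v (Fin.last k) := by
  constructor
  · rintro ⟨i, j, hij, hw⟩
    by_cases hj : j = Fin.last (k + 1)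
    · right
      have hi : i = (Fin.last k).castSucc := by
        ext
        rw [hj] at hij
        simp only [Fin.val_last, Fin.val_castSucc] at hij ⊢
        omega
      rw [hi, hj] at hw
      simpa using hw.symm
    · left
      have hj' : (j : ℕ) < k + 1 := by
        have h1 := j.isLt
        have h2 : (j : ℕ) ≠ k + 1 := fun h => hj (by ext; simpa using h)
        omega
      refine ⟨⟨i, by omega⟩, ⟨j, hj'⟩, hij, ?_⟩
      have h1 := sn_castSucc v x ⟨i, by omega⟩
      have h2 := sn_castSucc v x ⟨j, hj'⟩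
      rw [← h1, ← h2]
      exact hw
  · rintro (⟨i, j, hij, hw⟩ | h)
    · exact ⟨i.castSucc, j.castSucc, by simpa using hij, by simpa using hw⟩
    · exact ⟨(Fin.last k).castSucc, Fin.last (k + 1), by simp, by simp [h]⟩

/-- Extend a word without equal neighbours. -/
def extNW {k : ℕ} (p : NW (k + 1) × Fin 3) : NW (k + 2) :=
  ⟨sn p.1.1 ((p.1.1 (Fin.last k)).succAbove p.2), by
    rw [degen_sn]
    rintro (h | h)
    · exact p.1.2 h
    · exact Fin.succAbove_ne _ _ h⟩

lemma extNW_bij {k : ℕ} : Function.Bijective (extNW (k := k)) := by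
  constructor
  · rintro ⟨⟨v, hv⟩, y⟩ ⟨⟨v', hv'⟩, y'⟩ h
    have h' : sn v ((v (Fin.last k)).succAbove y) = sn v' ((v' (Fin.last k)).succAbove y') :=
      congrArg Subtype.val h
    have hvv : v = v' := by
      funext i
      have := congrFun h' i.castSucc
      simpa using this
    subst hvv
    have hy := congrFun h' (Fin.last (k + 1))
    simp only [sn_last] at hy
    have : y = y' := Fin.succAbove_right_injective hy
    subst this
    rfl
  · rintro ⟨w, hw⟩
    obtain ⟨v, x, rfl⟩ := exists_sn w
    have h1 : ¬ Degen v := fun h => hw ((degen_sn v x).mpr (Or.inl h))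
    have h2 : x ≠ v (Fin.last k) := fun h => hw ((degen_sn v x).mpr (Or.inr h))
    obtain ⟨y, hy⟩ := Fin.exists_succAbove_eq h2
    exact ⟨(⟨v, h1⟩, y), Subtype.ext (by simp [extNW, hy])⟩

lemma card_NW : ∀ k : ℕ, Fintype.card (NW (k + 1)) = 4 * 3 ^ k
  | 0 => by
    have e : NW 1 ≃ Fin 4 :=
      { toFun := fun w => w.1 0
        invFun := fun x => ⟨fun _ => x, by
          rintro ⟨i, j, hij, _⟩
          have := j.isLt
          omega⟩
        left_inv := fun w => Subtype.ext (funext (fun i => by
          have : i = 0 := Subsingleton.elim _ _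
          rw [this]))
        right_inv := fun x => rfl }
    rw [Fintype.card_congr e]
    simp
  | (k + 1) => by
    rw [← Fintype.card_congr (Equiv.ofBijective _ (extNW_bij (k := k))), Fintype.card_prod,
      card_NW k, Fintype.card_fin, pow_succ]
    ring

/-! ### Linear algebra -/

lemma full_rank {ι : Type} [Fintype ι] (N : Submodule ℤ (ι → ℤ)) (c : ℤ) (hc : c ≠ 0)
    (h : ∀ f : ι → ℤ, c • f ∈ N) (n : ℕ) (hn : Fintype.card ι = n) :
    Nonempty (N ≃ₗ[ℤ] (Fin n → ℤ)) := by
  have h1 : Module.finrank ℤ N ≤ Fintype.card ι := by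
    have := Submodule.finrank_le N
    rwa [Module.finrank_fintype_fun_eq_card] at this
  have h2 : Fintype.card ι ≤ Module.finrank ℤ N := by
    let g : (ι → ℤ) →ₗ[ℤ] N := LinearMap.codRestrict N (c • LinearMap.id) (fun f => h f)
    have hg : Function.Injective g := by
      intro a b hab
      have h3 : c • a = c • b := congrArg Subtype.val hab
      exact smul_right_injective _ hc h3
    have := LinearMap.finrank_le_finrank_of_injective hg
    rwa [Module.finrank_fintype_fun_eq_card] at this
  have h3 : Module.finrank ℤ N = n := by omega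
  exact ⟨(Module.finBasisOfFinrankEq ℤ N h3).equivFun⟩

end Pool.Agent.Lib.MP_813e56_al
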