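import Pool.Agent.Lib.MP_813e56_al.Basic

/-!
The six-letter quandle: cycles of the rack complex that vanish in the orbit words are boundaries.
-/

open Finsupp

namespace Pool.Agent.Lib.MP_813e56_al

/-- The action of the letter `1`. -/
def rho : Fin 6 → Fin 6 := ![0, 1, 2, 4, 5, 3]

/-- The action of the letter `2`. -/
def rho' : Fin 6 → Fin 6 := ![0, 1, 2, 5, 3, 4]

/-- The six-letter quandle: `0` is the identity, `1`, `2` the two three-cycles, `3`, `4`, `5` the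
transpositions. -/
def opF (i j : Fin 6) : Fin 6 := if j = 1 then rho i else if j = 2 then rho' i else i

/-- The orbit of a letter. -/
def orb : Fin 6 → Fin 4 := ![0, 1, 2, 3, 3, 3]

variable {k : ℕ}

lemma rs0 (v : Ch (Fin 6) k) : mp rho (s 0 v) = s 0 (mp rho v) := mp_s _ _ _
lemma rs1 (v : Ch (Fin 6) k) : mp rho (s 1 v) = s 1 (mp rho v) := mp_s _ _ _
lemma rs2 (v : Ch (Fin 6) k) : mp rho (s 2 v) = s 2 (mp rho v) := mp_s _ _ _
lemma rs3 (v : Ch (Fin 6) k) : mp rho (s 3 v) = s 4 (mp rho v) := mp_s _ _ _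
lemma rs4 (v : Ch (Fin 6) k) : mp rho (s 4 v) = s 5 (mp rho v) := mp_s _ _ _
lemma rs5 (v : Ch (Fin 6) k) : mp rho (s 5 v) = s 3 (mp rho v) := mp_s _ _ _
lemma rs0' (v : Ch (Fin 6) k) : mp rho' (s 0 v) = s 0 (mp rho' v) := mp_s _ _ _
lemma rs1' (v : Ch (Fin 6) k) : mp rho' (s 1 v) = s 1 (mp rho' v) := mp_s _ _ _
lemma rs2' (v : Ch (Fin 6) k) : mp rho' (s 2 v) = s 2 (mp rho' v) := mp_s _ _ _
lemma rs3' (v : Ch (Fin 6) k) : mp rho' (s 3 v) = s 5 (mp rho' v) := mp_s _ _ _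
lemma rs4' (v : Ch (Fin 6) k) : mp rho' (s 4 v) = s 3 (mp rho' v) := mp_s _ _ _
lemma rs5' (v : Ch (Fin 6) k) : mp rho' (s 5 v) = s 4 (mp rho' v) := mp_s _ _ _
lemma ps0 (v : Ch (Fin 6) k) : mp orb (s 0 v) = s 0 (mp orb v) := mp_s _ _ _
lemma ps1 (v : Ch (Fin 6) k) : mp orb (s 1 v) = s 1 (mp orb v) := mp_s _ _ _
lemma ps2 (v : Ch (Fin 6) k) : mp orb (s 2 v) = s 2 (mp orb v) := mp_s _ _ _
lemma ps3 (v : Ch (Fin 6) k) : mp orb (s 3 v) = s 3 (mp orb v) := mp_s _ _ _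
lemma ps4 (v : Ch (Fin 6) k) : mp orb (s 4 v) = s 3 (mp orb v) := mp_s _ _ _
lemma ps5 (v : Ch (Fin 6) k) : mp orb (s 5 v) = s 3 (mp orb v) := mp_s _ _ _

lemma mp_congr_id {f : Fin 6 → Fin 6} (hf : ∀ a, f a = a) (v : Ch (Fin 6) k) : mp f v = v := by
  have : f = fun x => x := funext hf
  rw [this, mp_id]

lemma rr' (v : Ch (Fin 6) k) : mp rho (mp rho' v) = v := by
  rw [mp_mp]; exact mp_congr_id (by decide) v

lemma r'r (v : Ch (Fin 6) k) : mp rho' (mp rho v) = v := by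
  rw [mp_mp]; exact mp_congr_id (by decide) v

lemma rrr (v : Ch (Fin 6) k) : mp rho (mp rho (mp rho v)) = v := by
  rw [mp_mp, mp_mp]; exact mp_congr_id (by decide) v

lemma pr (v : Ch (Fin 6) k) : mp orb (mp rho v) = mp orb v := by
  rw [mp_mp]
  have : (fun x => orb (rho x)) = orb := funext (by decide)
  rw [this]

lemma pr' (v : Ch (Fin 6) k) : mp orb (mp rho' v) = mp orb v := by
  rw [mp_mp]
  have : (fun x => orb (rho' x)) = orb := funext (by decide)
  rw [this]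

lemma op0 (v : Ch (Fin 6) k) : mp (fun a => opF a 0) v = v := mp_congr_id (by decide) v
lemma op3 (v : Ch (Fin 6) k) : mp (fun a => opF a 3) v = v := mp_congr_id (by decide) v
lemma op4 (v : Ch (Fin 6) k) : mp (fun a => opF a 4) v = v := mp_congr_id (by decide) v
lemma op5 (v : Ch (Fin 6) k) : mp (fun a => opF a 5) v = v := mp_congr_id (by decide) v
lemma op1 (v : Ch (Fin 6) k) : mp (fun a => opF a 1) v = mp rho v := by
  have : (fun a => opF a 1) = rho := funext (by decide)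
  rw [this]
lemma op2 (v : Ch (Fin 6) k) : mp (fun a => opF a 2) v = mp rho' v := by
  have : (fun a => opF a 2) = rho' := funext (by decide)
  rw [this]

lemma bs0 (v : Ch (Fin 6) (k + 1)) : bd opF (k + 1) (s 0 v) = s 0 (bd opF k v) := by
  rw [bd_s, op0]; simp
lemma bs3 (v : Ch (Fin 6) (k + 1)) : bd opF (k + 1) (s 3 v) = s 3 (bd opF k v) := by
  rw [bd_s, op3]; simp
lemma bs4 (v : Ch (Fin 6) (k + 1)) : bd opF (k + 1) (s 4 v) = s 4 (bd opF k v) := by
  rw [bd_s, op4]; simp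
lemma bs5 (v : Ch (Fin 6) (k + 1)) : bd opF (k + 1) (s 5 v) = s 5 (bd opF k v) := by
  rw [bd_s, op5]; simp
lemma bs1 (v : Ch (Fin 6) (k + 1)) :
    bd opF (k + 1) (s 1 v) = s 1 (bd opF k v) + (-1 : ℤ) ^ k • (v - mp rho v) := by
  rw [bd_s, op1]
lemma bs2 (v : Ch (Fin 6) (k + 1)) :
    bd opF (k + 1) (s 2 v) = s 2 (bd opF k v) + (-1 : ℤ) ^ k • (v - mp rho' v) := by
  rw [bd_s, op2]

lemma br (v : Ch (Fin 6) (k + 1)) : bd opF k (mp rho v) = mp rho (bd opF k v) :=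
  (mp_bd opF (op' := opF) rho (by decide) v).symm

lemma br' (v : Ch (Fin 6) (k + 1)) : bd opF k (mp rho' v) = mp rho' (bd opF k v) :=
  (mp_bd opF (op' := opF) rho' (by decide) v).symm

lemma pb (v : Ch (Fin 6) (k + 1)) : mp orb (bd opF k v) = 0 :=
  mp_bd_inv opF orb (by decide) v

/-- Decomposition by the last letter. -/
lemma exists_six (z : Ch (Fin 6) (k + 1)) : ∃ z0 z1 z2 z3 z4 z5 : Ch (Fin 6) k,
    z = s 0 z0 + s 1 z1 + s 2 z2 + s 3 z3 + s 4 z4 + s 5 z5 := by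
  refine ⟨co 0 z, co 1 z, co 2 z, co 3 z, co 4 z, co 5 z, ?_⟩
  refine s_ext (f := LinearMap.id) (g := (s 0).comp (co 0) + (s 1).comp (co 1) +
    (s 2).comp (co 2) + (s 3).comp (co 3) + (s 4).comp (co 4) + (s 5).comp (co 5))
    (fun x v => ?_) z
  simp only [LinearMap.id_apply, LinearMap.add_apply, LinearMap.comp_apply]
  fin_cases x <;> simp [co_s_ne]

lemma six_zero {z0 z1 z2 z3 z4 z5 : Ch (Fin 6) k}
    (h : s 0 z0 + s 1 z1 + s 2 z2 + s 3 z3 + s 4 z4 + s 5 z5 = 0) :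
    z0 = 0 ∧ z1 = 0 ∧ z2 = 0 ∧ z3 = 0 ∧ z4 = 0 ∧ z5 = 0 := by
  refine ⟨?_, ?_, ?_, ?_, ?_, ?_⟩
  · simpa [co_s_ne] using congrArg (co 0) h
  · simpa [co_s_ne] using congrArg (co 1) h
  · simpa [co_s_ne] using congrArg (co 2) h
  · simpa [co_s_ne] using congrArg (co 3) h
  · simpa [co_s_ne] using congrArg (co 4) h
  · simpa [co_s_ne] using congrArg (co 5) h

lemma pi_zero {z0 z1 z2 z3 z4 z5 : Ch (Fin 6) k}
    (h : mp orb (s 0 z0 + s 1 z1 + s 2 z2 + s 3 z3 + s 4 z4 + s 5 z5) = 0) :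
    mp orb z0 = 0 ∧ mp orb z1 = 0 ∧ mp orb z2 = 0 ∧ mp orb z3 + mp orb z4 + mp orb z5 = 0 := by
  simp only [map_add, ps0, ps1, ps2, ps3, ps4, ps5] at h
  refine ⟨?_, ?_, ?_, ?_⟩
  · simpa [co_s_ne] using congrArg (co 0) h
  · simpa [co_s_ne] using congrArg (co 1) h
  · simpa [co_s_ne] using congrArg (co 2) h
  · simpa [co_s_ne] using congrArg (co 3) h

/-- Cycles, with everything a cycle in degree `0`. -/
def IsCyc : {k : ℕ} → Ch (Fin 6) k → Prop
  | 0, _ => True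
  | (k + 1), z => bd opF k z = 0

/-- The statement proved by induction. -/
def PP (k : ℕ) : Prop :=
  ∀ z : Ch (Fin 6) k, IsCyc z → mp orb z = 0 → ∃ u : Ch (Fin 6) (k + 1), bd opF k u = z

lemma mp_ch0 {Q Q' : Type} (f : Q → Q') (z : Ch Q 0) (h : mp f z = 0) : z = 0 := by
  have hz : z = single (fun i : Fin 0 => i.elim0) (z (fun i : Fin 0 => i.elim0)) := by
    refine Finsupp.ext (fun w => ?_)
    have : w = fun i : Fin 0 => i.elim0 := funext (fun i => i.elim0)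
    rw [this]; simp
  rw [hz] at h ⊢
  rw [mp_single] at h
  have := Finsupp.single_eq_zero.mp h
  rw [this]; simp

lemma mp_self_ch0 (f : Fin 6 → Fin 6) (z : Ch (Fin 6) 0) : mp f z = z := by
  refine lin_ext (f := mp f) (g := LinearMap.id) (fun w => ?_) z
  rw [mp_single]
  have : (fun i => f (w i)) = w := funext (fun i => i.elim0)
  rw [this]; rfl

lemma PP_zero : PP 0 := by
  intro z _ h
  exact ⟨0, by rw [map_zero, mp_ch0 orb z h]⟩

lemma PP_one : PP 1 := by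
  intro z _ h
  obtain ⟨z0, z1, z2, z3, z4, z5, rfl⟩ := exists_six z
  obtain ⟨h0, h1, h2, h3⟩ := pi_zero h
  rw [← map_add, ← map_add] at h3
  have e0 := mp_ch0 orb z0 h0
  have e1 := mp_ch0 orb z1 h1
  have e2 := mp_ch0 orb z2 h2
  have e3 := mp_ch0 orb _ h3
  have e5 : z5 = - (z3 + z4) := by
    rw [eq_neg_iff_add_eq_zero, ← e3]; abel
  subst e0 e1 e2 e5
  refine ⟨s 1 (s 3 z3) + s 1 (s 4 (z3 + z4)), ?_⟩
  rw [map_add, bs1, bs1, bd_zero, bd_zero, rs3, rs4, mp_self_ch0, mp_self_ch0]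
  simp only [map_zero, map_add, map_neg, pow_zero, one_smul]
  abel

lemma isCyc_sub_rho' {a b : Ch (Fin 6) k} (ha : IsCyc a) (hb : IsCyc b) :
    IsCyc (a - mp rho' b) := by
  cases k with
  | zero => trivial
  | succ k =>
    have ha' : bd opF k a = 0 := ha
    have hb' : bd opF k b = 0 := hb
    show bd opF k (a - mp rho' b) = 0
    rw [map_sub, br', ha', hb', map_zero, sub_zero]

lemma PP_step (h0 : PP k) (h1 : PP (k + 1)) : PP (k + 2) := by
  intro z hz hpz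
  obtain ⟨z0, z1, z2, z3, z4, z5, rfl⟩ := exists_six z
  have hz' : bd opF (k + 1) (s 0 z0 + s 1 z1 + s 2 z2 + s 3 z3 + s 4 z4 + s 5 z5) = 0 := hz
  obtain ⟨pz0, pz1, pz2, pz3⟩ := pi_zero hpz
  obtain ⟨y0, y1, y2, y3, y4, y5, hy⟩ := exists_six (z1 - mp rho' z2)
  have hz1 : z1 = (s 0 y0 + s 1 y1 + s 2 y2 + s 3 y3 + s 4 y4 + s 5 y5) + mp rho' z2 := by
    rw [← hy]; abel
  have hpy : mp orb (s 0 y0 + s 1 y1 + s 2 y2 + s 3 y3 + s 4 y4 + s 5 y5) = 0 := by
    rw [← hy, map_sub, pr', pz1, pz2, sub_zero]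
  obtain ⟨py0, py1, py2, py3⟩ := pi_zero hpy
  obtain ⟨ε, hε⟩ : ∃ ε : ℤ, ε = (-1) ^ k := ⟨_, rfl⟩
  have hε2 : ε = 1 ∨ ε = -1 := by rw [hε]; exact neg_one_pow_eq_or ℤ k
  -- the components of the cycle condition
  have hcomp : s 0 (bd opF k z0 + ε • (y0 - mp rho y0)) + s 1 (bd opF k z1 + ε • (y1 - mp rho y1)) +
      s 2 (bd opF k z2 + ε • (y2 - mp rho y2)) + s 3 (bd opF k z3 + ε • (y3 - mp rho y5)) +
      s 4 (bd opF k z4 + ε • (y4 - mp rho y3)) + s 5 (bd opF k z5 + ε • (y5 - mp rho y4)) = 0 := by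
    have key : ε • (z1 - mp rho z1) + ε • (z2 - mp rho' z2) =
        ε • ((s 0 y0 + s 1 y1 + s 2 y2 + s 3 y3 + s 4 y4 + s 5 y5) -
          mp rho (s 0 y0 + s 1 y1 + s 2 y2 + s 3 y3 + s 4 y4 + s 5 y5)) := by
      rw [← hy, map_sub, rr', ← smul_add]
      congr 1
      abel
    simp only [map_add, bs0, bs1, bs2, bs3, bs4, bs5, ← hε] at hz'
    simp only [map_add, rs0, rs1, rs2, rs3, rs4, rs5] at key
    simp only [map_add, map_smul, map_sub]
    rw [← hz', ← sub_eq_zero]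
    have := sub_eq_zero.mpr key.symm
    rw [← this]
    module
  obtain ⟨c0, c1, c2, c3, c4, c5⟩ := six_zero hcomp
  -- all `y i` are cycles
  have hcyc : IsCyc y0 ∧ IsCyc y1 ∧ IsCyc y2 ∧ IsCyc y3 ∧ IsCyc y4 ∧ IsCyc y5 := by
    cases k with
    | zero => exact ⟨trivial, trivial, trivial, trivial, trivial, trivial⟩
    | succ k =>
      have e1 : bd opF (k + 1) (z1 - mp rho' z2) = - ε • (y1 - mp rho y1) + ε • (mp rho' y2 - y2) := by
        have c1' : bd opF (k + 1) z1 = - ε • (y1 - mp rho y1) := by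
          rw [neg_smul]; exact eq_neg_of_add_eq_zero_left c1
        have c2' : bd opF (k + 1) z2 = - ε • (y2 - mp rho y2) := by
          rw [neg_smul]; exact eq_neg_of_add_eq_zero_left c2
        rw [map_sub, br', c1', c2']
        simp only [map_smul, map_sub, r'r]
        module
      rw [hy] at e1
      simp only [map_add, bs0, bs1, bs2, bs3, bs4, bs5] at e1
      have hε' : (-1 : ℤ) ^ k = - ε := by rw [hε, pow_succ]; ring
      rw [hε'] at e1
      have e2 : s 0 (bd opF k y0) + s 1 (bd opF k y1) + s 2 (bd opF k y2) +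
          s 3 (bd opF k y3) + s 4 (bd opF k y4) + s 5 (bd opF k y5) = 0 := by
        have := sub_eq_zero.mpr e1
        rw [← this]
        module
      exact six_zero e2
  obtain ⟨cy0, cy1, cy2, cy3, cy4, cy5⟩ := hcyc
  -- the orbit conditions on `y 3`
  have smul_cancel : ∀ {v : Ch (Fin 4) k}, ε • v = 0 → v = 0 := by
    intro v hv
    rcases hε2 with h | h
    · simpa [h] using hv
    · simpa [h] using hv
  have py35 : mp orb y3 = mp orb y5 := by
    have := congrArg (mp orb) c3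
    simp only [map_add, pb, zero_add, map_smul, map_sub, pr, map_zero] at this
    exact sub_eq_zero.mp (smul_cancel this)
  have py43 : mp orb y4 = mp orb y3 := by
    have := congrArg (mp orb) c4
    simp only [map_add, pb, zero_add, map_smul, map_sub, pr, map_zero] at this
    exact sub_eq_zero.mp (smul_cancel this)
  have py3' : mp orb y3 = 0 := by
    rw [← py35, py43] at py3
    ext w
    have := DFunLike.congr_fun py3 w
    simp only [Finsupp.add_apply, Finsupp.zero_apply] at this ⊢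
    omega
  -- fillings
  obtain ⟨p, hp⟩ := h0 (y1 - mp rho' y2) (isCyc_sub_rho' cy1 cy2) (by
    rw [map_sub, pr', py1, py2, sub_zero])
  obtain ⟨p', hp'⟩ := h0 y2 cy2 py2
  obtain ⟨pe, hpe⟩ := h0 y0 cy0 py0
  obtain ⟨p0, hp0⟩ := h0 y3 cy3 py3'
  obtain ⟨h, hh⟩ := h1 (z2 + ε • (p' - mp rho p')) (by
    show bd opF k _ = 0
    rw [map_add, map_smul, map_sub, br, hp']
    exact c2) (by
    rw [map_add, map_smul, map_sub, pr, pz2, sub_self, smul_zero, add_zero])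
  obtain ⟨he, hhe⟩ := h1 (z0 + ε • (pe - mp rho pe)) (by
    show bd opF k _ = 0
    rw [map_add, map_smul, map_sub, br, hpe]
    exact c0) (by
    rw [map_add, map_smul, map_sub, pr, pz0, sub_self, smul_zero, add_zero])
  have c3' : bd opF k z3 = - (ε • (y3 - mp rho y5)) := eq_neg_of_add_eq_zero_left c3
  have c4' : bd opF k z4 = - (ε • (y4 - mp rho y3)) := eq_neg_of_add_eq_zero_left c4
  have c5' : bd opF k z5 = - (ε • (y5 - mp rho y4)) := eq_neg_of_add_eq_zero_left c5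
  obtain ⟨hT, hhT⟩ := h1 (z3 + mp rho z5 + mp rho (mp rho z4)) (by
    show bd opF k _ = 0
    rw [map_add, map_add, br, br, br, c3', c4', c5']
    simp only [map_neg, map_smul, map_sub, rrr]
    module) (by
    rw [map_add, map_add, pr, pr, pr, ← pz3]; abel)
  refine ⟨s 1 (s 1 p) + s 1 (s 2 p' + s 1 (mp rho' p')) + (s 2 h + s 1 (mp rho' h)) + s 1 (s 0 pe) +
    s 0 he - ε • (s 1 (s 4 z4) + s 1 (s 5 (z5 + mp rho z4))) +
    s 1 (s 3 p0 + s 4 (mp rho p0) + s 5 (mp rho (mp rho p0))) + s 3 hT, ?_⟩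
  have hε1 : (-1 : ℤ) ^ (k + 1) = - ε := by rw [hε, pow_succ]; ring
  simp only [map_add, map_sub, map_smul, bs0, bs1, bs2, bs3, bs4, bs5, hε1, ← hε, br, br',
    rs0, rs1, rs2, rs3, rs4, rs5, hp, hp', hpe, hp0, hh, hhe,
    hhT, c4', c5', map_neg, rr', r'r, rrr]
  rw [hz1]
  simp only [map_add]
  rcases hε2 with h | h
  · simp only [h]; module
  · simp only [h]; module

theorem PP_all : ∀ k, PP k ∧ PP (k + 1)
  | 0 => ⟨PP_zero, PP_one⟩
  | (k + 1) => ⟨(PP_all k).2, PP_step (PP_all k).1 (PP_all k).2⟩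

/-- Relative form. -/
theorem rel_exact (z : Ch (Fin 6) (k + 1)) (hz : bd opF k z ∈ DD (Fin 6) k)
    (hp : mp orb z ∈ DD (Fin 4) (k + 1)) :
    ∃ u : Ch (Fin 6) (k + 2), z - bd opF (k + 1) u ∈ DD (Fin 6) (k + 1) := by
  have h1 : IsCyc (r (k + 1) z) := by
    show bd opF k _ = 0
    rw [bd_r opF (by decide), r_DD hz]
  have h2 : mp orb (r (k + 1) z) = 0 := by rw [mp_r, r_DD hp]
  obtain ⟨u, hu⟩ := (PP_all k).2 _ h1 h2
  exact ⟨u, by rw [hu]; exact sub_r_mem_DD z⟩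

end Pool.Agent.Lib.MP_813e56_al
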