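import Pool.Agent.Lib.MP_813e56_al.TorMain

/-!
The six-letter quandles with acting transpositions: the torsion is a `3`-group.
-/

open Finsupp

namespace Pool.Agent.Lib.MP_813e56_al

/-- The action of the letter `3`. -/
def tau : Fin 6 → Fin 6 := ![0, 2, 1, 3, 5, 4]

/-- The action of the letter `4`. -/
def tau4 : Fin 6 → Fin 6 := ![0, 2, 1, 5, 4, 3]

/-- The action of the letter `5`. -/
def tau5 : Fin 6 → Fin 6 := ![0, 2, 1, 4, 3, 5]

variable {k : ℕ}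

lemma ts0 (v : Ch (Fin 6) k) : mp tau (s 0 v) = s 0 (mp tau v) := mp_s _ _ _
lemma ts1 (v : Ch (Fin 6) k) : mp tau (s 1 v) = s 2 (mp tau v) := mp_s _ _ _
lemma ts2 (v : Ch (Fin 6) k) : mp tau (s 2 v) = s 1 (mp tau v) := mp_s _ _ _
lemma ts3 (v : Ch (Fin 6) k) : mp tau (s 3 v) = s 3 (mp tau v) := mp_s _ _ _
lemma ts4 (v : Ch (Fin 6) k) : mp tau (s 4 v) = s 5 (mp tau v) := mp_s _ _ _
lemma ts5 (v : Ch (Fin 6) k) : mp tau (s 5 v) = s 4 (mp tau v) := mp_s _ _ _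

lemma tR (v : Ch (Fin 6) k) : mp tau (mp rho v) = mp rho (mp rho (mp tau v)) := by
  rw [mp_mp, mp_mp, mp_mp]
  have : (fun x => tau (rho x)) = fun x => rho (rho (tau x)) := funext (by decide)
  rw [this]

lemma t4R (v : Ch (Fin 6) k) : mp tau4 (mp rho v) = mp rho (mp tau v) := by
  rw [mp_mp, mp_mp]
  have : (fun x => tau4 (rho x)) = fun x => rho (tau x) := funext (by decide)
  rw [this]

lemma t5RR (v : Ch (Fin 6) k) : mp tau5 (mp rho (mp rho v)) = mp rho (mp rho (mp tau v)) := by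
  rw [mp_mp, mp_mp, mp_mp, mp_mp]
  have : (fun x => tau5 (rho (rho x))) = fun x => rho (rho (tau x)) := funext (by decide)
  rw [this]

lemma t4T (v : Ch (Fin 6) k) : mp tau4 (mp tau v) = mp rho (mp rho v) := by
  rw [mp_mp, mp_mp]
  have : (fun x => tau4 (tau x)) = fun x => rho (rho x) := funext (by decide)
  rw [this]

/-- The projection to the three orbits. -/
noncomputable abbrev pO : Ch (Fin 6) k →ₗ[ℤ] Ch (Fin 3) k := mp ob3

lemma pO_R (v : Ch (Fin 6) k) : pO (mp rho v) = pO v := by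
  rw [mp_mp]
  have : (fun x => ob3 (rho x)) = ob3 := funext (by decide)
  rw [this]

lemma pO_T (v : Ch (Fin 6) k) : pO (mp tau v) = pO v := by
  rw [mp_mp]
  have : (fun x => ob3 (tau x)) = ob3 := funext (by decide)
  rw [this]

lemma q0 (v : Ch (Fin 6) k) : pO (s 0 v) = s 0 (pO v) := mp_s _ _ _
lemma q1 (v : Ch (Fin 6) k) : pO (s 1 v) = s 1 (pO v) := mp_s _ _ _
lemma q2 (v : Ch (Fin 6) k) : pO (s 2 v) = s 1 (pO v) := mp_s _ _ _
lemma q3 (v : Ch (Fin 6) k) : pO (s 3 v) = s 2 (pO v) := mp_s _ _ _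
lemma q4 (v : Ch (Fin 6) k) : pO (s 4 v) = s 2 (pO v) := mp_s _ _ _
lemma q5 (v : Ch (Fin 6) k) : pO (s 5 v) = s 2 (pO v) := mp_s _ _ _

lemma pO_zero {z0 z1 z2 z3 z4 z5 : Ch (Fin 6) k}
    (h : pO (s 0 z0 + s 1 z1 + s 2 z2 + s 3 z3 + s 4 z4 + s 5 z5) = 0) :
    pO z0 = 0 ∧ pO z1 + pO z2 = 0 ∧ pO z3 + pO z4 + pO z5 = 0 := by
  simp only [map_add, q0, q1, q2, q3, q4, q5] at h
  refine ⟨?_, ?_, ?_⟩
  · simpa [co_s_ne] using congrArg (co 0) h
  · simpa [co_s_ne] using congrArg (co 1) h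
  · simpa [co_s_ne] using congrArg (co 2) h

/-- The sum over the rotations. -/
noncomputable def N3 : Ch (Fin 6) k →ₗ[ℤ] Ch (Fin 6) k :=
  LinearMap.id + mp rho + (mp rho).comp (mp rho)

lemma N3_apply (v : Ch (Fin 6) k) : N3 v = v + mp rho v + mp rho (mp rho v) := rfl

/-- Append the transpositions. -/
noncomputable def Dd : Ch (Fin 6) k →ₗ[ℤ] Ch (Fin 6) (k + 1) :=
  s 3 + (s 4).comp (mp rho) + (s 5).comp ((mp rho).comp (mp rho))

lemma Dd_apply (v : Ch (Fin 6) k) : Dd v = s 3 v + s 4 (mp rho v) + s 5 (mp rho (mp rho v)) := rfl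

lemma R_N3 (v : Ch (Fin 6) k) : mp rho (N3 v) = N3 v := by
  rw [N3_apply, map_add, map_add, rrr]; abel

lemma T_N3 (v : Ch (Fin 6) k) : mp tau (N3 v) = N3 (mp tau v) := by
  rw [N3_apply, N3_apply, map_add, map_add, tR, tR, tR, rrr]; abel

lemma N3_inv {v : Ch (Fin 6) k} (h : mp rho v = v) : N3 v = (3 : ℤ) • v := by
  rw [N3_apply, h, h]; module

lemma R_Dd (v : Ch (Fin 6) k) : mp rho (Dd v) = Dd v := by
  rw [Dd_apply, map_add, map_add, rs3, rs4, rs5, rrr]; abel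

lemma T_Dd (v : Ch (Fin 6) k) : mp tau (Dd v) = Dd (mp tau v) := by
  rw [Dd_apply, Dd_apply, map_add, map_add, ts3, ts4, ts5, tR, tR, tR, rrr]; abel

lemma N3_six (z0 z1 z2 z3 z4 z5 : Ch (Fin 6) k) :
    N3 (s 0 z0 + s 1 z1 + s 2 z2 + s 3 z3 + s 4 z4 + s 5 z5) =
      s 0 (N3 z0) + s 1 (N3 z1) + s 2 (N3 z2) +
        Dd (z3 + mp rho z5 + mp rho (mp rho z4)) := by
  simp only [N3_apply, Dd_apply, map_add, rs0, rs1, rs2, rs3, rs4, rs5, rrr]
  abel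

lemma pO_N3 (v : Ch (Fin 6) k) : pO (N3 v) = (3 : ℤ) • pO v := by
  rw [N3_apply, map_add, map_add, pO_R, pO_R, pO_R]; module

variable (η : Bool)

lemma bo (x : Fin 6) (v : Ch (Fin 6) (k + 1)) :
    bd (opO η) (k + 1) (s x v) = s x (bd (opO η) k v) +
      (-1 : ℤ) ^ k • (v - mp (fun a => opO η a x) v) := bd_s _ x v

lemma oo0 (v : Ch (Fin 6) k) : mp (fun a => opO η a 0) v = v :=
  mp_congr_id (by cases η <;> decide) v

lemma oo1 {v : Ch (Fin 6) k} (h : mp rho v = v) : mp (fun a => opO η a 1) v = v := by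
  cases η
  · exact mp_congr_id (by decide) v
  · have : (fun a => opO true a 1) = rho := funext (by decide)
    rw [this, h]

lemma oo2 {v : Ch (Fin 6) k} (h : mp rho v = v) : mp (fun a => opO η a 2) v = v := by
  cases η
  · exact mp_congr_id (by decide) v
  · have : (fun a => opO true a 2) = rho' := funext (by decide)
    rw [this]
    have h2 := r'r v
    rw [h] at h2
    exact h2

lemma oo3 (v : Ch (Fin 6) k) : mp (fun a => opO η a 3) v = mp tau v := by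
  have : (fun a => opO η a 3) = tau := by cases η <;> exact funext (by decide)
  rw [this]

lemma oo4 (v : Ch (Fin 6) k) : mp (fun a => opO η a 4) v = mp tau4 v := by
  have : (fun a => opO η a 4) = tau4 := by cases η <;> exact funext (by decide)
  rw [this]

lemma oo5 (v : Ch (Fin 6) k) : mp (fun a => opO η a 5) v = mp tau5 v := by
  have : (fun a => opO η a 5) = tau5 := by cases η <;> exact funext (by decide)
  rw [this]

lemma boR (v : Ch (Fin 6) (k + 1)) : bd (opO η) k (mp rho v) = mp rho (bd (opO η) k v) :=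
  (mp_bd (opO η) (op' := opO η) rho (by cases η <;> decide) v).symm

lemma boT (v : Ch (Fin 6) (k + 1)) : bd (opO η) k (mp tau v) = mp tau (bd (opO η) k v) :=
  (mp_bd (opO η) (op' := opO η) tau (by cases η <;> decide) v).symm

lemma boN (v : Ch (Fin 6) (k + 1)) : bd (opO η) k (N3 v) = N3 (bd (opO η) k v) := by
  rw [N3_apply, N3_apply, map_add, map_add, boR, boR, boR]

lemma pO_bd (v : Ch (Fin 6) (k + 1)) : pO (bd (opO η) k v) = 0 :=
  mp_bd_inv (opO η) ob3 (ob3_op η) v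

lemma bobo (v : Ch (Fin 6) (k + 2)) : bd (opO η) k (bd (opO η) (k + 1) v) = 0 :=
  bd_bd (opO η) (opO_dist η) v

lemma bo0 (v : Ch (Fin 6) (k + 1)) : bd (opO η) (k + 1) (s 0 v) = s 0 (bd (opO η) k v) := by
  rw [bo, oo0, sub_self, smul_zero, add_zero]

lemma bo1 {v : Ch (Fin 6) (k + 1)} (h : mp rho v = v) :
    bd (opO η) (k + 1) (s 1 v) = s 1 (bd (opO η) k v) := by
  rw [bo, oo1 η h, sub_self, smul_zero, add_zero]

lemma bo2 {v : Ch (Fin 6) (k + 1)} (h : mp rho v = v) :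
    bd (opO η) (k + 1) (s 2 v) = s 2 (bd (opO η) k v) := by
  rw [bo, oo2 η h, sub_self, smul_zero, add_zero]

lemma boD (v : Ch (Fin 6) (k + 1)) :
    bd (opO η) (k + 1) (Dd v) = Dd (bd (opO η) k v) +
      (-1 : ℤ) ^ k • (N3 v - N3 (mp tau v)) := by
  rw [Dd_apply, Dd_apply, map_add, map_add, bo, bo, bo, oo3, oo4, oo5, t4R, t5RR, boR, boR, boR,
    N3_apply, N3_apply]
  module

/-! ### Boundaries up to powers of three -/

/-- A multiple by a power of three is a boundary. -/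
def B3 (z : Ch (Fin 6) k) : Prop :=
  ∃ (t : ℕ) (u : Ch (Fin 6) (k + 1)), bd (opO η) k u = (3 : ℤ) ^ t • z

lemma B3_add {z w : Ch (Fin 6) k} (hz : B3 η z) (hw : B3 η w) : B3 η (z + w) := by
  obtain ⟨t, u, hu⟩ := hz
  obtain ⟨t', u', hu'⟩ := hw
  refine ⟨t + t', (3 : ℤ) ^ t' • u + (3 : ℤ) ^ t • u', ?_⟩
  rw [map_add, map_smul, map_smul, hu, hu', smul_smul, smul_smul, smul_add, ← pow_add, ← pow_add,
    add_comm t' t]

lemma B3_smul (c : ℤ) {z : Ch (Fin 6) k} (hz : B3 η z) : B3 η (c • z) := by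
  obtain ⟨t, u, hu⟩ := hz
  exact ⟨t, c • u, by rw [map_smul, hu, smul_comm]⟩

lemma B3_pow {t : ℕ} {z : Ch (Fin 6) k} (hz : B3 η ((3 : ℤ) ^ t • z)) : B3 η z := by
  obtain ⟨t', u, hu⟩ := hz
  exact ⟨t' + t, u, by rw [hu, smul_smul, ← pow_add]⟩

lemma B3_three {z : Ch (Fin 6) k} (hz : B3 η ((3 : ℤ) • z)) : B3 η z := by
  refine B3_pow η (t := 1) ?_
  rw [pow_one]; exact hz

lemma B3_bd (u : Ch (Fin 6) (k + 1)) : B3 η (bd (opO η) k u) :=
  ⟨0, u, by rw [pow_zero, one_smul]⟩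

/-- Cycles, with everything a cycle in degree `0`. -/
def IsCyO : {k : ℕ} → Ch (Fin 6) k → Prop
  | 0, _ => True
  | (k + 1), z => bd (opO η) k z = 0

/-- The statement proved by induction. -/
def P3 (k : ℕ) : Prop := ∀ z : Ch (Fin 6) k, IsCyO η z → pO z = 0 → B3 η z

lemma P3_zero : P3 η 0 := by
  intro z _ h
  refine ⟨0, 0, ?_⟩
  rw [map_zero, mp_ch0 ob3 z h, smul_zero]

lemma P3_one : P3 η 1 := by
  intro z _ h
  obtain ⟨z0, z1, z2, z3, z4, z5, rfl⟩ := exists_six z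
  obtain ⟨h0, h1, h2⟩ := pO_zero h
  rw [← map_add] at h1
  rw [← map_add, ← map_add] at h2
  have e0 := mp_ch0 ob3 z0 h0
  have e1 := mp_ch0 ob3 _ h1
  have e2 := mp_ch0 ob3 _ h2
  have e1' : z2 = - z1 := by
    rw [eq_neg_iff_add_eq_zero, ← e1]; abel
  have e5 : z5 = - (z3 + z4) := by
    rw [eq_neg_iff_add_eq_zero, ← e2]; abel
  subst e0 e1' e5
  refine ⟨0, s 3 (s 1 z1) + s 4 (s 3 z3) + s 3 (s 4 z4), ?_⟩
  have t43 : mp tau4 (s 3 z3) = s 5 (mp tau4 z3) := mp_s _ _ _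
  rw [map_add, map_add, bo, bo, bo, bd_zero, bd_zero, bd_zero, oo3, oo3, oo4, ts1, ts4, t43,
    mp_self_ch0, mp_self_ch0, mp_self_ch0]
  simp only [map_zero, map_add, map_neg, pow_zero, one_smul, zero_add]
  abel

/-- The rotation acts trivially on homology. -/
lemma homR (z : Ch (Fin 6) (k + 1)) (hz : bd (opO η) k z = 0) :
    ∃ u, bd (opO η) (k + 1) u = z - mp rho (mp rho z) := by
  refine ⟨(-1 : ℤ) ^ k • (s 3 z + s 4 (mp tau z)), ?_⟩
  rw [map_smul, map_add, bo, bo, oo3, oo4, boT, hz, t4T]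
  simp only [map_zero, zero_add]
  obtain h | h := neg_one_pow_eq_or ℤ k <;> simp only [h] <;> module

lemma B3_of_N3 (z : Ch (Fin 6) (k + 1)) (hz : bd (opO η) k z = 0) (h : B3 η (N3 z)) :
    B3 η z := by
  obtain ⟨u, hu⟩ := homR η z hz
  obtain ⟨u', hu'⟩ := homR η (mp rho (mp rho z)) (by rw [boR, boR, hz, map_zero, map_zero])
  rw [rrr] at hu'
  have e : (3 : ℤ) • z = N3 z + bd (opO η) (k + 1) ((2 : ℤ) • u + u') := by
    rw [map_add, map_smul, hu, hu', N3_apply]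
    module
  refine B3_three η ?_
  rw [e]
  exact B3_add η h (B3_bd η _)

lemma B3_Dd (h2 : P3 η (k + 1)) (a : Ch (Fin 6) (k + 1)) (ha : bd (opO η) k a = 0)
    (hN : N3 a = 0) (hp : pO a = 0) : B3 η (Dd a) := by
  obtain ⟨t, h, hh⟩ := h2 a ha hp
  refine ⟨t + 1, (3 : ℤ) • Dd h - Dd (N3 h), ?_⟩
  rw [map_sub, map_smul, boD, boD, boN, hh, map_smul, map_smul, hN, smul_zero, map_zero, T_N3,
    N3_inv (R_N3 h), N3_inv (R_N3 (mp tau h)), pow_succ]
  module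

lemma B3_s0 (h2 : P3 η (k + 1)) (c : Ch (Fin 6) (k + 1)) (hc : bd (opO η) k c = 0)
    (hp : pO c = 0) : B3 η (s 0 c) := by
  obtain ⟨t, h, hh⟩ := h2 c hc hp
  exact ⟨t, s 0 h, by rw [bo0, hh, map_smul]⟩

lemma R_T {v : Ch (Fin 6) k} (h : mp rho v = v) : mp rho (mp tau v) = mp tau v := by
  have h1 : mp tau (mp rho v) = mp rho (mp rho (mp tau v)) := tR v
  rw [h] at h1
  have h2 := congrArg (mp rho) h1
  rw [rrr] at h2
  exact h2

lemma B3_s12 (h2 : P3 η (k + 1)) (c1 c2 : Ch (Fin 6) (k + 1)) (hc1 : bd (opO η) k c1 = 0)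
    (hc2 : bd (opO η) k c2 = 0) (hR1 : mp rho c1 = c1) (hR2 : mp rho c2 = c2)
    (hp : pO c1 + pO c2 = 0) : B3 η (s 1 c1 + s 2 c2) := by
  have hT : mp rho (mp tau c2) = mp tau c2 := R_T hR2
  obtain ⟨t, h, hh⟩ := h2 (c1 + mp tau c2) (by
    change bd (opO η) k _ = 0
    rw [map_add, boT, hc1, hc2, map_zero, add_zero]) (by rw [map_add, pO_T, hp])
  have hc : mp rho (c1 + mp tau c2) = c1 + mp tau c2 := by rw [map_add, hR1, hT]
  have e1 : B3 η (s 1 (c1 + mp tau c2)) := by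
    refine ⟨t + 1, s 1 (N3 h), ?_⟩
    rw [bo1 η (R_N3 h), boN, hh, map_smul, N3_inv hc, map_smul, map_smul, smul_smul, pow_succ]
  have e2 : bd (opO η) (k + 2) (Dd (s 2 c2)) =
      (-1 : ℤ) ^ (k + 1) • ((3 : ℤ) • s 2 c2 - (3 : ℤ) • s 1 (mp tau c2)) := by
    rw [boD, bo2 η hR2, hc2, map_zero, map_zero, zero_add, ts2,
      N3_inv (v := s 2 c2) (by rw [rs2, hR2]), N3_inv (v := s 1 (mp tau c2)) (by rw [rs1, hT])]
  have e3 : (3 : ℤ) • (s 1 c1 + s 2 c2) = (3 : ℤ) • s 1 (c1 + mp tau c2) +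
      (-1 : ℤ) ^ (k + 1) • bd (opO η) (k + 2) (Dd (s 2 c2)) := by
    rw [e2, map_add]
    obtain h | h := neg_one_pow_eq_or ℤ (k + 1) <;> simp only [h] <;> module
  refine B3_three η ?_
  rw [e3]
  exact B3_add η (B3_smul η 3 e1) (B3_smul η _ (B3_bd η _))

lemma co3_Dd (v : Ch (Fin 6) k) : co 3 (Dd v) = v := by
  rw [Dd_apply]; simp [co_s_ne]
lemma co0_Dd (v : Ch (Fin 6) k) : co 0 (Dd v) = 0 := by
  rw [Dd_apply]; simp [co_s_ne]
lemma co1_Dd (v : Ch (Fin 6) k) : co 1 (Dd v) = 0 := by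
  rw [Dd_apply]; simp [co_s_ne]
lemma co2_Dd (v : Ch (Fin 6) k) : co 2 (Dd v) = 0 := by
  rw [Dd_apply]; simp [co_s_ne]

lemma four_zero {v0 v1 v2 w : Ch (Fin 6) k} (h : s 0 v0 + s 1 v1 + s 2 v2 + Dd w = 0) :
    v0 = 0 ∧ v1 = 0 ∧ v2 = 0 ∧ w = 0 := by
  refine ⟨?_, ?_, ?_, ?_⟩
  · simpa [co_s_ne, co0_Dd] using congrArg (co 0) h
  · simpa [co_s_ne, co1_Dd] using congrArg (co 1) h
  · simpa [co_s_ne, co2_Dd] using congrArg (co 2) h
  · simpa [co_s_ne, co3_Dd] using congrArg (co 3) h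

/-- The boundary of a chain in the normal form. -/
lemma bd_four {b0 b1 b2 : Ch (Fin 6) (k + 1)} (a : Ch (Fin 6) (k + 1))
    (h1 : mp rho b1 = b1) (h2 : mp rho b2 = b2) :
    bd (opO η) (k + 1) (s 0 b0 + s 1 b1 + s 2 b2 + Dd a) =
      s 0 (bd (opO η) k b0) + s 1 (bd (opO η) k b1) + s 2 (bd (opO η) k b2) +
        Dd (bd (opO η) k a) + (-1 : ℤ) ^ k • (N3 a - N3 (mp tau a)) := by
  rw [map_add, map_add, map_add, bo0, bo1 η h1, bo2 η h2, boD]
  abel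

lemma cyc_four {v0 v1 v2 : Ch (Fin 6) k} {w : Ch (Fin 6) k} {a : Ch (Fin 6) (k + 1)}
    (h1 : mp rho v1 = v1) (h2 : mp rho v2 = v2)
    (hV : N3 a = s 0 v0 + s 1 v1 + s 2 v2 + Dd w)
    (ha : bd (opO η) k a + (-1 : ℤ) ^ k • (w - mp tau w) = 0) :
    IsCyO η v0 ∧ IsCyO η v1 ∧ IsCyO η v2 ∧ IsCyO η w := by
  cases k with
  | zero => exact ⟨trivial, trivial, trivial, trivial⟩
  | succ k =>
    change bd (opO η) k v0 = 0 ∧ bd (opO η) k v1 = 0 ∧ bd (opO η) k v2 = 0 ∧ bd (opO η) k w = 0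
    have e1 := boN η a
    rw [hV, bd_four η w h1 h2, eq_neg_of_add_eq_zero_left ha] at e1
    refine four_zero ?_
    have e2 : N3 (-((-1 : ℤ) ^ (k + 1) • (w - mp tau w))) =
        (-1 : ℤ) ^ k • (N3 w - N3 (mp tau w)) := by
      rw [map_neg, map_smul, map_sub, pow_succ]
      module
    rw [e2] at e1
    exact add_eq_right.mp e1

lemma P3_step (h1 : P3 η k) (h2 : P3 η (k + 1)) : P3 η (k + 2) := by
  intro z hz hp
  change bd (opO η) (k + 1) z = 0 at hz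
  refine B3_of_N3 η z hz ?_
  have hNz : bd (opO η) (k + 1) (N3 z) = 0 := by rw [boN, hz, map_zero]
  obtain ⟨z0, z1, z2, z3, z4, z5, rfl⟩ := exists_six z
  obtain ⟨p0, p1, p2⟩ := pO_zero hp
  rw [N3_six] at hNz ⊢
  have r0 := R_N3 z0
  have r1 := R_N3 z1
  have r2 := R_N3 z2
  have q0' : pO (N3 z0) = 0 := by rw [pO_N3, p0, smul_zero]
  have q1' : pO (N3 z1) + pO (N3 z2) = 0 := by rw [pO_N3, pO_N3, ← smul_add, p1, smul_zero]
  have q2' : pO (z3 + mp rho z5 + mp rho (mp rho z4)) = 0 := by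
    rw [map_add, map_add, pO_R, pO_R, pO_R, ← p2]; abel
  generalize N3 z0 = b0 at *
  generalize N3 z1 = b1 at *
  generalize N3 z2 = b2 at *
  generalize z3 + mp rho z5 + mp rho (mp rho z4) = a at *
  clear p0 p1 p2 hp hz
  -- the last sum
  obtain ⟨v0, v1, v2, w, hV, s0', s1', s2', pv0, pv1, pw⟩ : ∃ v0 v1 v2 w : Ch (Fin 6) k,
      N3 a = s 0 v0 + s 1 v1 + s 2 v2 + Dd w ∧ mp rho v0 = v0 ∧ mp rho v1 = v1 ∧
        mp rho v2 = v2 ∧ pO v0 = 0 ∧ pO v1 + pO v2 = 0 ∧ pO w = 0 := by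
    obtain ⟨a0, a1, a2, a3, a4, a5, rfl⟩ := exists_six a
    obtain ⟨p0, p1, p2⟩ := pO_zero q2'
    refine ⟨_, _, _, _, N3_six _ _ _ _ _ _, R_N3 _, R_N3 _, R_N3 _, ?_, ?_, ?_⟩
    · rw [pO_N3, p0, smul_zero]
    · rw [pO_N3, pO_N3, ← smul_add, p1, smul_zero]
    · rw [map_add, map_add, pO_R, pO_R, pO_R, ← p2]; abel
  obtain ⟨ε, hε, hε2⟩ : ∃ ε : ℤ, (-1 : ℤ) ^ k = ε ∧ (ε = 1 ∨ ε = -1) :=
    ⟨_, rfl, neg_one_pow_eq_or ℤ k⟩
  have hε1 : (-1 : ℤ) ^ (k + 1) = - ε := by rw [pow_succ, hε]; ring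
  rw [bd_four η a r1 r2, ← T_N3, hV] at hNz
  simp only [map_add, ts0, ts1, ts2, T_Dd, hε] at hNz
  obtain ⟨c0, c1, c2, c3⟩ : bd (opO η) k b0 + ε • (v0 - mp tau v0) = 0 ∧
      bd (opO η) k b1 + ε • (v1 - mp tau v2) = 0 ∧
      bd (opO η) k b2 + ε • (v2 - mp tau v1) = 0 ∧
      bd (opO η) k a + ε • (w - mp tau w) = 0 := by
    refine four_zero ?_
    rw [← hNz]
    simp only [map_add, map_smul, map_sub]
    module
  obtain ⟨cy0, cy1, cy2, cyw⟩ := cyc_four η s1' s2' hV (by rw [hε]; exact c3)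
  have smul_cancel : ∀ {v : Ch (Fin 3) k}, ε • v = 0 → v = 0 := by
    intro v hv
    rcases hε2 with h | h
    · simpa [h] using hv
    · simpa [h] using hv
  have pv12 : pO v1 = pO v2 := by
    have := congrArg pO c1
    rw [map_add, pO_bd, zero_add, map_smul, map_sub, pO_T, map_zero] at this
    exact sub_eq_zero.mp (smul_cancel this)
  have pv2 : pO v2 = 0 := by
    rw [pv12] at pv1
    ext x
    have := DFunLike.congr_fun pv1 x
    simp only [Finsupp.add_apply, Finsupp.zero_apply] at this ⊢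
    omega
  have pv1' : pO v1 = 0 := by rw [pv12, pv2]
  obtain ⟨t0, f0, hf0⟩ := h1 v0 cy0 pv0
  obtain ⟨t1, f1, hf1⟩ := h1 v1 cy1 pv1'
  obtain ⟨t2, f2, hf2⟩ := h1 v2 cy2 pv2
  obtain ⟨t3, f3, hf3⟩ := h1 w cyw pw
  obtain ⟨M, hM, g0, g1, g2, g3, hg0, hg1, hg2, hg3⟩ : ∃ (M : ℤ) (_ : ∃ t : ℕ, M = 3 ^ t)
      (g0 g1 g2 g3 : Ch (Fin 6) (k + 1)), bd (opO η) k g0 = M • v0 ∧ bd (opO η) k g1 = M • v1 ∧
        bd (opO η) k g2 = M • v2 ∧ bd (opO η) k g3 = M • w := by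
    refine ⟨3 ^ (t0 + t1 + t2 + t3), ⟨_, rfl⟩, (3 : ℤ) ^ (t1 + t2 + t3) • f0,
      (3 : ℤ) ^ (t0 + t2 + t3) • f1, (3 : ℤ) ^ (t0 + t1 + t3) • f2,
      (3 : ℤ) ^ (t0 + t1 + t2) • f3, ?_, ?_, ?_, ?_⟩
    · rw [map_smul, hf0, smul_smul, ← pow_add]; congr 2; ring
    · rw [map_smul, hf1, smul_smul, ← pow_add]; congr 2; ring
    · rw [map_smul, hf2, smul_smul, ← pow_add]; congr 2; ring
    · rw [map_smul, hf3, smul_smul, ← pow_add]
  -- invariant fillings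
  obtain ⟨P0, hP0, R0, T0⟩ : ∃ P : Ch (Fin 6) (k + 1), bd (opO η) k P = (3 * M) • v0 ∧
      mp rho P = P ∧ mp rho (mp tau P) = mp tau P :=
    ⟨N3 g0, by rw [boN, hg0, map_smul, N3_inv s0', smul_smul, mul_comm], R_N3 _, R_T (R_N3 _)⟩
  obtain ⟨P1, hP1, R1, T1⟩ : ∃ P : Ch (Fin 6) (k + 1), bd (opO η) k P = (3 * M) • v1 ∧
      mp rho P = P ∧ mp rho (mp tau P) = mp tau P :=
    ⟨N3 g1, by rw [boN, hg1, map_smul, N3_inv s1', smul_smul, mul_comm], R_N3 _, R_T (R_N3 _)⟩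
  obtain ⟨P2, hP2, R2, T2⟩ : ∃ P : Ch (Fin 6) (k + 1), bd (opO η) k P = (3 * M) • v2 ∧
      mp rho P = P ∧ mp rho (mp tau P) = mp tau P :=
    ⟨N3 g2, by rw [boN, hg2, map_smul, N3_inv s2', smul_smul, mul_comm], R_N3 _, R_T (R_N3 _)⟩
  obtain ⟨X, hX⟩ : ∃ P : Ch (Fin 6) (k + 1), bd (opO η) k P = (3 * M) • w :=
    ⟨(3 : ℤ) • g3, by rw [map_smul, hg3, smul_smul]⟩
  obtain ⟨ph, hph⟩ : ∃ ph, ph = s 0 P0 + s 1 P1 + s 2 P2 + Dd X := ⟨_, rfl⟩
  have hK : bd (opO η) (k + 1) ph = (3 * M) • N3 a + ε • (N3 X - N3 (mp tau X)) := by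
    rw [hph, bd_four η X R1 R2, hP0, hP1, hP2, hX, hV, hε]
    simp only [map_smul]
    module
  have hRp : mp rho ph = ph := by
    rw [hph]
    simp only [map_add, rs0, rs1, rs2, R0, R1, R2, R_Dd]
  have hTp : mp tau ph = s 0 (mp tau P0) + s 2 (mp tau P1) + s 1 (mp tau P2) + Dd (mp tau X) := by
    rw [hph]
    simp only [map_add, ts0, ts1, ts2, T_Dd]
  have hDp : bd (opO η) (k + 2) (Dd ph) = Dd (bd (opO η) (k + 1) ph) -
      ε • ((3 : ℤ) • ph - (3 : ℤ) • mp tau ph) := by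
    rw [boD, N3_inv hRp, N3_inv (R_T hRp), hε1]
    module
  have key : (9 * M) • (s 0 b0 + s 1 b1 + s 2 b2 + Dd a) =
      (3 : ℤ) • s 0 ((3 * M) • b0 + ε • (P0 - mp tau P0)) +
      (3 : ℤ) • (s 1 ((3 * M) • b1 + ε • (P1 - mp tau P2)) +
        s 2 ((3 * M) • b2 + ε • (P2 - mp tau P1))) +
      Dd ((9 * M) • a - bd (opO η) (k + 1) ph + (3 * ε) • (X - mp tau X)) +
      bd (opO η) (k + 2) (Dd ph) := by
    rw [hDp, hTp]
    generalize bd (opO η) (k + 1) ph = K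
    rw [hph]
    simp only [map_add, map_sub, map_smul]
    module
  have b0' : B3 η (s 0 ((3 * M) • b0 + ε • (P0 - mp tau P0))) := by
    refine B3_s0 η h2 _ ?_ ?_
    · rw [map_add, map_smul, map_smul, map_sub, boT, hP0, map_smul]
      have : (3 * M) • bd (opO η) k b0 + ε • ((3 * M) • v0 - (3 * M) • mp tau v0) =
        (3 * M) • (bd (opO η) k b0 + ε • (v0 - mp tau v0)) := by module
      rw [this, c0, smul_zero]
    · rw [map_add, map_smul, map_smul, map_sub, pO_T, q0', sub_self, smul_zero, smul_zero,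
        add_zero]
  have b12' : B3 η (s 1 ((3 * M) • b1 + ε • (P1 - mp tau P2)) +
        s 2 ((3 * M) • b2 + ε • (P2 - mp tau P1))) := by
    refine B3_s12 η h2 _ _ ?_ ?_ ?_ ?_ ?_
    · rw [map_add, map_smul, map_smul, map_sub, boT, hP1, hP2, map_smul]
      have : (3 * M) • bd (opO η) k b1 + ε • ((3 * M) • v1 - (3 * M) • mp tau v2) =
        (3 * M) • (bd (opO η) k b1 + ε • (v1 - mp tau v2)) := by module
      rw [this, c1, smul_zero]
    · rw [map_add, map_smul, map_smul, map_sub, boT, hP1, hP2, map_smul]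
      have : (3 * M) • bd (opO η) k b2 + ε • ((3 * M) • v2 - (3 * M) • mp tau v1) =
        (3 * M) • (bd (opO η) k b2 + ε • (v2 - mp tau v1)) := by module
      rw [this, c2, smul_zero]
    · rw [map_add, map_smul, map_smul, map_sub, r1, R1, T2]
    · rw [map_add, map_smul, map_smul, map_sub, r2, R2, T1]
    · rw [map_add, map_add, map_smul, map_smul, map_smul, map_smul, map_sub, map_sub, pO_T, pO_T]
      have : (3 * M) • pO b1 + ε • (pO P1 - pO P2) + ((3 * M) • pO b2 + ε • (pO P2 - pO P1)) =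
        (3 * M) • (pO b1 + pO b2) := by module
      rw [this, q1', smul_zero]
  have bD' : B3 η (Dd ((9 * M) • a - bd (opO η) (k + 1) ph + (3 * ε) • (X - mp tau X))) := by
    refine B3_Dd η h2 _ ?_ ?_ ?_
    · rw [map_add, map_sub, map_smul, map_smul, map_sub, boT, hX, bobo, map_smul]
      have : (9 * M) • bd (opO η) k a - 0 + (3 * ε) • ((3 * M) • w - (3 * M) • mp tau w) =
        (9 * M) • (bd (opO η) k a + ε • (w - mp tau w)) := by module
      rw [this, c3, smul_zero]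
    · rw [hK]
      simp only [map_add, map_sub, map_smul]
      rw [N3_inv (R_N3 a), N3_inv (R_N3 X), N3_inv (R_N3 (mp tau X))]
      module
    · rw [map_add, map_sub, map_smul, map_smul, map_sub, pO_T, pO_bd, q2']
      module
  obtain ⟨t, rfl⟩ := hM
  refine B3_pow η (t := t + 2) ?_
  have e9 : (3 : ℤ) ^ (t + 2) = 9 * 3 ^ t := by ring
  rw [e9, key]
  exact B3_add η (B3_add η (B3_add η (B3_smul η 3 b0') (B3_smul η 3 b12')) bD') (B3_bd η _)

theorem P3_all : ∀ k, P3 η k ∧ P3 η (k + 1)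
  | 0 => ⟨P3_zero η, P3_one η⟩
  | (k + 1) => ⟨(P3_all k).2, P3_step η (P3_all k).1 (P3_all k).2⟩

/-- Relative form. -/
theorem rel_O (z : Ch (Fin 6) (k + 1)) (hz : bd (opO η) k z ∈ DD (Fin 6) k)
    (hp : pO z ∈ DD (Fin 3) (k + 1)) :
    ∃ (t : ℕ) (u : Ch (Fin 6) (k + 2)),
      (3 : ℤ) ^ t • z - bd (opO η) (k + 1) u ∈ DD (Fin 6) (k + 1) := by
  have h1 : IsCyO η (r (k + 1) z) := by
    show bd (opO η) k _ = 0
    rw [bd_r (opO η) (by cases η <;> decide), r_DD hz]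
  have h2 : pO (r (k + 1) z) = 0 := by rw [mp_r, r_DD hp]
  obtain ⟨t, u, hu⟩ := (P3_all η k).2 _ h1 h2
  refine ⟨t, u, ?_⟩
  rw [hu, ← smul_sub]
  exact Submodule.smul_mem _ _ (sub_r_mem_DD z)

/-- A torsion class is killed by a power of three. -/
theorem tor_three {Q : Type} {op : Q → Q → Q} (h : IsQuandle op) (e : Q ≃ Fin 6)
    (he : ∀ a b, e (op a b) = opO η (e a) (e b)) (k : ℕ) (ξ : HQ h k) (N : ℤ) (hN : N ≠ 0)
    (hξ : N • ξ = 0) : ∃ t : ℕ, (3 : ℤ) ^ t • ξ = 0 := by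
  have he' : ∀ a b, e.symm (opO η a b) = op (e.symm a) (e.symm b) := by
    intro a b
    rw [Equiv.symm_apply_eq, he]
    simp
  obtain ⟨⟨z, hz⟩, rfl⟩ := Submodule.Quotient.mk_surjective _ ξ
  obtain ⟨z, rfl⟩ := Submodule.Quotient.mk_surjective _ z
  have hz' : bd op k z ∈ DD Q k := by
    rw [LinearMap.mem_ker, dQ, Submodule.mapQ_apply, Submodule.Quotient.mk_eq_zero] at hz
    exact hz
  rw [← Submodule.Quotient.mk_smul, Submodule.Quotient.mk_eq_zero, Submodule.submoduleOf,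
    Submodule.mem_comap] at hξ
  obtain ⟨u, hu⟩ := hξ
  obtain ⟨u, rfl⟩ := Submodule.Quotient.mk_surjective _ u
  rw [dQ, Submodule.mapQ_apply] at hu
  have hu' : bd op (k + 1) u - N • z ∈ DD Q (k + 1) := (Submodule.Quotient.eq _).mp hu
  have h1 : bd (opO η) k (mp e z) ∈ DD (Fin 6) k := by
    rw [← mp_bd op (op' := opO η) e he z]
    exact mp_DD e hz'
  have h2 : pO (mp e z) ∈ DD (Fin 3) (k + 1) := by
    refine mem_DD_of_apply (fun w hw => ?_)
    have h3 := DD_apply (mp_DD ob3 (mp_DD e hu')) hw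
    rw [map_sub, map_smul, map_sub, map_smul, mp_bd op (op' := opO η) e he, pO_bd, zero_sub,
      Finsupp.neg_apply, Finsupp.smul_apply, neg_eq_zero, smul_eq_mul] at h3
    rcases mul_eq_zero.mp h3 with h | h
    · exact (hN h).elim
    · exact h
  obtain ⟨t, u, hu⟩ := rel_O η (mp e z) h1 h2
  refine ⟨t, ?_⟩
  have h3 := mp_DD e.symm hu
  rw [map_sub, map_smul, mp_mp, mp_bd (opO η) (op' := op) e.symm he' u] at h3
  have h4 : mp (fun x => e.symm (e x)) z = z := by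
    have : (fun x => e.symm (e x)) = fun x => x := funext (fun x => by simp)
    rw [this, mp_id]
  rw [h4] at h3
  rw [← Submodule.Quotient.mk_smul, Submodule.Quotient.mk_eq_zero, Submodule.submoduleOf,
    Submodule.mem_comap]
  refine ⟨Submodule.Quotient.mk (mp e.symm u), ?_⟩
  rw [dQ, Submodule.mapQ_apply]
  exact ((Submodule.Quotient.eq _).mpr h3).symm

theorem three_primary_odd (m : ℤ) (hm : ¬ 2 ∣ m) (k : ℕ) (ξ : HQ (symOp_isQuandle 3 m) k) (N : ℤ)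
    (hN : N ≠ 0) (hξ : N • ξ = 0) : ∃ t : ℕ, (3 : ℤ) ^ t • ξ = 0 := by
  obtain ⟨η, e, he⟩ := exists_equiv_odd m hm
  exact tor_three η (symOp_isQuandle 3 m) e he k ξ N hN hξ

end Pool.Agent.Lib.MP_813e56_al
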