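import Pool.Agent.Lib.MP_813e56_al.Rank

/-!
Chains on reversed words, the operators that remove letters of given orbits, and cocycles.
-/

open Finsupp

namespace Pool.Agent.Lib.MP_813e56_al

variable {Q Q' O : Type}

/-- Chains on reversed words (the head of the list is the last letter). -/
abbrev LC (Q : Type) : Type := List Q →₀ ℤ

/-- Append the letter `x`. -/
noncomputable def ls (x : Q) : LC Q →ₗ[ℤ] LC Q := Finsupp.lmapDomain ℤ ℤ (fun w => x :: w)

@[simp] lemma ls_single (x : Q) (w : List Q) (a : ℤ) :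
    ls x (single w a) = single (x :: w) a := by
  simp [ls, Finsupp.lmapDomain_apply, Finsupp.mapDomain_single]

/-- Apply a map of alphabets. -/
noncomputable def lmp (f : Q → Q') : LC Q →ₗ[ℤ] LC Q' := Finsupp.lmapDomain ℤ ℤ (List.map f)

@[simp] lemma lmp_single (f : Q → Q') (w : List Q) (a : ℤ) :
    lmp f (single w a) = single (w.map f) a := by
  simp [lmp, Finsupp.lmapDomain_apply, Finsupp.mapDomain_single]

lemma llin_ext {M : Type} [AddCommGroup M] {f g : LC Q →ₗ[ℤ] M}
    (h : ∀ w, f (single w 1) = g (single w 1)) (z : LC Q) : f z = g z := by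
  have : f = g := by
    apply Finsupp.lhom_ext'
    intro w
    apply LinearMap.ext_ring
    simpa using h w
  rw [this]

@[simp] lemma lmp_ls (f : Q → Q') (x : Q) (v : LC Q) : lmp f (ls x v) = ls (f x) (lmp f v) := by
  refine llin_ext (f := (lmp f).comp (ls x)) (g := (ls (f x)).comp (lmp f)) (fun w => ?_) v
  simp

/-- The boundary, with signs counted from the last letter. -/
noncomputable def lbdW (op : Q → Q → Q) : List Q → LC Q
  | [] => 0
  | x :: w => single w 1 - single (w.map (fun a => op a x)) 1 - ls x (lbdW op w)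

/-- The boundary on chains. -/
noncomputable def lbd (op : Q → Q → Q) : LC Q →ₗ[ℤ] LC Q :=
  Finsupp.linearCombination ℤ (lbdW op)

lemma lbd_single (op : Q → Q → Q) (w : List Q) : lbd op (single w 1) = lbdW op w := by
  simp [lbd]

lemma lbd_ls (op : Q → Q → Q) (x : Q) (v : LC Q) :
    lbd op (ls x v) = v - lmp (fun a => op a x) v - ls x (lbd op v) := by
  refine llin_ext (f := (lbd op).comp (ls x))
    (g := LinearMap.id - lmp (fun a => op a x) - (ls x).comp (lbd op)) (fun w => ?_) v
  simp only [LinearMap.comp_apply, LinearMap.sub_apply, LinearMap.id_apply, ls_single,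
    lbd_single, lmp_single, lbdW]

/-- Remove letters with a given pattern of orbits. -/
noncomputable def PW [DecidableEq O] (ob : Q → O) : List Q → List O → LC Q
  | w, [] => single w 1
  | [], _ :: _ => 0
  | x :: w, o :: c => (if ob x = o then (1 : ℤ) else 0) • PW ob w c +
      (-1 : ℤ) ^ (c.length + 1) • ls x (PW ob w (o :: c))

variable [DecidableEq O] (ob : Q → O)

/-- Remove letters with a given pattern of orbits, on chains. -/
noncomputable def Pc (c : List O) : LC Q →ₗ[ℤ] LC Q :=
  Finsupp.linearCombination ℤ (fun w => PW ob w c)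

lemma Pc_single (c : List O) (w : List Q) : Pc ob c (single w 1) = PW ob w c := by
  simp [Pc]

lemma Pc_nil (v : LC Q) : Pc ob [] v = v := by
  refine llin_ext (f := Pc ob []) (g := LinearMap.id) (fun w => ?_) v
  rw [Pc_single, PW]; rfl

lemma Pc_ls (o : O) (c : List O) (x : Q) (v : LC Q) :
    Pc ob (o :: c) (ls x v) = (if ob x = o then (1 : ℤ) else 0) • Pc ob c v +
      (-1 : ℤ) ^ (c.length + 1) • ls x (Pc ob (o :: c) v) := by
  refine llin_ext (f := (Pc ob (o :: c)).comp (ls x))
    (g := (if ob x = o then (1 : ℤ) else 0) • Pc ob c +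
      (-1 : ℤ) ^ (c.length + 1) • (ls x).comp (Pc ob (o :: c))) (fun w => ?_) v
  simp only [LinearMap.comp_apply, LinearMap.add_apply, LinearMap.smul_apply, ls_single,
    Pc_single, PW]

lemma Pc_lmp_word (f : Q → Q) (hf : ∀ a, ob (f a) = ob a) : ∀ (w : List Q) (c : List O),
    Pc ob c (lmp f (single w 1)) = lmp f (Pc ob c (single w 1))
  | w, [] => by simp [Pc_nil]
  | [], o :: c => by simp [Pc_single, PW]
  | x :: w, o :: c => by
    have h1 := Pc_lmp_word f hf w c
    have h2 := Pc_lmp_word f hf w (o :: c)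
    have h3 : (single (x :: w) 1 : LC Q) = ls x (single w 1) := by simp
    rw [h3, lmp_ls, Pc_ls, Pc_ls, h1, h2, hf]
    simp only [map_add, map_smul, lmp_ls]

lemma Pc_lmp (f : Q → Q) (hf : ∀ a, ob (f a) = ob a) (c : List O) (v : LC Q) :
    Pc ob c (lmp f v) = lmp f (Pc ob c v) :=
  llin_ext (f := (Pc ob c).comp (lmp f)) (g := (lmp f).comp (Pc ob c))
    (fun w => Pc_lmp_word ob f hf w c) v

lemma lbd_Pc_word (op : Q → Q → Q) (ho : ∀ a x, ob (op a x) = ob a) :
    ∀ (w : List Q) (c : List O), lbd op (Pc ob c (single w 1)) =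
      (-1 : ℤ) ^ c.length • Pc ob c (lbd op (single w 1))
  | w, [] => by simp [Pc_nil]
  | [], o :: c => by simp [Pc_single, lbd_single, PW, lbdW]
  | x :: w, o :: c => by
    have h1 := lbd_Pc_word op ho w c
    have h2 := lbd_Pc_word op ho w (o :: c)
    have h3 : (single (x :: w) 1 : LC Q) = ls x (single w 1) := by simp
    rw [h3, Pc_ls, lbd_ls, map_add, map_smul, map_smul, lbd_ls, h1, h2, map_sub, map_sub, Pc_ls,
      Pc_lmp ob (fun a => op a x) (fun a => ho a x)]
    simp only [List.length_cons, pow_succ, map_smul]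
    obtain h | h := neg_one_pow_eq_or ℤ c.length <;> simp only [h] <;> module

lemma lbd_Pc (op : Q → Q → Q) (ho : ∀ a x, ob (op a x) = ob a) (c : List O) (v : LC Q) :
    lbd op (Pc ob c v) = (-1 : ℤ) ^ c.length • Pc ob c (lbd op v) :=
  llin_ext (f := (lbd op).comp (Pc ob c)) (g := (-1 : ℤ) ^ c.length • (Pc ob c).comp (lbd op))
    (fun w => lbd_Pc_word ob op ho w c) v

/-! ### Cocycles of degree two  -/

/-- A function of two letters as a function on words. -/
def phW {R : Type} [CommRing R] (φ : Q → Q → R) : List Q → R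
  | [y, x] => φ x y
  | _ => 0

/-- A function of two letters as a functional on chains. -/
noncomputable def ph {R : Type} [CommRing R] (φ : Q → Q → R) : LC Q →ₗ[ℤ] R :=
  Finsupp.linearCombination ℤ (phW φ)

lemma ph_single {R : Type} [CommRing R] (φ : Q → Q → R) (w : List Q) : ph φ (single w 1) = phW φ w := by
  simp [ph]

lemma ph_lll {R : Type} [CommRing R] (φ : Q → Q → R) (a b c : Q) (v : LC Q) :
    ph φ (ls a (ls b (ls c v))) = 0 := by
  refine llin_ext (f := (((ph φ).comp (ls a)).comp (ls b)).comp (ls c)) (g := 0)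
    (fun w => ?_) v
  simp only [LinearMap.comp_apply, ls_single, ph_single, LinearMap.zero_apply]
  rfl

lemma ph_lbd {R : Type} [CommRing R] (op : Q → Q → Q) (φ : Q → Q → R)
    (hφ : ∀ x y z, φ x y - φ (op x z) (op y z) - φ x z + φ (op x y) z = 0) (v : LC Q) :
    ph φ (lbd op v) = 0 := by
  refine llin_ext (f := (ph φ).comp (lbd op)) (g := 0) (fun w => ?_) v
  simp only [LinearMap.comp_apply, lbd_single, LinearMap.zero_apply]
  match w with
  | [] => simp [lbdW]
  | [x] => simp [lbdW]
  | [y, x] => simp [lbdW, ph_single, phW]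
  | [z, y, x] =>
    have := hφ x y z
    simp only [lbdW, List.map_cons, List.map_nil, map_sub, ls_single, ph_single, phW, map_zero,
      sub_self, sub_zero]
    rw [← this]
    ring
  | a :: b :: c :: d :: w =>
    simp only [lbdW, List.map_cons, map_sub, ls_single, ph_single, phW, ph_lll, sub_self]

/-! ### Degenerate words -/

/-- Two equal neighbours. -/
def Adj : List Q → Prop
  | x :: y :: w => x = y ∨ Adj (y :: w)
  | _ => False

/-- No two equal neighbours. -/
def Alt : List O → Prop
  | a :: b :: c => a ≠ b ∧ Alt (b :: c)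
  | _ => True

lemma Alt.tail {o : O} {c : List O} (h : Alt (o :: c)) : Alt c := by
  cases c with
  | nil => trivial
  | cons a c => exact h.2

/-- The degenerate chains on reversed words. -/
noncomputable def DL (Q : Type) : Submodule ℤ (LC Q) :=
  Submodule.span ℤ {c | ∃ w : List Q, Adj w ∧ c = single w 1}

lemma mem_DL {w : List Q} (h : Adj w) : (single w 1 : LC Q) ∈ DL Q :=
  Submodule.subset_span ⟨w, h, rfl⟩

lemma Adj.cons {w : List Q} (h : Adj w) (x : Q) : Adj (x :: w) := by
  cases w with
  | nil => exact h.elim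
  | cons y w => exact Or.inr h

lemma ls_mem_DL (x : Q) {d : LC Q} (hd : d ∈ DL Q) : ls x d ∈ DL Q := by
  have : DL Q ≤ (DL Q).comap (ls x) := by
    rw [DL, Submodule.span_le]
    rintro _ ⟨w, hw, rfl⟩
    simp only [Submodule.comap_coe, Set.mem_preimage, SetLike.mem_coe, ls_single]
    exact mem_DL (hw.cons x)
  exact this hd

lemma lsls_mem_DL (x : Q) (v : LC Q) : ls x (ls x v) ∈ DL Q := by
  induction v using Finsupp.induction_linear with
  | zero => simp
  | add f g hf hg => rw [map_add, map_add]; exact Submodule.add_mem _ hf hg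
  | single w a =>
    have : (single w a : LC Q) = a • single w 1 := by simp
    rw [this, map_smul, map_smul, ls_single, ls_single]
    exact Submodule.smul_mem _ _ (mem_DL (Or.inl rfl))

lemma PW_mem_DL : ∀ (w : List Q), Adj w → ∀ c : List O, Alt c → PW ob w c ∈ DL Q
  | [], h, _, _ => h.elim
  | [_], h, _, _ => h.elim
  | x :: y :: w, h, [], _ => by rw [PW]; exact mem_DL h
  | x :: y :: w, h, o :: c, hc => by
    by_cases hy : Adj (y :: w)
    · rw [PW]
      exact Submodule.add_mem _ (Submodule.smul_mem _ _ (PW_mem_DL (y :: w) hy c hc.tail))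
        (Submodule.smul_mem _ _ (ls_mem_DL x (PW_mem_DL (y :: w) hy (o :: c) hc)))
    · have hxy : x = y := by
        rcases h with h | h
        · exact h
        · exact (hy h).elim
      subst hxy
      cases c with
      | nil =>
        have : PW ob (x :: x :: w) [o] = ls x (ls x (PW ob w [o])) := by
          simp only [PW, List.length_nil, zero_add, pow_one, map_add, map_smul, ls_single]
          module
        rw [this]
        exact lsls_mem_DL x _
      | cons o' c =>
        have hne : o ≠ o' := hc.1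
        have : PW ob (x :: x :: w) (o :: o' :: c) = ls x (ls x (PW ob w (o :: o' :: c))) := by
          have h0 : (if ob x = o then (1 : ℤ) else 0) * (if ob x = o' then (1 : ℤ) else 0) = 0 := by
            by_cases h1 : ob x = o
            · have h2 : ob x ≠ o' := fun h2 => hne (h1.symm.trans h2)
              simp [h2]
            · simp [h1]
          simp only [PW, List.length_cons, map_add, map_smul, smul_add, smul_smul, h0, zero_smul,
            zero_add, pow_succ]
          obtain h | h := neg_one_pow_eq_or ℤ c.length <;> simp only [h] <;> module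
        rw [this]
        exact lsls_mem_DL x _

lemma Pc_mem_DL {c : List O} (hc : Alt c) {d : LC Q} (hd : d ∈ DL Q) : Pc ob c d ∈ DL Q := by
  have : DL Q ≤ (DL Q).comap (Pc ob c) := by
    rw [DL, Submodule.span_le]
    rintro _ ⟨w, hw, rfl⟩
    simp only [Submodule.comap_coe, Set.mem_preimage, SetLike.mem_coe, Pc_single]
    exact PW_mem_DL ob w hw c hc
  exact this hd

lemma ph_DL {R : Type} [CommRing R] (φ : Q → Q → R) (hφ : ∀ x, φ x x = 0) {d : LC Q} (hd : d ∈ DL Q) :
    ph φ d = 0 := by
  have : DL Q ≤ LinearMap.ker (ph φ) := by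
    rw [DL, Submodule.span_le]
    rintro _ ⟨w, hw, rfl⟩
    simp only [SetLike.mem_coe, LinearMap.mem_ker, ph_single]
    match w, hw with
    | [y, x], h =>
      have : y = x := by
        rcases h with h | h
        · exact h
        · exact h.elim
      subst this
      exact hφ y
    | _ :: _ :: _ :: _, _ => rfl
  exact this hd

/-! ### From words of fixed length to reversed words -/

/-- Forget the length and reverse. -/
noncomputable def Lm {k : ℕ} : Ch Q k →ₗ[ℤ] LC Q :=
  Finsupp.lmapDomain ℤ ℤ (fun w => (List.ofFn w).reverse)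

lemma Lm_single {k : ℕ} (w : Fin k → Q) (a : ℤ) :
    Lm (single w a) = single (List.ofFn w).reverse a := by
  simp [Lm, Finsupp.lmapDomain_apply, Finsupp.mapDomain_single]

lemma rev_sn {k : ℕ} (w : Fin k → Q) (x : Q) :
    (List.ofFn (sn w x)).reverse = x :: (List.ofFn w).reverse := by
  rw [List.ofFn_succ', List.concat_eq_append, List.reverse_append]
  simp

lemma Lm_s {k : ℕ} (x : Q) (v : Ch Q k) : Lm (s x v) = ls x (Lm v) := by
  refine lin_ext (f := Lm.comp (s x)) (g := (ls x).comp Lm) (fun w => ?_) v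
  simp only [LinearMap.comp_apply, s_single, Lm_single, rev_sn, ls_single]

lemma Lm_mp {k : ℕ} (f : Q → Q') (v : Ch Q k) : Lm (mp f v) = lmp f (Lm v) := by
  refine lin_ext (f := Lm.comp (mp f)) (g := (lmp f).comp Lm) (fun w => ?_) v
  simp only [LinearMap.comp_apply, mp_single, Lm_single, lmp_single, List.map_reverse,
    List.map_ofFn]
  rfl

lemma Lm_bd (op : Q → Q → Q) : ∀ {k : ℕ} (v : Ch Q (k + 1)),
    Lm (bd op k v) = (-1 : ℤ) ^ (k + 1) • lbd op (Lm v)
  | 0, v => by
    rw [bd_zero, map_zero]
    refine s_ext (f := (0 : Ch Q 1 →ₗ[ℤ] LC Q))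
      (g := (-1 : ℤ) ^ (0 + 1) • (lbd op).comp Lm) (fun x u => ?_) v
    refine lin_ext (f := (0 : Ch Q 0 →ₗ[ℤ] LC Q))
      (g := ((-1 : ℤ) ^ (0 + 1) • (lbd op).comp Lm).comp (s x)) (fun w => ?_) u
    simp [Lm_single, lbd_single, lbdW]
  | (k + 1), v => by
    refine s_ext (f := Lm.comp (bd op (k + 1))) (g := (-1 : ℤ) ^ (k + 1 + 1) • (lbd op).comp Lm)
      (fun x u => ?_) v
    simp only [LinearMap.comp_apply, LinearMap.smul_apply, bd_s, Lm_s, lbd_ls, map_add, map_smul,
      map_sub, Lm_mp, Lm_bd op u, pow_succ]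
    obtain h | h := neg_one_pow_eq_or ℤ k <;> simp only [h] <;> module

lemma adj_of_degen : ∀ {k : ℕ} {w : Fin k → Q}, Degen w → Adj (List.ofFn w).reverse
  | 0, w, ⟨i, _, _, _⟩ => i.elim0
  | 1, w, ⟨i, j, hij, _⟩ => by
    have := j.isLt
    omega
  | (k + 2), w, h => by
    obtain ⟨v, x, rfl⟩ := exists_sn w
    obtain ⟨v', y, rfl⟩ := exists_sn v
    rw [degen_sn] at h
    rw [rev_sn]
    rcases h with h | h
    · exact (adj_of_degen h).cons x
    · rw [rev_sn]
      left
      simpa using h

lemma Lm_DD {k : ℕ} {d : Ch Q k} (hd : d ∈ DD Q k) : Lm d ∈ DL Q := by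
  have : DD Q k ≤ (DL Q).comap Lm := by
    rw [DD, Submodule.span_le]
    rintro _ ⟨w, hw, rfl⟩
    simp only [Submodule.comap_coe, Set.mem_preimage, SetLike.mem_coe, Lm_single]
    exact mem_DL (adj_of_degen hw)
  exact this hd

end Pool.Agent.Lib.MP_813e56_al
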