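import Pool.Agent.Lib.MP_813e56_al.TorClass
import Pool.Agent.Lib.MP_813e56_al.Main

/-!
Torsion of order three in the quandle homology of `𝔖_3^m` for odd `m`.
-/

open Finsupp

namespace Pool.Agent.Lib.MP_813e56_al

/-! ### Patterns -/

/-- The next orbit of a pattern. -/
def stp (o : Fin 3) (b : Bool) : Fin 3 := if b then o + 1 else o + 2

/-- The last orbit of a pattern. -/
def hdp : List Bool → Fin 3
  | [] => 0
  | b :: l => stp (hdp l) b

/-- The pattern of a list of choices. -/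
def pat : List Bool → List (Fin 3)
  | [] => [0]
  | b :: l => hdp (b :: l) :: pat l

lemma pat_head : ∀ l : List Bool, ∃ c, pat l = hdp l :: c
  | [] => ⟨[], rfl⟩
  | b :: l => ⟨pat l, rfl⟩

lemma pat_length : ∀ l : List Bool, (pat l).length = l.length + 1
  | [] => rfl
  | b :: l => by rw [pat, List.length_cons, List.length_cons, pat_length l]

lemma pat_E0 : ∀ l : List Bool, E0 (pat l)
  | [] => rfl
  | b :: l => by
    have h := pat_E0 l
    obtain ⟨c, hc⟩ := pat_head l
    rw [pat, E0, hc, List.getLast?_cons_cons, ← hc]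
    exact h

lemma stp_ne : ∀ (o : Fin 3) (b : Bool), stp o b ≠ o := by decide

lemma stp_inj : ∀ (o : Fin 3) (b b' : Bool), stp o b = stp o b' → b = b' := by decide

lemma pat_Alt : ∀ l : List Bool, Alt (pat l)
  | [] => trivial
  | b :: l => by
    have h := pat_Alt l
    obtain ⟨c, hc⟩ := pat_head l
    rw [pat, hc]
    rw [hc] at h
    exact ⟨stp_ne _ b, h⟩

lemma pat_inj : ∀ l l' : List Bool, pat l = pat l' → l = l'
  | [], [], _ => rfl
  | [], b :: l, h => by
    have := congrArg List.length h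
    rw [pat_length, pat_length] at this
    simp at this
  | b :: l, [], h => by
    have := congrArg List.length h
    rw [pat_length, pat_length] at this
    simp at this
  | b :: l, b' :: l', h => by
    rw [pat, pat, List.cons.injEq] at h
    have hl := pat_inj l l' h.2
    subst hl
    rw [stp_inj _ b b' h.1]

/-! ### An abstract lemma -/

lemma exists_inj {H ι : Type} [AddCommGroup H] [Fintype ι] [DecidableEq ι] (h : ι → H)
    (h3 : ∀ i, (3 : ℤ) • h i = 0) (F : ι → H →+ ZMod 3) (v : ι → ZMod 3) (hv : ∀ i, v i ≠ 0)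
    (hF : ∀ i j, F i (h j) = if i = j then v j else 0) :
    ∃ f : (ι → ZMod 3) →+ H, Function.Injective f := by
  let g : ι → (ZMod 3 →+ H) := fun i =>
    ZMod.lift 3 ⟨zmultiplesHom H (h i), by
      show (zmultiplesHom H (h i)) ((3 : ℕ) : ℤ) = 0
      simpa using h3 i⟩
  have hg : ∀ (i : ι) (n : ℤ), g i (n : ZMod 3) = n • h i := by
    intro i n
    show ZMod.lift 3 _ (n : ZMod 3) = _
    rw [ZMod.lift_coe]
    simp
  let f : (ι → ZMod 3) →+ H :=
    ∑ i, (g i).comp (Pi.evalAddMonoidHom (fun _ : ι => ZMod 3) i)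
  have hf : ∀ a, f a = ∑ i, g i (a i) := by
    intro a
    show (∑ i, (g i).comp (Pi.evalAddMonoidHom (fun _ : ι => ZMod 3) i)) a = _
    rw [AddMonoidHom.finsetSum_apply]
    rfl
  have hFg : ∀ i j (a : ZMod 3), F i (g j a) = a * (if i = j then v j else 0) := by
    intro i j a
    obtain ⟨n, rfl⟩ := ZMod.intCast_surjective a
    rw [hg, map_zsmul, hF, zsmul_eq_mul]
  refine ⟨f, ?_⟩
  rw [injective_iff_map_eq_zero]
  intro a ha
  funext i
  have h1 : F i (f a) = 0 := by rw [ha, map_zero]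
  rw [hf, map_sum] at h1
  have h2 : ∑ j, F i (g j (a j)) = a i * v i := by
    rw [Finset.sum_eq_single i]
    · rw [hFg, if_pos rfl]
    · intro j _ hj
      rw [hFg, if_neg (fun h => hj h.symm), mul_zero]
    · intro hi
      exact (hi (Finset.mem_univ i)).elim
  rw [h2] at h1
  have : Fact (Nat.Prime 3) := ⟨Nat.prime_three⟩
  rcases mul_eq_zero.mp h1 with h | h
  · exact h
  · exact (hv i h).elim

/-! ### Classes in quandle homology -/

theorem exists_tor {Q : Type} {op : Q → Q → Q} (h : IsQuandle op) (η : Bool) (e : Q ≃ Fin 6)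
    (he : ∀ a b, e (op a b) = opO η (e a) (e b)) {ι : Type} [Fintype ι] [DecidableEq ι]
    (n : ℕ) (c : ι → List (Fin 3)) (hc : Function.Injective c) (hn : ∀ i, (c i).length = n)
    (hE : ∀ i, c i = [] ∨ E0 (c i)) (hA : ∀ i, Alt (c i)) :
    ∃ f : (ι → ZMod 3) →+ HQ h (n + 1), Function.Injective f := by
  have he' : ∀ a b, e.symm (opO η a b) = op (e.symm a) (e.symm b) := by
    intro a b
    rw [Equiv.symm_apply_eq, he]
    simp
  have hex : ∀ i, ∃ (z : Ch (Fin 6) (n + 2)) (v : ZMod 3), v ≠ 0 ∧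
      bd (opO η) (n + 1) z = 0 ∧ (∃ u, bd (opO η) (n + 2) u = (3 : ℤ) • z) ∧
      (∀ d, (d = [] ∨ E0 d) → d.length = n → Fc η d (Lm z) = if d = c i then v else 0) := by
    intro i
    obtain ⟨z, v, hv, hb, hu, _, hF⟩ := exists_z η (c i) (hE i)
    have hl := hn i
    generalize hd : c i = d at z hb hu hF hl
    subst hl
    exact ⟨z, v, hv, hb, hu, hF⟩
  choose z v hv hb hu hF using hex
  -- the functionals
  let G : ι → CQ Q (n + 2) →ₗ[ℤ] ZMod 3 := fun i =>
    (DD Q (n + 2)).liftQ (((Fc η (c i)).comp Lm).comp (mp e)) (fun d hd => by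
      rw [LinearMap.mem_ker]
      show ph (phi η) (Pc ob3 (c i) (Lm (mp e d))) = 0
      exact ph_DL _ (phi_self η) (Pc_mem_DL ob3 (hA i) (Lm_DD (mp_DD e hd))))
  have hG : ∀ i (w : Ch Q (n + 2)), G i (Submodule.Quotient.mk w) = Fc η (c i) (Lm (mp e w)) :=
    fun i w => rfl
  have hGd : ∀ i (w : Ch Q (n + 3)), G i (Submodule.Quotient.mk (bd op (n + 2) w)) = 0 := by
    intro i w
    rw [hG, mp_bd op (op' := opO η) e he, Lm_bd, map_smul, Fc_lbd, smul_zero]
  let G' : ι → HQ h (n + 1) →ₗ[ℤ] ZMod 3 := fun i =>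
    Submodule.liftQ _ ((G i).comp (LinearMap.ker (dQ h (n + 1))).subtype) (by
      rintro ⟨w, hw⟩ hr
      rw [Submodule.submoduleOf, Submodule.mem_comap] at hr
      obtain ⟨u, hu⟩ := hr
      obtain ⟨u, rfl⟩ := Submodule.Quotient.mk_surjective _ u
      rw [LinearMap.mem_ker]
      show G i w = 0
      have : w = Submodule.Quotient.mk (bd op (n + 2) u) := by
        rw [dQ, Submodule.mapQ_apply] at hu
        exact hu.symm
      rw [this, hGd])
  have hzb : ∀ i, bd op (n + 1) (mp e.symm (z i)) = 0 := by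
    intro i
    rw [← mp_bd (opO η) (op' := op) e.symm he', hb, map_zero]
  have hker : ∀ i, (Submodule.Quotient.mk (mp e.symm (z i)) : CQ Q (n + 2)) ∈
      LinearMap.ker (dQ h (n + 1)) := by
    intro i
    rw [LinearMap.mem_ker, dQ, Submodule.mapQ_apply, hzb, Submodule.Quotient.mk_zero]
  let cl : ι → HQ h (n + 1) := fun i =>
    Submodule.Quotient.mk ⟨Submodule.Quotient.mk (mp e.symm (z i)), hker i⟩
  have hcl3 : ∀ i, (3 : ℤ) • cl i = 0 := by
    intro i
    obtain ⟨u, hu⟩ := hu i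
    show (3 : ℤ) • (Submodule.Quotient.mk _ : HQ h (n + 1)) = 0
    rw [← Submodule.Quotient.mk_smul, Submodule.Quotient.mk_eq_zero, Submodule.submoduleOf,
      Submodule.mem_comap]
    refine ⟨Submodule.Quotient.mk (mp e.symm u), ?_⟩
    rw [dQ, Submodule.mapQ_apply, ← mp_bd (opO η) (op' := op) e.symm he', hu, map_smul]
    rfl
  have hGc : ∀ i j, G' i (cl j) = if i = j then v j else 0 := by
    intro i j
    have h1 : G' i (cl j) = Fc η (c i) (Lm (mp e (mp e.symm (z j)))) := rfl
    have h2 : mp e (mp e.symm (z j)) = z j := by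
      rw [mp_mp]
      have : (fun x => e (e.symm x)) = fun x => x := funext (fun x => by simp)
      rw [this, mp_id]
    rw [h1, h2, hF j (c i) (hE i) (hn i)]
    by_cases hij : i = j
    · rw [if_pos hij, if_pos (by rw [hij])]
    · rw [if_neg hij, if_neg (fun hh => hij (hc hh))]
  exact exists_inj cl hcl3 (fun i => (G' i).toAddMonoidHom) v hv hGc

/-! ### The symmetric group of degree three -/

set_option maxRecDepth 20000 in
lemma lett4_one : ∀ i j : Fin 6,
    (lett4 j)⁻¹ * lett4 i * lett4 j = lett4 (opO true i j) := by decide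

set_option maxRecDepth 20000 in
lemma lett4_three : ∀ i j : Fin 6,
    (lett4 j * lett4 j * lett4 j)⁻¹ * lett4 i * (lett4 j * lett4 j * lett4 j) =
      lett4 (opO false i j) := by decide

set_option maxRecDepth 20000 in
lemma lett2_five : ∀ i j : Fin 6,
    (lett2 j * lett2 j * lett2 j * lett2 j * lett2 j)⁻¹ * lett2 i *
      (lett2 j * lett2 j * lett2 j * lett2 j * lett2 j) = lett2 (opO true i j) := by decide

theorem exists_equiv_odd (m : ℤ) (h2 : ¬ 2 ∣ m) :
    ∃ (η : Bool) (e : Equiv.Perm (Fin 3) ≃ Fin 6),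
      ∀ a b, e (symOp 3 m a b) = opO η (e a) (e b) := by
  have hm : m % 6 = 1 ∨ m % 6 = 3 ∨ m % 6 = 5 := by omega
  have hs4 : ∀ l, (Equiv.ofBijective _ lett4_bij).symm (lett4 l) = l := fun l =>
    Equiv.ofBijective_symm_apply_apply _ lett4_bij l
  have hs2 : ∀ l, (Equiv.ofBijective _ lett2_bij).symm (lett2 l) = l := fun l =>
    Equiv.ofBijective_symm_apply_apply _ lett2_bij l
  rcases hm with hm | hm | hm
  · refine ⟨true, (Equiv.ofBijective _ lett4_bij).symm, fun a b => ?_⟩
    obtain ⟨i, rfl⟩ := lett4_bij.2 a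
    obtain ⟨j, rfl⟩ := lett4_bij.2 b
    rw [Equiv.symm_apply_eq, Equiv.ofBijective_apply, hs4, hs4, ← lett4_one, symOp, zpow_neg,
      zpow_mod_six, hm, zpow_one]
  · refine ⟨false, (Equiv.ofBijective _ lett4_bij).symm, fun a b => ?_⟩
    obtain ⟨i, rfl⟩ := lett4_bij.2 a
    obtain ⟨j, rfl⟩ := lett4_bij.2 b
    rw [Equiv.symm_apply_eq, Equiv.ofBijective_apply, hs4, hs4, ← lett4_three, symOp, zpow_neg,
      zpow_mod_six, hm]
    congr 1
  · refine ⟨true, (Equiv.ofBijective _ lett2_bij).symm, fun a b => ?_⟩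
    obtain ⟨i, rfl⟩ := lett2_bij.2 a
    obtain ⟨j, rfl⟩ := lett2_bij.2 b
    rw [Equiv.symm_apply_eq, Equiv.ofBijective_apply, hs2, hs2, ← lett2_five, symOp, zpow_neg,
      zpow_mod_six, hm]
    congr 1

theorem torsion_odd (m : ℤ) (hm : ¬ 2 ∣ m) (k : ℕ) (hk : 1 ≤ k) :
    ∃ f : (Fin (2 ^ (k - 2)) → ZMod 3) →+ HQ (symOp_isQuandle 3 m) k, Function.Injective f := by
  obtain ⟨η, e, he⟩ := exists_equiv_odd m hm
  obtain ⟨n, rfl⟩ : ∃ n, k = n + 1 := ⟨k - 1, by omega⟩
  cases n with
  | zero =>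
    exact exists_tor (symOp_isQuandle 3 m) η e he (ι := Fin (2 ^ (0 + 1 - 2))) 0
      (fun _ => []) (fun i j _ => by
        have hi := i.isLt
        have hj := j.isLt
        ext
        simp at hi hj
        omega) (fun _ => rfl) (fun _ => Or.inl rfl) (fun _ => trivial)
  | succ j =>
    have hcard : Fintype.card (Fin j → Bool) = 2 ^ (j + 1 + 1 - 2) := by
      rw [Fintype.card_fun, Fintype.card_bool, Fintype.card_fin]
      congr 1
    let E : (Fin j → Bool) ≃ Fin (2 ^ (j + 1 + 1 - 2)) := Fintype.equivFinOfCardEq hcard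
    exact exists_tor (symOp_isQuandle 3 m) η e he (ι := Fin (2 ^ (j + 1 + 1 - 2))) (j + 1)
      (fun i => pat (List.ofFn (E.symm i)))
      (fun i i' hi => E.symm.injective (List.ofFn_injective (pat_inj _ _ hi)))
      (fun i => by rw [pat_length, List.length_ofFn])
      (fun i => Or.inr (pat_E0 _)) (fun i => pat_Alt _)

end Pool.Agent.Lib.MP_813e56_al
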